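import Pool.Agent.Helper430.NP.Defs

set_option autoImplicit false
open MeasureTheory Set Filter Topology Complex Metric

namespace Pool.Agent.Helper430.NP

theorem theta0_mem {K : Set ℂ} {x₀ : ℂ} {μ : Measure ℂ} (hK : IsCompact K)
    (h : Rep K x₀ μ) : (fun ζ : ℂ => ζ - x₀) ∈ Th K μ := by
  have hp := h.prob
  refine ⟨?_, ?_⟩
  · obtain ⟨R, hR⟩ := hK.isBounded.subset_closedBall (0:ℂ)
    refine Integrable.mono' (integrable_const (R + ‖x₀‖)) (by fun_prop) ?_
    have : ∀ᵐ ζ ∂μ, ζ ∈ K := by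
      rw [ae_iff]; exact h.supp
    filter_upwards [this] with ζ hζ
    have h1 := hR hζ
    rw [mem_closedBall, dist_zero_right] at h1
    exact (norm_sub_le _ _).trans (by linarith)
  · intro p q hq
    have h1 := h.rep (p * (Polynomial.X - Polynomial.C x₀)) q hq
    simp only [Polynomial.eval_mul, Polynomial.eval_sub, Polynomial.eval_X, Polynomial.eval_C,
      sub_self, mul_zero, zero_div] at h1
    rw [← h1]
    congr 1
    ext ζ
    ring

theorem good_theta0 {K : Set ℂ} {x₀ : ℂ} {μ : Measure ℂ}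
    (h : Rep K x₀ μ) : good μ (fun ζ : ℂ => ζ - x₀) x₀ ∧ CT μ (fun ζ : ℂ => ζ - x₀) x₀ = 1 := by
  have hp := h.prob
  have hne : ∀ᵐ ζ ∂μ, ζ ≠ x₀ := by
    rw [ae_iff]; simpa using h.atom
  have hae : (fun ζ : ℂ => (ζ - x₀) / (ζ - x₀)) =ᵐ[μ] fun _ => 1 := by
    filter_upwards [hne] with ζ hζ
    exact div_self (sub_ne_zero.mpr hζ)
  refine ⟨⟨h.atom, ?_⟩, ?_⟩
  · exact (integrable_congr hae).mpr (integrable_const _)
  · unfold CT
    rw [integral_congr_ae hae]
    simp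

theorem rat_integrable {K : Set ℂ} {μ : Measure ℂ} [IsFiniteMeasure μ] (hK : IsCompact K)
    (hsupp : μ Kᶜ = 0) (p q : Polynomial ℂ) (hq : ∀ z ∈ K, q.eval z ≠ 0) :
    Integrable (fun ζ => p.eval ζ / q.eval ζ) μ := by
  have hc : ContinuousOn (fun ζ : ℂ => p.eval ζ / q.eval ζ) K :=
    p.continuous.continuousOn.div q.continuous.continuousOn hq
  obtain ⟨B, hB⟩ := hK.exists_bound_of_continuousOn hc
  refine Integrable.mono' (integrable_const B) ?_ ?_
  · exact (p.continuous.measurable.div q.continuous.measurable).aestronglyMeasurable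
  · have : ∀ᵐ ζ ∂μ, ζ ∈ K := by
      rw [ae_iff]; exact hsupp
    filter_upwards [this] with ζ hζ
    exact hB ζ hζ

theorem ana (hRep : Stmt_Rep) (hNull : Stmt_Null) (hClos : Stmt_Clos) (hBase : Stmt_Base)
    (hEncl : Stmt_Encl) : Stmt_ANA := by
  intro K x₀ hK hx hnp
  obtain ⟨μ, hμ⟩ := hRep K x₀ hK hx hnp
  set S : ℝ → Set ℂ := fun δ => ⋃₀ {Γ : Set ℂ | Adm K μ Γ ∧ IsPreconnected Γ ∧ δ ≤ Metric.diam Γ}
    with hS
  have hlim : ∀ δ p, p ∈ closure (S δ) → LimAdm K μ δ p := by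
    intro δ p hp ε hε
    rw [Metric.mem_closure_iff] at hp
    obtain ⟨w, hw, hd⟩ := hp ε hε
    obtain ⟨Γ, ⟨h1, h2, h3⟩, h4⟩ := hw
    refine ⟨Γ, w, h1, h2, h3, h4, ?_⟩
    rw [← dist_eq_norm, dist_comm]
    exact hd
  have hadm : ∀ T δ, 0 < δ → IsCompact T → T ⊆ closure (S δ) → Adm K μ T := by
    intro T δ hδ hT hsub
    exact hClos K x₀ μ hK hx hμ δ T hδ hT fun p hp => hlim δ p (hsub hp)
  have hx0 : ∀ δ > 0, x₀ ∉ closure (S δ) := by
    intro δ hδ hmem
    have h1 := hNull K x₀ μ hK hx hμ δ x₀ hδ (hlim δ x₀ hmem) _ (theta0_mem hK hμ)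
      (good_theta0 hμ).1
    rw [(good_theta0 hμ).2] at h1
    exact one_ne_zero h1
  refine ⟨fun δ => closure (S δ), ?_, ?_, ?_, ?_, hx0, ?_⟩
  · intro δ _; exact isClosed_closure
  · intro δ δ' _ h
    refine closure_mono ?_
    rintro z ⟨Γ, ⟨h1, h2, h3⟩, h4⟩
    exact ⟨Γ, ⟨h1, h2, h.trans h3⟩, h4⟩
  · intro T δ hδ hT hTc hTK hd
    have hA := hBase K x₀ μ hK hx hμ T hT hTK
    exact fun z hz => subset_closure ⟨T, ⟨hA, hTc, hd⟩, hz⟩
  · intro T δ δ' hδ hδ' hT hTc hsub hd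
    have hA := hadm T δ' hδ' hT hsub
    exact fun z hz => subset_closure ⟨T, ⟨hA, hTc, hd⟩, hz⟩
  · obtain ⟨δ₀, h0, h1⟩ := hEncl K x₀ μ hK hx hμ
    refine ⟨δ₀, h0, ?_⟩
    intro T δ' hδ' hT hTc hsub hd
    exact h1 T (hadm T δ' hδ' hT hsub) hTc (fun h => hx0 δ' hδ' (hsub h)) hd

theorem rep (h1 : Stmt_RepHB) (h2 : Stmt_Bishop) : Stmt_Rep := by
  intro K x₀ hK hx hnp
  by_contra hno
  refine h2 K x₀ hK hx ?_ hnp
  intro v ε hv hε
  by_contra hcon
  push Not at hcon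
  obtain ⟨μ, hprob, hsupp, hrep, hint⟩ := h1 K x₀ hK hx v (v x₀ + ε) hv (fun p q hq hle => hcon p q hq hle)
  refine hno ?_
  -- the mass at x₀ is less than one
  have hm1 : μ {x₀} ≤ 1 := prob_le_one
  have hmlt : μ {x₀} < 1 := by
    rcases hm1.lt_or_eq with h | h
    · exact h
    exfalso
    have hc : μ {x₀}ᶜ = 0 := by
      rw [prob_compl_eq_zero_iff (measurableSet_singleton x₀)]; exact h
    have hae : ∀ᵐ ζ ∂μ, ζ = x₀ := by
      rw [ae_iff]; exact hc
    have h3 : ∫ ζ, v ζ ∂μ = v x₀ := by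
      have : v =ᵐ[μ] fun _ => v x₀ := by
        filter_upwards [hae] with ζ hζ; rw [hζ]
      rw [integral_congr_ae this]; simp
    rw [h3] at hint
    linarith
  set m : ENNReal := μ {x₀}ᶜ with hm
  have hmc : μ {x₀} + m = 1 := by
    rw [hm, measure_add_measure_compl (measurableSet_singleton x₀)]; exact hprob.measure_univ
  have hm0 : m ≠ 0 := by
    intro h; rw [h, add_zero] at hmc; exact hmlt.ne hmc
  have hmt : m ≠ ⊤ := measure_ne_top _ _
  refine ⟨m⁻¹ • μ.restrict {x₀}ᶜ, ⟨?_⟩, ?_, ?_, ?_⟩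
  · rw [Measure.smul_apply, Measure.restrict_apply_univ, smul_eq_mul]
    exact ENNReal.inv_mul_cancel hm0 hmt
  · rw [Measure.smul_apply, smul_eq_mul]
    have : μ.restrict {x₀}ᶜ Kᶜ = 0 := by
      refine le_antisymm ((Measure.restrict_apply_le _ _).trans hsupp.le) bot_le
    rw [this, mul_zero]
  · rw [Measure.smul_apply, smul_eq_mul, Measure.restrict_apply (measurableSet_singleton x₀)]
    simp
  · intro p q hq
    rw [integral_smul_measure]
    have hInt : Integrable (fun ζ => p.eval ζ / q.eval ζ) μ := rat_integrable hK hsupp p q hq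
    have h4 := integral_add_compl (measurableSet_singleton x₀) hInt
    rw [hrep p q hq, integral_singleton] at h4
    have h5 : ∫ ζ in {x₀}ᶜ, p.eval ζ / q.eval ζ ∂μ = (m.toReal : ℂ) * (p.eval x₀ / q.eval x₀) := by
      have h6 : (μ.real {x₀} : ℝ) + m.toReal = 1 := by
        have := congrArg ENNReal.toReal hmc
        rw [ENNReal.toReal_add (measure_ne_top _ _) hmt] at this
        simpa [Measure.real] using this
      have h7 : ((μ.real {x₀} : ℝ) : ℂ) + (m.toReal : ℂ) = 1 := by exact_mod_cast h6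
      rw [Complex.real_smul] at h4
      linear_combination h4 - (p.eval x₀ / q.eval x₀) * h7
    rw [h5, ENNReal.toReal_inv, Complex.real_smul]
    have h8 : (m.toReal : ℂ) ≠ 0 := by
      exact_mod_cast (ENNReal.toReal_pos hm0 hmt).ne'
    push_cast
    field_simp

end Pool.Agent.Helper430.NP
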