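import Pool.Agent.Helper430.NP.Defs

set_option autoImplicit false
open MeasureTheory Set Filter Topology Complex Metric

namespace Pool.Agent.Helper430.NP
/-- uniform limits of rational functions on K -/
def bishop_RK (K : Set ℂ) (f : ℂ → ℂ) : Prop :=
  ∀ ε : ℝ, 0 < ε → ∃ p q : Polynomial ℂ,
      (∀ z ∈ K, q.eval z ≠ 0) ∧ ∀ z ∈ K, ‖f z - p.eval z / q.eval z‖ < ε

lemma bishop_lim {K : Set ℂ} {f : ℂ → ℂ}
    (h : ∀ ε : ℝ, 0 < ε → ∃ g, bishop_RK K g ∧ ∀ z ∈ K, ‖f z - g z‖ < ε) : bishop_RK K f := by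
  intro ε hε
  obtain ⟨g, hg, hfg⟩ := h (ε / 2) (by positivity)
  obtain ⟨p, q, hq, hpq⟩ := hg (ε / 2) (by positivity)
  refine ⟨p, q, hq, fun z hz => ?_⟩
  calc ‖f z - p.eval z / q.eval z‖ = ‖(f z - g z) + (g z - p.eval z / q.eval z)‖ := by ring_nf
    _ ≤ ‖f z - g z‖ + ‖g z - p.eval z / q.eval z‖ := norm_add_le _ _
    _ < ε / 2 + ε / 2 := add_lt_add (hfg z hz) (hpq z hz)
    _ = ε := by ring

lemma bishop_rat {K : Set ℂ} (p q : Polynomial ℂ) (hq : ∀ z ∈ K, q.eval z ≠ 0) :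
    bishop_RK K (fun z => p.eval z / q.eval z) := by
  intro ε hε
  refine ⟨p, q, hq, fun z _ => ?_⟩
  simpa using hε

lemma bishop_add {K : Set ℂ} {f g : ℂ → ℂ} (hf : bishop_RK K f) (hg : bishop_RK K g) :
    bishop_RK K (fun z => f z + g z) := by
  intro ε hε
  obtain ⟨p, q, hq, hpq⟩ := hf (ε / 2) (by positivity)
  obtain ⟨p', q', hq', hpq'⟩ := hg (ε / 2) (by positivity)
  refine ⟨p * q' + p' * q, q * q', fun z hz => ?_, fun z hz => ?_⟩
  · simp only [Polynomial.eval_mul]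
    exact mul_ne_zero (hq z hz) (hq' z hz)
  · have e : (p * q' + p' * q).eval z / (q * q').eval z
        = p.eval z / q.eval z + p'.eval z / q'.eval z := by
      simp only [Polynomial.eval_mul, Polynomial.eval_add]
      have := hq z hz
      have := hq' z hz
      field_simp
    rw [e]
    calc ‖f z + g z - (p.eval z / q.eval z + p'.eval z / q'.eval z)‖
        = ‖(f z - p.eval z / q.eval z) + (g z - p'.eval z / q'.eval z)‖ := by ring_nf
      _ ≤ ‖f z - p.eval z / q.eval z‖ + ‖g z - p'.eval z / q'.eval z‖ := norm_add_le _ _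
      _ < ε / 2 + ε / 2 := add_lt_add (hpq z hz) (hpq' z hz)
      _ = ε := by ring

lemma bishop_smul {K : Set ℂ} {f : ℂ → ℂ} (c : ℂ) (hf : bishop_RK K f) :
    bishop_RK K (fun z => c * f z) := by
  intro ε hε
  obtain ⟨p, q, hq, hpq⟩ := hf (ε / (‖c‖ + 1)) (by positivity)
  refine ⟨Polynomial.C c * p, q, hq, fun z hz => ?_⟩
  have e : (Polynomial.C c * p).eval z / q.eval z = c * (p.eval z / q.eval z) := by
    simp only [Polynomial.eval_mul, Polynomial.eval_C]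
    ring
  rw [e, ← mul_sub, norm_mul]
  have h1 := hpq z hz
  have h2 : 0 < ‖c‖ + 1 := by positivity
  rw [lt_div_iff₀ h2] at h1
  nlinarith [norm_nonneg (f z - p.eval z / q.eval z)]

lemma bishop_sum {K : Set ℂ} (k : ℕ → ℂ → ℂ) (c : ℕ → ℂ) (hk : ∀ n, bishop_RK K (k n)) (N : ℕ) :
    bishop_RK K (fun z => ∑ n ∈ Finset.range N, c n * k n z) := by
  induction N with
  | zero =>
    intro ε hε
    refine ⟨0, 1, fun z _ => by simp, fun z _ => by simpa using hε⟩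
  | succ N ih =>
    have := bishop_add ih (bishop_smul (c N) (hk N))
    simpa only [Finset.sum_range_succ] using this

lemma bishop_cont {K : Set ℂ} {f : ℂ → ℂ} (hf : bishop_RK K f) : ContinuousOn f K := by
  apply continuousOn_of_uniform_approx_of_continuousOn
  intro u hu
  obtain ⟨ε, hε, hεu⟩ := Metric.mem_uniformity_dist.mp hu
  obtain ⟨p, q, hq, hpq⟩ := hf ε hε
  refine ⟨fun z => p.eval z / q.eval z, ?_, ?_⟩
  · exact (p.continuous.continuousOn).div q.continuous.continuousOn hq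
  · intro y hy
    apply hεu
    rw [dist_eq_norm]
    exact hpq y hy

lemma bishop_exp {K : Set ℂ} (hK : IsCompact K) (p q : Polynomial ℂ)
    (hq : ∀ z ∈ K, q.eval z ≠ 0) :
    bishop_RK K (fun z => Complex.exp (p.eval z / q.eval z)) := by
  obtain ⟨M, hM⟩ : ∃ M : ℝ, ∀ z ∈ K, ‖p.eval z / q.eval z‖ ≤ M := by
    have hc : ContinuousOn (fun z => p.eval z / q.eval z) K :=
      (p.continuous.continuousOn).div q.continuous.continuousOn hq
    obtain ⟨M, hM⟩ := hK.exists_bound_of_continuousOn hc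
    exact ⟨M, hM⟩
  apply bishop_lim
  intro ε hε
  have h1 : Tendsto (fun n : ℕ => (max M 0) ^ n / (n.factorial : ℝ) * 2) atTop (𝓝 (0 * 2)) :=
    (FloorSemiring.tendsto_pow_div_factorial_atTop (max M 0)).mul_const 2
  rw [zero_mul] at h1
  have h2 : ∀ᶠ n : ℕ in atTop, (max M 0) ^ n / (n.factorial : ℝ) * 2 < ε :=
    h1.eventually (gt_mem_nhds hε)
  have h3 : ∀ᶠ n : ℕ in atTop, 2 * (max M 0) ≤ (n : ℝ) := by
    exact (tendsto_natCast_atTop_atTop (R := ℝ)).eventually_ge_atTop _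
  obtain ⟨n, hn1, hn2⟩ := (h2.and h3).exists
  refine ⟨fun z => ∑ m ∈ Finset.range n, ((m.factorial : ℂ)⁻¹) * ((p ^ m).eval z / (q ^ m).eval z),
    bishop_sum _ _ (fun m => ?_) n, fun z hz => ?_⟩
  · apply bishop_rat
    intro z hz
    rw [Polynomial.eval_pow]
    exact pow_ne_zero _ (hq z hz)
  · have hx : ‖p.eval z / q.eval z‖ / (n.succ : ℝ) ≤ 1 / 2 := by
      have a1 := hM z hz
      have a2 : M ≤ max M 0 := le_max_left _ _
      rw [div_le_iff₀ (by positivity)]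
      push_cast
      linarith
    have hb := Complex.exp_bound' hx
    have e : ∑ m ∈ Finset.range n, ((m.factorial : ℂ)⁻¹) * ((p ^ m).eval z / (q ^ m).eval z)
        = ∑ m ∈ Finset.range n, (p.eval z / q.eval z) ^ m / (m.factorial : ℂ) := by
      apply Finset.sum_congr rfl
      intro m _
      rw [Polynomial.eval_pow, Polynomial.eval_pow, div_pow]
      ring
    show ‖Complex.exp (p.eval z / q.eval z) - ∑ m ∈ Finset.range n,
      ((m.factorial : ℂ)⁻¹) * ((p ^ m).eval z / (q ^ m).eval z)‖ < ε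
    rw [e]
    refine lt_of_le_of_lt hb (lt_of_le_of_lt ?_ hn1)
    have a3 : ‖p.eval z / q.eval z‖ ≤ max M 0 := (hM z hz).trans (le_max_left _ _)
    gcongr

lemma bishop_star {K : Set ℂ} {x₀ : ℂ} (hK : IsCompact K)
    (H : ∀ (v : ℂ → ℝ) (ε : ℝ), Continuous v → 0 < ε → ∃ p q : Polynomial ℂ,
      (∀ z ∈ K, q.eval z ≠ 0) ∧
      (∀ z ∈ K, v z ≤ (p.eval z / q.eval z).re) ∧ (p.eval x₀ / q.eval x₀).re < v x₀ + ε)
    (ρ η : ℝ) (hρ : 0 < ρ) (hη : 0 < η) (hx : x₀ ∈ K) :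
    ∃ k : ℂ → ℂ, bishop_RK K k ∧ k x₀ = 1 ∧ (∀ z ∈ K, ‖k z‖ ≤ 1 + η) ∧
      ∀ z ∈ K, ρ ≤ ‖z - x₀‖ → ‖k z‖ ≤ 1 / 4 := by
  set ε := Real.log (1 + η) with hεdef
  have hε : 0 < ε := Real.log_pos (by linarith)
  have hexpε : Real.exp ε = 1 + η := Real.exp_log (by linarith)
  set N : ℝ := ε + Real.log 4 with hN
  have hlog4 : 0 < Real.log 4 := Real.log_pos (by norm_num)
  have hNpos : 0 < N := by positivity
  obtain ⟨p, q, hq, hv, hx0⟩ := H (fun z => N / ρ * ‖z - x₀‖) ε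
    (continuous_const.mul (continuous_id.sub continuous_const).norm) hε
  simp only [sub_self, norm_zero, mul_zero, zero_add] at hx0
  set c := p.eval x₀ / q.eval x₀ with hc
  refine ⟨fun z => Complex.exp ((Polynomial.C c * q - p).eval z / q.eval z),
    bishop_exp hK _ q hq, ?_, ?_, ?_⟩
  · simp only [Polynomial.eval_sub, Polynomial.eval_mul, Polynomial.eval_C]
    rw [hc, div_mul_cancel₀ _ (hq x₀ hx), sub_self, zero_div, Complex.exp_zero]
  · intro z hz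
    have e : (Polynomial.C c * q - p).eval z / q.eval z = c - p.eval z / q.eval z := by
      simp only [Polynomial.eval_sub, Polynomial.eval_mul, Polynomial.eval_C]
      have := hq z hz
      field_simp
    show ‖Complex.exp ((Polynomial.C c * q - p).eval z / q.eval z)‖ ≤ 1 + η
    rw [e, Complex.norm_exp, Complex.sub_re, ← hexpε]
    apply Real.exp_le_exp.mpr
    have h1 := hv z hz
    have h2 : 0 ≤ N / ρ * ‖z - x₀‖ := by positivity
    linarith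
  · intro z hz hzρ
    have e : (Polynomial.C c * q - p).eval z / q.eval z = c - p.eval z / q.eval z := by
      simp only [Polynomial.eval_sub, Polynomial.eval_mul, Polynomial.eval_C]
      have := hq z hz
      field_simp
    show ‖Complex.exp ((Polynomial.C c * q - p).eval z / q.eval z)‖ ≤ 1 / 4
    rw [e, Complex.norm_exp, Complex.sub_re]
    have h1 := hv z hz
    have h2 : N ≤ N / ρ * ‖z - x₀‖ := by
      calc N = N / ρ * ρ := by field_simp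
        _ ≤ N / ρ * ‖z - x₀‖ := by gcongr
    have h3 : Real.exp (-Real.log 4) = 1 / 4 := by
      rw [Real.exp_neg, Real.exp_log (by norm_num)]; norm_num
    rw [← h3]
    apply Real.exp_le_exp.mpr
    linarith

theorem job_bishop  : Stmt_Bishop := by
  intro K x₀ hK hx H
  rw [NonPeak, not_not]
  -- the sequence
  let P : (ℂ → ℂ) × ℝ × ℝ → Prop := fun t =>
    bishop_RK K t.1 ∧ t.1 x₀ = 1 ∧ 0 < t.2.1 ∧ t.2.1 ≤ 1 ∧ 0 < t.2.2 ∧ t.2.2 ≤ 1 / 8 ∧
    (∀ z ∈ K, ‖t.1 z‖ ≤ 1 + t.2.2) ∧ (∀ z ∈ K, t.2.1 ≤ ‖z - x₀‖ → ‖t.1 z‖ ≤ 1 / 4)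
  let r : (ℂ → ℂ) × ℝ × ℝ → (ℂ → ℂ) × ℝ × ℝ → Prop := fun s t =>
    t.2.2 ≤ s.2.2 / 2 ∧ t.2.1 ≤ s.2.1 / 2 ∧
      ∀ z ∈ K, ‖z - x₀‖ < t.2.1 → ‖s.1 z‖ ≤ 1 + t.2.2
  obtain ⟨F, hFP, hFr⟩ : ∃ F : ℕ → (ℂ → ℂ) × ℝ × ℝ, (∀ n, P (F n)) ∧
      ∀ m n, m < n → r (F m) (F n) := by
    apply exists_seq_of_forall_finset_exists P r
    intro s hs
    obtain ⟨c, hc1, hc2, hc3⟩ : ∃ c : ℝ, 0 < c ∧ c ≤ 1 / 8 ∧ ∀ x ∈ s, c ≤ x.2.2 / 2 := by
      have h1 : ∀ᶠ c : ℝ in 𝓝[>] 0, c ≤ 1 / 8 := by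
        have : ∀ᶠ c : ℝ in 𝓝 0, c < 1 / 8 := gt_mem_nhds (by norm_num)
        filter_upwards [this.filter_mono nhdsWithin_le_nhds] with c hc using hc.le
      have h2 : ∀ᶠ c : ℝ in 𝓝[>] 0, ∀ x ∈ s, c ≤ x.2.2 / 2 := by
        rw [Finset.eventually_all]
        intro x hxs
        have hpos : 0 < x.2.2 / 2 := by
          have := (hs x hxs).2.2.2.2.1
          positivity
        have : ∀ᶠ c : ℝ in 𝓝 0, c < x.2.2 / 2 := gt_mem_nhds hpos
        filter_upwards [this.filter_mono nhdsWithin_le_nhds] with c hc using hc.le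
      obtain ⟨c, hc0, hc1, hc2⟩ := (eventually_mem_nhdsWithin.and (h1.and h2)).exists
      exact ⟨c, hc0, hc1, hc2⟩
    obtain ⟨ρ, hρ1, hρ2, hρ3⟩ : ∃ ρ : ℝ, 0 < ρ ∧ ρ ≤ 1 ∧ ∀ x ∈ s, ρ ≤ x.2.1 / 2 ∧
        ∀ z ∈ K, ‖z - x₀‖ < ρ → ‖x.1 z‖ ≤ 1 + c := by
      have h1 : ∀ᶠ c : ℝ in 𝓝[>] 0, c ≤ 1 := by
        have : ∀ᶠ c : ℝ in 𝓝 0, c < 1 := gt_mem_nhds (by norm_num)
        filter_upwards [this.filter_mono nhdsWithin_le_nhds] with c hc using hc.le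
      have h2 : ∀ᶠ ρ : ℝ in 𝓝[>] 0, ∀ x ∈ s, ρ ≤ x.2.1 / 2 ∧
          ∀ z ∈ K, ‖z - x₀‖ < ρ → ‖x.1 z‖ ≤ 1 + c := by
        rw [Finset.eventually_all]
        intro x hxs
        have hpos : 0 < x.2.1 / 2 := by
          have := (hs x hxs).2.2.1
          positivity
        have a1 : ∀ᶠ c : ℝ in 𝓝 0, c < x.2.1 / 2 := gt_mem_nhds hpos
        have hcont := (bishop_cont (hs x hxs).1) x₀ hx
        obtain ⟨δ, hδ, hδ2⟩ := Metric.continuousWithinAt_iff.mp hcont c hc1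
        have a2 : ∀ᶠ c : ℝ in 𝓝 0, c < δ := gt_mem_nhds hδ
        filter_upwards [a1.filter_mono nhdsWithin_le_nhds, a2.filter_mono nhdsWithin_le_nhds]
          with ρ h1 h2
        refine ⟨h1.le, fun z hz hzρ => ?_⟩
        have := hδ2 hz (by rw [dist_eq_norm]; linarith)
        rw [dist_eq_norm, (hs x hxs).2.1] at this
        calc ‖x.1 z‖ = ‖1 + (x.1 z - 1)‖ := by ring_nf
          _ ≤ ‖(1 : ℂ)‖ + ‖x.1 z - 1‖ := norm_add_le _ _
          _ ≤ 1 + c := by rw [norm_one]; linarith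
      obtain ⟨c, hc0, hc1, hc2⟩ := (eventually_mem_nhdsWithin.and (h1.and h2)).exists
      exact ⟨c, hc0, hc1, hc2⟩
    obtain ⟨k, hk1, hk2, hk3, hk4⟩ := bishop_star hK H ρ c hρ1 hc1 hx
    exact ⟨(k, ρ, c), ⟨hk1, hk2, hρ1, hρ2, hc1, hc2, hk3, hk4⟩,
      fun x hxs => ⟨hc3 x hxs, (hρ3 x hxs).1, (hρ3 x hxs).2⟩⟩
  set k : ℕ → ℂ → ℂ := fun n => (F n).1 with hk
  set ρ : ℕ → ℝ := fun n => (F n).2.1 with hρ
  set c : ℕ → ℝ := fun n => (F n).2.2 with hc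
  have hkRK : ∀ n, bishop_RK K (k n) := fun n => (hFP n).1
  have hk1 : ∀ n, k n x₀ = 1 := fun n => (hFP n).2.1
  have hρ0 : ∀ n, 0 < ρ n := fun n => (hFP n).2.2.1
  have hρ1 : ∀ n, ρ n ≤ (1 / 2) ^ n := by
    intro n
    induction n with
    | zero => simpa using (hFP 0).2.2.2.1
    | succ n ih =>
      have := (hFr n (n + 1) (Nat.lt_succ_self n)).2.1
      calc ρ (n + 1) ≤ ρ n / 2 := this
        _ ≤ (1 / 2) ^ n / 2 := by gcongr
        _ = (1 / 2) ^ (n + 1) := by rw [pow_succ]; ring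
  have hc1 : ∀ n, c n ≤ (1 / 8) * (1 / 2) ^ n := by
    intro n
    induction n with
    | zero => simpa using (hFP 0).2.2.2.2.2.1
    | succ n ih =>
      have := (hFr n (n + 1) (Nat.lt_succ_self n)).1
      calc c (n + 1) ≤ c n / 2 := this
        _ ≤ ((1 / 8) * (1 / 2) ^ n) / 2 := by gcongr
        _ = (1 / 8) * (1 / 2) ^ (n + 1) := by rw [pow_succ]; ring
  have hc8 : ∀ n, c n ≤ 1 / 8 := fun n => (hFP n).2.2.2.2.2.1
  have hkb : ∀ n, ∀ z ∈ K, ‖k n z‖ ≤ 1 + c n := fun n => (hFP n).2.2.2.2.2.2.1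
  have hkq : ∀ n, ∀ z ∈ K, ρ n ≤ ‖z - x₀‖ → ‖k n z‖ ≤ 1 / 4 := fun n => (hFP n).2.2.2.2.2.2.2
  have hkj : ∀ j n, j < n → ∀ z ∈ K, ‖z - x₀‖ < ρ n → ‖k j z‖ ≤ 1 + c n :=
    fun j n hjn => (hFr j n hjn).2.2
  have hρmono : ∀ m n, m ≤ n → ρ n ≤ ρ m := by
    intro m n hmn
    rcases hmn.lt_or_eq with h | h
    · have := (hFr m n h).2.1
      have h2 := hρ0 m
      calc ρ n ≤ ρ m / 2 := this
        _ ≤ ρ m := by linarith
    · rw [h]
  have hgeo : HasSum (fun n : ℕ => (1 / 2 : ℝ) ^ (n + 1)) 1 := by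
    have := (hasSum_geometric_two).mul_left (1 / 2 : ℝ)
    simpa [pow_succ, mul_comm] using this
  have hsumn : ∀ z ∈ K, Summable (fun n : ℕ => ‖(1 / 2 : ℂ) ^ (n + 1) * k n z‖) := by
    intro z hz
    refine Summable.of_nonneg_of_le (fun n => norm_nonneg _) (fun n => ?_) (hgeo.summable.mul_right 2)
    rw [norm_mul, norm_pow]
    have h1 : ‖(1 / 2 : ℂ)‖ = 1 / 2 := by norm_num
    rw [h1]
    have h2 : ‖k n z‖ ≤ 2 := (hkb n z hz).trans (by linarith [hc8 n])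
    gcongr
  have hsum : ∀ z ∈ K, Summable (fun n : ℕ => (1 / 2 : ℂ) ^ (n + 1) * k n z) :=
    fun z hz => (hsumn z hz).of_norm
  refine ⟨fun z => ∑' n, (1 / 2 : ℂ) ^ (n + 1) * k n z, ?_, ?_, ?_⟩
  · -- in RK
    show bishop_RK K _
    apply bishop_lim
    intro ε hε
    have ht : Tendsto (fun N : ℕ => 2 * (1 / 2 : ℝ) ^ N) atTop (𝓝 (2 * 0)) :=
      (tendsto_pow_atTop_nhds_zero_of_lt_one (by norm_num) (by norm_num)).const_mul 2
    rw [mul_zero] at ht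
    obtain ⟨N, hN⟩ := (ht.eventually (gt_mem_nhds hε)).exists
    refine ⟨fun z => ∑ n ∈ Finset.range N, (1 / 2 : ℂ) ^ (n + 1) * k n z,
      bishop_sum k _ hkRK N, fun z hz => ?_⟩
    refine lt_of_le_of_lt ?_ hN
    have h1 := (hsum z hz).sum_add_tsum_nat_add N
    have h2 : (∑' n, (1 / 2 : ℂ) ^ (n + 1) * k n z)
        - ∑ n ∈ Finset.range N, (1 / 2 : ℂ) ^ (n + 1) * k n z
        = ∑' n, (1 / 2 : ℂ) ^ (n + N + 1) * k (n + N) z := by
      rw [← h1]; ring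
    show ‖(∑' n, (1 / 2 : ℂ) ^ (n + 1) * k n z)
        - ∑ n ∈ Finset.range N, (1 / 2 : ℂ) ^ (n + 1) * k n z‖ ≤ _
    rw [h2]
    have h3 : HasSum (fun n : ℕ => 2 * (1 / 2 : ℝ) ^ N * (1 / 2) ^ (n + 1)) (2 * (1 / 2 : ℝ) ^ N * 1) :=
      hgeo.mul_left _
    rw [mul_one] at h3
    refine tsum_of_norm_bounded h3 (fun n => ?_)
    rw [norm_mul, norm_pow]
    have h4 : ‖(1 / 2 : ℂ)‖ = 1 / 2 := by norm_num
    rw [h4]
    have h5 : ‖k (n + N) z‖ ≤ 2 := (hkb _ z hz).trans (by linarith [hc8 (n + N)])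
    calc (1 / 2 : ℝ) ^ (n + N + 1) * ‖k (n + N) z‖ ≤ (1 / 2 : ℝ) ^ (n + N + 1) * 2 := by gcongr
      _ = 2 * (1 / 2 : ℝ) ^ N * (1 / 2) ^ (n + 1) := by ring
  · show ∑' n, (1 / 2 : ℂ) ^ (n + 1) * k n x₀ = 1
    simp only [hk1, mul_one]
    have : HasSum (fun n : ℕ => (((1 / 2 : ℝ) ^ (n + 1) : ℝ) : ℂ)) ((1 : ℝ) : ℂ) :=
      Complex.hasSum_ofReal.mpr hgeo
    simp only [Complex.ofReal_one] at this
    have h5 := this.tsum_eq
    refine Eq.trans ?_ h5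
    congr 1
    ext n
    push_cast
    ring
  · intro z hz hzx
    have hzpos : 0 < ‖z - x₀‖ := norm_pos_iff.mpr (sub_ne_zero.mpr hzx)
    have hex : ∃ n, ρ n ≤ ‖z - x₀‖ := by
      have ht : Tendsto (fun N : ℕ => (1 / 2 : ℝ) ^ N) atTop (𝓝 0) :=
        tendsto_pow_atTop_nhds_zero_of_lt_one (by norm_num) (by norm_num)
      obtain ⟨N, hN⟩ := (ht.eventually (gt_mem_nhds hzpos)).exists
      exact ⟨N, (hρ1 N).trans hN.le⟩
    classical
    set N := Nat.find hex with hNdef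
    have hN : ρ N ≤ ‖z - x₀‖ := Nat.find_spec hex
    have hNmin : ∀ m < N, ‖z - x₀‖ < ρ m := fun m hm => not_le.mp (Nat.find_min hex hm)
    have hbig : ∀ n, N ≤ n → ‖k n z‖ ≤ 1 / 4 := fun n hn => hkq n z hz ((hρmono N n hn).trans hN)
    have hsmall : ∀ j < N, ‖k j z‖ ≤ 1 + (1 / 4) * (1 / 2) ^ N := by
      intro j hj
      have hN1 : N - 1 < N := by omega
      have hcN : c (N - 1) ≤ (1 / 4) * (1 / 2) ^ N := by
        refine (hc1 (N - 1)).trans (le_of_eq ?_)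
        have : (1 / 2 : ℝ) ^ N = (1 / 2) ^ (N - 1) * (1 / 2) := by
          rw [← pow_succ]; congr 1; omega
        rw [this]; ring
      rcases Nat.lt_or_ge j (N - 1) with h | h
      · exact (hkj j (N - 1) h z hz (hNmin _ hN1)).trans (by linarith)
      · have : j = N - 1 := by omega
        rw [this]
        exact (hkb _ z hz).trans (by linarith)
    show ‖∑' n, (1 / 2 : ℂ) ^ (n + 1) * k n z‖ < 1
    have h1 : ‖∑' n, (1 / 2 : ℂ) ^ (n + 1) * k n z‖ ≤ ∑' n, ‖(1 / 2 : ℂ) ^ (n + 1) * k n z‖ :=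
      norm_tsum_le_tsum_norm (hsumn z hz)
    have h2 := (hsumn z hz).sum_add_tsum_nat_add N
    have hnorm : ∀ n, ‖(1 / 2 : ℂ) ^ (n + 1) * k n z‖ = (1 / 2 : ℝ) ^ (n + 1) * ‖k n z‖ := by
      intro n
      rw [norm_mul, norm_pow]
      have h4 : ‖(1 / 2 : ℂ)‖ = 1 / 2 := by norm_num
      rw [h4]
    have hgeoN : ∑ n ∈ Finset.range N, (1 / 2 : ℝ) ^ (n + 1) = 1 - (1 / 2) ^ N := by
      clear_value N
      clear hN hNmin hbig hsmall h2 hNdef
      induction N with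
      | zero => simp
      | succ N ih => rw [Finset.sum_range_succ, ih]; ring
    have h3 : ∑ n ∈ Finset.range N, ‖(1 / 2 : ℂ) ^ (n + 1) * k n z‖
        ≤ (1 - (1 / 2) ^ N) * (1 + (1 / 4) * (1 / 2) ^ N) := by
      rw [← hgeoN, Finset.sum_mul]
      apply Finset.sum_le_sum
      intro n hn
      rw [hnorm]
      have := hsmall n (Finset.mem_range.mp hn)
      gcongr
    have h4 : ∑' n, ‖(1 / 2 : ℂ) ^ (n + N + 1) * k (n + N) z‖ ≤ (1 / 4) * (1 / 2) ^ N := by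
      have hs : HasSum (fun n : ℕ => (1 / 4) * (1 / 2 : ℝ) ^ N * (1 / 2) ^ (n + 1))
          ((1 / 4) * (1 / 2 : ℝ) ^ N * 1) := hgeo.mul_left _
      rw [mul_one] at hs
      rw [← hs.tsum_eq]
      apply Summable.tsum_le_tsum _ ((summable_nat_add_iff N).mpr (hsumn z hz)) hs.summable
      intro n
      rw [hnorm]
      have := hbig (n + N) (by omega)
      calc (1 / 2 : ℝ) ^ (n + N + 1) * ‖k (n + N) z‖ ≤ (1 / 2 : ℝ) ^ (n + N + 1) * (1 / 4) := by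
            gcongr
        _ = (1 / 4) * (1 / 2 : ℝ) ^ N * (1 / 2) ^ (n + 1) := by ring
    have hp : (0 : ℝ) < (1 / 2) ^ N := by positivity
    have hp1 : (1 / 2 : ℝ) ^ N ≤ 1 := pow_le_one₀ (by norm_num) (by norm_num)
    rw [← h2] at h1
    nlinarith [h1, h3, h4, mul_nonneg hp.le hp.le]

end Pool.Agent.Helper430.NP
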