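import Pool.Agent.Helper430.NP.Defs

set_option autoImplicit false
open MeasureTheory Set Filter Topology Complex Metric

namespace Pool.Agent.Helper430.NP
theorem job_bump : Stmt_Bump := by
  intro Γ q w v r hΓ hc hw hv hwr hvr
  set X : Set ℂ := Γ ∩ closedBall q r with hX
  have hXc : IsCompact X := hΓ.inter_right isClosed_closedBall
  have : CompactSpace X := isCompact_iff_compactSpace.mp hXc
  have hwX : w ∈ X := ⟨hw, by rw [mem_closedBall, dist_eq_norm]; exact hwr.le⟩
  set w' : X := ⟨w, hwX⟩ with hw'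
  set C : Set X := connectedComponent w' with hC
  have hCcl : IsClosed C := isClosed_connectedComponent
  have hCcpt : IsCompact C := hCcl.isCompact
  have hCpre : IsPreconnected C := isPreconnected_connectedComponent
  have key : ∃ b : X, b ∈ C ∧ ‖(b : ℂ) - q‖ = r := by
    by_contra hno
    push Not at hno
    set S : Set X := {y : X | ‖(y : ℂ) - q‖ = r} with hS
    have hScl : IsClosed S := isClosed_eq (by fun_prop) continuous_const
    have hScpt : IsCompact S := hScl.isCompact
    have hempty : S ∩ ⋂ s : { s : Set X // IsClopen s ∧ w' ∈ s }, (s : Set X) = ∅ := by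
      rw [← connectedComponent_eq_iInter_isClopen]
      ext y
      simp only [mem_inter_iff, mem_empty_iff_false, iff_false, not_and]
      intro hy hyC
      exact hno y hyC hy
    obtain ⟨u, hu⟩ := hScpt.elim_finite_subfamily_closed
      (fun s : { s : Set X // IsClopen s ∧ w' ∈ s } => (s : Set X)) (fun s => s.2.1.1) hempty
    set N : Set X := ⋂ i ∈ u, (i : Set X) with hN
    have hNclopen : IsClopen N := by
      exact isClopen_biInter_finset (fun i _ => i.2.1)
    have hwN : w' ∈ N := by
      simp only [hN, mem_iInter]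
      intro i _
      exact i.2.2
    -- N as a subset of ℂ
    have hNball : ∀ y ∈ N, ‖(y : ℂ) - q‖ < r := by
      intro y hy
      have h1 : ‖(y : ℂ) - q‖ ≤ r := by
        have := y.2.2
        rwa [mem_closedBall, dist_eq_norm] at this
      rcases h1.lt_or_eq with h | h
      · exact h
      · exfalso
        have : y ∈ S ∩ N := ⟨h, hy⟩
        rw [hu] at this
        exact this
    obtain ⟨U, hUo, hUN⟩ := isOpen_induced_iff.mp hNclopen.isOpen
    obtain ⟨V, hVc, hVN⟩ := isClosed_induced_iff.mp hNclopen.isClosed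
    -- separate Γ
    have hsub : Γ ⊆ (U ∩ ball q r) ∪ ((V ∩ closedBall q r)ᶜ) := by
      intro z hz
      by_cases hzV : z ∈ V ∩ closedBall q r
      · left
        have hzX : z ∈ X := ⟨hz, hzV.2⟩
        have hzN : (⟨z, hzX⟩ : X) ∈ N := by rw [← hVN]; exact hzV.1
        refine ⟨?_, ?_⟩
        · rw [← hUN] at hzN; exact hzN
        · rw [mem_ball, dist_eq_norm]; exact hNball _ hzN
      · right; exact hzV
    have ho1 : IsOpen (U ∩ ball q r) := hUo.inter isOpen_ball
    have ho2 : IsOpen ((V ∩ closedBall q r)ᶜ) := (hVc.inter isClosed_closedBall).isOpen_compl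
    have hne1 : (Γ ∩ (U ∩ ball q r)).Nonempty := by
      refine ⟨w, hw, ?_, ?_⟩
      · rw [← hUN] at hwN; exact hwN
      · rw [mem_ball, dist_eq_norm]; exact hwr
    have hne2 : (Γ ∩ ((V ∩ closedBall q r)ᶜ)).Nonempty := by
      refine ⟨v, hv, ?_⟩
      intro h
      have := h.2
      rw [mem_closedBall, dist_eq_norm] at this
      linarith
    obtain ⟨z, hz, hz1, hz2⟩ := hc _ _ ho1 ho2 hsub hne1 hne2
    have hzcb : z ∈ closedBall q r := ball_subset_closedBall hz1.2
    have hzX : z ∈ X := ⟨hz, hzcb⟩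
    have hzN : (⟨z, hzX⟩ : X) ∈ N := by rw [← hUN]; exact hz1.1
    apply hz2
    refine ⟨?_, hzcb⟩
    rw [← hVN] at hzN; exact hzN
  obtain ⟨b, hbC, hbr⟩ := key
  refine ⟨Subtype.val '' C, b, ?_, ?_, ?_, ?_, ?_, ?_, hbr⟩
  · rintro _ ⟨y, _, rfl⟩; exact y.2.1
  · rintro _ ⟨y, _, rfl⟩; exact y.2.2
  · exact hCcpt.image continuous_subtype_val
  · exact hCpre.image _ continuous_subtype_val.continuousOn
  · exact ⟨w', mem_connectedComponent, rfl⟩
  · exact ⟨b, hbC, rfl⟩


end Pool.Agent.Helper430.NP
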