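import Pool.Agent.Helper430.NP.Defs

set_option autoImplicit false
open MeasureTheory Set Filter Topology Complex Metric

namespace Pool.Agent.Helper430.NP
theorem clos_net (K : Set ℂ) (μ : Measure ℂ) (δ : ℝ) (hMono : Stmt_Mono) (hBump : Stmt_Bump)
    (q : ℂ) (hq : LimAdm K μ δ q) (ε : ℝ) (hε : 0 < ε) (hεδ : 2 * ε < δ) :
    ∃ (Γ : Set ℂ) (a b : ℂ), Adm K μ Γ ∧ IsCompact Γ ∧ IsPreconnected Γ ∧ Γ ⊆ closedBall q ε ∧
      a ∈ Γ ∧ b ∈ Γ ∧ ε / 2 ≤ ‖a - b‖ := by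
  obtain ⟨Γ0, w, hadm, hpre, hdiam, hw, hwq⟩ := hq (ε / 4) (by positivity)
  have hv : ∃ v ∈ Γ0, ε < ‖v - q‖ := by
    by_contra hcon
    push Not at hcon
    have hsub : Γ0 ⊆ closedBall q ε := by
      intro v hv
      rw [mem_closedBall, dist_eq_norm]
      exact hcon v hv
    have h1 : Metric.diam Γ0 ≤ Metric.diam (closedBall q ε) :=
      Metric.diam_mono hsub Metric.isBounded_closedBall
    have h2 : Metric.diam (closedBall q ε) ≤ 2 * ε := Metric.diam_closedBall hε.le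
    linarith
  obtain ⟨v, hvΓ, hvq⟩ := hv
  obtain ⟨Γ', b, h1, h2, h3, h4, h5, h6, h7⟩ := hBump Γ0 q w v ε hadm.cpt hpre hw hvΓ
    (by linarith) hvq
  refine ⟨Γ', w, b, hMono K μ Γ0 Γ' hadm h3 h1, h3, h4, h2, h5, h6, ?_⟩
  have h8 : ‖b - q‖ ≤ ‖w - b‖ + ‖w - q‖ := by
    have : b - q = -(w - b) + (w - q) := by ring
    rw [this]
    refine (norm_add_le _ _).trans ?_
    rw [norm_neg]
  rw [h7] at h8
  linarith

theorem clos_step (hUnion : Stmt_Union)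
    (hContr : Stmt_Contr) (hMono : Stmt_Mono) (hBump : Stmt_Bump) (hNet : Stmt_Net)
    {A : ℝ} (hA : 0 < A)
    (hV' : ∀ (C : Set ℂ) (M : ℝ) (f : ℂ → ℂ), IsCompact C → HB C M f →
      (∀ z ∈ C, f z = 0) → 0 ≤ M → ∀ (ε : ℝ) (J : Finset ℂ), 0 < ε → (∀ q ∈ J, q ∈ C) →
      (∀ p ∈ C, ∃ q ∈ J, ‖p - q‖ ≤ 3 * ε) → ∀ (Γ : ℂ → Set ℂ) (a b : ℂ → ℂ),
      (∀ q ∈ J, IsCompact (Γ q) ∧ IsPreconnected (Γ q) ∧ Γ q ⊆ closedBall q ε ∧ a q ∈ Γ q ∧
        b q ∈ Γ q ∧ ε / 2 ≤ ‖a q - b q‖) →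
      ∃ (c : ℂ) (F : ℂ → ℂ → ℂ), (∀ q ∈ J, ∃ B, HB (Γ q) B (F q)) ∧
        (∀ z, (∀ q ∈ J, z ∉ Γ q) → ‖c + ∑ q ∈ J, F q z‖ ≤ A * M) ∧
        ∀ (z : ℂ) (D : ℝ), 20 * ε ≤ D → (∀ p ∈ C, D ≤ ‖z - p‖) →
          ‖c + ∑ q ∈ J, F q z - f z‖ ≤ A * M * Real.sqrt (ε / D))
    (K : Set ℂ) (x₀ : ℂ) (μ : Measure ℂ) (hK : IsCompact K) (hx₀ : x₀ ∈ K) (hRep : Rep K x₀ μ)
    (δ : ℝ) (C : Set ℂ) (hC : IsCompact C) (hlim : ∀ p ∈ C, LimAdm K μ δ p)
    (f0 : ℂ → ℂ) (M : ℝ) (hM : 0 ≤ M) (hHB : HB C M f0) (hf0 : ∀ z ∈ C, f0 z = 0)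
    (ε : ℝ) (hε : 0 < ε) (hεδ : 2 * ε < δ) :
    ∃ (Cn : Set ℂ) (fn gn : ℂ → ℂ), Compat K μ Cn fn gn ∧ (∀ᵐ ζ ∂μ, ‖gn ζ‖ ≤ A * M) ∧
      ∀ (z : ℂ) (D : ℝ), 20 * ε ≤ D → (∀ p ∈ C, D ≤ ‖z - p‖) →
        z ∉ Cn ∧ ‖fn z - f0 z‖ ≤ A * M * Real.sqrt (ε / D) := by
  classical
  obtain ⟨J, hJC, hJsep, hJcov⟩ := hNet C (3 * ε) hC (by positivity)
  have hdata : ∀ q : ℂ, ∃ (Γ : Set ℂ) (a b : ℂ), q ∈ J → (Adm K μ Γ ∧ IsCompact Γ ∧
      IsPreconnected Γ ∧ Γ ⊆ closedBall q ε ∧ a ∈ Γ ∧ b ∈ Γ ∧ ε / 2 ≤ ‖a - b‖) := by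
    intro q
    by_cases hq : q ∈ J
    · obtain ⟨Γ, a, b, h⟩ := clos_net K μ δ hMono hBump q (hlim q (hJC q hq)) ε hε hεδ
      exact ⟨Γ, a, b, fun _ => h⟩
    · exact ⟨∅, 0, 0, fun h => absurd h hq⟩
  choose Γ a b hΓ using hdata
  obtain ⟨c, F, hF1, hF2, hF3⟩ := hV' C M f0 hC hHB hf0 hM ε J hε hJC hJcov Γ a b
    (fun q hq => (hΓ q hq).2)
  set Cn : Set ℂ := ⋃ q ∈ J, Γ q with hCn
  set fn : ℂ → ℂ := fun z => c + ∑ q ∈ J, F q z with hfn
  have hfin : IsFiniteMeasure μ := by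
    have := hRep.prob
    infer_instance
  have hadm : Adm K μ Cn := by
    apply hUnion K μ J Γ hfin hK hRep.supp (fun q hq => (hΓ q hq).1)
    intro q hq q' hq' hne
    rw [Set.disjoint_left]
    intro z hz hz'
    have h1 := (hΓ q hq).2.2.2.1 hz
    have h2 := (hΓ q' hq').2.2.2.1 hz'
    rw [mem_closedBall, dist_eq_norm] at h1 h2
    have h3 := hJsep q hq q' hq' hne
    have h4 : ‖q - q'‖ ≤ ‖z - q‖ + ‖z - q'‖ := by
      have : q - q' = -(z - q) + (z - q') := by ring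
      rw [this]
      refine (norm_add_le _ _).trans ?_
      rw [norm_neg]
    linarith
  have hnot : ∀ z, z ∉ Cn ↔ ∀ q ∈ J, z ∉ Γ q := by
    intro z
    rw [hCn]
    simp
  have hHBn : HB Cn (A * M) fn := by
    constructor
    · rw [hfn]
      apply DifferentiableOn.const_add
      apply DifferentiableOn.fun_sum
      intro q hq
      obtain ⟨B, hB⟩ := hF1 q hq
      refine hB.diff.mono ?_
      intro z hz
      exact (hnot z).1 hz q hq
    · intro z hz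
      exact hF2 z ((hnot z).1 hz)
  obtain ⟨gn, hgn⟩ := hadm.ext fn (A * M) hHBn
  refine ⟨Cn, fn, gn, hgn, ?_, ?_⟩
  · exact hContr K x₀ μ hK hx₀ hRep Cn fn gn (A * M) hadm hHBn (by positivity) hgn
  · intro z D hD hzD
    refine ⟨?_, hF3 z D hD hzD⟩
    rw [hnot]
    intro q hq hz
    have h1 := (hΓ q hq).2.2.2.1 hz
    rw [mem_closedBall, dist_eq_norm] at h1
    have h2 := hzD q (hJC q hq)
    linarith

theorem clos_int_rat (K : Set ℂ) (μ : Measure ℂ) (hK : IsCompact K) (hμ : μ Kᶜ = 0)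
    (θ : ℂ → ℂ) (hθ : Integrable θ μ) (p q : Polynomial ℂ) (hq : ∀ z ∈ K, q.eval z ≠ 0) :
    Integrable (fun ζ => (p.eval ζ / q.eval ζ) * θ ζ) μ := by
  have hcont : ContinuousOn (fun ζ => p.eval ζ / q.eval ζ) K :=
    p.continuous.continuousOn.div q.continuous.continuousOn hq
  obtain ⟨B, hB⟩ := hK.exists_bound_of_continuousOn hcont
  have hmeas : Measurable (fun ζ => p.eval ζ / q.eval ζ) :=
    p.continuous.measurable.div q.continuous.measurable
  refine hθ.bdd_mul (c := B) hmeas.aestronglyMeasurable ?_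
  have hae : ∀ᵐ ζ ∂μ, ζ ∈ K := by
    rw [ae_iff]
    exact hμ
  filter_upwards [hae] with ζ hζ
  exact hB ζ hζ

theorem job_clos (hNull : Stmt_Null) (hV : Stmt_V) (hUnion : Stmt_Union) (hWeak : Stmt_Weak) (hContr : Stmt_Contr) (hMono : Stmt_Mono) (hBump : Stmt_Bump) (hNet : Stmt_Net) : Stmt_Clos := by
  classical
  intro K x₀ μ hK hx₀ hRep δ C hδ hC hlim
  refine ⟨hC, ?_, ?_⟩
  · intro θ hθ z hz hgood
    exact hNull K x₀ μ hK hx₀ hRep δ z hδ (hlim z hz) θ hθ hgood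
  intro f M₀ hHB₀
  obtain ⟨A, hA, hV'⟩ := hV
  set f0 : ℂ → ℂ := fun z => if z ∈ C then 0 else f z with hf0
  set M := max M₀ 0 with hMdef
  have hM : 0 ≤ M := le_max_right _ _
  have hHB : HB C M f0 := by
    constructor
    · apply hHB₀.diff.congr
      intro z hz
      simp only [hf0]
      rw [if_neg hz]
    · intro z hz
      simp only [hf0]
      rw [if_neg hz]
      exact (hHB₀.bd z hz).trans (le_max_left _ _)
  have hf0C : ∀ z ∈ C, f0 z = 0 := by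
    intro z hz
    simp only [hf0]
    rw [if_pos hz]
  obtain ⟨eps, heps⟩ : ∃ eps : ℕ → ℝ, ∀ n, eps n = (δ / 10) * (1 / ((n : ℝ) + 1)) :=
    ⟨_, fun _ => rfl⟩
  have hepspos : ∀ n, 0 < eps n := by
    intro n; rw [heps]; positivity
  have hepsδ : ∀ n, 2 * eps n < δ := by
    intro n
    rw [heps]
    have h1 : 1 / ((n : ℝ) + 1) ≤ 1 := by
      rw [div_le_one (by positivity)]
      have : (0 : ℝ) ≤ n := Nat.cast_nonneg n
      linarith
    have h2 : (δ / 10) * (1 / ((n : ℝ) + 1)) ≤ (δ / 10) * 1 := by gcongr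
    linarith
  have hepslim : Tendsto eps atTop (𝓝 0) := by
    have h1 := (tendsto_one_div_add_atTop_nhds_zero_nat (𝕜 := ℝ)).const_mul (δ / 10)
    rw [mul_zero] at h1
    exact h1.congr (fun n => (heps n).symm)
  have hstep := fun n => clos_step hUnion hContr hMono hBump hNet hA hV' K x₀ μ hK hx₀ hRep δ C hC
    hlim f0 M hM hHB hf0C (eps n) (hepspos n) (hepsδ n)
  choose Cn fn gn hcomp hbound hclose using hstep
  have hfin : IsFiniteMeasure μ := by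
    have := hRep.prob
    infer_instance
  obtain ⟨U, h, hU, hmeas, ⟨B', hB'⟩, hconv⟩ := hWeak μ gn (A * M) hfin (fun n => (hcomp n).meas)
    hbound
  have hhθ : ∀ θ : ℂ → ℂ, Integrable θ μ → Integrable (fun ζ => h ζ * θ ζ) μ := by
    intro θ hθ
    exact hθ.bdd_mul (c := B') hmeas.aestronglyMeasurable (Eventually.of_forall hB')
  refine ⟨h, hmeas, ⟨B', hB'⟩, ?_, ?_⟩
  · intro θ hθ
    refine ⟨hhθ θ hθ.1, ?_⟩
    intro p q hq
    have hint := clos_int_rat K μ hK hRep.supp θ hθ.1 p q hq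
    have h1 := hconv _ hint
    have h2 : ∀ n, ∫ ζ, gn n ζ * ((p.eval ζ / q.eval ζ) * θ ζ) ∂μ = 0 := by
      intro n
      have h3 := ((hcomp n).mem θ hθ).2 p q hq
      rw [← h3]
      apply integral_congr_ae
      refine Eventually.of_forall fun ζ => ?_
      show gn n ζ * ((p.eval ζ / q.eval ζ) * θ ζ) = (p.eval ζ / q.eval ζ) * (gn n ζ * θ ζ)
      ring
    simp only [h2] at h1
    have h4 : ∫ ζ, h ζ * ((p.eval ζ / q.eval ζ) * θ ζ) ∂μ = 0 :=
      tendsto_nhds_unique h1 tendsto_const_nhds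
    rw [← h4]
    apply integral_congr_ae
    refine Eventually.of_forall fun ζ => ?_
    show (p.eval ζ / q.eval ζ) * (h ζ * θ ζ) = h ζ * ((p.eval ζ / q.eval ζ) * θ ζ)
    ring
  · intro θ hθ z hz hgood
    have h1 := hconv _ hgood.2
    obtain ⟨D, hD, hDball⟩ := Metric.isOpen_iff.1 hC.isClosed.isOpen_compl z hz
    have hDp : ∀ p ∈ C, D ≤ ‖z - p‖ := by
      intro p hp
      by_contra hcon
      push Not at hcon
      have : p ∈ ball z D := by
        rw [mem_ball, dist_comm, dist_eq_norm]; exact hcon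
      exact hDball this hp
    -- limit of fn z
    have hev : ∀ᶠ n in atTop, 20 * eps n ≤ D := by
      have h2 : Tendsto (fun n => 20 * eps n) atTop (𝓝 0) := by
        have := hepslim.const_mul 20
        rwa [mul_zero] at this
      exact (h2.eventually_lt_const hD).mono (fun n hn => hn.le)
    have hfz : f0 z = f z := by
      simp only [hf0]
      rw [if_neg hz]
    have hfnlim : Tendsto (fun n => fn n z) atTop (𝓝 (f z)) := by
      rw [← hfz, tendsto_iff_norm_sub_tendsto_zero]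
      have h3 : Tendsto (fun n => A * M * Real.sqrt (eps n / D)) atTop (𝓝 0) := by
        have h4 : Tendsto (fun n => eps n / D) atTop (𝓝 0) := by
          have := hepslim.div_const D
          rwa [zero_div] at this
        have h5 := (h4.sqrt).const_mul (A * M)
        rwa [Real.sqrt_zero, mul_zero] at h5
      refine squeeze_zero' (Eventually.of_forall fun n => norm_nonneg _) ?_ h3
      filter_upwards [hev] with n hn
      exact (hclose n z D hn hDp).2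
    have h6 : Tendsto (fun n => fn n z * CT μ θ z) atTop (𝓝 (f z * CT μ θ z)) :=
      hfnlim.mul_const _
    have h7 : (fun n => fn n z * CT μ θ z) =ᶠ[atTop]
        (fun n => ∫ ζ, gn n ζ * (θ ζ / (ζ - z)) ∂μ) := by
      filter_upwards [hev] with n hn
      have h8 := (hcomp n).rel θ hθ z (hclose n z D hn hDp).1 hgood
      rw [← h8]
      unfold CT
      apply integral_congr_ae
      refine Eventually.of_forall fun ζ => ?_
      show gn n ζ * θ ζ / (ζ - z) = gn n ζ * (θ ζ / (ζ - z))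
      ring
    have h9 : Tendsto (fun n => ∫ ζ, gn n ζ * (θ ζ / (ζ - z)) ∂μ) atTop
        (𝓝 (f z * CT μ θ z)) := h6.congr' h7
    have h10 := tendsto_nhds_unique h1 (h9.mono_left hU)
    rw [← h10]
    unfold CT
    apply integral_congr_ae
    refine Eventually.of_forall fun ζ => ?_
    show h ζ * θ ζ / (ζ - z) = h ζ * (θ ζ / (ζ - z))
    ring

end Pool.Agent.Helper430.NP
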