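import Pool.Agent.Helper430.NP.Defs

set_option autoImplicit false
open MeasureTheory Set Filter Topology Complex Metric

namespace Pool.Agent.Helper430.NP
theorem contr_theta {K : Set ℂ} {x₀ : ℂ} {μ : Measure ℂ} (hK : IsCompact K) (h : Rep K x₀ μ) :
    (fun ζ : ℂ => ζ - x₀) ∈ Th K μ := by
  have := h.prob
  have hres : μ.restrict K = μ := by
    apply Measure.restrict_eq_self_of_ae_mem
    have := measure_eq_zero_iff_ae_notMem.mp h.supp
    filter_upwards [this] with z hz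
    simpa using hz
  constructor
  · rw [← hres]
    exact (ContinuousOn.integrableOn_compact hK (by fun_prop))
  · intro p q hq
    have h1 := h.rep (p * (Polynomial.X - Polynomial.C x₀)) q hq
    simp only [Polynomial.eval_mul, Polynomial.eval_sub, Polynomial.eval_X, Polynomial.eval_C,
      sub_self, mul_zero, zero_div] at h1
    rw [← h1]
    congr 1
    funext ζ
    ring

theorem contr_good {μ : Measure ℂ} {θ g : ℂ → ℂ} {z : ℂ} (hg : Measurable g)
    (hb : ∃ B : ℝ, ∀ ζ, ‖g ζ‖ ≤ B) (h : good μ θ z) : good μ (fun ζ => g ζ * θ ζ) z := by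
  obtain ⟨B, hB⟩ := hb
  refine ⟨h.1, ?_⟩
  have h1 : Integrable (fun ζ => g ζ * (θ ζ / (ζ - z))) μ :=
    h.2.bdd_mul hg.aestronglyMeasurable (Filter.Eventually.of_forall hB)
  apply h1.congr
  refine Filter.Eventually.of_forall fun ζ => ?_
  show g ζ * (θ ζ / (ζ - z)) = g ζ * θ ζ / (ζ - z)
  ring

theorem contr_ne {x₀ : ℂ} {μ : Measure ℂ} (h : μ {x₀} = 0) : ∀ᵐ ζ ∂μ, ζ - x₀ ≠ 0 := by
  have := measure_eq_zero_iff_ae_notMem.mp h
  filter_upwards [this] with z hz
  rw [mem_singleton_iff] at hz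
  exact sub_ne_zero.mpr hz

theorem contr_key (hGood : Stmt_Good) (hUniq : Stmt_Uniq) (K : Set ℂ) (x₀ : ℂ) (μ : Measure ℂ)
    (hK : IsCompact K) (hR : Rep K x₀ μ) (C : Set ℂ) (f g : ℂ → ℂ) (M : ℝ)
    (hA : Adm K μ C) (hf : HB C M f) (hg : Compat K μ C f g) (lam : ℂ)
    (hlam : M < ‖lam‖) : ∃ ρ > 0, ∀ᵐ ζ ∂μ, ρ ≤ ‖g ζ - lam‖ := by
  have := hR.prob
  have hne : ∀ z ∉ C, lam - f z ≠ 0 := by
    intro z hz h0
    have h1 := hf.bd z hz
    rw [sub_eq_zero] at h0
    rw [h0] at hlam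
    linarith
  have hk : HB C (1 / (‖lam‖ - M)) (fun z => 1 / (lam - f z)) := by
    constructor
    · intro z hz
      exact (differentiableWithinAt_const _).div
        ((differentiableWithinAt_const _).sub (hf.diff z hz)) (hne z hz)
    · intro z hz
      have h1 := hf.bd z hz
      rw [norm_div, norm_one]
      apply one_div_le_one_div_of_le (by linarith)
      have := norm_sub_norm_le lam (f z)
      linarith
  obtain ⟨gk, hgk⟩ := hA.ext _ _ hk
  have ht0 := contr_theta hK hR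
  have ht1 := hgk.mem _ ht0
  have ht2 := hg.mem _ ht1
  obtain ⟨B, hB⟩ := hgk.bdd
  have hint : Integrable (fun ζ => lam * (gk ζ * (ζ - x₀)) - g ζ * (gk ζ * (ζ - x₀)) - (ζ - x₀)) μ :=
    ((ht1.1.const_mul lam).sub ht2.1).sub ht0.1
  have hCT : ∀ᵐ z : ℂ, CT μ (fun ζ => lam * (gk ζ * (ζ - x₀)) - g ζ * (gk ζ * (ζ - x₀)) - (ζ - x₀)) z
      = 0 := by
    filter_upwards [hGood μ _ inferInstance ht0.1] with z hz
    have hz1 := contr_good hgk.meas hgk.bdd hz
    have hz2 := contr_good hg.meas hg.bdd hz1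
    have h1 : CT μ (fun ζ => lam * (gk ζ * (ζ - x₀)) - g ζ * (gk ζ * (ζ - x₀)) - (ζ - x₀)) z
        = lam * CT μ (fun ζ => gk ζ * (ζ - x₀)) z - CT μ (fun ζ => g ζ * (gk ζ * (ζ - x₀))) z
          - CT μ (fun ζ => ζ - x₀) z := by
      have i1 : Integrable (fun ζ => lam * (gk ζ * (ζ - x₀) / (ζ - z))) μ := hz1.2.const_mul lam
      have i2 : Integrable (fun ζ => g ζ * (gk ζ * (ζ - x₀)) / (ζ - z)) μ := hz2.2
      have i3 : Integrable (fun ζ => (ζ - x₀) / (ζ - z)) μ := hz.2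
      have i12 : Integrable (fun ζ => lam * (gk ζ * (ζ - x₀) / (ζ - z))
        - g ζ * (gk ζ * (ζ - x₀)) / (ζ - z)) μ := i1.sub i2
      unfold CT
      rw [← integral_const_mul, ← integral_sub i1 i2, ← integral_sub i12 i3]
      congr 1
      funext ζ
      ring
    rw [h1]
    by_cases hzC : z ∈ C
    · rw [hA.null _ ht0 z hzC hz, hA.null _ ht1 z hzC hz1, hA.null _ ht2 z hzC hz2]
      ring
    · rw [hg.rel _ ht1 z hzC hz1, hgk.rel _ ht0 z hzC hz]
      have h2 := hne z hzC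
      field_simp
      ring
  have hae := hUniq μ _ inferInstance hint hCT
  refine ⟨1 / (|B| + 1), by positivity, ?_⟩
  filter_upwards [hae, contr_ne hR.atom] with ζ h1 h2
  have h3 : (lam - g ζ) * gk ζ = 1 := by
    have h4 : ((lam - g ζ) * gk ζ - 1) * (ζ - x₀) = 0 := by
      rw [← h1]; ring
    have h5 := (mul_eq_zero.mp h4).resolve_right h2
    exact sub_eq_zero.mp h5
  rw [div_le_iff₀ (by positivity)]
  calc (1:ℝ) = ‖(lam - g ζ) * gk ζ‖ := by rw [h3, norm_one]
    _ = ‖g ζ - lam‖ * ‖gk ζ‖ := by rw [norm_mul, norm_sub_rev]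
    _ ≤ ‖g ζ - lam‖ * (|B| + 1) := by
        apply mul_le_mul_of_nonneg_left _ (norm_nonneg _)
        linarith [hB ζ, le_abs_self B]

theorem job_contr (hGood : Stmt_Good) (hUniq : Stmt_Uniq) (hLoc : Stmt_Loc) : Stmt_Contr ∧ Stmt_CompatLoc := by
  constructor
  · intro K x₀ μ hK hx₀ hR C f g M hA hf hM hg
    have := hR.prob
    have hnull : (Measure.map g μ) {lam : ℂ | M < ‖lam‖} = 0 := by
      apply measure_null_of_locally_null
      intro lam hlam
      obtain ⟨ρ, hρ, hae⟩ := contr_key hGood hUniq K x₀ μ hK hR C f g M hA hf hg lam hlam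
      refine ⟨ball lam ρ, mem_nhdsWithin_of_mem_nhds (ball_mem_nhds _ hρ), ?_⟩
      rw [Measure.map_apply hg.meas measurableSet_ball, measure_eq_zero_iff_ae_notMem]
      filter_upwards [hae] with ζ hζ hmem
      rw [mem_preimage, mem_ball, dist_eq_norm] at hmem
      linarith
    rw [Measure.map_apply hg.meas (measurableSet_lt measurable_const measurable_norm),
      measure_eq_zero_iff_ae_notMem] at hnull
    filter_upwards [hnull] with ζ hζ
    by_contra hcon
    exact hζ (not_le.mp hcon)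
  · intro K x₀ μ hK hx₀ hR C f g hC hf hg
    have := hR.prob
    have ht0 := contr_theta hK hR
    have ht1 := hg.mem _ ht0
    have h1 : ∀ᵐ z : ℂ, z ∈ Cᶜ → CT μ (fun ζ => g ζ * (ζ - x₀)) z = f z * CT μ (fun ζ => ζ - x₀) z := by
      filter_upwards [hGood μ _ inferInstance ht0.1] with z hz hzC
      exact hg.rel _ ht0 z hzC hz
    have h2 := hLoc μ _ _ f Cᶜ inferInstance ht1.1 ht0.1 hC.isClosed.isOpen_compl hf h1
    filter_upwards [h2, contr_ne hR.atom] with ζ h3 h4 h5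
    exact mul_right_cancel₀ h4 (h3 h5)

end Pool.Agent.Helper430.NP
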