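import Pool.Agent.Helper430.NP.Defs

set_option autoImplicit false
open MeasureTheory Set Filter Topology Complex Metric

namespace Pool.Agent.Helper430.NP
/-- regularised Cauchy kernel -/
noncomputable def job_cp_k (z : ℂ) (t : ℝ) (ζ : ℂ) : ℂ :=
  (starRingEnd ℂ) (ζ - z) * ((ζ - z) * (starRingEnd ℂ) (ζ - z) + (t : ℂ) ^ 2)⁻¹

theorem job_cp_den (w : ℂ) (t : ℝ) :
    w * (starRingEnd ℂ) w + (t : ℂ) ^ 2 = ((‖w‖ ^ 2 + t ^ 2 : ℝ) : ℂ) := by
  rw [Complex.mul_conj, Complex.normSq_eq_norm_sq]; push_cast; ring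

theorem job_cp_den_ne (w : ℂ) {t : ℝ} (ht : 0 < t) :
    w * (starRingEnd ℂ) w + (t : ℂ) ^ 2 ≠ 0 := by
  rw [job_cp_den]
  have : 0 < ‖w‖ ^ 2 + t ^ 2 := by positivity
  exact_mod_cast this.ne'

theorem job_cp_conj (z ζ : ℂ) : HasFDerivAt (fun ζ : ℂ => (starRingEnd ℂ) (ζ - z))
    (Complex.conjCLE : ℂ →L[ℝ] ℂ) ζ := by
  have := (Complex.conjCLE : ℂ →L[ℝ] ℂ).hasFDerivAt.comp ζ ((hasFDerivAt_id (𝕜 := ℝ) ζ).sub_const z)
  exact this

theorem job_cp_k_fderiv (z : ℂ) {t : ℝ} (ht : 0 < t) (ζ v : ℂ) :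
    DifferentiableAt ℝ (job_cp_k z t) ζ ∧ fderiv ℝ (job_cp_k z t) ζ v =
      (starRingEnd ℂ) v * ((ζ - z) * (starRingEnd ℂ) (ζ - z) + (t : ℂ) ^ 2)⁻¹ -
      (starRingEnd ℂ) (ζ - z) * (v * (starRingEnd ℂ) (ζ - z) + (ζ - z) * (starRingEnd ℂ) v) *
      (((ζ - z) * (starRingEnd ℂ) (ζ - z) + (t : ℂ) ^ 2)⁻¹) ^ 2 := by
  have h1 := job_cp_conj z ζ
  have h2 : HasFDerivAt (fun ζ : ℂ => ζ - z) (ContinuousLinearMap.id ℝ ℂ) ζ :=
    (hasFDerivAt_id (𝕜 := ℝ) ζ).sub_const z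
  have h3 := (h2.mul h1).add_const ((t : ℂ) ^ 2)
  have hne := job_cp_den_ne (ζ - z) ht
  have h4 := ((hasDerivAt_inv hne).hasFDerivAt.restrictScalars ℝ).comp ζ h3
  have h5 := h1.mul h4
  have h6 : HasFDerivAt (job_cp_k z t) _ ζ := h5
  refine ⟨h6.differentiableAt, ?_⟩
  rw [h6.fderiv]
  simp
  field_simp
  ring

theorem job_cp_k_contDiff (z : ℂ) {t : ℝ} (ht : 0 < t) : ContDiff ℝ 1 (job_cp_k z t) := by
  unfold job_cp_k
  have h1 : ContDiff ℝ 1 (fun ζ : ℂ => (starRingEnd ℂ) (ζ - z)) :=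
    (Complex.conjCLE : ℂ →L[ℝ] ℂ).contDiff.comp (contDiff_id.sub contDiff_const)
  have h2 : ContDiff ℝ 1 (fun ζ : ℂ => ζ - z) := contDiff_id.sub contDiff_const
  exact h1.mul (((h2.mul h1).add contDiff_const).inv (fun ζ => job_cp_den_ne (ζ - z) ht))

theorem job_cp_dbar_k (z : ℂ) {t : ℝ} (ht : 0 < t) (ζ : ℂ) :
    dbar (job_cp_k z t) ζ = (t : ℂ) ^ 2 * (((‖ζ - z‖ ^ 2 + t ^ 2 : ℝ) : ℂ)⁻¹) ^ 2 := by
  unfold dbar
  rw [(job_cp_k_fderiv z ht ζ 1).2, (job_cp_k_fderiv z ht ζ I).2, ← job_cp_den]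
  have hne := job_cp_den_ne (ζ - z) ht
  simp only [map_one, Complex.conj_I]
  generalize (starRingEnd ℂ) (ζ - z) = c at *
  generalize ζ - z = w at *
  field_simp
  ring_nf
  simp only [Complex.I_sq]
  ring

/-- integration by parts -/
theorem job_cp_ibp {u k : ℂ → ℂ} (hu : ContDiff ℝ 1 u) (huc : HasCompactSupport u)
    (hk : ContDiff ℝ 1 k) : ∫ ζ, dbar u ζ * k ζ = - ∫ ζ, u ζ * dbar k ζ := by
  have hdu : ∀ v : ℂ, Continuous (fun ζ => fderiv ℝ u ζ v) := fun v =>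
    (hu.continuous_fderiv (by simp)).clm_apply continuous_const
  have hdk : ∀ v : ℂ, Continuous (fun ζ => fderiv ℝ k ζ v) := fun v =>
    (hk.continuous_fderiv (by simp)).clm_apply continuous_const
  have hduc : ∀ v : ℂ, HasCompactSupport (fun ζ => fderiv ℝ u ζ v) := fun v =>
    huc.fderiv_apply ℝ v
  have i1 : ∀ v : ℂ, Integrable (fun ζ => k ζ * fderiv ℝ u ζ v) := fun v =>
    (hk.continuous.mul (hdu v)).integrable_of_hasCompactSupport (hduc v).mul_left
  have i2 : ∀ v : ℂ, Integrable (fun ζ => fderiv ℝ k ζ v * u ζ) := fun v =>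
    ((hdk v).mul hu.continuous).integrable_of_hasCompactSupport huc.mul_left
  have i3 : Integrable (fun ζ => k ζ * u ζ) :=
    (hk.continuous.mul hu.continuous).integrable_of_hasCompactSupport huc.mul_left
  have key : ∀ v : ℂ, ∫ ζ, k ζ * fderiv ℝ u ζ v = - ∫ ζ, fderiv ℝ k ζ v * u ζ := fun v =>
    integral_mul_fderiv_eq_neg_fderiv_mul_of_integrable (i2 v) (i1 v) i3
      (fun x _ => (hk.differentiable (by simp)) x) (fun x _ => (hu.differentiable (by simp)) x)
  have e1 : (fun ζ => dbar u ζ * k ζ) =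
      fun ζ => (1 / 2 : ℂ) * (k ζ * fderiv ℝ u ζ 1) + (I / 2) * (k ζ * fderiv ℝ u ζ I) := by
    funext ζ; unfold dbar; ring
  have e2 : (fun ζ => u ζ * dbar k ζ) =
      fun ζ => (1 / 2 : ℂ) * (fderiv ℝ k ζ 1 * u ζ) + (I / 2) * (fderiv ℝ k ζ I * u ζ) := by
    funext ζ; unfold dbar; ring
  rw [e1, e2, integral_add ((i1 1).const_mul _) ((i1 I).const_mul _),
    integral_add ((i2 1).const_mul _) ((i2 I).const_mul _), integral_const_mul, integral_const_mul,
    integral_const_mul, integral_const_mul, key, key]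
  ring

theorem job_cp_val : ∫ w : ℂ, ((1 + ‖w‖ ^ 2) ^ 2)⁻¹ = Real.pi := by
  have h := integral_fun_norm_addHaar (volume : Measure ℂ) (fun r : ℝ => ((1 + r ^ 2) ^ 2)⁻¹)
  rw [h]
  have hderiv : ∀ x ∈ Ioi (0 : ℝ), HasDerivAt (fun x : ℝ => -(2 * (1 + x ^ 2))⁻¹)
      (x * ((1 + x ^ 2) ^ 2)⁻¹) x := by
    intro x _
    have h1 : HasDerivAt (fun x : ℝ => 2 * (1 + x ^ 2)) (2 * (2 * x)) x := by
      have := ((hasDerivAt_pow 2 x).const_add 1).const_mul 2
      simpa using this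
    have hne : 2 * (1 + x ^ 2) ≠ 0 := by positivity
    have h2 := (h1.inv hne).neg
    refine HasDerivAt.congr_deriv (f := fun x : ℝ => -(2 * (1 + x ^ 2))⁻¹) h2 ?_
    field_simp
  have hcont : ContinuousWithinAt (fun x : ℝ => -(2 * (1 + x ^ 2))⁻¹) (Ici 0) 0 := by
    apply Continuous.continuousWithinAt
    refine Continuous.neg (Continuous.inv₀ (by fun_prop) (fun x => by positivity))
  have hlim : Tendsto (fun x : ℝ => -(2 * (1 + x ^ 2))⁻¹) atTop (𝓝 0) := by
    rw [← neg_zero]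
    apply Tendsto.neg
    apply Tendsto.inv_tendsto_atTop
    apply Tendsto.const_mul_atTop (by norm_num)
    exact tendsto_atTop_add_const_left _ _ (tendsto_pow_atTop (by norm_num))
  have hI := integral_Ioi_of_hasDerivAt_of_nonneg hcont hderiv
    (fun x hx => by
      have : (0 : ℝ) < x := hx
      positivity) hlim
  have hI2 : ∫ y in Ioi (0 : ℝ), y ^ (Module.finrank ℝ ℂ - 1) • ((1 + y ^ 2) ^ 2)⁻¹ = 1 / 2 := by
    rw [Complex.finrank_real_complex]
    simp only [Nat.add_one_sub_one, pow_one, smul_eq_mul]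
    rw [hI]
    norm_num
  rw [hI2, Complex.finrank_real_complex]
  simp [Measure.real, Complex.volume_ball]
  ring

theorem job_cp_meas (z : ℂ) : Measurable (fun ζ : ℂ => (ζ - z)⁻¹) := by fun_prop

theorem job_cp_ker (z : ℂ) (ρ : ℝ) : IntegrableOn (fun ζ : ℂ => ‖ζ‖⁻¹) (ball 0 ρ) := by
  refine integrableOn_ball_of_norm_le_rpow (C := 1) (α := 1) (by simp [Complex.finrank_real_complex])
    (by simp [Complex.finrank_real_complex]) ?_ (Measurable.aestronglyMeasurable (by fun_prop))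
  refine Filter.Eventually.of_forall fun ζ => ?_
  rw [one_mul, norm_inv, norm_norm, Real.rpow_neg (norm_nonneg _), Real.rpow_one]

theorem job_cp  : Stmt_CP := by
  intro u hu huc z
  have hdu : Continuous (dbar u) := by
    unfold dbar
    exact (((hu.continuous_fderiv (by simp)).clm_apply continuous_const).add
      (continuous_const.mul ((hu.continuous_fderiv (by simp)).clm_apply continuous_const))).div_const _
  have hdus : ∀ ζ, ζ ∉ tsupport u → dbar u ζ = 0 := by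
    intro ζ hζ
    have h1 : ζ ∉ tsupport (fderiv ℝ u) := fun h' => hζ (tsupport_fderiv_subset ℝ h')
    have h2 := image_eq_zero_of_notMem_tsupport h1
    unfold dbar
    rw [h2]; simp
  have hduc : HasCompactSupport (dbar u) :=
    HasCompactSupport.intro' huc (isClosed_tsupport u) hdus
  obtain ⟨CG, hCG⟩ := hdu.bounded_above_of_compact_support hduc
  have hCG0 : 0 ≤ CG := (norm_nonneg _).trans (hCG 0)
  obtain ⟨ρ, hρ⟩ := huc.isCompact.isBounded.subset_ball z
  have hker := job_cp_ker z ρ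
  rw [← integrable_indicator_iff measurableSet_ball] at hker
  have hker2 := (hker.comp_sub_right z).mul_const CG
  have hbd : ∀ (ζ : ℂ) (c : ℂ), ‖c‖ ≤ ‖ζ - z‖⁻¹ → ‖dbar u ζ * c‖ ≤
      (ball (0 : ℂ) ρ).indicator (fun ζ : ℂ => ‖ζ‖⁻¹) (ζ - z) * CG := by
    intro ζ c hc
    rw [norm_mul]
    by_cases hyB : ζ ∈ ball z ρ
    · have h1 : ζ - z ∈ ball (0 : ℂ) ρ := by
        rw [mem_ball_zero_iff]
        rwa [mem_ball, dist_eq_norm] at hyB
      rw [indicator_of_mem h1, mul_comm]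
      exact mul_le_mul hc (hCG ζ) (norm_nonneg _) (by positivity)
    · have h2 : dbar u ζ = 0 := hdus ζ (fun h0 => hyB (hρ h0))
      rw [h2, norm_zero, zero_mul]
      exact mul_nonneg (indicator_nonneg (fun z _ => by positivity) _) hCG0
  have hae : ∀ᵐ ζ ∂(volume : Measure ℂ), ζ ≠ z := by
    have : (volume : Measure ℂ) {z} = 0 := measure_singleton z
    exact compl_mem_ae_iff.mpr this
  have hint : Integrable (fun ζ => dbar u ζ / (ζ - z)) := by
    refine hker2.mono' ?_ (Filter.Eventually.of_forall fun ζ => ?_)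
    · exact (hdu.measurable.div (by fun_prop)).aestronglyMeasurable
    · rw [div_eq_mul_inv]
      exact hbd ζ _ (by rw [norm_inv])
  refine ⟨hint, ?_⟩
  -- the identity for t > 0
  have hft : ∀ t : ℝ, 0 < t → ∫ ζ, dbar u ζ * job_cp_k z t ζ =
      - ∫ w : ℂ, (((1 + ‖w‖ ^ 2) ^ 2)⁻¹ : ℝ) • u (z + t • w) := by
    intro t ht
    rw [job_cp_ibp hu huc (job_cp_k_contDiff z ht)]
    congr 1
    have e1 : (fun ζ => u ζ * dbar (job_cp_k z t) ζ) =
        fun ζ => (t ^ 2 * ((‖ζ - z‖ ^ 2 + t ^ 2) ^ 2)⁻¹ : ℝ) • u ζ := by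
      funext ζ
      rw [job_cp_dbar_k z ht, Complex.real_smul, inv_pow]
      push_cast
      ring
    rw [e1]
    have e2 : ∫ ζ, (t ^ 2 * ((‖ζ - z‖ ^ 2 + t ^ 2) ^ 2)⁻¹ : ℝ) • u ζ =
        ∫ ζ, (t ^ 2 * ((‖z + ζ - z‖ ^ 2 + t ^ 2) ^ 2)⁻¹ : ℝ) • u (z + ζ) :=
      (integral_add_left_eq_self (μ := (volume : Measure ℂ))
        (fun ζ => (t ^ 2 * ((‖ζ - z‖ ^ 2 + t ^ 2) ^ 2)⁻¹ : ℝ) • u ζ) z).symm
    have e3 := Measure.integral_comp_smul (volume : Measure ℂ)
      (fun ζ => (t ^ 2 * ((‖z + ζ - z‖ ^ 2 + t ^ 2) ^ 2)⁻¹ : ℝ) • u (z + ζ)) t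
    rw [Complex.finrank_real_complex, abs_of_nonneg (by positivity)] at e3
    rw [e2]
    have e5 : ∫ ζ, (t ^ 2 * ((‖z + ζ - z‖ ^ 2 + t ^ 2) ^ 2)⁻¹ : ℝ) • u (z + ζ) =
        (t ^ 2 : ℝ) • ∫ w : ℂ, (t ^ 2 * ((‖z + t • w - z‖ ^ 2 + t ^ 2) ^ 2)⁻¹ : ℝ) •
          u (z + t • w) := by
      rw [e3, smul_smul, mul_inv_cancel₀ (by positivity), one_smul]
    rw [e5, ← integral_smul]
    congr 1
    funext w
    rw [smul_smul]
    congr 1
    rw [add_sub_cancel_left, norm_smul, Real.norm_of_nonneg ht.le]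
    have : (t * ‖w‖) ^ 2 + t ^ 2 = t ^ 2 * (1 + ‖w‖ ^ 2) := by ring
    rw [this]
    field_simp
  have hI : Integrable (fun w : ℂ => ((1 + ‖w‖ ^ 2) ^ 2)⁻¹) := by
    have := integrable_rpow_neg_one_add_norm_sq (E := ℂ) (μ := volume) (r := 4)
      (by simp [Complex.finrank_real_complex]; norm_num)
    refine this.congr (Filter.Eventually.of_forall fun w => ?_)
    simp only
    rw [show (-4 / 2 : ℝ) = -((2 : ℕ) : ℝ) by norm_num, Real.rpow_neg (by positivity),
      Real.rpow_natCast]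
  obtain ⟨Cg, hCg⟩ := hu.continuous.bounded_above_of_compact_support huc
  have hR : Tendsto (fun t : ℝ => - ∫ w : ℂ, (((1 + ‖w‖ ^ 2) ^ 2)⁻¹ : ℝ) • u (z + t • w))
      (𝓝[>] 0) (𝓝 (- ∫ w : ℂ, (((1 + ‖w‖ ^ 2) ^ 2)⁻¹ : ℝ) • u z)) := by
    refine Tendsto.neg ?_
    refine tendsto_integral_filter_of_dominated_convergence
      (fun w => ((1 + ‖w‖ ^ 2) ^ 2)⁻¹ * Cg) ?_ ?_ (hI.mul_const _) ?_
    · refine Filter.Eventually.of_forall fun t => ?_
      refine Continuous.aestronglyMeasurable ?_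
      have hc1 : Continuous fun w : ℂ => z + t • w := by fun_prop
      have hc2 : Continuous fun w : ℂ => ((1 + ‖w‖ ^ 2) ^ 2)⁻¹ :=
        Continuous.inv₀ (by fun_prop) (fun w => by positivity)
      exact hc2.smul (hu.continuous.comp hc1)
    · refine Filter.Eventually.of_forall fun t => Filter.Eventually.of_forall fun w => ?_
      rw [norm_smul, Real.norm_of_nonneg (by positivity)]
      exact mul_le_mul_of_nonneg_left (hCg _) (by positivity)
    · refine Filter.Eventually.of_forall fun w => ?_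
      refine Tendsto.const_smul ?_ _
      have : Tendsto (fun t : ℝ => u (z + t • w)) (𝓝 0) (𝓝 (u (z + (0 : ℝ) • w))) :=
        (hu.continuous.comp (by fun_prop : Continuous fun t : ℝ => z + t • w)).tendsto 0
      rw [zero_smul, add_zero] at this
      exact this.mono_left nhdsWithin_le_nhds
  have hL : Tendsto (fun t : ℝ => ∫ ζ, dbar u ζ * job_cp_k z t ζ) (𝓝[>] 0)
      (𝓝 (∫ ζ, dbar u ζ / (ζ - z))) := by
    refine tendsto_integral_filter_of_dominated_convergence _ ?_ ?_ hker2 ?_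
    · filter_upwards [self_mem_nhdsWithin] with t ht
      exact (hdu.mul (job_cp_k_contDiff z ht).continuous).aestronglyMeasurable
    · filter_upwards [self_mem_nhdsWithin] with t ht
      filter_upwards [hae] with ζ hζ
      have hw : 0 < ‖ζ - z‖ := norm_pos_iff.mpr (sub_ne_zero.mpr hζ)
      refine hbd ζ _ ?_
      unfold job_cp_k
      rw [norm_mul, RCLike.norm_conj, norm_inv, job_cp_den, Complex.norm_real,
        Real.norm_of_nonneg (by positivity), ← div_eq_mul_inv, div_le_iff₀ (by positivity)]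
      have : ‖ζ - z‖⁻¹ * (‖ζ - z‖ ^ 2 + t ^ 2) = ‖ζ - z‖ + ‖ζ - z‖⁻¹ * t ^ 2 := by
        field_simp
      rw [this]
      have : 0 ≤ ‖ζ - z‖⁻¹ * t ^ 2 := by positivity
      linarith
    · filter_upwards [hae] with ζ hζ
      have hw : ζ - z ≠ 0 := sub_ne_zero.mpr hζ
      rw [div_eq_mul_inv]
      refine Tendsto.const_mul _ ?_
      have hc : ContinuousAt (fun t : ℝ => job_cp_k z t ζ) 0 := by
        unfold job_cp_k
        apply ContinuousAt.mul continuousAt_const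
        apply ContinuousAt.inv₀
        · exact (continuous_const.add ((Complex.continuous_ofReal).pow 2)).continuousAt
        · rw [job_cp_den]
          have : 0 < ‖ζ - z‖ := norm_pos_iff.mpr hw
          have h2 : 0 < ‖ζ - z‖ ^ 2 + (0 : ℝ) ^ 2 := by positivity
          exact_mod_cast h2.ne'
      have := hc.tendsto
      have e : job_cp_k z 0 ζ = (ζ - z)⁻¹ := by
        unfold job_cp_k
        have h2 : (starRingEnd ℂ) (ζ - z) ≠ 0 := by
          rw [ne_eq, map_eq_zero]; exact hw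
        simp only [Complex.ofReal_zero, ne_eq, OfNat.ofNat_ne_zero, not_false_eq_true, zero_pow,
          add_zero]
        field_simp
      rw [e] at this
      exact this.mono_left nhdsWithin_le_nhds
  have hR' := hR.congr' (f₂ := fun t : ℝ => ∫ ζ, dbar u ζ * job_cp_k z t ζ) (by
    filter_upwards [self_mem_nhdsWithin] with t ht
    exact (hft t ht).symm)
  have hfin := tendsto_nhds_unique hL hR'
  unfold cz
  rw [hfin, integral_smul_const, job_cp_val]
  rw [Complex.real_smul]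
  have hpi : (Real.pi : ℂ) ≠ 0 := by exact_mod_cast Real.pi_ne_zero
  field_simp

end Pool.Agent.Helper430.NP
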