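import Pool.Agent.Helper430.NP.Defs

set_option autoImplicit false
open MeasureTheory Set Filter Topology Complex Metric

namespace Pool.Agent.Helper430.NP
theorem job_cz (hKer : Stmt_Ker) : Stmt_Cz := by
  intro w B q ρ hρ hw hB hz
  have hB0 : 0 ≤ B := (norm_nonneg _).trans (hB 0)
  have nle : ∀ z ζ, ‖w ζ / (ζ - z)‖ ≤ (closedBall q ρ).indicator (fun ζ => B * ‖ζ - z‖⁻¹) ζ := by
    intro z ζ
    by_cases h : ζ ∈ closedBall q ρ
    · rw [indicator_of_mem h, norm_div, div_eq_mul_inv]
      exact mul_le_mul_of_nonneg_right (hB ζ) (by positivity)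
    · rw [indicator_of_notMem h, hz ζ h]
      simp
  have iI : ∀ z, Integrable ((closedBall q ρ).indicator (fun ζ => B * ‖ζ - z‖⁻¹)) := by
    intro z
    rw [integrable_indicator_iff measurableSet_closedBall]
    exact ((hKer q ρ hρ z).1).const_mul B
  have h1 : ∀ z, Integrable (fun ζ => w ζ / (ζ - z)) := by
    intro z
    refine (iI z).mono' ?_ (Eventually.of_forall (nle z))
    exact (hw.div (measurable_id.sub_const z)).aestronglyMeasurable
  refine ⟨h1, ?_, ?_⟩
  · intro z
    have hpi : 0 < Real.pi := Real.pi_pos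
    have h2 : ‖∫ ζ, w ζ / (ζ - z)‖ ≤ B * (6 * Real.pi * ρ) := by
      refine (norm_integral_le_of_norm_le (iI z) (Eventually.of_forall (nle z))).trans ?_
      rw [integral_indicator measurableSet_closedBall, integral_const_mul]
      exact mul_le_mul_of_nonneg_left (hKer q ρ hρ z).2 hB0
    unfold cz
    rw [norm_mul, norm_div, norm_one, Complex.norm_real, Real.norm_of_nonneg hpi.le]
    calc 1 / Real.pi * ‖∫ ζ, w ζ / (ζ - z)‖ ≤ 1 / Real.pi * (B * (6 * Real.pi * ρ)) := by gcongr
      _ = 6 * ρ * B := by field_simp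
  · intro z₀ hz₀
    have hopen : IsOpen (tsupport w)ᶜ := (isClosed_tsupport w).isOpen_compl
    obtain ⟨r, hr, hball⟩ := Metric.isOpen_iff.1 hopen z₀ hz₀
    have hfar : ∀ z ∈ ball z₀ (r / 2), ∀ ζ, w ζ ≠ 0 → r / 2 ≤ ‖ζ - z‖ := by
      intro z hz' ζ hζ
      by_contra hc
      push Not at hc
      have h3 : ζ ∈ ball z₀ r := by
        rw [mem_ball_iff_norm] at hz' ⊢
        calc ‖ζ - z₀‖ = ‖(ζ - z) + (z - z₀)‖ := by rw [sub_add_sub_cancel]
          _ ≤ ‖ζ - z‖ + ‖z - z₀‖ := norm_add_le _ _
          _ < r := by linarith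
      exact hball h3 (subset_tsupport w hζ)
    have key := hasDerivAt_integral_of_dominated_loc_of_deriv_le (𝕜 := ℂ) (μ := (volume : Measure ℂ))
      (F := fun z ζ => w ζ / (ζ - z)) (F' := fun z ζ => w ζ / (ζ - z) ^ 2) (x₀ := z₀)
      (s := ball z₀ (r / 2))
      (bound := (closedBall q ρ).indicator (fun _ => B / (r / 2) ^ 2))
      (ball_mem_nhds _ (by positivity))
      (Eventually.of_forall fun z => (h1 z).aestronglyMeasurable) (h1 z₀)
      ((hw.div ((measurable_id.sub_const z₀).pow_const 2)).aestronglyMeasurable)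
      (Eventually.of_forall fun ζ z hz' => by
        by_cases hζ : w ζ = 0
        · simp only [hζ, zero_div, norm_zero]
          exact indicator_nonneg (fun _ _ => by positivity) _
        · have hmem : ζ ∈ closedBall q ρ := by
            by_contra hc
            exact hζ (hz ζ hc)
          rw [indicator_of_mem hmem, norm_div, norm_pow]
          have := hfar z hz' ζ hζ
          gcongr
          exact hB ζ)
      (by
        rw [integrable_indicator_iff measurableSet_closedBall]
        exact integrableOn_const (measure_closedBall_lt_top).ne)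
      (Eventually.of_forall fun ζ z hz' => by
        by_cases hζ : w ζ = 0
        · simp only [hζ, zero_div]
          exact hasDerivAt_const _ _
        · have h4 : ζ - z ≠ 0 := by
            have := hfar z hz' ζ hζ
            rw [← norm_pos_iff]
            linarith
          have h5 : HasDerivAt (fun z : ℂ => ζ - z) (-1) z := by
            simpa using (hasDerivAt_id z).const_sub ζ
          have h6 := (hasDerivAt_const z (w ζ)).div h5 h4
          refine h6.congr_deriv ?_
          simp)
    have h7 : HasDerivAt (cz w) ((1 / (Real.pi : ℂ)) * ∫ ζ, w ζ / (ζ - z₀) ^ 2) z₀ :=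
      key.2.const_mul _
    exact h7.differentiableAt.differentiableWithinAt

end Pool.Agent.Helper430.NP
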