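import Pool.Agent.Helper430.NP.Defs

set_option autoImplicit false
open MeasureTheory Set Filter Topology Complex Metric

namespace Pool.Agent.Helper430.NP
theorem job_dual_dbar_cont (ψ : ℂ → ℂ) (h : ContDiff ℝ 1 ψ) : Continuous (dbar ψ) := by
  have h1 : Continuous (fderiv ℝ ψ) := h.continuous_fderiv (by norm_num)
  unfold dbar
  have h2 : Continuous fun z => fderiv ℝ ψ z 1 := h1.clm_apply continuous_const
  have h3 : Continuous fun z => fderiv ℝ ψ z I := h1.clm_apply continuous_const
  exact (h2.add (continuous_const.mul h3)).div_const 2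

theorem job_dual_dbar_supp (ψ : ℂ → ℂ) (h : HasCompactSupport ψ) : HasCompactSupport (dbar ψ) := by
  have h1 : HasCompactSupport (fderiv ℝ ψ) := h.fderiv ℝ
  refine HasCompactSupport.mono h1 ?_
  intro z hz
  rw [Function.mem_support] at hz ⊢
  intro h0
  apply hz
  unfold dbar
  rw [h0]
  simp

theorem job_dual (hCP : Stmt_CP) (hKer : Stmt_Ker) (hGood : Stmt_Good) : Stmt_Dual := by
  intro μ θ ψ hμ hθ hψ hψc
  have hpi := Real.pi_pos
  have hdc := job_dual_dbar_cont ψ hψ
  have hds := job_dual_dbar_supp ψ hψc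
  obtain ⟨B, hB⟩ := hdc.bounded_above_of_compact_support hds
  have hB0 : 0 ≤ B := (norm_nonneg _).trans (hB 0)
  obtain ⟨ρ, hρ, hsub⟩ : ∃ ρ : ℝ, 0 < ρ ∧ tsupport (dbar ψ) ⊆ closedBall 0 ρ := by
    obtain ⟨ρ, hρ⟩ := hds.isCompact.isBounded.subset_closedBall 0
    exact ⟨max ρ 1, lt_max_of_lt_right one_pos, hρ.trans (closedBall_subset_closedBall (le_max_left _ _))⟩
  have hz0 : ∀ z ∉ closedBall (0 : ℂ) ρ, dbar ψ z = 0 := by
    intro z hz
    by_contra hne
    exact hz (hsub (subset_tsupport _ hne))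
  set k : ℂ → ℂ → ℂ := fun ζ z => dbar ψ z * (θ ζ / (ζ - z)) with hk
  have hk' : ∀ ζ z, k ζ z = (-θ ζ) * (dbar ψ z / (z - ζ)) := by
    intro ζ z
    simp only [hk]
    rw [← neg_sub z ζ, div_neg]
    ring
  have hmeas : AEStronglyMeasurable (Function.uncurry k) (μ.prod volume) := by
    have h1 : AEStronglyMeasurable (fun p : ℂ × ℂ => dbar ψ p.2) (μ.prod volume) :=
      (hdc.comp continuous_snd).aestronglyMeasurable
    have h2 : AEStronglyMeasurable (fun p : ℂ × ℂ => θ p.1) (μ.prod volume) :=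
      hθ.aestronglyMeasurable.comp_fst
    have h3 : AEStronglyMeasurable (fun p : ℂ × ℂ => (p.1 - p.2)⁻¹) (μ.prod volume) := by
      apply Measurable.aestronglyMeasurable
      fun_prop
    have h4 := h1.mul (h2.mul h3)
    exact h4
  have hbd : ∀ ζ, ∫ z, ‖k ζ z‖ ≤ ‖θ ζ‖ * (B * (6 * Real.pi * ρ)) := by
    intro ζ
    obtain ⟨hK1, hK2⟩ := hKer 0 ρ hρ ζ
    have h1 : ∫ z, ‖k ζ z‖ = ∫ z in closedBall (0 : ℂ) ρ, ‖k ζ z‖ := by
      rw [setIntegral_eq_integral_of_forall_compl_eq_zero]
      intro z hz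
      simp [hk, hz0 z hz]
    rw [h1]
    calc ∫ z in closedBall (0 : ℂ) ρ, ‖k ζ z‖
        ≤ ∫ z in closedBall (0 : ℂ) ρ, (‖θ ζ‖ * B) * ‖z - ζ‖⁻¹ := by
          apply integral_mono_of_nonneg
          · exact Filter.Eventually.of_forall fun z => norm_nonneg _
          · exact hK1.const_mul _
          · refine Filter.Eventually.of_forall fun z => ?_
            simp only
            rw [hk' ζ z, norm_mul, norm_neg, norm_div, div_eq_mul_inv, mul_assoc]
            gcongr
            exact hB z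
      _ = (‖θ ζ‖ * B) * ∫ z in closedBall (0 : ℂ) ρ, ‖z - ζ‖⁻¹ := integral_const_mul _ _
      _ ≤ (‖θ ζ‖ * B) * (6 * Real.pi * ρ) := by gcongr
      _ = _ := by ring
  have hint : Integrable (Function.uncurry k) (μ.prod volume) := by
    rw [integrable_prod_iff hmeas]
    constructor
    · refine Filter.Eventually.of_forall fun ζ => ?_
      have h1 := (hCP ψ hψ hψc ζ).1.const_mul (-θ ζ)
      refine h1.congr (Filter.Eventually.of_forall fun z => ?_)
      exact (hk' ζ z).symm
    · have h1 : AEStronglyMeasurable (fun ζ => ∫ z, ‖Function.uncurry k (ζ, z)‖) μ :=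
        hmeas.norm.integral_prod_right'
      refine (hθ.norm.mul_const (B * (6 * Real.pi * ρ))).mono' h1
        (Filter.Eventually.of_forall fun ζ => ?_)
      rw [Real.norm_eq_abs, abs_of_nonneg (integral_nonneg fun z => norm_nonneg _)]
      exact hbd ζ
  have hin1 : ∀ z, ∫ ζ, k ζ z ∂μ = dbar ψ z * CT μ θ z := by
    intro z
    simp only [hk]
    rw [integral_const_mul]
    rfl
  have hin2 : ∀ ζ, ∫ z, k ζ z = (Real.pi : ℂ) * (ψ ζ * θ ζ) := by
    intro ζ
    have h1 := (hCP ψ hψ hψc ζ).2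
    unfold cz at h1
    have hpc : (Real.pi : ℂ) ≠ 0 := by exact_mod_cast hpi.ne'
    have h2 : ∫ z, dbar ψ z / (z - ζ) = -((Real.pi : ℂ) * ψ ζ) := by
      have h3 := congrArg (fun x => (Real.pi : ℂ) * x) h1
      rw [← mul_assoc, mul_one_div_cancel hpc, one_mul] at h3
      rw [h3]; ring
    calc ∫ z, k ζ z = ∫ z, (-θ ζ) * (dbar ψ z / (z - ζ)) := by
          apply integral_congr_ae
          exact Filter.Eventually.of_forall fun z => hk' ζ z
      _ = (-θ ζ) * ∫ z, dbar ψ z / (z - ζ) := integral_const_mul _ _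
      _ = _ := by rw [h2]; ring
  constructor
  · have h1 := hint.integral_prod_right
    refine h1.congr (Filter.Eventually.of_forall fun z => ?_)
    exact hin1 z
  · have h1 := integral_integral_swap hint
    simp only [hin1, hin2] at h1
    rw [← h1, integral_const_mul, ← mul_assoc, one_div, inv_mul_cancel₀, one_mul]
    exact_mod_cast hpi.ne'

end Pool.Agent.Helper430.NP
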