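import Pool.Agent.Helper430.NP.Defs

set_option autoImplicit false
open MeasureTheory Set Filter Topology Complex Metric

namespace Pool.Agent.Helper430.NP
theorem encl_front {T : Set ℂ} (hT : IsClosed T) (x₀ : ℂ) :
    frontier (connectedComponentIn Tᶜ x₀) ⊆ T := by
  intro y hy
  by_contra hyT
  have hVo : IsOpen (connectedComponentIn Tᶜ x₀) := hT.isOpen_compl.connectedComponentIn
  have hWo : IsOpen (connectedComponentIn Tᶜ y) := hT.isOpen_compl.connectedComponentIn
  have hyW : y ∈ connectedComponentIn Tᶜ y := mem_connectedComponentIn hyT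
  rw [hVo.frontier_eq] at hy
  obtain ⟨z, hzW, hzV⟩ := mem_closure_iff.mp hy.1 _ hWo hyW
  apply hy.2
  rw [connectedComponentIn_eq hzV, ← connectedComponentIn_eq hzW]
  exact hyW

theorem encl_ray {T : Set ℂ} (hT : IsCompact T) (x₀ : ℂ)
    (hb : Bornology.IsBounded (connectedComponentIn Tᶜ x₀)) (p y : ℂ) (hp : p ∈ T)
    (hy : y ∈ connectedComponentIn Tᶜ x₀) : dist y p ≤ Metric.diam T := by
  set V := connectedComponentIn Tᶜ x₀ with hV
  have hVo : IsOpen V := hT.isClosed.isOpen_compl.connectedComponentIn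
  have hyp : y ≠ p := by
    rintro rfl
    exact connectedComponentIn_subset _ _ hy hp
  have hpos : 0 < ‖y - p‖ := norm_pos_iff.mpr (sub_ne_zero.mpr hyp)
  -- exit time
  let S : Set ℝ := {t | 0 ≤ t ∧ y + t * (y - p) ∉ V}
  have hSne : S.Nonempty := by
    obtain ⟨R, hR⟩ := hb.subset_closedBall y
    refine ⟨(|R| + 1) / ‖y - p‖, by positivity, fun hmem => ?_⟩
    have h1 := hR hmem
    rw [mem_closedBall, dist_eq_norm] at h1
    have h2 : y + ((((|R| + 1) / ‖y - p‖ : ℝ)) : ℂ) * (y - p) - y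
        = ((((|R| + 1) / ‖y - p‖ : ℝ)) : ℂ) * (y - p) := by ring
    rw [h2, norm_mul, Complex.norm_real, Real.norm_of_nonneg (by positivity),
      div_mul_cancel₀ _ hpos.ne'] at h1
    linarith [le_abs_self R]
  have hcont : Continuous (fun t : ℝ => y + (t : ℂ) * (y - p)) := by fun_prop
  have hSc : IsClosed S := by
    have h1 : S = Ici 0 ∩ (fun t : ℝ => y + (t : ℂ) * (y - p)) ⁻¹' Vᶜ := by
      ext t; simp [S]
    rw [h1]
    exact isClosed_Ici.inter (hVo.isClosed_compl.preimage hcont)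
  have hSb : BddBelow S := ⟨0, fun t ht => ht.1⟩
  have hmem := hSc.csInf_mem hSne hSb
  set t₀ := sInf S with ht₀
  have ht0 : 0 < t₀ := by
    rcases hmem.1.lt_or_eq with h | h
    · exact h
    · exfalso
      apply hmem.2
      rw [← h]
      simpa using hy
  have hcl : y + (t₀ : ℂ) * (y - p) ∈ closure V := by
    have h1 : Tendsto (fun t : ℝ => y + (t : ℂ) * (y - p)) (𝓝[<] t₀)
        (𝓝 (y + (t₀ : ℂ) * (y - p))) := (hcont.tendsto t₀).mono_left nhdsWithin_le_nhds
    refine mem_closure_of_tendsto h1 ?_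
    have h2 : Ioo 0 t₀ ∈ 𝓝[<] t₀ := Ioo_mem_nhdsLT ht0
    filter_upwards [h2] with t ht
    by_contra hne
    exact absurd (csInf_le hSb (show t ∈ S from ⟨ht.1.le, hne⟩)) (not_le.mpr ht.2)
  have hfr : y + (t₀ : ℂ) * (y - p) ∈ T := by
    apply encl_front hT.isClosed x₀
    rw [← hV, hVo.frontier_eq]
    exact ⟨hcl, hmem.2⟩
  have h3 := Metric.dist_le_diam_of_mem hT.isBounded hfr hp
  have h4 : dist (y + (t₀ : ℂ) * (y - p)) p = (1 + t₀) * ‖y - p‖ := by
    rw [dist_eq_norm]
    have : y + (t₀ : ℂ) * (y - p) - p = ((1 + t₀ : ℝ) : ℂ) * (y - p) := by push_cast; ring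
    rw [this, norm_mul, Complex.norm_real, Real.norm_of_nonneg (by positivity)]
  rw [dist_eq_norm]
  rw [h4] at h3
  nlinarith

theorem encl_rho (x₀ : ℂ) (μ : Measure ℂ) (hμ : IsProbabilityMeasure μ) (h0 : μ {x₀} = 0) :
    ∃ ρ : ℝ, 0 < ρ ∧ μ (closedBall x₀ ρ) < 1 := by
  have h1 : Tendsto (fun r => μ (Metric.cthickening r {x₀})) (𝓝 0) (𝓝 (μ {x₀})) :=
    tendsto_measure_cthickening_of_isClosed ⟨1, zero_lt_one, measure_ne_top _ _⟩
      isClosed_singleton
  rw [h0] at h1
  have h2 : ∀ᶠ r in 𝓝 (0:ℝ), μ (Metric.cthickening r {x₀}) < 1 :=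
    h1.eventually_lt_const (by norm_num)
  have h3 : ∀ᶠ r in 𝓝[>] (0:ℝ), μ (Metric.cthickening r {x₀}) < 1 :=
    h2.filter_mono nhdsWithin_le_nhds
  obtain ⟨r, hr, hr0⟩ := (h3.and self_mem_nhdsWithin).exists
  refine ⟨r, hr0, ?_⟩
  rwa [Metric.cthickening_singleton _ (le_of_lt hr0)] at hr

theorem encl_ind {T : Set ℂ} (hT : IsClosed T) (x₀ : ℂ) :
    HB T 1 ((connectedComponentIn Tᶜ x₀).indicator (fun _ => (1:ℂ))) := by
  have hVo : IsOpen (connectedComponentIn Tᶜ x₀) := hT.isOpen_compl.connectedComponentIn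
  constructor
  · intro z hz
    apply DifferentiableAt.differentiableWithinAt
    by_cases hzV : z ∈ connectedComponentIn Tᶜ x₀
    · have h1 : (connectedComponentIn Tᶜ x₀).indicator (fun _ => (1:ℂ)) =ᶠ[𝓝 z] fun _ => 1 := by
        filter_upwards [hVo.mem_nhds hzV] with w hw
        exact indicator_of_mem hw _
      exact (differentiableAt_const (1:ℂ)).congr_of_eventuallyEq h1
    · have hzc : z ∉ closure (connectedComponentIn Tᶜ x₀) := by
        intro hc
        apply hz
        apply encl_front hT x₀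
        rw [hVo.frontier_eq]
        exact ⟨hc, hzV⟩
      have h1 : (connectedComponentIn Tᶜ x₀).indicator (fun _ => (1:ℂ)) =ᶠ[𝓝 z] fun _ => 0 := by
        filter_upwards [isClosed_closure.isOpen_compl.mem_nhds hzc] with w hw
        exact indicator_of_notMem (fun h => hw (subset_closure h)) _
      exact (differentiableAt_const (0:ℂ)).congr_of_eventuallyEq h1
  · intro z _
    by_cases hzV : z ∈ connectedComponentIn Tᶜ x₀
    · rw [indicator_of_mem hzV]; simp
    · rw [indicator_of_notMem hzV]; simp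

theorem encl_theta {K : Set ℂ} {x₀ : ℂ} {μ : Measure ℂ} (hK : IsCompact K) (hR : Rep K x₀ μ) :
    (fun ζ => ζ - x₀) ∈ Th K μ := by
  have := hR.prob
  constructor
  · obtain ⟨B, hB⟩ := hK.isBounded.subset_closedBall x₀
    refine Integrable.of_bound (by fun_prop) B ?_
    have h1 : ∀ᵐ ζ ∂μ, ζ ∈ K := by
      rw [ae_iff]; exact hR.supp
    filter_upwards [h1] with ζ hζ
    have := hB hζ
    rwa [mem_closedBall, dist_eq_norm] at this
  · intro p q hq
    have h1 := hR.rep (p * (Polynomial.X - Polynomial.C x₀)) q hq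
    simp only [Polynomial.eval_mul, Polynomial.eval_sub, Polynomial.eval_X, Polynomial.eval_C,
      sub_self, mul_zero, zero_div] at h1
    rw [← h1]
    refine integral_congr_ae (Eventually.of_forall fun ζ => ?_)
    simp only
    ring

theorem job_encl (hContr : Stmt_Contr) (hCompatLoc : Stmt_CompatLoc) : Stmt_Encl := by
  intro K x₀ μ hK hx hR
  have hprob := hR.prob
  obtain ⟨ρ, hρ, hμρ⟩ := encl_rho x₀ μ hR.prob hR.atom
  refine ⟨ρ / 2, by positivity, ?_⟩
  intro T hadm hTpre hxT hdiam hbd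
  have hT := hadm.cpt
  set V := connectedComponentIn Tᶜ x₀ with hV
  have hxV : x₀ ∈ V := mem_connectedComponentIn hxT
  have hHB := encl_ind hT.isClosed x₀
  rw [← hV] at hHB
  obtain ⟨g, hg⟩ := hadm.ext _ 1 hHB
  have hg1 := hContr K x₀ μ hK hx hR T _ g 1 hadm hHB zero_le_one hg
  have hg2 := hCompatLoc K x₀ μ hK hx hR T _ g hT hHB.diff hg
  have hθ := encl_theta hK hR
  have hae : ∀ᵐ ζ ∂μ, ζ ≠ x₀ := by
    rw [ae_iff]
    simpa using hR.atom
  have hgood : good μ (fun ζ => ζ - x₀) x₀ := by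
    refine ⟨hR.atom, ?_⟩
    refine (integrable_const (1:ℂ)).congr ?_
    filter_upwards [hae] with ζ hζ
    rw [div_self (sub_ne_zero.mpr hζ)]
  have hrel := hg.rel _ hθ x₀ hxT hgood
  have hCT1 : CT μ (fun ζ => ζ - x₀) x₀ = 1 := by
    have h1 : CT μ (fun ζ => ζ - x₀) x₀ = ∫ ζ, (1:ℂ) ∂μ := by
      refine integral_congr_ae ?_
      filter_upwards [hae] with ζ hζ
      rw [div_self (sub_ne_zero.mpr hζ)]
    rw [h1]; simp
  have hCT2 : CT μ (fun ζ => g ζ * (ζ - x₀)) x₀ = ∫ ζ, g ζ ∂μ := by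
    refine integral_congr_ae ?_
    filter_upwards [hae] with ζ hζ
    rw [mul_div_assoc, div_self (sub_ne_zero.mpr hζ), mul_one]
  rw [hCT2, hCT1, indicator_of_mem hxV, mul_one] at hrel
  -- support of g
  have hsub : ∀ ζ, ζ ∉ closedBall x₀ ρ → ζ ∉ T ∧ ζ ∉ V := by
    intro ζ hζ
    rw [mem_closedBall, not_le] at hζ
    constructor
    · intro hζT
      have := encl_ray hT x₀ hbd ζ x₀ hζT hxV
      rw [dist_comm] at this
      linarith
    · intro hζV
      by_cases hTne : T.Nonempty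
      · obtain ⟨p, hp⟩ := hTne
        have h1 := encl_ray hT x₀ hbd p x₀ hp hxV
        have h2 := encl_ray hT x₀ hbd p ζ hp hζV
        have h3 := dist_triangle ζ p x₀
        rw [dist_comm p x₀] at h3
        linarith
      · rw [Set.not_nonempty_iff_eq_empty] at hTne
        rw [hTne] at hV
        have : V = univ := by
          rw [hV, compl_empty, connectedComponentIn_univ]
          exact PreconnectedSpace.connectedComponent_eq_univ x₀
        rw [this] at hbd
        exact NoncompactSpace.noncompact_univ (X := ℂ) (Metric.isCompact_of_isClosed_isBounded isClosed_univ hbd)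
  have hbound : ∀ᵐ ζ ∂μ, ‖g ζ‖ ≤ (closedBall x₀ ρ).indicator (fun _ => (1:ℝ)) ζ := by
    filter_upwards [hg1, hg2] with ζ h1 h2
    by_cases hζ : ζ ∈ closedBall x₀ ρ
    · rw [indicator_of_mem hζ]; exact h1
    · rw [indicator_of_notMem hζ]
      obtain ⟨h3, h4⟩ := hsub ζ hζ
      rw [h2 h3, indicator_of_notMem h4, norm_zero]
  have hint : ‖∫ ζ, g ζ ∂μ‖ ≤ ∫ ζ, (closedBall x₀ ρ).indicator (fun _ => (1:ℝ)) ζ ∂μ := by
    refine norm_integral_le_of_norm_le ?_ hbound
    exact (integrable_const (1:ℝ)).indicator measurableSet_closedBall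
  rw [hrel, integral_indicator measurableSet_closedBall] at hint
  simp only [norm_one, integral_const, MeasurableSet.univ, measureReal_restrict_apply, univ_inter,
    smul_eq_mul, mul_one] at hint
  have h5 : μ.real (closedBall x₀ ρ) < 1 := by
    rw [Measure.real]
    exact (ENNReal.toReal_lt_of_lt_ofReal (by simpa using hμρ))
  linarith

end Pool.Agent.Helper430.NP
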