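import Pool.Agent.Helper430.NP.Defs

set_option autoImplicit false
open MeasureTheory Set Filter Topology Complex Metric

namespace Pool.Agent.Helper430.NP
theorem good_atoms (μ : Measure ℂ) (hμ : IsFiniteMeasure μ) : ∀ᵐ z : ℂ, μ {z} = 0 := by
  have hc : Set.Countable {z : ℂ | 0 < μ {z}} := by
    refine Measure.countable_meas_pos_of_disjoint_iUnion (μ := μ) (As := fun z : ℂ => {z})
      (fun z => measurableSet_singleton z) ?_
    intro a b hab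
    simpa using hab
  have h0 : volume {z : ℂ | 0 < μ {z}} = 0 := hc.measure_zero _
  rw [ae_iff]
  refine measure_mono_null ?_ h0
  intro z hz
  exact pos_iff_ne_zero.mpr hz

theorem good_lint (hKer : Stmt_Ker) (R : ℝ) (hR : 0 < R) (ζ : ℂ) :
    ∫⁻ z in closedBall (0:ℂ) R, ‖(ζ - z)⁻¹‖ₑ ≤ ENNReal.ofReal (6 * Real.pi * R) := by
  obtain ⟨h1, h2⟩ := hKer 0 R hR ζ
  have h3 : ∫⁻ z in closedBall (0:ℂ) R, ‖(ζ - z)⁻¹‖ₑ
      = ENNReal.ofReal (∫ z in closedBall (0:ℂ) R, ‖z - ζ‖⁻¹) := by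
    rw [ofReal_integral_eq_lintegral_ofReal h1 (Eventually.of_forall fun z => by positivity)]
    refine lintegral_congr fun z => ?_
    rw [← ofReal_norm, norm_inv, norm_sub_rev]
  rw [h3]
  exact ENNReal.ofReal_le_ofReal h2

theorem good_ball (hKer : Stmt_Ker) (μ : Measure ℂ) (θ : ℂ → ℂ) (hμ : IsFiniteMeasure μ)
    (hθ : Integrable θ μ) (R : ℝ) (hR : 0 < R) :
    ∀ᵐ z ∂(volume.restrict (closedBall (0:ℂ) R)), Integrable (fun ζ => θ ζ / (ζ - z)) μ := by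
  obtain ⟨θ', hθ'm, hθ'e⟩ := hθ.1
  have hθ'meas : Measurable θ' := hθ'm.measurable
  have hmeas : Measurable (fun p : ℂ × ℂ => ‖θ' p.2 * (p.2 - p.1)⁻¹‖ₑ) := by fun_prop
  have hfin : ∫⁻ z in closedBall (0:ℂ) R, ∫⁻ ζ, ‖θ' ζ * (ζ - z)⁻¹‖ₑ ∂μ < ⊤ := by
    rw [lintegral_lintegral_swap hmeas.aemeasurable]
    calc ∫⁻ ζ, (∫⁻ z in closedBall (0:ℂ) R, ‖θ' ζ * (ζ - z)⁻¹‖ₑ) ∂μ
        = ∫⁻ ζ, (‖θ' ζ‖ₑ * ∫⁻ z in closedBall (0:ℂ) R, ‖(ζ - z)⁻¹‖ₑ) ∂μ := by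
          refine lintegral_congr fun ζ => ?_
          rw [← lintegral_const_mul' _ _ (by simp)]
          refine lintegral_congr fun z => ?_
          rw [enorm_mul]
      _ ≤ ∫⁻ ζ, ‖θ' ζ‖ₑ * ENNReal.ofReal (6 * Real.pi * R) ∂μ := by
          refine lintegral_mono fun ζ => ?_
          exact mul_le_mul_right (good_lint hKer R hR ζ) _
      _ = (∫⁻ ζ, ‖θ' ζ‖ₑ ∂μ) * ENNReal.ofReal (6 * Real.pi * R) := by
          rw [lintegral_mul_const _ hθ'meas.enorm]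
      _ < ⊤ := by
          refine ENNReal.mul_lt_top ?_ ENNReal.ofReal_lt_top
          have := (hθ.congr hθ'e).2
          exact this
  have hae := ae_lt_top (μ := volume.restrict (closedBall (0:ℂ) R))
    (f := fun z => ∫⁻ ζ, ‖θ' ζ * (ζ - z)⁻¹‖ₑ ∂μ) (hmeas.lintegral_prod_right') hfin.ne
  filter_upwards [hae] with z hz
  have h1 : Integrable (fun ζ => θ' ζ * (ζ - z)⁻¹) μ := by
    refine ⟨?_, hz⟩
    exact (Measurable.aestronglyMeasurable (by fun_prop))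
  refine h1.congr ?_
  filter_upwards [hθ'e] with ζ hζ
  rw [hζ, div_eq_mul_inv]

theorem job_good (hKer : Stmt_Ker) : Stmt_Good := by
  intro μ θ hμ hθ
  have h1 : ∀ᵐ z : ℂ, ∀ n : ℕ, z ∈ closedBall (0:ℂ) ((n:ℝ) + 1) →
      Integrable (fun ζ => θ ζ / (ζ - z)) μ := by
    rw [ae_all_iff]
    intro n
    have := good_ball hKer μ θ hμ hθ ((n:ℝ) + 1) (by positivity)
    exact (ae_restrict_iff' measurableSet_closedBall).mp this
  filter_upwards [good_atoms μ hμ, h1] with z hz1 hz2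
  refine ⟨hz1, ?_⟩
  obtain ⟨n, hn⟩ := exists_nat_ge ‖z‖
  refine hz2 n ?_
  rw [mem_closedBall, dist_zero_right]
  linarith

end Pool.Agent.Helper430.NP
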