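import Pool.Agent.Helper430.NP.Defs

set_option autoImplicit false
open MeasureTheory Set Filter Topology Complex Metric

namespace Pool.Agent.Helper430.NP
theorem job_iter_step {E : ℝ → Set ℂ} {R : ℝ} {x₀ : ℂ} {δ δ' : ℝ} {γ : ℝ → ℂ} {n : ℕ} (hn : 0 < n)
    (z : ℕ → ℂ) (hz0 : z 0 = x₀) (hzO : z 0 ∈ Od E R x₀ δ')
    (hz0γ : ‖z 0 - γ 0‖ ≤ 10 * δ)
    (hj : ∀ i : ℕ, i < n → JoinedIn (Od E R x₀ δ' ∩ ball (z i) (7 * δ)) (z i) (z (i + 1)))
    (hclose : ∀ i : ℕ, i < n → ∀ t ∈ Icc ((i : ℝ) / n) ((i + 1 : ℕ) / n), ‖z i - γ t‖ ≤ 3 * δ) :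
    ∀ m : ℕ, m ≤ n → ∃ γ' : ℝ → ℂ, ContinuousOn γ' (Icc 0 ((m : ℝ) / n)) ∧ γ' 0 = x₀ ∧
      γ' ((m : ℝ) / n) = z m ∧ ∀ t ∈ Icc (0 : ℝ) ((m : ℝ) / n), γ' t ∈ Od E R x₀ δ' ∧
        ‖γ' t - γ t‖ ≤ 10 * δ := by
  intro m
  induction m with
  | zero =>
    intro _
    refine ⟨fun _ => z 0, continuousOn_const, hz0, rfl, fun t ht => ?_⟩
    have : t = 0 := by
      simp only [Nat.cast_zero, zero_div, Icc_self, mem_singleton_iff] at ht
      exact ht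
    subst this
    exact ⟨hzO, hz0γ⟩
  | succ m ih =>
    intro hm
    obtain ⟨γ₁, hc, h0, h1, h2⟩ := ih (by omega)
    have hJ := hj m (by omega)
    set β := hJ.somePath with hβ
    have hβm : ∀ t : ℝ, β.extend t ∈ Od E R x₀ δ' ∩ ball (z m) (7 * δ) := by
      intro t
      have : β.extend t ∈ range β.extend := ⟨t, rfl⟩
      rw [Path.extend_range] at this
      obtain ⟨u, hu⟩ := this
      rw [← hu]
      exact hJ.somePath_mem u
    have hnpos : (0 : ℝ) < n := by exact_mod_cast hn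
    have ha : (0 : ℝ) ≤ (m : ℝ) / n := by positivity
    have hab : (m : ℝ) / n < ((m + 1 : ℕ) : ℝ) / n := by
      apply div_lt_div_of_pos_right _ hnpos
      push_cast
      linarith
    refine ⟨fun t => if t ≤ (m : ℝ) / n then γ₁ t else β.extend ((t - (m : ℝ) / n) * n), ?_, ?_, ?_, ?_⟩
    · have hEq : Icc (0 : ℝ) (((m + 1 : ℕ) : ℝ) / n) =
          Icc 0 ((m : ℝ) / n) ∪ Icc ((m : ℝ) / n) (((m + 1 : ℕ) : ℝ) / n) :=
        (Icc_union_Icc_eq_Icc ha hab.le).symm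
      rw [hEq]
      refine ContinuousOn.union_of_isClosed ?_ ?_ isClosed_Icc isClosed_Icc
      · refine hc.congr fun t ht => ?_
        simp only [if_pos ht.2]
      · have : ContinuousOn (fun t : ℝ => β.extend ((t - (m : ℝ) / n) * n))
            (Icc ((m : ℝ) / n) (((m + 1 : ℕ) : ℝ) / n)) := by
          apply Continuous.continuousOn
          exact β.continuous_extend.comp (by fun_prop)
        refine this.congr fun t ht => ?_
        by_cases h : t ≤ (m : ℝ) / n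
        · have : t = (m : ℝ) / n := le_antisymm h ht.1
          subst this
          simp only [le_refl, if_true, sub_self, zero_mul, Path.extend_zero]
          exact h1
        · simp only [if_neg h]
    · simp only [if_pos ha]
      exact h0
    · simp only [if_neg (not_le.2 hab)]
      have : ((((m + 1 : ℕ) : ℝ) / n) - (m : ℝ) / n) * n = 1 := by
        push_cast
        field_simp
        ring
      rw [this, Path.extend_one]
    · intro t ht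
      by_cases h : t ≤ (m : ℝ) / n
      · simp only [if_pos h]
        exact h2 t ⟨ht.1, h⟩
      · simp only [if_neg h]
        push Not at h
        obtain ⟨h3, h4⟩ := hβm ((t - (m : ℝ) / n) * n)
        refine ⟨h3, ?_⟩
        have h5 := hclose m (by omega) t ⟨h.le, ht.2⟩
        rw [mem_ball, dist_eq_norm] at h4
        calc ‖β.extend ((t - (m : ℝ) / n) * n) - γ t‖
            = ‖(β.extend ((t - (m : ℝ) / n) * n) - z m) + (z m - γ t)‖ := by ring_nf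
          _ ≤ ‖β.extend ((t - (m : ℝ) / n) * n) - z m‖ + ‖z m - γ t‖ := norm_add_le _ _
          _ ≤ 10 * δ := by linarith

theorem job_iter (hO : Stmt_O) (hKL1 : Stmt_KL1) (hKL2 : Stmt_KL2) : Stmt_Iter := by
  intro K x₀ E R hK hx₀ hF hKR hR
  obtain ⟨δ₁, hδ₁, hδ₁R, h2⟩ := hKL2 K x₀ E R hK hx₀ hF hKR hR
  refine ⟨δ₁, hδ₁, hδ₁R, ?_⟩
  intro δ δ' hδ' hle hδ γ hγ hγ0 hγm
  have hδpos : 0 < δ := lt_of_lt_of_le hδ' hle
  obtain ⟨-, -, -, -, hdisj, -, -, -⟩ := hO K x₀ E R δ hK hx₀ hF hKR hR hδpos (hδ.trans hδ₁R)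
  obtain ⟨hx₀O, -, -, -, -, -, -, -⟩ :=
    hO K x₀ E R δ' hK hx₀ hF hKR hR hδ' (hle.trans (hδ.trans hδ₁R))
  obtain ⟨n, hn, huc⟩ : ∃ n : ℕ, 0 < n ∧ ∀ u ∈ Icc (0 : ℝ) 1, ∀ v ∈ Icc (0 : ℝ) 1,
      |u - v| ≤ 1 / n → ‖γ u - γ v‖ ≤ δ := by
    have := isCompact_Icc.uniformContinuousOn_of_continuous hγ
    rw [Metric.uniformContinuousOn_iff] at this
    obtain ⟨η, hη, h⟩ := this δ hδpos
    obtain ⟨n, hn⟩ := exists_nat_gt (1 / η)
    have hnpos : (0 : ℝ) < n := lt_trans (by positivity) hn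
    refine ⟨n, by exact_mod_cast hnpos, fun u hu v hv huv => ?_⟩
    have h3 : (1 : ℝ) / n < η := by
      rw [div_lt_iff₀ hnpos]
      rw [div_lt_iff₀ hη] at hn
      linarith
    have := h u hu v hv (by rw [Real.dist_eq]; linarith)
    rw [dist_eq_norm] at this
    exact this.le
  have hnpos : (0 : ℝ) < n := by exact_mod_cast hn
  have hmem : ∀ i : ℕ, i ≤ n → (i : ℝ) / n ∈ Icc (0 : ℝ) 1 := by
    intro i hi
    refine ⟨by positivity, ?_⟩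
    rw [div_le_one hnpos]
    exact_mod_cast hi
  have hs : ∀ i : ℕ, ∃ s : ℝ, i ≤ n → s ∈ Icc (0 : ℝ) ((i : ℝ) / n) ∧ γ s ∈ Od E R x₀ δ' ∧
      ∀ u ∈ Icc s ((i : ℝ) / n), ‖γ u - γ ((i : ℝ) / n)‖ ≤ 2 * δ := by
    intro i
    by_cases hi : i ≤ n
    · obtain ⟨s, hs1, hs2, hs3⟩ := h2 δ δ' hδ' hle hδ γ hγ hγ0 hγm _ (hmem i hi)
      exact ⟨s, fun _ => ⟨hs1, hs2, hs3⟩⟩
    · exact ⟨0, fun h => absurd h hi⟩
  choose s hs using hs
  have hs0 : s 0 = 0 := by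
    have := (hs 0 (Nat.zero_le n)).1
    simpa using this
  have hsub : ∀ i : ℕ, i ≤ n → Icc (s i) ((i : ℝ) / n) ⊆ Icc (0 : ℝ) 1 := by
    intro i hi u hu
    exact ⟨(hs i hi).1.1.trans hu.1, hu.2.trans (hmem i hi).2⟩
  have hsub2 : ∀ i : ℕ, i < n → Icc ((i : ℝ) / n) (((i + 1 : ℕ) : ℝ) / n) ⊆ Icc (0 : ℝ) 1 := by
    intro i hi u hu
    exact ⟨(hmem i hi.le).1.trans hu.1, hu.2.trans (hmem (i + 1) hi).2⟩
  have hstep : ∀ i : ℕ, i < n → ∀ u ∈ Icc ((i : ℝ) / n) (((i + 1 : ℕ) : ℝ) / n),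
      ‖γ u - γ ((i : ℝ) / n)‖ ≤ δ := by
    intro i hi u hu
    refine huc u (hsub2 i hi hu) _ (hmem i hi.le) ?_
    have h3 : ((i + 1 : ℕ) : ℝ) / n = (i : ℝ) / n + 1 / n := by push_cast; ring
    rw [h3] at hu
    rw [abs_of_nonneg (by linarith [hu.1])]
    linarith [hu.2]
  have hle1 : ∀ i : ℕ, (i : ℝ) / n ≤ ((i + 1 : ℕ) : ℝ) / n := by
    intro i
    apply div_le_div_of_nonneg_right _ hnpos.le
    push_cast
    linarith
  obtain ⟨γ', h3, h4, -, h6⟩ := job_iter_step (E := E) (R := R) (x₀ := x₀) (δ := δ) (δ' := δ') (γ := γ)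
    hn (fun i => γ (s i)) (by simp only [hs0]; exact hγ0)
    (by simp only [hs0, hγ0]; exact hx₀O)
    (by simp only [hs0, sub_self, norm_zero]; positivity)
    (by
      intro i hi
      have hi1 := hs i hi.le
      have hi2 := hs (i + 1) hi
      refine hKL1 K x₀ E R δ δ' hK hx₀ hF hKR hR hδ' hle (hδ.trans hδ₁R) _ _
        (γ '' Icc (s i) ((i : ℝ) / n) ∪ γ '' Icc ((i : ℝ) / n) (((i + 1 : ℕ) : ℝ) / n) ∪
          γ '' Icc (s (i + 1)) (((i + 1 : ℕ) : ℝ) / n)) hi1.2.1 hi2.2.1 ?_ ?_ ?_ ?_ ?_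
      · have c1 : IsPreconnected (γ '' Icc (s i) ((i : ℝ) / n)) :=
          isPreconnected_Icc.image _ (hγ.mono (hsub i hi.le))
        have c2 : IsPreconnected (γ '' Icc ((i : ℝ) / n) (((i + 1 : ℕ) : ℝ) / n)) :=
          isPreconnected_Icc.image _ (hγ.mono (hsub2 i hi))
        have c3 : IsPreconnected (γ '' Icc (s (i + 1)) (((i + 1 : ℕ) : ℝ) / n)) :=
          isPreconnected_Icc.image _ (hγ.mono (hsub (i + 1) hi))
        refine IsPreconnected.union (γ (((i + 1 : ℕ) : ℝ) / n)) ?_ ?_ ?_ c3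
        · exact Or.inr ⟨_, ⟨hle1 i, le_refl _⟩, rfl⟩
        · exact ⟨_, ⟨hi2.1.2, le_refl _⟩, rfl⟩
        · refine IsPreconnected.union (γ ((i : ℝ) / n)) ?_ ?_ c1 c2
          · exact ⟨_, ⟨hi1.1.2, le_refl _⟩, rfl⟩
          · exact ⟨_, ⟨le_refl _, hle1 i⟩, rfl⟩
      · exact Or.inl (Or.inl ⟨_, ⟨le_refl _, hi1.1.2⟩, rfl⟩)
      · exact Or.inr ⟨_, ⟨le_refl _, hi2.1.2⟩, rfl⟩
      · refine Disjoint.mono_left ?_ hdisj
        rintro _ ((⟨u, hu, rfl⟩ | ⟨u, hu, rfl⟩) | ⟨u, hu, rfl⟩)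
        · exact hγm u (hsub i hi.le hu)
        · exact hγm u (hsub2 i hi hu)
        · exact hγm u (hsub (i + 1) hi hu)
      · have hz : ‖γ (s i) - γ ((i : ℝ) / n)‖ ≤ 2 * δ := hi1.2.2 _ ⟨le_refl _, hi1.1.2⟩
        rintro _ ((⟨u, hu, rfl⟩ | ⟨u, hu, rfl⟩) | ⟨u, hu, rfl⟩)
        · have := hi1.2.2 u hu
          rw [mem_closedBall, dist_eq_norm]
          calc ‖γ u - γ (s i)‖ = ‖(γ u - γ ((i : ℝ) / n)) - (γ (s i) - γ ((i : ℝ) / n))‖ := by ring_nf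
            _ ≤ ‖γ u - γ ((i : ℝ) / n)‖ + ‖γ (s i) - γ ((i : ℝ) / n)‖ := norm_sub_le _ _
            _ ≤ 5 * δ := by linarith
        · have := hstep i hi u hu
          rw [mem_closedBall, dist_eq_norm]
          calc ‖γ u - γ (s i)‖ = ‖(γ u - γ ((i : ℝ) / n)) - (γ (s i) - γ ((i : ℝ) / n))‖ := by ring_nf
            _ ≤ ‖γ u - γ ((i : ℝ) / n)‖ + ‖γ (s i) - γ ((i : ℝ) / n)‖ := norm_sub_le _ _
            _ ≤ 5 * δ := by linarith
        · have h7 := hi2.2.2 u hu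
          have h8 := hstep i hi _ ⟨hle1 i, le_refl _⟩
          rw [mem_closedBall, dist_eq_norm]
          calc ‖γ u - γ (s i)‖ = ‖(γ u - γ (((i + 1 : ℕ) : ℝ) / n)) +
                (γ (((i + 1 : ℕ) : ℝ) / n) - γ ((i : ℝ) / n)) - (γ (s i) - γ ((i : ℝ) / n))‖ := by ring_nf
            _ ≤ ‖(γ u - γ (((i + 1 : ℕ) : ℝ) / n)) +
                (γ (((i + 1 : ℕ) : ℝ) / n) - γ ((i : ℝ) / n))‖ + ‖γ (s i) - γ ((i : ℝ) / n)‖ := norm_sub_le _ _
            _ ≤ ‖γ u - γ (((i + 1 : ℕ) : ℝ) / n)‖ + ‖γ (((i + 1 : ℕ) : ℝ) / n) - γ ((i : ℝ) / n)‖ +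
                ‖γ (s i) - γ ((i : ℝ) / n)‖ := by
                  gcongr
                  exact norm_add_le _ _
            _ ≤ 5 * δ := by linarith)
    (by
      intro i hi t ht
      have hi1 := hs i hi.le
      have hz : ‖γ (s i) - γ ((i : ℝ) / n)‖ ≤ 2 * δ := hi1.2.2 _ ⟨le_refl _, hi1.1.2⟩
      have := hstep i hi t ht
      calc ‖γ (s i) - γ t‖ = ‖(γ (s i) - γ ((i : ℝ) / n)) - (γ t - γ ((i : ℝ) / n))‖ := by ring_nf
        _ ≤ ‖γ (s i) - γ ((i : ℝ) / n)‖ + ‖γ t - γ ((i : ℝ) / n)‖ := norm_sub_le _ _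
        _ ≤ 3 * δ := by linarith) n le_rfl
  have h1 : (n : ℝ) / n = 1 := div_self hnpos.ne'
  rw [h1] at h3 h6
  exact ⟨γ', h3, h4, fun t ht => (h6 t ht).1, fun t ht => (h6 t ht).2⟩

end Pool.Agent.Helper430.NP
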