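import Pool.Agent.Helper430.NP.Defs

set_option autoImplicit false
open MeasureTheory Set Filter Topology Complex Metric

namespace Pool.Agent.Helper430.NP
/-- radial profile -/
noncomputable def job_ker_f (R : ℝ) : ℝ → ℝ := (Iic R).indicator (fun y => y⁻¹)

theorem job_ker_eq (R : ℝ) (z ζ : ℂ) :
    job_ker_f R ‖ζ - z‖ = (closedBall z R).indicator (fun ζ => ‖ζ - z‖⁻¹) ζ := by
  unfold job_ker_f
  by_cases h : ‖ζ - z‖ ≤ R
  · rw [indicator_of_mem (show ‖ζ - z‖ ∈ Iic R from h), indicator_of_mem]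
    rw [mem_closedBall, dist_eq_norm]
    exact h
  · rw [indicator_of_notMem (show ‖ζ - z‖ ∉ Iic R from h), indicator_of_notMem]
    rw [mem_closedBall, dist_eq_norm]
    exact h

theorem job_ker_prof (R : ℝ) :
    ∀ y ∈ Ioi (0 : ℝ), y ^ (Module.finrank ℝ ℂ - 1) • job_ker_f R y =
      (Ioc 0 R).indicator (fun _ => (1 : ℝ)) y := by
  intro y hy
  rw [Complex.finrank_real_complex]
  unfold job_ker_f
  have hy0 : (0 : ℝ) < y := hy
  by_cases h : y ≤ R
  · rw [indicator_of_mem (show y ∈ Iic R from h), indicator_of_mem (show y ∈ Ioc 0 R from ⟨hy0, h⟩)]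
    simp only [smul_eq_mul]
    norm_num
    field_simp
  · rw [indicator_of_notMem (show y ∉ Iic R from h),
      indicator_of_notMem (show y ∉ Ioc 0 R from fun h' => h h'.2), smul_zero]

theorem job_ker_int0 (R : ℝ) : Integrable (fun ζ : ℂ => job_ker_f R ‖ζ‖) := by
  rw [integrable_fun_norm_addHaar volume (f := job_ker_f R),
    integrableOn_congr_fun (job_ker_prof R) measurableSet_Ioi]
  apply Integrable.integrableOn
  rw [integrable_indicator_iff measurableSet_Ioc]
  exact (integrableOn_const_iff (by simp)).2 (Or.inr (by simp))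

theorem job_ker_val0 (R : ℝ) (hR : 0 < R) : ∫ ζ : ℂ, job_ker_f R ‖ζ‖ = 2 * Real.pi * R := by
  rw [integral_fun_norm_addHaar volume (job_ker_f R),
    setIntegral_congr_fun measurableSet_Ioi (job_ker_prof R),
    setIntegral_indicator measurableSet_Ioc, Complex.finrank_real_complex]
  have h1 : Ioi (0 : ℝ) ∩ Ioc 0 R = Ioc 0 R := by
    ext y
    simp only [mem_inter_iff, mem_Ioi, mem_Ioc]
    tauto
  rw [h1]
  have h2 : volume.real (ball (0 : ℂ) 1) = Real.pi := by
    rw [Measure.real, Complex.volume_ball]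
    simp
  rw [h2]
  simp only [integral_const, MeasurableSet.univ, measureReal_restrict_apply, univ_inter,
    Real.volume_real_Ioc, sub_zero, smul_eq_mul, mul_one, nsmul_eq_mul]
  rw [max_eq_left hR.le]
  push_cast
  ring

theorem job_ker_ball (z : ℂ) (R : ℝ) (hR : 0 < R) :
    IntegrableOn (fun ζ : ℂ => ‖ζ - z‖⁻¹) (closedBall z R) ∧
    ∫ ζ in closedBall z R, ‖ζ - z‖⁻¹ = 2 * Real.pi * R := by
  have e : (fun ζ : ℂ => job_ker_f R ‖ζ - z‖) =
      (closedBall z R).indicator (fun ζ => ‖ζ - z‖⁻¹) := by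
    funext ζ
    exact job_ker_eq R z ζ
  constructor
  · rw [← integrable_indicator_iff measurableSet_closedBall, ← e]
    exact (job_ker_int0 R).comp_sub_right z
  · rw [← integral_indicator measurableSet_closedBall, ← e,
      integral_sub_right_eq_self (fun ζ : ℂ => job_ker_f R ‖ζ‖) z]
    exact job_ker_val0 R hR

theorem job_ker  : Stmt_Ker := by
  intro q ρ hρ z
  by_cases h : ‖q - z‖ ≤ 2 * ρ
  · have hsub : closedBall q ρ ⊆ closedBall z (3 * ρ) := by
      apply closedBall_subset_closedBall'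
      rw [dist_eq_norm]
      linarith
    obtain ⟨h1, h2⟩ := job_ker_ball z (3 * ρ) (by linarith)
    refine ⟨h1.mono_set hsub, ?_⟩
    calc ∫ ζ in closedBall q ρ, ‖ζ - z‖⁻¹ ≤ ∫ ζ in closedBall z (3 * ρ), ‖ζ - z‖⁻¹ := by
          apply setIntegral_mono_set h1
          · exact Eventually.of_forall (fun ζ => inv_nonneg.2 (norm_nonneg _))
          · exact hsub.eventuallyLE
      _ = 6 * Real.pi * ρ := by rw [h2]; ring
  · rw [not_le] at h
    have hb : ∀ ζ ∈ closedBall q ρ, ‖(‖ζ - z‖⁻¹ : ℝ)‖ ≤ ρ⁻¹ := by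
      intro ζ hζ
      rw [mem_closedBall, dist_eq_norm] at hζ
      have h1 : ‖q - z‖ ≤ ‖q - ζ‖ + ‖ζ - z‖ := by
        have : q - z = (q - ζ) + (ζ - z) := by ring
        rw [this]
        exact norm_add_le _ _
      rw [norm_sub_rev] at hζ
      have h2 : ρ ≤ ‖ζ - z‖ := by linarith
      rw [Real.norm_eq_abs, abs_of_nonneg (inv_nonneg.2 (norm_nonneg _))]
      exact inv_anti₀ hρ h2
    have hfin : volume (closedBall q ρ) < ⊤ := by
      rw [Complex.volume_closedBall]
      exact ENNReal.mul_lt_top (by simp) (by simp)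
    have hmeas : AEStronglyMeasurable (fun ζ : ℂ => ‖ζ - z‖⁻¹) volume := by
      apply Measurable.aestronglyMeasurable
      fun_prop
    refine ⟨?_, ?_⟩
    · apply Measure.integrableOn_of_bounded hfin.ne hmeas (M := ρ⁻¹)
      filter_upwards [ae_restrict_mem measurableSet_closedBall] with ζ hζ
      exact hb ζ hζ
    · have h3 := norm_setIntegral_le_of_norm_le_const hfin hb
      have h4 : volume.real (closedBall q ρ) = Real.pi * ρ ^ 2 := by
        rw [Measure.real, Complex.volume_closedBall, ENNReal.toReal_mul, ENNReal.toReal_pow,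
          ENNReal.toReal_ofReal hρ.le]
        simp
        ring
      rw [h4] at h3
      have h5 := (le_abs_self _).trans h3
      refine h5.trans ?_
      have : ρ⁻¹ * (Real.pi * ρ ^ 2) = Real.pi * ρ := by field_simp
      rw [this]
      nlinarith [Real.pi_pos, mul_pos Real.pi_pos hρ]

end Pool.Agent.Helper430.NP
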