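import Pool.Agent.Helper430.NP.Defs

set_option autoImplicit false
open MeasureTheory Set Filter Topology Complex Metric

namespace Pool.Agent.Helper430.NP
theorem kl1_clopen (Y A : Set ℂ) (w : ℂ) (hY : IsCompact Y) (hA : IsClosed A) (hw : w ∈ Y)
    (hd : Disjoint (connectedComponentIn Y w) A) :
    ∃ N₁ N₂ : Set ℂ, IsClosed N₁ ∧ IsClosed N₂ ∧ Y = N₁ ∪ N₂ ∧ Disjoint N₁ N₂ ∧ w ∈ N₁ ∧
      Disjoint N₁ A := by
  classical
  have : CompactSpace Y := isCompact_iff_compactSpace.1 hY
  have hq : Continuous (ConnectedComponents.mk : Y → ConnectedComponents Y) :=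
    ConnectedComponents.continuous_coe
  obtain ⟨B, hB⟩ : ∃ B : Set (ConnectedComponents Y),
      B = ConnectedComponents.mk '' ((↑) ⁻¹' A : Set Y) := ⟨_, rfl⟩
  have hBc : IsClosed B := by
    rw [hB]
    have h1 : IsClosed ((↑) ⁻¹' A : Set Y) := hA.preimage continuous_subtype_val
    exact (h1.isCompact.image hq).isClosed
  have hwB : (ConnectedComponents.mk (⟨w, hw⟩ : Y)) ∈ Bᶜ := by
    rw [hB]
    rintro ⟨a, ha, haw⟩
    rw [ConnectedComponents.coe_eq_coe] at haw
    have h2 : a ∈ connectedComponent (⟨w, hw⟩ : Y) := by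
      rw [← haw]; exact mem_connectedComponent
    have h3 : (a : ℂ) ∈ connectedComponentIn Y w := by
      rw [connectedComponentIn_eq_image hw]
      exact ⟨a, h2, rfl⟩
    exact Set.disjoint_left.1 hd h3 ha
  obtain ⟨V, hV, hwV, hVB⟩ := compact_exists_isClopen_in_isOpen hBc.isOpen_compl hwB
  obtain ⟨N, hN⟩ : ∃ N : Set Y, N = ConnectedComponents.mk ⁻¹' V := ⟨_, rfl⟩
  have hNc : IsClopen N := by rw [hN]; exact hV.preimage hq
  have hemb := hY.isClosed.isClosedEmbedding_subtypeVal
  refine ⟨(↑) '' N, (↑) '' Nᶜ, hemb.isClosedMap _ hNc.isClosed,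
    hemb.isClosedMap _ hNc.compl.isClosed, ?_, ?_, ?_, ?_⟩
  · rw [← image_union, union_compl_self, image_univ, Subtype.range_coe]
  · rw [Set.disjoint_left]
    rintro _ ⟨a, ha, rfl⟩ ⟨b, hb, hab⟩
    rw [Subtype.val_injective hab] at hb
    exact hb ha
  · exact ⟨⟨w, hw⟩, by rw [hN]; exact hwV, rfl⟩
  · rw [Set.disjoint_left]
    rintro _ ⟨a, ha, rfl⟩ haA
    rw [hN] at ha
    exact hVB ha (by rw [hB]; exact ⟨a, haA, rfl⟩)

theorem kl1_isClosed_ccIn (Y : Set ℂ) (w : ℂ) (hY : IsClosed Y) :
    IsClosed (connectedComponentIn Y w) := by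
  by_cases hw : w ∈ Y
  · rw [connectedComponentIn_eq_image hw]
    exact hY.isClosedEmbedding_subtypeVal.isClosedMap _ isClosed_connectedComponent
  · rw [connectedComponentIn_eq_empty hw]
    exact isClosed_empty

theorem job_kl1 (hP1 : Stmt_P1) (hO : Stmt_O) : Stmt_KL1 := by
  intro K x₀ E R δ δ' hK hx₀ hF hKR hR hδ' hδδ' hδR z y S hz hy hS hzS hyS hSF hSz
  have hδ : 0 < δ := lt_of_lt_of_le hδ' hδδ'
  obtain ⟨hO1, hO2, hO3, hO4, hO5, hO6, hO7, hO8⟩ :=
    hO K x₀ E R δ' hK hx₀ hF hKR hR hδ' (hδδ'.trans hδR)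
  obtain ⟨F, hFdef⟩ : ∃ F, F = Fd E R δ' := ⟨_, rfl⟩
  obtain ⟨O, hOdef⟩ : ∃ O, O = Od E R x₀ δ' := ⟨_, rfl⟩
  have hOcc : O = connectedComponentIn Fᶜ x₀ := by rw [hOdef, hFdef]; rfl
  rw [← hOdef] at hz hy hO1 hO2 hO3 hO4 hO5 ⊢
  rw [← hFdef] at hO5 hO6
  have hzF : z ∉ F := Set.disjoint_left.1 hO5 hz
  have hyF : y ∉ F := Set.disjoint_left.1 hO5 hy
  have hyz : dist y z ≤ 5 * δ := hSz hyS
  have hOz : O = connectedComponentIn Fᶜ z := by
    rw [hOcc]
    exact connectedComponentIn_eq (by rw [← hOcc]; exact hz)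
  obtain ⟨W, hW⟩ : ∃ W, W = ball z (7 * δ) ∩ Fᶜ := ⟨_, rfl⟩
  have hWo : IsOpen W := by
    rw [hW]; exact isOpen_ball.inter hO6.isClosed.isOpen_compl
  have hzW : z ∈ W := by
    rw [hW]; exact ⟨mem_ball_self (by linarith), hzF⟩
  by_cases hyG : y ∈ connectedComponentIn W z
  · have hGo : IsOpen (connectedComponentIn W z) := hWo.connectedComponentIn
    have hGc : IsConnected (connectedComponentIn W z) := isConnected_connectedComponentIn_iff.2 hzW
    have hGp : IsPathConnected (connectedComponentIn W z) :=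
      (hGo.isConnected_iff_isPathConnected).1 hGc
    have hj : JoinedIn (connectedComponentIn W z) z y :=
      hGp.joinedIn z (mem_connectedComponentIn hzW) y hyG
    refine hj.mono ?_
    have hsub : connectedComponentIn W z ⊆ W := connectedComponentIn_subset _ _
    refine subset_inter ?_ (hsub.trans (by rw [hW]; exact inter_subset_left))
    rw [hOz]
    exact hGc.isPreconnected.subset_connectedComponentIn (mem_connectedComponentIn hzW)
      (hsub.trans (by rw [hW]; exact inter_subset_right))
  · exfalso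
    obtain ⟨Y, hYdef⟩ : ∃ Y, Y = F ∩ closedBall z (7 * δ) := ⟨_, rfl⟩
    obtain ⟨X, hXdef⟩ : ∃ X, X = Y ∪ sphere z (7 * δ) := ⟨_, rfl⟩
    have hYc : IsCompact Y := by rw [hYdef]; exact hO6.inter_right isClosed_closedBall
    have hXc : IsCompact X := by rw [hXdef]; exact hYc.union (isCompact_sphere _ _)
    have hzX : z ∉ X := by
      rw [hXdef, hYdef]
      rintro (h | h)
      · exact hzF h.1
      · rw [mem_sphere, dist_self] at h
        linarith
    have hyX : y ∉ X := by
      rw [hXdef, hYdef]
      rintro (h | h)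
      · exact hyF h.1
      · rw [mem_sphere] at h
        linarith
    have hyC : y ∉ connectedComponentIn Xᶜ z := by
      intro hyC
      have hCp : IsPreconnected (connectedComponentIn Xᶜ z) := isPreconnected_connectedComponentIn
      have hzC : z ∈ connectedComponentIn Xᶜ z := mem_connectedComponentIn hzX
      have hCX : connectedComponentIn Xᶜ z ⊆ Xᶜ := connectedComponentIn_subset _ _
      have hCb : connectedComponentIn Xᶜ z ⊆ ball z (7 * δ) := by
        refine hCp.subset_left_of_subset_union isOpen_ball (v := (closedBall z (7 * δ))ᶜ)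
          isClosed_closedBall.isOpen_compl ?_ ?_ ⟨z, hzC, mem_ball_self (by linarith)⟩
        · rw [Set.disjoint_left]
          intro a ha hb
          exact hb (ball_subset_closedBall ha)
        · intro a ha
          by_cases h : a ∈ closedBall z (7 * δ)
          · left
            rw [mem_closedBall] at h
            rw [mem_ball]
            refine lt_of_le_of_ne h ?_
            intro h'
            apply hCX ha
            rw [hXdef]
            right
            exact h'
          · right; exact h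
      have hCW : connectedComponentIn Xᶜ z ⊆ W := by
        intro a ha
        rw [hW]
        refine ⟨hCb ha, ?_⟩
        intro haF
        apply hCX ha
        rw [hXdef, hYdef]
        left
        exact ⟨haF, ball_subset_closedBall (hCb ha)⟩
      exact hyG (hCp.subset_connectedComponentIn hzC hCW hyC)
    obtain ⟨x, hxX, hxT⟩ := hP1 X z y hXc hzX hyX hyC
    obtain ⟨T, hT⟩ : ∃ T, T = connectedComponentIn X x := ⟨_, rfl⟩
    rw [← hT] at hxT
    have hTp : IsPreconnected T := by rw [hT]; exact isPreconnected_connectedComponentIn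
    have hTX : T ⊆ X := by rw [hT]; exact connectedComponentIn_subset _ _
    by_cases hTs : Disjoint T (sphere z (7 * δ))
    · have hTF : T ⊆ F := by
        intro a ha
        have h1 := hTX ha
        rw [hXdef, hYdef] at h1
        rcases h1 with h1 | h1
        · exact h1.1
        · exact absurd h1 (Set.disjoint_left.1 hTs ha)
      apply hxT
      have hOT : O ⊆ Tᶜ := by
        intro a ha haT
        exact Set.disjoint_left.1 hO5 ha (hTF haT)
      exact hO3.isPreconnected.subset_connectedComponentIn hz hOT hy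
    · rw [Set.not_disjoint_iff] at hTs
      obtain ⟨s, hsT, hss⟩ := hTs
      have hST : ∃ w, w ∈ S ∧ w ∈ T := by
        by_contra hcon
        push Not at hcon
        apply hxT
        exact hS.subset_connectedComponentIn hzS (fun a ha haT => hcon a ha haT) hyS
      obtain ⟨w, hwS, hwT⟩ := hST
      have hwz : dist w z ≤ 5 * δ := hSz hwS
      have hwY : w ∈ Y := by
        have h1 := hTX hwT
        rw [hXdef] at h1
        rcases h1 with h1 | h1
        · exact h1
        · rw [mem_sphere] at h1
          linarith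
      have hYF : Y ⊆ F := by rw [hYdef]; exact inter_subset_left
      by_cases hD : Disjoint (connectedComponentIn Y w) (sphere z (7 * δ))
      · obtain ⟨N₁, N₂, hN1, hN2, hYN, hNN, hwN, hNs⟩ :=
          kl1_clopen Y (sphere z (7 * δ)) w hYc isClosed_sphere hwY hD
        have h1 : T ⊆ N₁ ∪ (N₂ ∪ sphere z (7 * δ)) := by
          rw [← union_assoc, ← hYN, ← hXdef]
          exact hTX
        have h2 := isPreconnected_closed_iff.1 hTp N₁ (N₂ ∪ sphere z (7 * δ)) hN1
          (hN2.union isClosed_sphere) h1 ⟨w, hwT, hwN⟩ ⟨s, hsT, Or.inr hss⟩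
        obtain ⟨a, -, ha1, ha2⟩ := h2
        rcases ha2 with ha2 | ha2
        · exact Set.disjoint_left.1 hNN ha1 ha2
        · exact Set.disjoint_left.1 hNs ha1 ha2
      · rw [Set.not_disjoint_iff] at hD
        obtain ⟨p, hpT, hps⟩ := hD
        obtain ⟨Tw, hTw⟩ : ∃ Tw, Tw = connectedComponentIn Y w := ⟨_, rfl⟩
        rw [← hTw] at hpT
        have hTwY : Tw ⊆ Y := by rw [hTw]; exact connectedComponentIn_subset _ _
        have hTwc : IsCompact Tw := by
          refine hYc.of_isClosed_subset ?_ hTwY
          rw [hTw]; exact kl1_isClosed_ccIn Y w hYc.isClosed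
        have hTwp : IsPreconnected Tw := by rw [hTw]; exact isPreconnected_connectedComponentIn
        have hwTw : w ∈ Tw := by rw [hTw]; exact mem_connectedComponentIn hwY
        have hTwE : Tw ⊆ E δ' := by
          intro a ha
          have h1 := hYF (hTwY ha)
          rw [hFdef] at h1
          exact h1.1
        have hdiam : δ ≤ Metric.diam Tw := by
          have h1 : dist p w ≤ Metric.diam Tw :=
            Metric.dist_le_diam_of_mem hTwc.isBounded hpT hwTw
          have h2 : dist p z = 7 * δ := hps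
          have h3 : dist p z ≤ dist p w + dist w z := dist_triangle _ _ _
          linarith
        have hwE : w ∈ E δ := hF.absorb Tw δ δ' hδ hδ' hTwc hTwp hTwE hdiam hwTw
        have hwR : w ∈ closedBall (0 : ℂ) R := by
          have h1 := hYF hwY
          rw [hFdef] at h1
          exact h1.2
        exact Set.disjoint_left.1 hSF hwS ⟨hwE, hwR⟩

end Pool.Agent.Helper430.NP
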