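import Pool.Agent.Helper430.NP.Defs

set_option autoImplicit false
open MeasureTheory Set Filter Topology Complex Metric

namespace Pool.Agent.Helper430.NP
theorem kl2_sep (D C : Set ℂ) (hD : IsPreconnected D) (hC : IsClosed C) (hdf : Disjoint D (frontier C))
    (x : ℂ) (hx : x ∈ D) (hxC : x ∉ C) : D ⊆ Cᶜ := by
  intro z hz hzC
  have h1 : D ⊆ interior C ∪ Cᶜ := by
    intro w hw
    by_cases hwC : w ∈ C
    · left
      by_contra hni
      have : w ∈ frontier C := by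
        rw [frontier, hC.closure_eq]
        exact ⟨hwC, hni⟩
      exact Set.disjoint_left.1 hdf hw this
    · right; exact hwC
  have h2 : (D ∩ interior C).Nonempty := by
    refine ⟨z, hz, ?_⟩
    rcases h1 hz with h | h
    · exact h
    · exact absurd hzC h
  have h3 : (D ∩ Cᶜ).Nonempty := ⟨x, hx, hxC⟩
  obtain ⟨w, _, hw1, hw2⟩ := hD (interior C) Cᶜ isOpen_interior hC.isOpen_compl h1 h2 h3
  exact hw2 (interior_subset hw1)

theorem kl2_compl_ball (R : ℝ) : IsPreconnected ((ball (0:ℂ) R)ᶜ) := by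
  have h1 : (ball (0:ℂ) R)ᶜ = (fun p : ℝ × ℝ => (p.1 : ℂ) * Complex.exp (p.2 * I)) '' ((Ici (max R 0)) ×ˢ univ) := by
    ext z
    simp only [mem_compl_iff, mem_ball_zero_iff, not_lt, mem_image, mem_prod, mem_Ici, mem_univ, and_true, Prod.exists]
    constructor
    · intro h
      refine ⟨‖z‖, Complex.arg z, max_le h (norm_nonneg _), ?_⟩
      exact Complex.norm_mul_exp_arg_mul_I z
    · rintro ⟨r, θ, hr, rfl⟩
      rw [norm_mul, Complex.norm_exp_ofReal_mul_I, mul_one, Complex.norm_real, Real.norm_eq_abs]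
      exact (le_max_left _ _).trans (hr.trans (le_abs_self r))
  rw [h1]
  apply IsPreconnected.image
  · exact (isPreconnected_Ici).prod isPreconnected_univ
  · apply Continuous.continuousOn
    fun_prop

theorem kl2_far (C : Set ℂ) (hC : IsCompact C) (p : ℂ) (hp : p ∈ frontier C) (y : ℂ) (hy : y ∈ C) :
    ‖y - p‖ ≤ Metric.diam (frontier C) := by
  have hcont : ContinuousOn (fun z => ‖z - p‖) C := by fun_prop
  obtain ⟨w, hw, hmax⟩ := hC.exists_isMaxOn ⟨y, hy⟩ hcont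
  have hfb : Bornology.IsBounded (frontier C) :=
    hC.isBounded.subset (hC.isClosed.frontier_subset)
  have hwf : w ∈ frontier C := by
    rw [frontier, hC.isClosed.closure_eq]
    refine ⟨hw, fun hint => ?_⟩
    by_cases hwp : w = p
    · rw [hwp] at hint
      exact hp.2 hint
    have hpos : 0 < ‖w - p‖ := norm_pos_iff.2 (sub_ne_zero.2 hwp)
    obtain ⟨ε, hε, hball⟩ := Metric.isOpen_iff.1 isOpen_interior w hint
    have h1 : w + ((ε / 2 / ‖w - p‖ : ℝ) : ℂ) * (w - p) ∈ C := by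
      apply interior_subset
      apply hball
      rw [mem_ball, dist_eq_norm, add_sub_cancel_left, norm_mul, Complex.norm_real,
        Real.norm_of_nonneg (by positivity), div_mul_cancel₀ _ hpos.ne']
      linarith
    have h2 := hmax h1
    simp only at h2
    have h3 : w + ((ε / 2 / ‖w - p‖ : ℝ) : ℂ) * (w - p) - p = ((1 + ε / 2 / ‖w - p‖ : ℝ) : ℂ) * (w - p) := by
      push_cast; ring
    rw [mem_ofPred_eq, h3, norm_mul, Complex.norm_real, Real.norm_of_nonneg (by positivity)] at h2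
    have : 0 < ε / 2 / ‖w - p‖ := by positivity
    nlinarith
  have h4 : ‖y - p‖ ≤ ‖w - p‖ := hmax hy
  refine h4.trans ?_
  rw [← dist_eq_norm]
  exact Metric.dist_le_diam_of_mem hfb hwf hp

theorem job_kl2 (hP3 : Stmt_P3) (hO : Stmt_O) : Stmt_KL2 := by
  intro K x₀ E R hK hx₀ hFam hKR hR
  obtain ⟨δ₀, hδ₀, hencl⟩ := hFam.encl
  refine ⟨min (δ₀ / 2) R, lt_min (by linarith) hR, min_le_right _ _, ?_⟩
  intro δ δ' hδ' hδ'δ hδ γ hγ hγ0 hγO t ht
  have hδR : δ ≤ R := hδ.trans (min_le_right _ _)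
  have hδ2 : δ ≤ δ₀ / 2 := hδ.trans (min_le_left _ _)
  have hδpos : 0 < δ := lt_of_lt_of_le hδ' hδ'δ
  obtain ⟨hO1, hO2, hO3, hO4, hO5, hO6, hO7, hO8⟩ := hO K x₀ E R δ' hK hx₀ hFam hKR hR hδ' (hδ'δ.trans hδR)
  obtain ⟨hQ1, hQ2, hQ3, hQ4, hQ5, hQ6, hQ7, hQ8⟩ := hO K x₀ E R δ hK hx₀ hFam hKR hR hδpos hδR
  set O' := Od E R x₀ δ' with hO'
  by_cases htO : γ t ∈ O'
  · refine ⟨t, ⟨ht.1, le_rfl⟩, htO, fun u hu => ?_⟩
    have : u = t := le_antisymm hu.2 hu.1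
    rw [this, sub_self, norm_zero]; linarith
  set A : Set ℝ := {s | s ∈ Icc 0 t ∧ γ s ∈ O'} with hA
  have h0A : (0:ℝ) ∈ A := ⟨⟨le_rfl, ht.1⟩, by rw [hγ0]; exact hO1⟩
  have hAb : BddAbove A := ⟨t, fun s hs => hs.1.2⟩
  set τ := sSup A with hτ
  have hτ0 : 0 ≤ τ := le_csSup hAb h0A
  have hτt : τ ≤ t := csSup_le ⟨0, h0A⟩ (fun s hs => hs.1.2)
  have hτ01 : τ ∈ Icc (0:ℝ) 1 := ⟨hτ0, hτt.trans ht.2⟩
  have hτO : γ τ ∉ O' := by
    intro hmem
    have hlt : τ < t := lt_of_le_of_ne hτt (fun h => htO (h ▸ hmem))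
    have hc := hγ τ hτ01
    have hnb : ∀ᶠ u in 𝓝[Icc 0 1] τ, γ u ∈ O' := hc.eventually (hO2.mem_nhds hmem)
    rw [eventually_nhdsWithin_iff, Metric.eventually_nhds_iff] at hnb
    obtain ⟨η, hη, hball⟩ := hnb
    have hu1 : τ < min t (τ + η / 2) := lt_min hlt (by linarith)
    have hu2 : min t (τ + η / 2) ∈ Icc (0:ℝ) 1 := ⟨hτ0.trans hu1.le, (min_le_left _ _).trans ht.2⟩
    have hu3 : γ (min t (τ + η / 2)) ∈ O' := by
      apply hball _ hu2
      rw [Real.dist_eq, abs_of_nonneg (by linarith)]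
      have := min_le_right t (τ + η / 2)
      linarith
    have hu4 : min t (τ + η / 2) ∈ A := ⟨⟨hu2.1, min_le_left _ _⟩, hu3⟩
    exact absurd (le_csSup hAb hu4) (not_le.2 hu1)
  have hout : ∀ u ∈ Icc τ t, γ u ∉ O' := by
    intro u hu hmem
    rcases eq_or_lt_of_le hu.1 with h | h
    · rw [← h] at hmem; exact hτO hmem
    · exact absurd (le_csSup hAb (⟨⟨hτ0.trans hu.1, hu.2⟩, hmem⟩ : u ∈ A)) (not_le.2 h)
  have hcl : γ τ ∈ closure O' := by
    have h1 : τ ∈ closure A := csSup_mem_closure ⟨0, h0A⟩ hAb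
    have h2 : ContinuousWithinAt γ A τ := (hγ τ hτ01).mono (fun s hs => ⟨hs.1.1, hs.1.2.trans ht.2⟩)
    exact h2.mem_closure h1 (fun s hs => hs.2)
  set RY := connectedComponentIn O'ᶜ (γ τ) with hRY
  have hYsub : γ '' (Icc τ t) ⊆ RY := by
    apply IsPreconnected.subset_connectedComponentIn
    · apply isPreconnected_Icc.image
      exact hγ.mono (fun s hs => ⟨hτ0.trans hs.1, hs.2.trans ht.2⟩)
    · exact ⟨τ, ⟨le_rfl, hτt⟩, rfl⟩
    · rintro _ ⟨u, hu, rfl⟩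
      exact hout u hu
  obtain ⟨hRc, hRf, hRp, hRcl⟩ := hP3 O' (γ τ) hO2 hO3 hτO
  rw [← hRY] at hRc hRf hRp hRcl
  set T := frontier RY with hT
  have hτT : γ τ ∈ T := hRcl ⟨hcl, hYsub ⟨τ, ⟨le_rfl, hτt⟩, rfl⟩⟩
  have hTF : T ⊆ Fd E R δ' := hRf.trans hO7
  have hTE : T ⊆ E δ' := fun z hz => (hTF hz).1
  have hTcl : IsClosed T := isClosed_frontier
  have hTcpt : IsCompact T := hO6.of_isClosed_subset hTcl hTF
  have hτnot : γ τ ∉ E δ := by
    intro hE
    have h1 : γ τ ∈ Od E R x₀ δ := hγO τ hτ01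
    exact Set.disjoint_left.1 hQ5 h1 ⟨hE, ball_subset_closedBall (hQ4 h1)⟩
  have hdiam : Metric.diam T < δ := by
    by_contra hcon
    exact hτnot (hFam.absorb T δ δ' hδpos hδ' hTcpt hRp hTE (not_lt.1 hcon) hτT)
  have hTR : T ⊆ RY := hRc.frontier_subset
  have hRO : RY ⊆ O'ᶜ := connectedComponentIn_subset _ _
  have hx₀R : x₀ ∉ RY := fun h => hRO h hO1
  have hRbdd : Bornology.IsBounded RY := by
    by_contra hnb
    have hnsub : ¬ RY ⊆ ball 0 R := fun h => hnb (isBounded_ball.subset h)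
    obtain ⟨z, hz, hzR⟩ := Set.not_subset.1 hnsub
    have h1 : (ball (0:ℂ) R)ᶜ ⊆ RY := by
      have h2 : RY = connectedComponentIn O'ᶜ z := connectedComponentIn_eq hz
      rw [h2]
      exact (kl2_compl_ball R).subset_connectedComponentIn hzR (compl_subset_compl.2 hO4)
    have hx₀T : x₀ ∈ Tᶜ := fun h => hx₀R (hTR h)
    have h3 : connectedComponentIn Tᶜ x₀ ⊆ RYᶜ := by
      apply kl2_sep _ RY isPreconnected_connectedComponentIn hRc _ x₀ (mem_connectedComponentIn hx₀T) hx₀R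
      rw [Set.disjoint_left]
      intro w hw hwf
      exact connectedComponentIn_subset _ _ hw hwf
    apply hencl T δ' hδ' hTcpt hRp hTE (by linarith)
    have h4 : connectedComponentIn Tᶜ x₀ ⊆ ball (0:ℂ) R := h3.trans (compl_subset_comm.1 h1)
    exact isBounded_ball.subset h4
  have hRcpt : IsCompact RY := Metric.isCompact_of_isClosed_isBounded hRc hRbdd
  have hnear : ∀ u ∈ Icc τ t, ‖γ u - γ τ‖ ≤ δ := by
    intro u hu
    exact (kl2_far RY hRcpt (γ τ) hτT (γ u) (hYsub ⟨u, hu, rfl⟩)).trans hdiam.le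
  -- choose s
  have hc := hγ τ hτ01
  have hnb : ∀ᶠ u in 𝓝[Icc 0 1] τ, γ u ∈ ball (γ τ) δ := hc.eventually (ball_mem_nhds _ hδpos)
  rw [eventually_nhdsWithin_iff, Metric.eventually_nhds_iff] at hnb
  obtain ⟨η, hη, hball⟩ := hnb
  obtain ⟨s, hsA, hsτ⟩ := exists_lt_of_lt_csSup ⟨0, h0A⟩ (show τ - η < sSup A by rw [← hτ]; linarith)
  have hsle : s ≤ τ := le_csSup hAb hsA
  refine ⟨s, hsA.1, hsA.2, fun u hu => ?_⟩
  have h1 : ‖γ u - γ τ‖ ≤ δ := by
    rcases le_total u τ with h | h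
    · have hu01 : u ∈ Icc (0:ℝ) 1 := ⟨hsA.1.1.trans hu.1, h.trans hτ01.2⟩
      have h2 : dist u τ < η := by
        rw [Real.dist_eq, abs_sub_comm, abs_of_nonneg (by linarith)]
        linarith [hu.1]
      have h3 := hball h2 hu01
      rw [mem_ball, dist_eq_norm] at h3
      exact h3.le
    · exact hnear u ⟨h, hu.2⟩
  have h2 : ‖γ t - γ τ‖ ≤ δ := hnear t ⟨hτt, le_rfl⟩
  calc ‖γ u - γ t‖ = ‖(γ u - γ τ) - (γ t - γ τ)‖ := by congr 1; ring
    _ ≤ ‖γ u - γ τ‖ + ‖γ t - γ τ‖ := norm_sub_le _ _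
    _ ≤ 2 * δ := by linarith

end Pool.Agent.Helper430.NP
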