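import Pool.Agent.Helper430.NP.Defs

set_option autoImplicit false
open MeasureTheory Set Filter Topology Complex Metric

namespace Pool.Agent.Helper430.NP
theorem mono_good {μ : Measure ℂ} {θ g : ℂ → ℂ} {z : ℂ} (hg : Measurable g)
    (hb : ∃ B : ℝ, ∀ ζ, ‖g ζ‖ ≤ B) (h : good μ θ z) : good μ (fun ζ => g ζ * θ ζ) z := by
  obtain ⟨B, hB⟩ := hb
  refine ⟨h.1, ?_⟩
  have h1 : Integrable (fun ζ => g ζ * (θ ζ / (ζ - z))) μ :=
    h.2.bdd_mul hg.aestronglyMeasurable (Filter.Eventually.of_forall hB)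
  apply h1.congr
  refine Filter.Eventually.of_forall fun ζ => ?_
  show g ζ * (θ ζ / (ζ - z)) = g ζ * θ ζ / (ζ - z)
  ring

theorem job_mono  : Stmt_Mono := by
  intro K μ C C' hA hC' hsub
  refine ⟨hC', fun θ hθ z hz hgood => hA.null θ hθ z (hsub hz) hgood, ?_⟩
  intro f M hf
  have hf' : HB C M f :=
    ⟨hf.diff.mono (compl_subset_compl.mpr hsub), fun z hz => hf.bd z (fun h => hz (hsub h))⟩
  obtain ⟨g, hg⟩ := hA.ext f M hf'
  refine ⟨g, hg.meas, hg.bdd, hg.mem, ?_⟩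
  intro θ hθ z hz hgood
  by_cases hzC : z ∈ C
  · rw [hA.null θ hθ z hzC hgood, mul_zero]
    exact hA.null _ (hg.mem θ hθ) z hzC (mono_good hg.meas hg.bdd hgood)
  · exact hg.rel θ hθ z hzC hgood

end Pool.Agent.Helper430.NP
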