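import Pool.Agent.Helper430.NP.Defs

set_option autoImplicit false
open MeasureTheory Set Filter Topology Complex Metric

namespace Pool.Agent.Helper430.NP
theorem job_net  : Stmt_Net := by
  classical
  intro C s hC hs
  obtain ⟨t, -, htf, htc⟩ := hC.finite_cover_balls (e := s / 3) (by positivity)
  set P : Set ℕ := {n | ∃ J : Finset ℂ, J.card = n ∧ (∀ q ∈ J, q ∈ C) ∧
    (∀ q ∈ J, ∀ q' ∈ J, q ≠ q' → s ≤ ‖q - q'‖)} with hP
  have hne : P.Nonempty := ⟨0, ∅, by simp, by simp, by simp⟩
  have hbd : BddAbove P := by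
    refine ⟨htf.toFinset.card, ?_⟩
    rintro n ⟨J, rfl, hJC, hJs⟩
    have hch : ∀ q : ℂ, ∃ x : ℂ, q ∈ J → x ∈ t ∧ q ∈ ball x (s / 3) := by
      intro q
      by_cases hq : q ∈ J
      · have := htc (hJC q hq)
        simp only [mem_iUnion, exists_prop] at this
        obtain ⟨x, hx, hqx⟩ := this
        exact ⟨x, fun _ => ⟨hx, hqx⟩⟩
      · exact ⟨0, fun h => absurd h hq⟩
    choose φ hφ using hch
    apply Finset.card_le_card_of_injOn φ
    · intro q hq
      rw [Finite.coe_toFinset]
      exact (hφ q hq).1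
    · intro q hq q' hq' heq
      by_contra hne
      have h1 := hJs q hq q' hq' hne
      have h2 := (hφ q hq).2
      have h3 := (hφ q' hq').2
      rw [← heq] at h3
      rw [mem_ball, dist_eq_norm] at h2 h3
      have h4 : ‖q - q'‖ ≤ ‖q - φ q‖ + ‖q' - φ q‖ := by
        have : q - q' = (q - φ q) - (q' - φ q) := by ring
        rw [this]
        exact norm_sub_le _ _
      linarith
  obtain ⟨J, hJn, hJC, hJs⟩ := Nat.sSup_mem hne hbd
  refine ⟨J, hJC, hJs, ?_⟩
  intro p hp
  by_contra hcon
  push Not at hcon
  have hpJ : p ∉ J := by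
    intro h
    have := hcon p h
    simp at this
    linarith
  have hmem : J.card + 1 ∈ P := by
    refine ⟨insert p J, Finset.card_insert_of_notMem hpJ, ?_, ?_⟩
    · intro q hq
      rcases Finset.mem_insert.mp hq with rfl | hq
      · exact hp
      · exact hJC q hq
    · intro q hq q' hq' hne
      rcases Finset.mem_insert.mp hq with h1 | h1
      · rcases Finset.mem_insert.mp hq' with h2 | h2
        · exact absurd (h1.trans h2.symm) hne
        · rw [h1]; exact (hcon q' h2).le
      · rcases Finset.mem_insert.mp hq' with h2 | h2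
        · rw [h2, norm_sub_rev]
          exact (hcon q h1).le
        · exact hJs q h1 q' h2 hne
  have := le_csSup hbd hmem
  omega

end Pool.Agent.Helper430.NP
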