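import Pool.Agent.Helper430.NP.Defs

set_option autoImplicit false
open MeasureTheory Set Filter Topology Complex Metric

namespace Pool.Agent.Helper430.NP
lemma null_bounds (A : ℝ) (hA : 0 < A) (p w b : ℂ) (r : ℝ) (hr : 0 < r) (hw : ‖w - p‖ < r / 4)
    (hb : ‖b - p‖ = r) (Γ : Set ℂ) (Ψ : ℂ → ℂ) (h1 : DifferentiableOn ℂ Ψ Γᶜ)
    (h2 : ∀ z ∉ Γ, ‖Ψ z‖ ≤ A * r)
    (h3 : ∀ z, 10 * r ≤ ‖z - p‖ →
      ‖Ψ z - ((b - w) / 2) ^ 2 / (2 * (z - (w + b) / 2))‖ ≤ A * r ^ 4 / ‖z - (w + b) / 2‖ ^ 3) :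
    ∃ f : ℂ → ℂ, HB Γ (143 * A + 2) f ∧ f p = 0 ∧
      ∀ z, 10 * r ≤ ‖z - p‖ → ‖f z - 1‖ ≤ (12 * A + 2) * r / ‖z - p‖ := by
  set d := (b - w) / 2 with hd
  set c := (w + b) / 2 with hc
  have hdn : 3 * r / 8 ≤ ‖d‖ := by
    have h4 : ‖b - p‖ ≤ ‖b - w‖ + ‖w - p‖ := by
      have : b - p = (b - w) + (w - p) := by ring
      rw [this]; exact norm_add_le _ _
    have h5 : ‖d‖ = ‖b - w‖ / 2 := by rw [hd, norm_div]; norm_num
    rw [h5]; linarith
  have hd0 : 0 < ‖d‖ := by linarith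
  have hdne : d ≠ 0 := norm_pos_iff.mp hd0
  have hd2 : 9 * r ^ 2 / 64 ≤ ‖d‖ ^ 2 := by nlinarith
  have hd2' : 2 / ‖d‖ ^ 2 ≤ 128 / (9 * r ^ 2) := by
    rw [div_le_div_iff₀ (by positivity) (by positivity)]; nlinarith
  have hcp : ‖c - p‖ ≤ r := by
    have h4 : c - p = (w - p) / 2 + (b - p) / 2 := by rw [hc]; ring
    rw [h4]
    refine (norm_add_le _ _).trans ?_
    rw [norm_div, norm_div]
    norm_num
    linarith
  set f : ℂ → ℂ := fun z => (z - p) * Ψ z * (2 / d ^ 2) with hf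
  have hfar : ∀ z, 10 * r ≤ ‖z - p‖ → ‖f z - 1‖ ≤ (12 * A + 2) * r / ‖z - p‖ := by
    intro z hz
    have hzp : 0 < ‖z - p‖ := by linarith
    have hzc : ‖z - p‖ ≤ ‖z - c‖ + r := by
      have : z - p = (z - c) + (c - p) := by ring
      rw [this]; exact (norm_add_le _ _).trans (by linarith)
    have hzc1 : ‖z - p‖ ≤ 2 * ‖z - c‖ := by linarith
    have hzc2 : 5 * r ≤ ‖z - c‖ := by linarith
    have hzc0 : 0 < ‖z - c‖ := by linarith
    have hne : z - c ≠ 0 := norm_pos_iff.mp hzc0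
    have e : f z - 1 = (z - p) * (2 / d ^ 2) * (Ψ z - d ^ 2 / (2 * (z - c))) + (c - p) / (z - c) := by
      rw [hf]
      field_simp
      ring
    rw [e]
    refine (norm_add_le _ _).trans ?_
    have hE := h3 z hz
    have t1 : ‖(z - p) * (2 / d ^ 2) * (Ψ z - d ^ 2 / (2 * (z - c)))‖ ≤ 12 * A * r / ‖z - p‖ := by
      rw [norm_mul, norm_mul, norm_div, norm_pow]
      have e2 : ‖(2:ℂ)‖ = 2 := by norm_num
      rw [e2]
      calc ‖z - p‖ * (2 / ‖d‖ ^ 2) * ‖Ψ z - d ^ 2 / (2 * (z - c))‖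
          ≤ (2 * ‖z - c‖) * (128 / (9 * r ^ 2)) * (A * r ^ 4 / ‖z - c‖ ^ 3) := by
            gcongr
        _ = (256 / 9) * A * r * (r / ‖z - c‖) * (1 / ‖z - c‖) := by
            field_simp; ring
        _ ≤ (256 / 9) * A * r * (1 / 5) * (2 / ‖z - p‖) := by
            have g1 : r / ‖z - c‖ ≤ 1 / 5 := by
              rw [div_le_div_iff₀ hzc0 (by norm_num)]; linarith
            have g2 : 1 / ‖z - c‖ ≤ 2 / ‖z - p‖ := by
              rw [div_le_div_iff₀ hzc0 hzp]; linarith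
            gcongr
        _ = (512 / 45) * (A * r / ‖z - p‖) := by ring
        _ ≤ 12 * (A * r / ‖z - p‖) := by
            have : 0 ≤ A * r / ‖z - p‖ := by positivity
            nlinarith
        _ = 12 * A * r / ‖z - p‖ := by ring
    have t2 : ‖(c - p) / (z - c)‖ ≤ 2 * r / ‖z - p‖ := by
      rw [norm_div, div_le_div_iff₀ hzc0 hzp]
      nlinarith [norm_nonneg (c - p)]
    calc _ ≤ 12 * A * r / ‖z - p‖ + 2 * r / ‖z - p‖ := add_le_add t1 t2
      _ = (12 * A + 2) * r / ‖z - p‖ := by ring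
  refine ⟨f, ⟨?_, ?_⟩, by simp [hf], hfar⟩
  · rw [hf]
    exact ((differentiableOn_id.sub (differentiableOn_const _)).mul h1).mul (differentiableOn_const _)
  · intro z hz
    rcases le_total (10 * r) ‖z - p‖ with h | h
    · have h4 := hfar z h
      have h5 : (12 * A + 2) * r / ‖z - p‖ ≤ (12 * A + 2) / 10 := by
        rw [div_le_div_iff₀ (by linarith) (by norm_num)]
        nlinarith
      have h6 : ‖f z‖ ≤ ‖f z - 1‖ + 1 := by
        have : f z = (f z - 1) + 1 := by ring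
        conv_lhs => rw [this]
        exact (norm_add_le _ _).trans (by simp)
      linarith
    · rw [hf]
      simp only
      rw [norm_mul, norm_mul, norm_div, norm_pow]
      have e2 : ‖(2:ℂ)‖ = 2 := by norm_num
      rw [e2]
      calc ‖z - p‖ * ‖Ψ z‖ * (2 / ‖d‖ ^ 2) ≤ (10 * r) * (A * r) * (128 / (9 * r ^ 2)) := by
            gcongr
            exact h2 z hz
        _ = (1280 / 9) * A := by field_simp; ring
        _ ≤ 143 * A + 2 := by linarith

theorem job_null (hPsi : Stmt_Psi) (hContr : Stmt_Contr) (hCompatLoc : Stmt_CompatLoc) (hMono : Stmt_Mono) (hBump : Stmt_Bump) : Stmt_Null := by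
  intro K x₀ μ hK hx₀ hRep δ p hδ hLim θ hθ hgood
  by_cases hcase : ∃ Γ, Adm K μ Γ ∧ p ∈ Γ
  · obtain ⟨Γ, hΓ, hp⟩ := hcase
    exact hΓ.null θ hθ p hp hgood
  push Not at hcase
  obtain ⟨A, hA, hPsi⟩ := hPsi
  have hstep : ∀ r : ℝ, 0 < r → 4 * r < δ → ∃ (Γ' : Set ℂ) (f g : ℂ → ℂ), Γ' ⊆ closedBall p r ∧
      Measurable g ∧ (∀ᵐ ζ ∂μ, ‖g ζ‖ ≤ 143 * A + 2) ∧ (∀ᵐ ζ ∂μ, ζ ∉ Γ' → g ζ = f ζ) ∧
      (∀ z, 10 * r ≤ ‖z - p‖ → ‖f z - 1‖ ≤ (12 * A + 2) * r / ‖z - p‖) ∧
      CT μ (fun ζ => g ζ * θ ζ) p = 0 := by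
    intro r hr hrδ
    obtain ⟨Γ, w, hΓ, hΓc, hdiam, hw, hwp⟩ := hLim (r / 4) (by positivity)
    have hpΓ := hcase Γ hΓ
    obtain ⟨v, hv, hvp⟩ : ∃ v ∈ Γ, r < ‖v - p‖ := by
      by_contra hcon
      push Not at hcon
      have hsub : Γ ⊆ closedBall p r := by
        intro v hv
        rw [mem_closedBall, dist_eq_norm]
        exact hcon v hv
      have h1 := Metric.diam_mono hsub isBounded_closedBall
      have h2 := Metric.diam_closedBall (x := p) hr.le
      linarith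
    obtain ⟨Γ', b, hsub, hball, hcpt, hpre, hw', hb', hbp⟩ :=
      hBump Γ p w v r hΓ.cpt hΓc hw hv (by linarith) hvp
    have hAdm := hMono K μ Γ Γ' hΓ hcpt hsub
    have hwb : r / 2 ≤ ‖w - b‖ := by
      have h4 : ‖b - p‖ ≤ ‖w - b‖ + ‖w - p‖ := by
        have : b - p = -(w - b) + (w - p) := by ring
        rw [this]; exact (norm_add_le _ _).trans (by rw [norm_neg])
      linarith
    obtain ⟨Ψ, g1, g2, g3⟩ := hPsi Γ' p w b r hr hcpt hpre hw' hb' hball hwb
    obtain ⟨f, k1, k2, k3⟩ := null_bounds A hA p w b r hr hwp hbp Γ' Ψ g1 g2 g3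
    obtain ⟨g, hg⟩ := hAdm.ext f _ k1
    refine ⟨Γ', f, g, hball, hg.meas, ?_, ?_, k3, ?_⟩
    · exact hContr K x₀ μ hK hx₀ hRep Γ' f g _ hAdm k1 (by linarith) hg
    · exact hCompatLoc K x₀ μ hK hx₀ hRep Γ' f g hcpt k1.diff hg
    · rw [hg.rel θ hθ p (fun h => hpΓ (hsub h)) hgood, k2, zero_mul]
  set R : ℕ → ℝ := fun n => δ / (8 * ((n : ℝ) + 1)) with hR
  have hR0 : ∀ n, 0 < R n := fun n => by rw [hR]; positivity
  have hR1 : ∀ n, 4 * R n < δ := by
    intro n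
    have : R n ≤ δ / 8 := by
      rw [hR]
      simp only
      rw [div_le_div_iff₀ (by positivity) (by norm_num)]
      have : (0:ℝ) ≤ n := Nat.cast_nonneg n
      nlinarith
    linarith
  have hRt : Tendsto R atTop (𝓝 0) := by
    have h1 : Tendsto (fun n : ℕ => (δ / 8) * (1 / ((n : ℝ) + 1))) atTop (𝓝 ((δ / 8) * 0)) :=
      tendsto_one_div_add_atTop_nhds_zero_nat.const_mul _
    rw [mul_zero] at h1
    refine h1.congr ?_
    intro n
    rw [hR]
    simp only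
    have : (n : ℝ) + 1 ≠ 0 := by positivity
    field_simp
  choose Γ f g q1 q2 q3 q4 q5 q6 using fun n => hstep (R n) (hR0 n) (hR1 n)
  have hint := hgood.2
  have hlim : Tendsto (fun n => ∫ ζ, g n ζ * θ ζ / (ζ - p) ∂μ) atTop (𝓝 (∫ ζ, θ ζ / (ζ - p) ∂μ)) := by
    apply tendsto_integral_of_dominated_convergence (fun ζ => (143 * A + 2) * ‖θ ζ / (ζ - p)‖)
    · intro n
      have : (fun ζ => g n ζ * θ ζ / (ζ - p)) = fun ζ => g n ζ * (θ ζ / (ζ - p)) := by
        ext ζ; ring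
      rw [this]
      exact (q2 n).aestronglyMeasurable.mul hint.aestronglyMeasurable
    · exact hint.norm.const_mul _
    · intro n
      filter_upwards [q3 n] with ζ hζ
      rw [mul_div_assoc, norm_mul]
      exact mul_le_mul_of_nonneg_right hζ (norm_nonneg _)
    · have hne : ∀ᵐ ζ ∂μ, ζ ≠ p := by
        rw [ae_iff]
        simp only [ne_eq, not_not]
        exact hgood.1
      filter_upwards [ae_all_iff.mpr q4, hne] with ζ hζ hζp
      have hpos : 0 < ‖ζ - p‖ := norm_pos_iff.mpr (sub_ne_zero.mpr hζp)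
      have hev : ∀ᶠ n in atTop, 10 * R n ≤ ‖ζ - p‖ := by
        have : ∀ᶠ n in atTop, R n < ‖ζ - p‖ / 10 := hRt.eventually (Iio_mem_nhds (by positivity))
        filter_upwards [this] with n hn
        linarith
      have hg1 : Tendsto (fun n => g n ζ) atTop (𝓝 1) := by
        rw [tendsto_iff_norm_sub_tendsto_zero]
        have hup : Tendsto (fun n => (12 * A + 2) * R n / ‖ζ - p‖) atTop (𝓝 ((12 * A + 2) * 0 / ‖ζ - p‖)) :=
          (hRt.const_mul _).div_const _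
        rw [mul_zero, zero_div] at hup
        refine squeeze_zero' (Eventually.of_forall fun n => norm_nonneg _) ?_ hup
        filter_upwards [hev] with n hn
        have hnot : ζ ∉ Γ n := by
          intro hmem
          have := q1 n hmem
          rw [mem_closedBall, dist_eq_norm] at this
          have := hR0 n
          linarith
        rw [hζ n hnot]
        exact q5 n ζ hn
      have h2 := hg1.mul_const (θ ζ / (ζ - p))
      rw [one_mul] at h2
      refine h2.congr ?_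
      intro n
      ring
  have hzero : ∀ n, ∫ ζ, g n ζ * θ ζ / (ζ - p) ∂μ = 0 := q6
  rw [show (fun n => ∫ ζ, g n ζ * θ ζ / (ζ - p) ∂μ) = fun _ => (0:ℂ) from funext hzero] at hlim
  exact (tendsto_nhds_unique hlim tendsto_const_nhds)

end Pool.Agent.Helper430.NP
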