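import Pool.Agent.Helper430.NP.Defs

set_option autoImplicit false
open MeasureTheory Set Filter Topology Complex Metric

namespace Pool.Agent.Helper430.NP
theorem job_oo : Stmt_O := by
  intro K x₀ E R δ hK hx₀ hF hKR hR hδ hδR
  have hdisj : ∀ z ∈ K, ‖z‖ < R := by
    intro z hz
    have := hKR hz
    rwa [mem_ball_zero_iff] at this
  have hS : sphere (0:ℂ) R ⊆ E δ := by
    apply hF.wall (sphere 0 R) δ hδ (isCompact_sphere 0 R)
    · apply isPreconnected_sphere
      rw [Complex.rank_real_complex]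
      norm_num
    · intro z hz hzK
      have h1 := hdisj z hzK
      rw [mem_sphere_zero_iff_norm] at hz
      linarith
    · have h1 : dist (R : ℂ) (-(R : ℂ)) ≤ Metric.diam (sphere (0:ℂ) R) := by
        apply Metric.dist_le_diam_of_mem isBounded_sphere
        · rw [mem_sphere_zero_iff_norm, Complex.norm_real, Real.norm_eq_abs, abs_of_pos hR]
        · rw [mem_sphere_zero_iff_norm, norm_neg, Complex.norm_real, Real.norm_eq_abs, abs_of_pos hR]
      rw [dist_eq_norm] at h1
      have h2 : (R : ℂ) - -(R : ℂ) = ((2 * R : ℝ) : ℂ) := by push_cast; ring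
      rw [h2, Complex.norm_real, Real.norm_eq_abs, abs_of_pos (by linarith)] at h1
      linarith
  have hSF : sphere (0:ℂ) R ⊆ Fd E R δ := fun z hz => ⟨hS hz, sphere_subset_closedBall hz⟩
  have hcl : ∀ δ' : ℝ, 0 < δ' → IsClosed (Fd E R δ') := fun δ' h => (hF.closed δ' h).inter isClosed_closedBall
  have hcpt : IsCompact (Fd E R δ) := (isCompact_closedBall 0 R).inter_left (hF.closed δ hδ)
  have hx₀F : ∀ δ' : ℝ, 0 < δ' → x₀ ∈ (Fd E R δ')ᶜ := fun δ' h h1 => hF.x0 δ' h h1.1
  have hopen : IsOpen (Fd E R δ)ᶜ := (hcl δ hδ).isOpen_compl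
  have hmem : x₀ ∈ Od E R x₀ δ := mem_connectedComponentIn (hx₀F δ hδ)
  have hO : IsOpen (Od E R x₀ δ) := hopen.connectedComponentIn
  have hconn : IsConnected (Od E R x₀ δ) := isConnected_connectedComponentIn_iff.mpr (hx₀F δ hδ)
  have hsub : Od E R x₀ δ ⊆ (Fd E R δ)ᶜ := connectedComponentIn_subset _ _
  refine ⟨hmem, hO, hconn, ?_, ?_, hcpt, ?_, ?_⟩
  · apply IsPreconnected.subset_left_of_subset_union (u := ball (0:ℂ) R) (v := (closedBall (0:ℂ) R)ᶜ)
      isOpen_ball isClosed_closedBall.isOpen_compl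
    · rw [Set.disjoint_left]
      intro z hz hz2
      exact hz2 (ball_subset_closedBall hz)
    · intro z hz
      have h1 : z ∉ sphere (0:ℂ) R := fun h => hsub hz (hSF h)
      rw [mem_sphere_zero_iff_norm] at h1
      rcases lt_or_gt_of_ne h1 with h2 | h2
      · left; rwa [mem_ball_zero_iff]
      · right
        intro h3
        rw [mem_closedBall_zero_iff] at h3
        linarith
    · exact ⟨x₀, hmem, hKR hx₀⟩
    · exact hconn.isPreconnected
  · rw [Set.disjoint_left]
    intro z hz hz2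
    exact hsub hz hz2
  · intro z hz
    by_contra hzF
    rw [hO.frontier_eq] at hz
    have hW : IsOpen (connectedComponentIn (Fd E R δ)ᶜ z) := hopen.connectedComponentIn
    have hzW : z ∈ connectedComponentIn (Fd E R δ)ᶜ z := mem_connectedComponentIn hzF
    obtain ⟨y, hy1, hy2⟩ := mem_closure_iff.mp hz.1 _ hW hzW
    have e1 := connectedComponentIn_eq hy1
    have e2 : connectedComponentIn (Fd E R δ)ᶜ x₀ = connectedComponentIn (Fd E R δ)ᶜ y :=
      connectedComponentIn_eq hy2
    apply hz.2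
    show z ∈ connectedComponentIn (Fd E R δ)ᶜ x₀
    rw [e2, ← e1]
    exact hzW
  · intro δ' h1 h2
    apply connectedComponentIn_mono
    intro z hz hz2
    exact hz ⟨hF.mono δ δ' h1 h2 hz2.1, hz2.2⟩

end Pool.Agent.Helper430.NP
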