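import Pool.Agent.Helper430.NP.Defs

set_option autoImplicit false
open MeasureTheory Set Filter Topology Complex Metric

namespace Pool.Agent.Helper430.NP
/-- continuous functions with values in an integer progression on the line are constant -/
theorem p1_int_const (f : ℝ → ℝ) (hf : Continuous f) (h : ∀ t, ∃ n : ℤ, f t = n) (s t : ℝ) :
    f s = f t := by
  choose n hn using h
  have hc : Continuous n := by
    rw [Int.isClosedEmbedding_coe_real.isEmbedding.continuous_iff]
    have : ((fun (x : ℤ) => (x : ℝ)) ∘ n) = f := by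
      funext u; simp [hn]
    simpa [this] using hf
  have := PreconnectedSpace.constant (inferInstance : PreconnectedSpace ℝ) hc (x := s) (y := t)
  rw [hn, hn, this]

/-- no continuous logarithm of z - a around a big circle -/
theorem p1_nolog (a : ℂ) (H : ℂ → ℂ) (hH : Continuous H) (R : ℝ) (hR : 0 < R)
    (h : ∀ z : ℂ, ‖z - a‖ = R → exp (H z) = z - a) : False := by
  let z : ℝ → ℂ := fun t => a + R * exp (t * I)
  have hz : ∀ t, z t - a = R * exp (t * I) := fun t => by simp [z]
  have hzn : ∀ t, ‖z t - a‖ = R := fun t => by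
    rw [hz, norm_mul, Complex.norm_exp_ofReal_mul_I]; simp [abs_of_pos hR]
  have hzc : Continuous z := by fun_prop
  let f : ℝ → ℝ := fun t => ((H (z t)).im - t) / (2 * Real.pi)
  have hfc : Continuous f := by
    have : Continuous fun t => (H (z t)).im := Complex.continuous_im.comp (hH.comp hzc)
    fun_prop
  have hfi : ∀ t, ∃ n : ℤ, f t = n := by
    intro t
    have h1 := h (z t) (hzn t)
    rw [hz] at h1
    have h2 : exp (H (z t)) = exp (Real.log R + t * I) := by
      rw [h1, Complex.exp_add, ← Complex.ofReal_exp, Real.exp_log hR]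
    obtain ⟨n, hn⟩ := Complex.exp_eq_exp_iff_exists_int.1 h2
    refine ⟨n, ?_⟩
    have h3 : (H (z t)).im = t + n * (2 * Real.pi) := by
      rw [hn]; simp
    simp only [f]
    rw [h3]
    field_simp
    ring
  have := p1_int_const f hfc hfi 0 (2 * Real.pi)
  have hz0 : z (2 * Real.pi) = z 0 := by
    simp only [z]
    congr 2
    push_cast
    rw [Complex.exp_two_pi_mul_I]
    simp
  simp only [f, hz0] at this
  have hpi := Real.pi_pos
  field_simp at this
  linarith

/-- one bounded component -/
theorem p1_E1 (X : Set ℂ) (a b : ℂ) (hX : IsCompact X) (ha : a ∉ X) (hb : b ∉ X)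
    (hV : Bornology.IsBounded (connectedComponentIn Xᶜ a)) (hab : b ∉ connectedComponentIn Xᶜ a)
    (g : C(X, ℂ)) (hg : ∀ z : X, exp (g z) = ((z : ℂ) - a) / (z - b)) : False := by
  classical
  obtain ⟨G, hG⟩ := ContinuousMap.exists_restrict_eq hX.isClosed g
  set V := connectedComponentIn Xᶜ a with hVdef
  have hVo : IsOpen V := hX.isClosed.isOpen_compl.connectedComponentIn
  have haV : a ∈ V := mem_connectedComponentIn ha
  have hfr : frontier V ⊆ X := by
    intro z hz
    by_contra hzX
    have hz1 : z ∈ closure V := frontier_subset_closure hz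
    have hz2 : z ∉ V := by
      rw [hVo.frontier_eq] at hz
      exact hz.2
    have hpc : IsPreconnected (insert z V) :=
      isPreconnected_connectedComponentIn.subset_closure (subset_insert _ _)
        (insert_subset hz1 subset_closure)
    have : insert z V ⊆ V :=
      hpc.subset_connectedComponentIn (mem_insert_of_mem _ haV)
        (insert_subset hzX (connectedComponentIn_subset _ _))
    exact hz2 (this (mem_insert _ _))
  let φ : ℂ → ℂ := V.piecewise (fun z => (z - b) * exp (G z)) (fun z => z - a)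
  have hφc : Continuous φ := by
    refine Continuous.piecewise ?_ (by fun_prop) (by fun_prop)
    intro z hz
    have hzX := hfr hz
    have h1 := hg ⟨z, hzX⟩
    have h2 : G z = g ⟨z, hzX⟩ := by
      rw [← hG]; rfl
    rw [h2, h1]
    have : z - b ≠ 0 := by
      intro h0
      rw [sub_eq_zero] at h0
      exact hb (h0 ▸ hzX)
    field_simp
  have hφ0 : ∀ z, φ z ≠ 0 := by
    intro z
    by_cases hz : z ∈ V
    · simp only [φ, piecewise_eq_of_mem _ _ _ hz]
      refine mul_ne_zero ?_ (Complex.exp_ne_zero _)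
      intro h0
      rw [sub_eq_zero] at h0
      exact hab (h0 ▸ hz)
    · simp only [φ, piecewise_eq_of_notMem _ _ _ hz]
      intro h0
      rw [sub_eq_zero] at h0
      exact hz (h0 ▸ haV)
  have hsc : IsSimplyConnected (univ : Set ℂ) := by
    have : ContractibleSpace (univ : Set ℂ) := (convex_univ).contractibleSpace univ_nonempty
    unfold IsSimplyConnected
    infer_instance
  obtain ⟨H, hHc, hH⟩ := Complex.exists_continuousOn_eqOn_exp_comp hsc isOpen_univ
    hφc.continuousOn (by rintro ⟨z, -, hz⟩; exact hφ0 z hz)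
  rw [← continuousOn_univ] at *
  obtain ⟨R, hR⟩ := hV.subset_ball a
  have hR0 : 0 < R := by
    have := hR haV
    simpa using this
  refine p1_nolog a H (continuousOn_univ.1 hHc) R hR0 ?_
  intro z hz
  have hzV : z ∉ V := by
    intro h
    have := hR h
    rw [mem_ball, dist_eq_norm, hz] at this
    exact lt_irrefl _ this
  have := hH (mem_univ z)
  simp only [Function.comp] at this
  rw [this]
  simp only [φ, piecewise_eq_of_notMem _ _ _ hzV]

theorem p1_outside (R : ℝ) (hR : 0 ≤ R) : IsPreconnected {z : ℂ | R < ‖z‖} := by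
  have : {z : ℂ | R < ‖z‖} = (fun p : ℝ × ℝ => (p.1 : ℂ) * exp (p.2 * I)) '' (Ioi R ×ˢ univ) := by
    ext z
    constructor
    · intro hz
      exact ⟨(‖z‖, arg z), ⟨hz, mem_univ _⟩, by simp [Complex.norm_mul_exp_arg_mul_I]⟩
    · rintro ⟨⟨r, t⟩, ⟨hr, -⟩, rfl⟩
      have hr' : R < r := hr
      simp only [mem_setOf_eq, norm_mul, Complex.norm_exp_ofReal_mul_I, mul_one, Complex.norm_real,
        Real.norm_eq_abs]
      exact lt_of_lt_of_le hr' (le_abs_self _)
  rw [this]
  refine (isPreconnected_Ioi.prod isPreconnected_univ).image _ ?_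
  exact Continuous.continuousOn (by fun_prop)

theorem p1_E1' (X : Set ℂ) (a b : ℂ) (hX : IsCompact X) (ha : a ∉ X) (hb : b ∉ X)
    (hab : b ∉ connectedComponentIn Xᶜ a)
    (g : C(X, ℂ)) (hg : ∀ z : X, exp (g z) = ((z : ℂ) - a) / (z - b)) : False := by
  by_cases hVa : Bornology.IsBounded (connectedComponentIn Xᶜ a)
  · exact p1_E1 X a b hX ha hb hVa hab g hg
  by_cases hVb : Bornology.IsBounded (connectedComponentIn Xᶜ b)
  · refine p1_E1 X b a hX hb ha hVb ?_ (-g) ?_
    · intro h
      apply hab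
      have := connectedComponentIn_eq h
      rw [← this]
      exact mem_connectedComponentIn hb
    · intro z
      simp only [ContinuousMap.coe_neg, Pi.neg_apply, Complex.exp_neg, hg, inv_div]
  · obtain ⟨R, hR0, hR⟩ := hX.isBounded.subset_closedBall_lt 0 0
    have hout : {z : ℂ | R < ‖z‖} ⊆ Xᶜ := by
      intro z hz hzX
      have := hR hzX
      rw [mem_closedBall, dist_zero_right] at this
      exact absurd hz (not_lt.2 this)
    have key : ∀ c : ℂ, ¬ Bornology.IsBounded (connectedComponentIn Xᶜ c) →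
        ∃ p ∈ connectedComponentIn Xᶜ c, R < ‖p‖ := by
      intro c hc
      by_contra hcon
      push Not at hcon
      exact hc ((isBounded_closedBall (x := (0:ℂ)) (r := R)).subset fun p hp => by
        rw [mem_closedBall, dist_zero_right]; exact hcon p hp)
    obtain ⟨p, hp, hpR⟩ := key a hVa
    obtain ⟨q, hq, hqR⟩ := key b hVb
    apply hab
    have h1 : q ∈ connectedComponentIn Xᶜ p :=
      (p1_outside R hR0.le).subset_connectedComponentIn hpR hout hqR
    rw [connectedComponentIn_eq hp, connectedComponentIn_eq h1, ← connectedComponentIn_eq hq]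
    exact mem_connectedComponentIn hb

/-- continuous logarithms near a compact set -/
theorem p1_E2 (Y : Set ℂ) (a b : ℂ) (hY : IsCompact Y) (ha : a ∉ Y)
    (hab : b ∈ connectedComponentIn Yᶜ a) :
    ∃ (N : Set ℂ) (g : ℂ → ℂ), IsOpen N ∧ Y ⊆ N ∧ ContinuousOn g N ∧
      ∀ z ∈ N, z ≠ a ∧ z ≠ b ∧ exp (g z) = (z - a) / (z - b) := by
  refine IsPreconnected.induction₂ (s := connectedComponentIn Yᶜ a)
    isPreconnected_connectedComponentIn
    (fun c c' => ∃ (N : Set ℂ) (g : ℂ → ℂ), IsOpen N ∧ Y ⊆ N ∧ ContinuousOn g N ∧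
      ∀ z ∈ N, z ≠ c ∧ z ≠ c' ∧ exp (g z) = (z - c) / (z - c')) ?_ ?_ ?_
    (mem_connectedComponentIn ha) hab
  · intro c hc
    have hcY : c ∈ Yᶜ := connectedComponentIn_subset _ _ hc
    obtain ⟨δ, hδ, hball⟩ := Metric.isOpen_iff.1 hY.isClosed.isOpen_compl c hcY
    have : ∀ᶠ c' in 𝓝 c, dist c' c < δ / 2 := Metric.ball_mem_nhds c (by positivity)
    filter_upwards [nhdsWithin_le_nhds this] with c' hc'
    refine ⟨{z | ‖c - c'‖ < ‖z - c'‖ ∧ z ≠ c}, fun z => log ((z - c) / (z - c')), ?_, ?_, ?_, ?_⟩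
    · have h1 : IsOpen {z : ℂ | ‖c - c'‖ < ‖z - c'‖} :=
        isOpen_lt continuous_const (by fun_prop)
      exact h1.inter isOpen_ne
    · intro z hz
      have h1 : δ ≤ ‖z - c‖ := by
        by_contra hlt
        push Not at hlt
        exact hball (by rw [mem_ball, dist_eq_norm]; exact hlt) hz
      rw [dist_eq_norm] at hc'
      have h2 : ‖c - c'‖ < δ / 2 := by rw [norm_sub_rev]; exact hc'
      refine ⟨?_, ?_⟩
      · have : ‖z - c‖ ≤ ‖z - c'‖ + ‖c - c'‖ := by
          calc ‖z - c‖ = ‖(z - c') - (c - c')‖ := by ring_nf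
            _ ≤ _ := norm_sub_le _ _
        linarith
      · rintro rfl
        simp at h1
        linarith
    · intro z hz
      have hz0 : z - c' ≠ 0 := by
        have := lt_of_le_of_lt (norm_nonneg _) hz.1
        exact norm_pos_iff.1 this
      have hsl : (z - c) / (z - c') ∈ slitPlane := by
        have : (z - c) / (z - c') = 1 + (c' - c) / (z - c') := by
          field_simp
          ring
        rw [this]
        apply mem_slitPlane_of_norm_lt_one
        rw [norm_div, div_lt_one (norm_pos_iff.2 hz0), norm_sub_rev]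
        exact hz.1
      have hco : ContinuousAt (fun z => (z - c) / (z - c')) z :=
        ContinuousAt.div (by fun_prop) (by fun_prop) hz0
      exact (hco.clog hsl).continuousWithinAt
    · intro z hz
      have hz0 : z - c' ≠ 0 := by
        have := lt_of_le_of_lt (norm_nonneg _) hz.1
        exact norm_pos_iff.1 this
      refine ⟨hz.2, fun h => hz0 (by rw [h, sub_self]), ?_⟩
      rw [Complex.exp_log]
      exact div_ne_zero (sub_ne_zero.2 hz.2) hz0
  · rintro x y z - - - ⟨N, g, hN, hYN, hgc, hg⟩ ⟨N', g', hN', hYN', hgc', hg'⟩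
    refine ⟨N ∩ N', fun w => g w + g' w, hN.inter hN', subset_inter hYN hYN',
      (hgc.mono inter_subset_left).add (hgc'.mono inter_subset_right), ?_⟩
    intro w hw
    obtain ⟨h1, h2, h3⟩ := hg w hw.1
    obtain ⟨h4, h5, h6⟩ := hg' w hw.2
    refine ⟨h1, h5, ?_⟩
    rw [Complex.exp_add, h3, h6]
    have := sub_ne_zero.2 h2
    have := sub_ne_zero.2 h5
    field_simp
  · rintro x y - - ⟨N, g, hN, hYN, hgc, hg⟩
    refine ⟨N, fun w => - g w, hN, hYN, hgc.neg, ?_⟩
    intro w hw
    obtain ⟨h1, h2, h3⟩ := hg w hw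
    refine ⟨h2, h1, ?_⟩
    rw [Complex.exp_neg, h3, inv_div]

theorem job_p1' (X : Set ℂ) (a b : ℂ) (hX : IsCompact X) (ha : a ∉ X) (hb : b ∉ X)
    (hab : b ∉ connectedComponentIn Xᶜ a) :
    ∃ x ∈ X, b ∉ connectedComponentIn (connectedComponentIn X x)ᶜ a := by
  classical
  by_contra hcon
  push Not at hcon
  haveI : CompactSpace X := isCompact_iff_compactSpace.1 hX
  have key : ∃ Q : Set X, IsClopen Q ∧ univ ⊆ Q ∧ ∃ g : X → ℂ, ContinuousOn g Q ∧
      ∀ z ∈ Q, exp (g z) = ((z : ℂ) - a) / (z - b) := by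
    refine isCompact_univ.induction_on (p := fun s => ∃ Q : Set X, IsClopen Q ∧ s ⊆ Q ∧
      ∃ g : X → ℂ, ContinuousOn g Q ∧ ∀ z ∈ Q, exp (g z) = ((z : ℂ) - a) / (z - b)) ?_ ?_ ?_ ?_
    · exact ⟨∅, isClopen_empty, Subset.rfl, fun _ => 0, continuousOn_empty _, by simp⟩
    · rintro s t hst ⟨Q, hQ, htQ, h⟩
      exact ⟨Q, hQ, hst.trans htQ, h⟩
    · rintro s t ⟨Q, hQ, hsQ, g, hgc, hg⟩ ⟨Q', hQ', htQ', g', hgc', hg'⟩
      refine ⟨Q ∪ Q', hQ.union hQ', union_subset_union hsQ htQ', Q.piecewise g g', ?_, ?_⟩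
      · intro z hz
        by_cases hzQ : z ∈ Q
        · have h1 : ContinuousAt g z := hgc.continuousAt (hQ.isOpen.mem_nhds hzQ)
          refine (h1.congr ?_).continuousWithinAt
          filter_upwards [hQ.isOpen.mem_nhds hzQ] with w hw
          simp [piecewise_eq_of_mem _ _ _ hw]
        · have hzQ' : z ∈ Q' := hz.resolve_left hzQ
          have h1 : ContinuousAt g' z := hgc'.continuousAt (hQ'.isOpen.mem_nhds hzQ')
          refine (h1.congr ?_).continuousWithinAt
          filter_upwards [hQ.isClosed.isOpen_compl.mem_nhds hzQ] with w hw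
          simp [piecewise_eq_of_notMem _ _ _ hw]
      · intro z hz
        by_cases hzQ : z ∈ Q
        · rw [piecewise_eq_of_mem _ _ _ hzQ]; exact hg z hzQ
        · rw [piecewise_eq_of_notMem _ _ _ hzQ]; exact hg' z (hz.resolve_left hzQ)
    · intro x _
      -- logarithm near the component of x
      have hT : IsCompact (connectedComponentIn X (x : ℂ)) := by
        have hcl : IsClosed (connectedComponentIn X (x : ℂ)) := by
          rw [connectedComponentIn_eq_image x.2]
          exact hX.isClosed.isClosedEmbedding_subtypeVal.isClosedMap _ isClosed_connectedComponent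
        exact hX.of_isClosed_subset hcl (connectedComponentIn_subset _ _)
      have haT : a ∉ connectedComponentIn X (x : ℂ) := fun h => ha (connectedComponentIn_subset _ _ h)
      obtain ⟨N, g, hN, hTN, hgc, hg⟩ := p1_E2 _ a b hT haT (hcon x x.2)
      have hcc : connectedComponent x ⊆ ((↑) : X → ℂ) ⁻¹' N := by
        intro z hz
        apply hTN
        rw [connectedComponentIn_eq_image x.2]
        exact ⟨z, hz, rfl⟩
      -- clopen neighbourhood
      have hNX : IsOpen (((↑) : X → ℂ) ⁻¹' N) := hN.preimage continuous_subtype_val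
      have hcomp : IsCompact ((((↑) : X → ℂ) ⁻¹' N)ᶜ) := hNX.isClosed_compl.isCompact
      rw [connectedComponent_eq_iInter_isClopen] at hcc
      have hne : ((((↑) : X → ℂ) ⁻¹' N)ᶜ ∩ ⋂ s : { s : Set X // IsClopen s ∧ x ∈ s }, (s : Set X)) = ∅ := by
        rw [eq_empty_iff_forall_notMem]
        rintro z ⟨h1, h2⟩
        exact h1 (hcc h2)
      haveI : Nonempty { s : Set X // IsClopen s ∧ x ∈ s } := ⟨⟨univ, isClopen_univ, mem_univ _⟩⟩
      obtain ⟨⟨Q, hQ, hxQ⟩, hQN⟩ := hcomp.elim_directed_family_closed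
        (fun s : { s : Set X // IsClopen s ∧ x ∈ s } => (s : Set X))
        (fun s => s.2.1.isClosed) (by simpa using hne) (by
          rintro ⟨s, hs, hxs⟩ ⟨t, ht, hxt⟩
          exact ⟨⟨s ∩ t, hs.inter ht, hxs, hxt⟩, inter_subset_left, inter_subset_right⟩)
      have hQN' : Q ⊆ ((↑) : X → ℂ) ⁻¹' N := by
        intro z hz
        by_contra hzN
        have : z ∈ ((((↑) : X → ℂ) ⁻¹' N)ᶜ ∩ Q) := ⟨hzN, hz⟩
        simp only at hQN
        rw [hQN] at this
        exact this
      refine ⟨Q, mem_nhdsWithin_of_mem_nhds (hQ.isOpen.mem_nhds hxQ), Q, hQ, Subset.rfl,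
        fun z => g z, ?_, ?_⟩
      · exact hgc.comp continuous_subtype_val.continuousOn hQN'
      · intro z hz
        exact (hg z (hQN' hz)).2.2
  obtain ⟨Q, -, hQ, g, hgc, hg⟩ := key
  have hQ' : Q = univ := univ_subset_iff.1 hQ
  subst hQ'
  exact p1_E1' X a b hX ha hb hab ⟨g, continuousOn_univ.1 hgc⟩ (fun z => hg z (mem_univ z))


theorem job_p1  : Stmt_P1 := by
  intro X a b hX ha hb hab
  exact job_p1' X a b hX ha hb hab

end Pool.Agent.Helper430.NP
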