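import Pool.Agent.Helper430.NP.Defs

set_option autoImplicit false
open MeasureTheory Set Filter Topology Complex Metric

namespace Pool.Agent.Helper430.NP
theorem p2_const {S : Set ℂ} (hS : IsPreconnected S) {f : ℂ → ℂ} (hf : ContinuousOn f S)
    (hint : ∀ z ∈ S, ∃ n : ℤ, f z = n) {x y : ℂ} (hx : x ∈ S) (hy : y ∈ S) : f x = f y := by
  have key : ∀ x ∈ S, ∀ y ∈ S, ∀ m n : ℤ, f x = m → f y = n → m < n → False := by
    intro x hx y hy m n hm hn hmn
    have hre : ContinuousOn (fun z => (f z).re) S := Complex.continuous_re.comp_continuousOn hf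
    have h1 := hS.intermediate_value hx hy hre
    have h2 : ((m : ℝ) + 1 / 2) ∈ Icc (f x).re (f y).re := by
      rw [hm, hn, Complex.intCast_re, Complex.intCast_re]
      have : (m : ℝ) + 1 ≤ n := by exact_mod_cast hmn
      constructor <;> linarith
    obtain ⟨z, hz, hz2⟩ := h1 h2
    obtain ⟨k, hk⟩ := hint z hz
    simp only [hk, Complex.intCast_re] at hz2
    have h3 : (2 * k : ℝ) = 2 * m + 1 := by linarith
    have h4 : 2 * k = 2 * m + 1 := by exact_mod_cast h3
    omega
  obtain ⟨m, hm⟩ := hint x hx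
  obtain ⟨n, hn⟩ := hint y hy
  rcases lt_trichotomy m n with h | h | h
  · exact (key x hx y hy m n hm hn h).elim
  · rw [hm, hn, h]
  · exact (key y hy x hx n m hn hm h).elim

theorem job_p2  : Stmt_P2 := by
  intro P Q hP hQ hPc hQc hPQ
  rw [isPreconnected_closed_iff]
  intro t t' ht ht' hsub hne hne'
  by_contra hcon
  rw [Set.not_nonempty_iff_eq_empty] at hcon
  set A : Set ℂ := P ∩ Q ∩ t with hA
  set B : Set ℂ := P ∩ Q ∩ t' with hB
  have hAc : IsClosed A := (hP.inter hQ).inter ht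
  have hBc : IsClosed B := (hP.inter hQ).inter ht'
  have hd : Disjoint A B := by
    rw [Set.disjoint_left]
    intro x hxA hxB
    have : x ∈ P ∩ Q ∩ (t ∩ t') := ⟨hxA.1, hxA.2, hxB.2⟩
    rw [hcon] at this
    exact this
  obtain ⟨h, h0, h1, -⟩ := exists_continuous_zero_one_of_isClosed hAc hBc hd
  have h2pi : (2 * (Real.pi : ℂ) * I) ≠ 0 := Complex.two_pi_I_ne_zero
  classical
  set φ : ℂ → ℂ := fun z => if z ∈ P then exp ((h z : ℂ) * (2 * Real.pi * I)) else 1 with hφ
  have hφP : ∀ z ∈ P, φ z = exp ((h z : ℂ) * (2 * Real.pi * I)) := fun z hz => by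
    simp only [hφ, if_pos hz]
  have hφQ : ∀ z ∈ Q, φ z = 1 := by
    intro z hz
    by_cases hzP : z ∈ P
    · rw [hφP z hzP]
      rcases hsub ⟨hzP, hz⟩ with h3 | h3
      · have : h z = 0 := h0 ⟨⟨hzP, hz⟩, h3⟩
        rw [this]; simp
      · have : h z = 1 := h1 ⟨⟨hzP, hz⟩, h3⟩
        rw [this]; simp
    · simp only [hφ, if_neg hzP]
  have hexpc : Continuous (fun z => exp ((h z : ℂ) * (2 * Real.pi * I))) := by
    have := h.continuous
    fun_prop
  have hφc : ContinuousOn φ univ := by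
    rw [← hPQ]
    apply ContinuousOn.union_of_isClosed _ _ hP hQ
    · exact hexpc.continuousOn.congr hφP
    · exact continuousOn_const.congr hφQ
  have hφ0 : (0 : ℂ) ∉ φ '' univ := by
    rintro ⟨z, -, hz⟩
    by_cases hzP : z ∈ P
    · rw [hφP z hzP] at hz; exact exp_ne_zero _ hz
    · simp only [hφ, if_neg hzP] at hz; exact one_ne_zero hz
  have hsc : IsSimplyConnected (univ : Set ℂ) := by
    unfold IsSimplyConnected
    have : ContractibleSpace (univ : Set ℂ) := (Homeomorph.Set.univ ℂ).contractibleSpace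
    infer_instance
  obtain ⟨H, hHc, hH⟩ := exists_continuousOn_eqOn_exp_comp hsc isOpen_univ hφc hφ0
  have hHc' : Continuous H := by rwa [← continuousOn_univ]
  have hH' : ∀ z, exp (H z) = φ z := fun z => hH (mem_univ z)
  -- on Q
  have hQint : ∀ z ∈ Q, ∃ n : ℤ, H z / (2 * Real.pi * I) = n := by
    intro z hz
    have h3 : exp (H z) = 1 := by rw [hH', hφQ z hz]
    obtain ⟨n, hn⟩ := Complex.exp_eq_one_iff.1 h3
    exact ⟨n, by rw [hn]; field_simp⟩
  have hPint : ∀ z ∈ P, ∃ n : ℤ, H z / (2 * Real.pi * I) - h z = n := by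
    intro z hz
    have h3 : exp (H z - (h z : ℂ) * (2 * Real.pi * I)) = 1 := by
      rw [Complex.exp_sub, hH', hφP z hz, div_self (exp_ne_zero _)]
    obtain ⟨n, hn⟩ := Complex.exp_eq_one_iff.1 h3
    refine ⟨n, ?_⟩
    have : H z = (n + h z) * (2 * Real.pi * I) := by linear_combination hn
    rw [this]
    field_simp
    ring
  obtain ⟨a, ha⟩ := hne
  obtain ⟨b, hb⟩ := hne'
  have e1 := p2_const hQc.isPreconnected (f := fun z => H z / (2 * Real.pi * I))
    (hHc'.div_const _).continuousOn hQint ha.1.2 hb.1.2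
  have e2 := p2_const hPc.isPreconnected (f := fun z => H z / (2 * Real.pi * I) - h z)
    ((hHc'.div_const _).sub (Complex.continuous_ofReal.comp h.continuous)).continuousOn hPint ha.1.1 hb.1.1
  have ha0 : h a = 0 := h0 ha
  have hb1 : h b = 1 := h1 hb
  simp only [ha0, hb1] at e1 e2
  rw [e1] at e2
  have e3 : (1 : ℂ) = 0 := by
    have : H b / (2 * (Real.pi : ℂ) * I) - ((0 : ℝ) : ℂ) = H b / (2 * (Real.pi : ℂ) * I) - ((1 : ℝ) : ℂ) := e2
    push_cast at this
    linear_combination this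
  exact one_ne_zero e3

end Pool.Agent.Helper430.NP
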