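import Pool.Agent.Helper430.NP.Defs

set_option autoImplicit false
open MeasureTheory Set Filter Topology Complex Metric

namespace Pool.Agent.Helper430.NP
theorem p3_aux_closed (O : Set ℂ) (y : ℂ) (hO : IsOpen O) (hy : y ∉ O) :
    IsClosed (connectedComponentIn Oᶜ y) := by
  have hcl : closure (connectedComponentIn Oᶜ y) ⊆ connectedComponentIn Oᶜ y := by
    apply IsPreconnected.subset_connectedComponentIn
    · exact isPreconnected_connectedComponentIn.closure
    · exact subset_closure (mem_connectedComponentIn hy)
    · exact closure_minimal (connectedComponentIn_subset _ _) hO.isClosed_compl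
  exact isClosed_of_closure_subset hcl

theorem p3_aux_frontier (O : Set ℂ) (y : ℂ) (hO : IsOpen O) (hy : y ∉ O) :
    frontier (connectedComponentIn Oᶜ y) ⊆ frontier O := by
  intro z hz
  have hcl := p3_aux_closed O y hO hy
  rw [hcl.frontier_eq] at hz
  obtain ⟨hzR, hzi⟩ := hz
  have hzO : z ∉ O := connectedComponentIn_subset _ _ hzR
  rw [hO.frontier_eq]
  refine ⟨?_, hzO⟩
  by_contra hcon
  have hnh : (closure O)ᶜ ∈ 𝓝 z := isClosed_closure.isOpen_compl.mem_nhds hcon
  obtain ⟨r, hr, hball⟩ := Metric.mem_nhds_iff.mp hnh
  have hsub : ball z r ∪ connectedComponentIn Oᶜ y ⊆ connectedComponentIn Oᶜ y := by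
    apply IsPreconnected.subset_connectedComponentIn
    · exact IsPreconnected.union z (mem_ball_self hr) hzR (convex_ball z r).isPreconnected
        isPreconnected_connectedComponentIn
    · exact Or.inr (mem_connectedComponentIn hy)
    · apply union_subset
      · intro w hw hwO
        exact hball hw (subset_closure hwO)
      · exact connectedComponentIn_subset _ _
  apply hzi
  rw [mem_interior_iff_mem_nhds]
  exact Filter.mem_of_superset (Metric.ball_mem_nhds z hr) (subset_union_left.trans hsub)

theorem job_p3 (hP2 : Stmt_P2) : Stmt_P3 := by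
  intro O y hO hOc hy
  have hcl := p3_aux_closed O y hO hy
  have hdisj : ∀ w ∈ connectedComponentIn Oᶜ y, w ∉ O := fun w hw =>
    connectedComponentIn_subset _ _ hw
  obtain ⟨x, hx⟩ := hOc.nonempty
  refine ⟨hcl, p3_aux_frontier O y hO hy, ?_, ?_⟩
  · have hRc : IsPreconnected (connectedComponentIn Oᶜ y)ᶜ := by
      apply isPreconnected_of_forall x
      intro z hz
      by_cases hzO : z ∈ O
      · exact ⟨O, fun w hw hw2 => hdisj w hw2 hw, hx, hzO, hOc.isPreconnected⟩
      · have hcl' := p3_aux_closed O z hO hzO
        have hne : (connectedComponentIn Oᶜ z).Nonempty := ⟨z, mem_connectedComponentIn hzO⟩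
        have hnu : connectedComponentIn Oᶜ z ≠ univ := by
          intro h
          have : x ∈ connectedComponentIn Oᶜ z := by rw [h]; trivial
          exact connectedComponentIn_subset _ _ this hx
        have hfr : (frontier (connectedComponentIn Oᶜ z)).Nonempty := by
          rw [Set.nonempty_iff_ne_empty]
          intro h
          rcases isClopen_iff.mp (isClopen_iff_frontier_eq_empty.mpr h) with h1 | h1
          · exact hne.ne_empty h1
          · exact hnu h1
        obtain ⟨w, hw⟩ := hfr
        have hwO : w ∈ closure O := frontier_subset_closure (p3_aux_frontier O z hO hzO hw)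
        have hwR : w ∈ connectedComponentIn Oᶜ z := hcl'.frontier_subset hw
        have hpc : IsPreconnected ((O ∪ {w}) ∪ connectedComponentIn Oᶜ z) := by
          apply IsPreconnected.union w (Or.inr rfl) hwR _ isPreconnected_connectedComponentIn
          apply hOc.isPreconnected.subset_closure subset_union_left
          apply union_subset subset_closure
          rintro _ rfl
          exact hwO
        refine ⟨(O ∪ {w}) ∪ connectedComponentIn Oᶜ z, ?_, Or.inl (Or.inl hx),
          Or.inr (mem_connectedComponentIn hzO), hpc⟩
        have hR' : ∀ v ∈ connectedComponentIn Oᶜ z, v ∉ connectedComponentIn Oᶜ y := by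
          intro v hv hv2
          have e1 := connectedComponentIn_eq hv
          have e2 := connectedComponentIn_eq hv2
          apply hz
          rw [e2, ← e1]
          exact mem_connectedComponentIn hzO
        rintro v ((hv | rfl) | hv)
        · exact fun hv2 => hdisj v hv2 hv
        · exact hR' _ hwR
        · exact hR' v hv
    have hcRc : IsConnected (closure (connectedComponentIn Oᶜ y)ᶜ) :=
      ⟨⟨x, subset_closure (fun h => hdisj x h hx)⟩, hRc.closure⟩
    have hRconn : IsConnected (connectedComponentIn Oᶜ y) :=
      ⟨⟨y, mem_connectedComponentIn hy⟩, isPreconnected_connectedComponentIn⟩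
    have := hP2 _ _ hcl isClosed_closure hRconn hcRc (by
      apply eq_univ_of_forall
      intro w
      by_cases hw : w ∈ connectedComponentIn Oᶜ y
      · exact Or.inl hw
      · exact Or.inr (subset_closure hw))
    rw [frontier_eq_closure_inter_closure, hcl.closure_eq]
    exact this
  · rintro z ⟨hz1, hz2⟩
    rw [hcl.frontier_eq]
    refine ⟨hz2, ?_⟩
    intro hzi
    rw [_root_.mem_closure_iff] at hz1
    obtain ⟨w, hw1, hw2⟩ := hz1 _ isOpen_interior hzi
    exact hdisj w (interior_subset hw1) hw2

end Pool.Agent.Helper430.NP
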