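import Pool.Agent.Helper430.NP.Defs

set_option autoImplicit false
open MeasureTheory Set Filter Topology Complex Metric

namespace Pool.Agent.Helper430.NP
/-- one dimensional bump -/
noncomputable def jp_eta (t : ℝ) : ℝ := Real.smoothTransition (t + 1) - Real.smoothTransition t

lemma jp_eta_smooth : ContDiff ℝ 1 jp_eta := by
  unfold jp_eta
  exact (Real.smoothTransition.contDiff.comp (contDiff_id.add contDiff_const)).sub
    Real.smoothTransition.contDiff

lemma jp_eta_zero (t : ℝ) (h : t ≤ -1 ∨ 1 ≤ t) : jp_eta t = 0 := by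
  unfold jp_eta
  rcases h with h | h
  · rw [Real.smoothTransition.zero_of_nonpos (by linarith),
      Real.smoothTransition.zero_of_nonpos (by linarith)]
    ring
  · rw [Real.smoothTransition.one_of_one_le (by linarith),
      Real.smoothTransition.one_of_one_le (by linarith)]
    ring

lemma jp_eta_abs (t : ℝ) : |jp_eta t| ≤ 1 := by
  unfold jp_eta
  have h1 := Real.smoothTransition.nonneg (t + 1)
  have h2 := Real.smoothTransition.le_one (t + 1)
  have h3 := Real.smoothTransition.nonneg t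
  have h4 := Real.smoothTransition.le_one t
  rw [abs_le]
  constructor <;> linarith

lemma jp_eta_sum (t : ℝ) : jp_eta (t - (⌊t⌋ : ℝ)) + jp_eta (t - ((⌊t⌋ + 1 : ℤ) : ℝ)) = 1 := by
  unfold jp_eta
  have h1 := Int.floor_le t
  have h2 := Int.lt_floor_add_one t
  push_cast
  rw [Real.smoothTransition.one_of_one_le (x := t - (⌊t⌋ : ℝ) + 1) (by linarith),
    Real.smoothTransition.zero_of_nonpos (x := t - ((⌊t⌋ : ℝ) + 1)) (by linarith)]
  have : t - ((⌊t⌋ : ℝ) + 1) + 1 = t - (⌊t⌋ : ℝ) := by ring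
  rw [this]
  ring

lemma jp_eta_far (t : ℝ) (m : ℤ) (h : m ∉ ({⌊t⌋, ⌊t⌋ + 1} : Finset ℤ)) : jp_eta (t - (m : ℝ)) = 0 := by
  simp only [Finset.mem_insert, Finset.mem_singleton, not_or] at h
  obtain ⟨hm1, hm2⟩ := h
  have h1 := Int.floor_le t
  have h2 := Int.lt_floor_add_one t
  apply jp_eta_zero
  rcases lt_or_ge m ⌊t⌋ with h | h
  · right
    have h3 : m + 1 ≤ ⌊t⌋ := by omega
    have h4 : ((m : ℝ) + 1) ≤ (⌊t⌋ : ℝ) := by exact_mod_cast h3
    linarith
  · left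
    have h3 : ⌊t⌋ + 2 ≤ m := by omega
    have h4 : ((⌊t⌋ : ℝ) + 2) ≤ (m : ℝ) := by exact_mod_cast h3
    linarith

lemma jp_near (t : ℝ) (m : ℤ) (h : m ∈ ({⌊t⌋, ⌊t⌋ + 1} : Finset ℤ)) : |t - (m : ℝ)| ≤ 1 := by
  simp only [Finset.mem_insert, Finset.mem_singleton] at h
  have h1 := Int.floor_le t
  have h2 := Int.lt_floor_add_one t
  rw [abs_le]
  rcases h with h | h
  · subst h
    constructor <;> linarith
  · subst h
    push_cast
    constructor <;> linarith

/-- two dimensional bump -/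
noncomputable def jp_chi (z : ℂ) : ℂ := ((jp_eta z.re * jp_eta z.im : ℝ) : ℂ)

lemma jp_chi_smooth : ContDiff ℝ 1 jp_chi := by
  unfold jp_chi
  have h1 : ContDiff ℝ 1 (fun z : ℂ => jp_eta z.re * jp_eta z.im) :=
    (jp_eta_smooth.comp Complex.reCLM.contDiff).mul (jp_eta_smooth.comp Complex.imCLM.contDiff)
  exact Complex.ofRealCLM.contDiff.comp h1

lemma jp_chi_norm (z : ℂ) : ‖jp_chi z‖ ≤ 1 := by
  unfold jp_chi
  rw [Complex.norm_real, Real.norm_eq_abs, abs_mul]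
  exact mul_le_one₀ (jp_eta_abs _) (abs_nonneg _) (jp_eta_abs _)

lemma jp_chi_supp (z : ℂ) (h : jp_chi z ≠ 0) : ‖z‖ ≤ 2 := by
  unfold jp_chi at h
  have h1 : jp_eta z.re ≠ 0 := by
    intro h0; apply h; rw [h0]; simp
  have h2 : jp_eta z.im ≠ 0 := by
    intro h0; apply h; rw [h0]; simp
  have h3 : |z.re| ≤ 1 := by
    by_contra hc
    push Not at hc
    apply h1
    apply jp_eta_zero
    rcases lt_abs.1 hc with h | h
    · right; exact h.le
    · left; linarith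
  have h4 : |z.im| ≤ 1 := by
    by_contra hc
    push Not at hc
    apply h2
    apply jp_eta_zero
    rcases lt_abs.1 hc with h | h
    · right; exact h.le
    · left; linarith
  calc ‖z‖ ≤ |z.re| + |z.im| := Complex.norm_le_abs_re_add_abs_im z
    _ ≤ 2 := by linarith

lemma jp_chi_compact : HasCompactSupport jp_chi := by
  apply HasCompactSupport.of_support_subset_isCompact (isCompact_closedBall (0 : ℂ) 2)
  intro z hz
  rw [Function.mem_support] at hz
  rw [mem_closedBall, dist_zero_right]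
  exact jp_chi_supp z hz

theorem job_part  : Stmt_Part := by
  obtain ⟨B, hB⟩ := (jp_chi_smooth.continuous_fderiv (by norm_num)).bounded_above_of_compact_support
    (jp_chi_compact.fderiv (𝕜 := ℝ))
  refine ⟨|B| + 1, by positivity, ?_⟩
  intro ε hε
  refine ⟨fun a z => jp_chi ((ε⁻¹ : ℝ) • (z - ε * lp a)), ?_, ?_, ?_, ?_, ?_⟩
  · intro a
    have h1 : ContDiff ℝ 1 (fun z : ℂ => (ε⁻¹ : ℝ) • (z - ε * lp a)) :=
      (contDiff_id.sub contDiff_const).const_smul (ε⁻¹ : ℝ)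
    exact jp_chi_smooth.comp h1
  · intro a
    apply closure_minimal _ isClosed_closedBall
    intro z hz
    rw [Function.mem_support] at hz
    have h1 := jp_chi_supp _ hz
    rw [norm_smul, Real.norm_eq_abs, abs_of_pos (inv_pos.2 hε)] at h1
    rw [mem_closedBall, dist_eq_norm]
    rw [inv_mul_le_iff₀ hε] at h1
    linarith
  · intro a z
    exact jp_chi_norm _
  · intro a z
    set w : ℂ := (ε⁻¹ : ℝ) • (z - ε * lp a) with hw
    have hg : HasFDerivAt (fun z : ℂ => (ε⁻¹ : ℝ) • (z - ε * lp a))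
        ((ε⁻¹ : ℝ) • (ContinuousLinearMap.id ℝ ℂ)) z :=
      ((hasFDerivAt_id (𝕜 := ℝ) z).sub_const (ε * lp a)).const_smul (ε⁻¹ : ℝ)
    have hc : HasFDerivAt jp_chi (fderiv ℝ jp_chi w) w :=
      (jp_chi_smooth.differentiable (by norm_num) w).hasFDerivAt
    have hcomp := HasFDerivAt.comp z hc hg
    have hfd : fderiv ℝ (fun z => jp_chi ((ε⁻¹ : ℝ) • (z - ε * lp a))) z =
        (fderiv ℝ jp_chi w).comp ((ε⁻¹ : ℝ) • (ContinuousLinearMap.id ℝ ℂ)) := hcomp.fderiv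
    have hval : ∀ v : ℂ, ‖v‖ = 1 →
        ‖fderiv ℝ (fun z => jp_chi ((ε⁻¹ : ℝ) • (z - ε * lp a))) z v‖ ≤ ε⁻¹ * (|B| + 1) := by
      intro v hv
      rw [hfd]
      have h1 : ((fderiv ℝ jp_chi w).comp ((ε⁻¹ : ℝ) • (ContinuousLinearMap.id ℝ ℂ))) v =
          (ε⁻¹ : ℝ) • (fderiv ℝ jp_chi w v) := by
        simp
      rw [h1, norm_smul, Real.norm_eq_abs, abs_of_pos (inv_pos.2 hε)]
      apply mul_le_mul_of_nonneg_left _ (inv_pos.2 hε).le
      calc ‖fderiv ℝ jp_chi w v‖ ≤ ‖fderiv ℝ jp_chi w‖ * ‖v‖ := ContinuousLinearMap.le_opNorm _ _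
        _ = ‖fderiv ℝ jp_chi w‖ := by rw [hv, mul_one]
        _ ≤ B := hB w
        _ ≤ |B| + 1 := by linarith [le_abs_self B]
    unfold dbar
    have e1 := hval 1 (by simp)
    have e2 := hval I (by simp)
    rw [norm_div]
    have e3 : ‖(2 : ℂ)‖ = 2 := by simp
    rw [e3, div_le_iff₀ (by norm_num)]
    calc _ ≤ ‖fderiv ℝ (fun z => jp_chi ((ε⁻¹ : ℝ) • (z - ε * lp a))) z 1‖ +
          ‖I * fderiv ℝ (fun z => jp_chi ((ε⁻¹ : ℝ) • (z - ε * lp a))) z I‖ := norm_add_le _ _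
      _ = ‖fderiv ℝ (fun z => jp_chi ((ε⁻¹ : ℝ) • (z - ε * lp a))) z 1‖ +
          ‖fderiv ℝ (fun z => jp_chi ((ε⁻¹ : ℝ) • (z - ε * lp a))) z I‖ := by
            rw [norm_mul, Complex.norm_I, one_mul]
      _ ≤ ε⁻¹ * (|B| + 1) + ε⁻¹ * (|B| + 1) := add_le_add e1 e2
      _ = (|B| + 1) / ε * 2 := by rw [div_eq_mul_inv]; ring
  · intro z S hS
    have hval : ∀ a : ℤ × ℤ, jp_chi ((ε⁻¹ : ℝ) • (z - ε * lp a)) =
        ((jp_eta (z.re / ε - (a.1 : ℝ)) * jp_eta (z.im / ε - (a.2 : ℝ)) : ℝ) : ℂ) := by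
      intro a
      unfold jp_chi
      have h1 : ((ε⁻¹ : ℝ) • (z - ε * lp a)).re = z.re / ε - (a.1 : ℝ) := by
        simp [lp]
        field_simp
      have h2 : ((ε⁻¹ : ℝ) • (z - ε * lp a)).im = z.im / ε - (a.2 : ℝ) := by
        simp [lp]
        field_simp
      rw [h1, h2]
    set T : Finset (ℤ × ℤ) := ({⌊z.re / ε⌋, ⌊z.re / ε⌋ + 1} : Finset ℤ) ×ˢ
      ({⌊z.im / ε⌋, ⌊z.im / ε⌋ + 1} : Finset ℤ) with hT
    have hTS : T ⊆ S := by
      intro a ha
      rw [hT, Finset.mem_product] at ha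
      apply hS
      have h1 := jp_near _ _ ha.1
      have h2 := jp_near _ _ ha.2
      have h3 : z - ε * lp a = (ε : ℂ) * (((z.re / ε - (a.1 : ℝ) : ℝ) : ℂ) +
          ((z.im / ε - (a.2 : ℝ) : ℝ) : ℂ) * I) := by
        apply Complex.ext
        · simp [lp]
          field_simp
        · simp [lp]
          field_simp
      rw [h3, norm_mul, Complex.norm_real, Real.norm_eq_abs, abs_of_pos hε]
      have h4 : ‖((z.re / ε - (a.1 : ℝ) : ℝ) : ℂ) + ((z.im / ε - (a.2 : ℝ) : ℝ) : ℂ) * I‖ ≤ 2 := by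
        calc _ ≤ ‖((z.re / ε - (a.1 : ℝ) : ℝ) : ℂ)‖ + ‖((z.im / ε - (a.2 : ℝ) : ℝ) : ℂ) * I‖ :=
              norm_add_le _ _
          _ = |z.re / ε - (a.1 : ℝ)| + |z.im / ε - (a.2 : ℝ)| := by
              rw [norm_mul, Complex.norm_I, mul_one, Complex.norm_real, Complex.norm_real,
                Real.norm_eq_abs, Real.norm_eq_abs]
          _ ≤ 2 := by linarith
      calc ε * _ ≤ ε * 2 := mul_le_mul_of_nonneg_left h4 hε.le
        _ = 2 * ε := by ring
    rw [← Finset.sum_subset hTS]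
    · have hfac : ∑ a ∈ T, jp_chi ((ε⁻¹ : ℝ) • (z - ε * lp a)) =
          (((∑ m ∈ ({⌊z.re / ε⌋, ⌊z.re / ε⌋ + 1} : Finset ℤ), jp_eta (z.re / ε - (m : ℝ))) *
          (∑ n ∈ ({⌊z.im / ε⌋, ⌊z.im / ε⌋ + 1} : Finset ℤ), jp_eta (z.im / ε - (n : ℝ))) : ℝ) : ℂ) := by
        rw [Finset.sum_mul_sum, hT, Finset.sum_product]
        push_cast
        apply Finset.sum_congr rfl
        intro m _
        apply Finset.sum_congr rfl
        intro n _
        rw [hval]
        push_cast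
        rfl
      rw [hfac]
      have s1 : ∀ t : ℝ, ∑ m ∈ ({⌊t⌋, ⌊t⌋ + 1} : Finset ℤ), jp_eta (t - (m : ℝ)) = 1 := by
        intro t
        rw [Finset.sum_pair (by omega)]
        exact jp_eta_sum t
      rw [s1, s1]
      simp
    · intro a _ ha
      show jp_chi ((ε⁻¹ : ℝ) • (z - ε * lp a)) = 0
      rw [hval]
      rw [hT, Finset.mem_product, not_and_or] at ha
      rcases ha with ha | ha
      · rw [jp_eta_far _ _ ha]; simp
      · rw [jp_eta_far _ _ ha]; simp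

end Pool.Agent.Helper430.NP
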