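import Pool.Agent.Helper430.NP.Defs

set_option autoImplicit false
open MeasureTheory Set Filter Topology Complex Metric

namespace Pool.Agent.Helper430.NP
/-! job_psi -/

def job_psi_N (Γ : Set ℂ) (δ : ℝ) : Set ℂ := {z | δ < infDist z Γ}

theorem job_psi_N_open (Γ : Set ℂ) (δ : ℝ) : IsOpen (job_psi_N Γ δ) :=
  isOpen_lt continuous_const (continuous_infDist_pt Γ)

theorem job_psi_N_dist {Γ : Set ℂ} {δ : ℝ} {z x : ℂ} (hz : z ∈ job_psi_N Γ δ) (hx : x ∈ Γ) :
    δ < ‖z - x‖ := by
  have h1 : δ < infDist z Γ := hz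
  have h2 := infDist_le_dist_of_mem (x := z) hx
  rw [dist_eq_norm] at h2
  linarith

def job_psi_P (Γ : Set ℂ) (δ : ℝ) (x y : ℂ) : Prop :=
  ∃ s : ℂ → ℂ, DifferentiableOn ℂ s (job_psi_N Γ δ) ∧
    (∀ z ∈ job_psi_N Γ δ, (s z) ^ 2 = (z - x) / (z - y)) ∧
    Tendsto s (Bornology.cobounded ℂ) (𝓝 1)

theorem job_psi_tendsto (x y : ℂ) :
    Tendsto (fun z : ℂ => (z - x) / (z - y)) (Bornology.cobounded ℂ) (𝓝 1) := by
  have h1 : Tendsto (fun z : ℂ => (z - y)⁻¹) (Bornology.cobounded ℂ) (𝓝 0) :=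
    tendsto_inv₀_cobounded.comp (tendsto_sub_const_cobounded y)
  have h2 : Tendsto (fun z : ℂ => 1 + (y - x) * (z - y)⁻¹) (Bornology.cobounded ℂ) (𝓝 1) := by
    have := (h1.const_mul (y - x)).const_add 1
    simpa using this
  refine h2.congr' ?_
  have h3 : ∀ᶠ z : ℂ in Bornology.cobounded ℂ, z ≠ y := by
    have : ({y} : Set ℂ)ᶜ ∈ Bornology.cobounded ℂ :=
      Bornology.isBounded_def.1 Bornology.isBounded_singleton
    filter_upwards [this] with z hz using hz
  filter_upwards [h3] with z hz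
  have : z - y ≠ 0 := sub_ne_zero.2 hz
  field_simp
  ring

theorem job_psi_sqrt (w : ℂ) (hw : w ≠ 0) : (Complex.exp (Complex.log w / 2)) ^ 2 = w := by
  rw [← Complex.exp_nat_mul]
  have : ((2 : ℕ) : ℂ) * (Complex.log w / 2) = Complex.log w := by push_cast; ring
  rw [this, Complex.exp_log hw]

theorem job_psi_near {Γ : Set ℂ} {δ : ℝ} (hδ : 0 < δ) {x y : ℂ} (hy : y ∈ Γ)
    (hxy : ‖x - y‖ < δ) : job_psi_P Γ δ x y := by
  have hslit : ∀ z ∈ job_psi_N Γ δ, (z - x) / (z - y) ∈ Complex.slitPlane := by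
    intro z hz
    have h1 := job_psi_N_dist hz hy
    have h2 : z - y ≠ 0 := by
      intro h0; rw [h0, norm_zero] at h1; linarith
    have h3 : (z - x) / (z - y) = 1 + (y - x) / (z - y) := by field_simp; ring
    rw [h3]
    apply Complex.mem_slitPlane_of_norm_lt_one
    rw [norm_div, div_lt_one (by linarith), norm_sub_rev]
    linarith
  refine ⟨fun z => Complex.exp (Complex.log ((z - x) / (z - y)) / 2), ?_, ?_, ?_⟩
  · intro z hz
    have h1 := job_psi_N_dist hz hy
    have h2 : z - y ≠ 0 := by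
      intro h0; rw [h0, norm_zero] at h1; linarith
    have hd : DifferentiableAt ℂ (fun z : ℂ => (z - x) / (z - y)) z :=
      (differentiableAt_id.sub_const x).div (differentiableAt_id.sub_const y) h2
    exact (((hd.clog (hslit z hz)).div_const 2).cexp).differentiableWithinAt
  · intro z hz
    exact job_psi_sqrt _ (Complex.slitPlane_ne_zero (hslit z hz))
  · have h1 := job_psi_tendsto x y
    have h2 : Tendsto Complex.log (𝓝 1) (𝓝 (Complex.log 1)) :=
      (continuousAt_clog Complex.one_mem_slitPlane).tendsto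
    have h3 := (h2.comp h1).div_const 2
    rw [Complex.log_one, zero_div] at h3
    have h4 := (Complex.continuous_exp.tendsto 0).comp h3
    rw [Complex.exp_zero] at h4
    exact h4

theorem job_psi_trans {Γ : Set ℂ} {δ : ℝ} (hδ : 0 < δ) {x y z : ℂ} (hy : y ∈ Γ)
    (h1 : job_psi_P Γ δ x y) (h2 : job_psi_P Γ δ y z) : job_psi_P Γ δ x z := by
  obtain ⟨s1, d1, e1, t1⟩ := h1
  obtain ⟨s2, d2, e2, t2⟩ := h2
  refine ⟨fun w => s1 w * s2 w, d1.mul d2, ?_, ?_⟩
  · intro w hw
    have h3 := job_psi_N_dist hw hy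
    have h4 : w - y ≠ 0 := by
      intro h0; rw [h0, norm_zero] at h3; linarith
    rw [mul_pow, e1 w hw, e2 w hw]
    field_simp
  · have := t1.mul t2
    rwa [one_mul] at this

theorem job_psi_exists {Γ : Set ℂ} (hΓ : IsPreconnected Γ) {a b : ℂ} (ha : a ∈ Γ) (hb : b ∈ Γ)
    {δ : ℝ} (hδ : 0 < δ) : job_psi_P Γ δ a b := by
  refine hΓ.induction₂' (job_psi_P Γ δ) ?_ ?_ ha hb
  · intro x hx
    have h1 : ∀ᶠ y in 𝓝[Γ] x, ‖x - y‖ < δ := by
      have : Metric.ball x δ ∈ 𝓝 x := Metric.ball_mem_nhds x hδ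
      filter_upwards [mem_nhdsWithin_of_mem_nhds this] with y hy
      rw [Metric.mem_ball, dist_eq_norm, norm_sub_rev] at hy
      exact hy
    filter_upwards [h1, self_mem_nhdsWithin] with y hy hyΓ
    exact ⟨job_psi_near hδ hyΓ hy, job_psi_near hδ hx (by rw [norm_sub_rev]; exact hy)⟩
  · intro x y z _ hy _ h1 h2
    exact job_psi_trans hδ hy h1 h2

theorem job_psi_far (q : ℂ) {R : ℝ} (hR : 0 < R) : IsPreconnected {z : ℂ | R < ‖z - q‖} := by
  have h1 : IsPreconnected (Set.Ioi R ×ˢ (Set.univ : Set ℝ)) :=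
    isPreconnected_Ioi.prod isPreconnected_univ
  have h2 : Continuous fun p : ℝ × ℝ => q + (p.1 : ℂ) * Complex.exp ((p.2 : ℂ) * I) := by
    fun_prop
  have h3 := h1.image _ h2.continuousOn
  convert h3 using 1
  ext z
  constructor
  · intro hz
    refine ⟨(‖z - q‖, Complex.arg (z - q)), ⟨hz, Set.mem_univ _⟩, ?_⟩
    simp only [Complex.norm_mul_exp_arg_mul_I]
    ring
  · rintro ⟨⟨r, θ⟩, ⟨hr, -⟩, rfl⟩
    have hr' : R < r := hr
    show R < ‖q + (r : ℂ) * Complex.exp ((θ : ℂ) * I) - q‖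
    rw [add_sub_cancel_left, norm_mul, Complex.norm_exp_ofReal_mul_I, mul_one, Complex.norm_real,
      Real.norm_eq_abs]
    exact lt_of_lt_of_le hr' (le_abs_self r)

theorem job_psi_far_cobounded (q : ℂ) (R : ℝ) : ∀ᶠ z : ℂ in Bornology.cobounded ℂ, R < ‖z - q‖ := by
  have h1 : (closedBall q R)ᶜ ∈ Bornology.cobounded ℂ :=
    Bornology.isBounded_def.1 Metric.isBounded_closedBall
  filter_upwards [h1] with z hz
  rw [Set.mem_compl_iff, Metric.mem_closedBall, dist_eq_norm, not_le] at hz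
  exact hz

/-- sign lemma: two square roots with the same nonzero limit at infinity agree -/
theorem job_psi_sign {S : Set ℂ} (hS : IsPreconnected S) {f g : ℂ → ℂ} (hf : ContinuousOn f S)
    (hg : ContinuousOn g S) (hsq : ∀ z ∈ S, f z ^ 2 = g z ^ 2) (hg0 : ∀ z ∈ S, g z ≠ 0)
    (hfar : ∀ᶠ z : ℂ in Bornology.cobounded ℂ, z ∈ S)
    (tf : Tendsto f (Bornology.cobounded ℂ) (𝓝 1)) (tg : Tendsto g (Bornology.cobounded ℂ) (𝓝 1)) :
    EqOn f g S := by
  rcases hS.eq_or_eq_neg_of_sq_eq hf hg (fun z hz => hsq z hz) (fun {z} hz => hg0 z hz) with h | h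
  · exact h
  · exfalso
    have h1 : Tendsto f (Bornology.cobounded ℂ) (𝓝 (-1)) := by
      refine (tg.neg).congr' ?_
      filter_upwards [hfar] with z hz
      exact (h hz).symm
    have h2 := tendsto_nhds_unique tf h1
    norm_num at h2

theorem job_psi  : Stmt_Psi := by
  classical
  refine ⟨22, by norm_num, ?_⟩
  intro Γ q a b ε hε hcpt hpre ha hb hΓq _
  set N : ℕ → Set ℂ := fun n => job_psi_N Γ (ε / (n + 1)) with hN
  have hδ : ∀ n : ℕ, 0 < ε / ((n : ℝ) + 1) := fun n => by positivity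
  have hδle : ∀ n : ℕ, ε / ((n : ℝ) + 1) ≤ ε := by
    intro n
    rw [div_le_iff₀ (by positivity)]
    nlinarith [hε, (Nat.cast_nonneg n : (0 : ℝ) ≤ n)]
  have hNmono : ∀ n m : ℕ, n ≤ m → N n ⊆ N m := by
    intro n m hnm z hz
    have h1 : ε / ((n : ℝ) + 1) < infDist z Γ := hz
    have h2 : ε / ((m : ℝ) + 1) ≤ ε / ((n : ℝ) + 1) := by
      apply div_le_div_of_nonneg_left hε.le (by positivity)
      have : (n : ℝ) ≤ m := by exact_mod_cast hnm
      linarith
    exact lt_of_le_of_lt h2 h1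
  have hfarN : ∀ n : ℕ, {z : ℂ | 3 * ε < ‖z - q‖} ⊆ N n := by
    intro n z hz
    have hz' : 3 * ε < ‖z - q‖ := hz
    show ε / ((n : ℝ) + 1) < infDist z Γ
    have h1 : 2 * ε ≤ infDist z Γ := by
      rw [le_infDist ⟨a, ha⟩]
      intro y hy
      have hy' := hΓq hy
      rw [mem_closedBall, dist_eq_norm] at hy'
      rw [dist_eq_norm]
      have : ‖z - q‖ ≤ ‖z - y‖ + ‖y - q‖ := norm_sub_le_norm_sub_add_norm_sub z y q
      linarith
    have := hδle n
    linarith
  set w0 : ℂ := q + (4 * ε : ℝ) with hw0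
  have hw0far : w0 ∈ {z : ℂ | 3 * ε < ‖z - q‖} := by
    show 3 * ε < ‖w0 - q‖
    rw [hw0, add_sub_cancel_left, Complex.norm_real, Real.norm_eq_abs, abs_of_pos (by linarith)]
    linarith
  set U : ℕ → Set ℂ := fun n => connectedComponentIn (N n) w0 with hU
  have hUpre : ∀ n, IsPreconnected (U n) := fun n => isPreconnected_connectedComponentIn
  have hUopen : ∀ n, IsOpen (U n) := fun n => (job_psi_N_open Γ _).connectedComponentIn
  have hUN : ∀ n, U n ⊆ N n := fun n => connectedComponentIn_subset _ _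
  have hUmono : ∀ n m : ℕ, n ≤ m → U n ⊆ U m := fun n m hnm =>
    connectedComponentIn_mono _ (hNmono n m hnm)
  have hfarU : ∀ n, {z : ℂ | 3 * ε < ‖z - q‖} ⊆ U n := fun n =>
    (job_psi_far q (by positivity)).subset_connectedComponentIn hw0far (hfarN n)
  have hNΓ : ∀ n, ∀ z ∈ N n, ∀ x ∈ Γ, z - x ≠ 0 := by
    intro n z hz x hx h0
    have := job_psi_N_dist hz hx
    rw [h0, norm_zero] at this
    have := hδ n
    linarith
  have hfarev : ∀ n, ∀ᶠ z : ℂ in Bornology.cobounded ℂ, z ∈ U n := by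
    intro n
    filter_upwards [job_psi_far_cobounded q (3 * ε)] with z hz using hfarU n hz
  choose s hsd hsq hst using fun n => job_psi_exists hpre ha hb (hδ n)
  have hsne : ∀ n, ∀ z ∈ N n, s n z ≠ 0 := by
    intro n z hz h0
    have := hsq n z hz
    rw [h0] at this
    have h1 : (z - a) / (z - b) ≠ 0 := div_ne_zero (hNΓ n z hz a ha) (hNΓ n z hz b hb)
    apply h1
    rw [← this]; norm_num
  have hagree : ∀ n m : ℕ, n ≤ m → EqOn (s n) (s m) (U n) := by
    intro n m hnm
    refine job_psi_sign (hUpre n) ((hsd n).continuousOn.mono (hUN n))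
      ((hsd m).continuousOn.mono ((hUN n).trans (hNmono n m hnm))) ?_ ?_ (hfarev n) (hst n) (hst m)
    · intro z hz
      rw [hsq n z (hUN n hz), hsq m z (hNmono n m hnm (hUN n hz))]
    · intro z hz
      exact hsne m z (hNmono n m hnm (hUN n hz))
  set c : ℂ := (a + b) / 2 with hc
  set d : ℂ := (b - a) / 2 with hd
  set Ψ : ℂ → ℂ := fun z => if h : ∃ n, z ∈ U n then (z - c) - (z - b) * s (Nat.find h) z else 0 with hΨ
  have hΨU : ∀ n, ∀ z ∈ U n, Ψ z = (z - c) - (z - b) * s n z := by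
    intro n z hz
    have hex : ∃ n, z ∈ U n := ⟨n, hz⟩
    have h1 : Ψ z = (z - c) - (z - b) * s (Nat.find hex) z := by
      rw [hΨ]
      simp only [dif_pos hex]
    rw [h1, hagree (Nat.find hex) n (Nat.find_min' hex hz) (Nat.find_spec hex)]
  have haq : ‖a - q‖ ≤ ε := by
    have := hΓq ha; rwa [mem_closedBall, dist_eq_norm] at this
  have hbq : ‖b - q‖ ≤ ε := by
    have := hΓq hb; rwa [mem_closedBall, dist_eq_norm] at this
  have hcq : ‖c - q‖ ≤ ε := by
    have e : c - q = ((a - q) + (b - q)) / 2 := by rw [hc]; ring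
    rw [e, norm_div]
    have := norm_add_le (a - q) (b - q)
    have h2 : ‖(2 : ℂ)‖ = 2 := by simp
    rw [h2, div_le_iff₀ (by norm_num)]
    linarith
  have hdn : ‖d‖ ≤ ε := by
    have e : d = ((b - q) - (a - q)) / 2 := by rw [hd]; ring
    rw [e, norm_div]
    have := norm_sub_le (b - q) (a - q)
    have h2 : ‖(2 : ℂ)‖ = 2 := by simp
    rw [h2, div_le_iff₀ (by norm_num)]
    linarith
  -- the comparison function on the far region
  have hcfar : ∀ z : ℂ, 3 * ε < ‖z - q‖ → 2 * ε < ‖z - c‖ := by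
    intro z hz
    have : ‖z - q‖ ≤ ‖z - c‖ + ‖c - q‖ := norm_sub_le_norm_sub_add_norm_sub z c q
    linarith
  have htlt : ∀ z : ℂ, 3 * ε < ‖z - q‖ → ‖d ^ 2 / (z - c) ^ 2‖ < 1 := by
    intro z hz
    have h1 := hcfar z hz
    have h2 : 0 < ‖z - c‖ := by linarith
    rw [norm_div, norm_pow, norm_pow, div_lt_one (by positivity)]
    exact pow_lt_pow_left₀ (by linarith) (norm_nonneg _) (by norm_num)
  set g : ℂ → ℂ := fun z => Complex.exp (Complex.log (1 + -(d ^ 2 / (z - c) ^ 2)) / 2) with hg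
  have hslit : ∀ z : ℂ, 3 * ε < ‖z - q‖ → 1 + -(d ^ 2 / (z - c) ^ 2) ∈ Complex.slitPlane := by
    intro z hz
    apply Complex.mem_slitPlane_of_norm_lt_one
    rw [norm_neg]
    exact htlt z hz
  have hgsq : ∀ z : ℂ, 3 * ε < ‖z - q‖ → g z ^ 2 = 1 - d ^ 2 / (z - c) ^ 2 := by
    intro z hz
    rw [hg]
    show (Complex.exp (Complex.log (1 + -(d ^ 2 / (z - c) ^ 2)) / 2)) ^ 2 = _
    rw [job_psi_sqrt _ (Complex.slitPlane_ne_zero (hslit z hz))]
    ring
  have hzc0 : ∀ z : ℂ, 3 * ε < ‖z - q‖ → z - c ≠ 0 := by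
    intro z hz h0
    have := hcfar z hz
    rw [h0, norm_zero] at this
    linarith
  have hcomp : EqOn (fun z => (z - b) / (z - c) * s 0 z) g {z : ℂ | 3 * ε < ‖z - q‖} := by
    refine job_psi_sign (job_psi_far q (by positivity)) ?_ ?_ ?_ ?_ (job_psi_far_cobounded q (3 * ε)) ?_ ?_
    · refine ContinuousOn.mul (ContinuousOn.div (by fun_prop) (by fun_prop) ?_)
        ((hsd 0).continuousOn.mono (hfarN 0))
      intro z hz
      exact hzc0 z hz
    · refine Complex.continuous_exp.comp_continuousOn ?_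
      refine ContinuousOn.div_const ?_ 2
      refine ContinuousOn.clog ?_ hslit
      refine continuousOn_const.add (ContinuousOn.neg (continuousOn_const.div (by fun_prop) ?_))
      intro z hz
      exact pow_ne_zero _ (hzc0 z hz)
    · intro z hz
      have hz' : 3 * ε < ‖z - q‖ := hz
      show ((z - b) / (z - c) * s 0 z) ^ 2 = g z ^ 2
      rw [hgsq z hz', mul_pow, hsq 0 z (hfarN 0 hz)]
      have h1 := hzc0 z hz'
      have h2 := hNΓ 0 z (hfarN 0 hz) b hb
      field_simp
      rw [hc, hd]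
      ring
    · intro z _
      exact Complex.exp_ne_zero _
    · have h1 := (job_psi_tendsto b c).mul (hst 0)
      rwa [one_mul] at h1
    · have h1 : Tendsto (fun z : ℂ => (z - c)⁻¹) (Bornology.cobounded ℂ) (𝓝 0) :=
        tendsto_inv₀_cobounded.comp (tendsto_sub_const_cobounded c)
      have h2 : Tendsto (fun z : ℂ => 1 + -(d ^ 2 / (z - c) ^ 2)) (Bornology.cobounded ℂ) (𝓝 1) := by
        have h3 := ((h1.pow 2).const_mul (d ^ 2)).neg.const_add 1
        simp only [ne_eq, OfNat.ofNat_ne_zero, not_false_eq_true, zero_pow, mul_zero, neg_zero,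
          add_zero] at h3
        refine h3.congr fun z => ?_
        rw [inv_pow, div_eq_mul_inv]
      have h3 : Tendsto Complex.log (𝓝 1) (𝓝 (Complex.log 1)) :=
        (continuousAt_clog Complex.one_mem_slitPlane).tendsto
      have h4 := (h3.comp h2).div_const 2
      rw [Complex.log_one, zero_div] at h4
      have h5 := (Complex.continuous_exp.tendsto 0).comp h4
      rw [Complex.exp_zero] at h5
      exact h5
  have hgre : ∀ z : ℂ, 0 ≤ (g z).re := by
    intro z
    rw [hg]
    show 0 ≤ (Complex.exp (Complex.log (1 + -(d ^ 2 / (z - c) ^ 2)) / 2)).re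
    rw [Complex.exp_re]
    apply mul_nonneg (Real.exp_pos _).le
    apply Real.cos_nonneg_of_mem_Icc
    have h1 : (Complex.log (1 + -(d ^ 2 / (z - c) ^ 2)) / 2).im =
        Complex.arg (1 + -(d ^ 2 / (z - c) ^ 2)) / 2 := by
      rw [← Complex.log_im]
      have : (2 : ℂ) = ((2 : ℝ) : ℂ) := by norm_num
      rw [this, Complex.div_ofReal_im]
    rw [h1]
    have h2 := Complex.neg_pi_lt_arg (1 + -(d ^ 2 / (z - c) ^ 2))
    have h3 := Complex.arg_le_pi (1 + -(d ^ 2 / (z - c) ^ 2))
    constructor <;> linarith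
  have h1g : ∀ z : ℂ, 1 ≤ ‖1 + g z‖ := by
    intro z
    have h1 := Complex.re_le_norm (1 + g z)
    rw [Complex.add_re, Complex.one_re] at h1
    have := hgre z
    linarith
  have hΨfar : ∀ z : ℂ, 3 * ε < ‖z - q‖ → Ψ z = (z - c) * (1 - g z) := by
    intro z hz
    rw [hΨU 0 z (hfarU 0 hz)]
    have h1 := hcomp (show z ∈ {z : ℂ | 3 * ε < ‖z - q‖} from hz)
    have h1' : (z - b) / (z - c) * s 0 z = g z := h1
    have h2 := hzc0 z hz
    rw [← h1']
    field_simp
  refine ⟨Ψ, ?_, ?_, ?_⟩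
  · -- differentiability
    intro z hz
    apply DifferentiableAt.differentiableWithinAt
    by_cases hex : ∃ n, z ∈ U n
    · obtain ⟨n, hn⟩ := hex
      have h1 : DifferentiableAt ℂ (fun z => (z - c) - (z - b) * s n z) z := by
        have h2 : DifferentiableAt ℂ (s n) z :=
          (hsd n).differentiableAt ((job_psi_N_open Γ _).mem_nhds (hUN n hn))
        exact (differentiableAt_id.sub_const c).sub ((differentiableAt_id.sub_const b).mul h2)
      refine h1.congr_of_eventuallyEq ?_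
      filter_upwards [(hUopen n).mem_nhds hn] with y hy using hΨU n y hy
    · -- a neighbourhood outside of all U n
      have hpos : 0 < infDist z Γ := by
        rw [← hcpt.isClosed.notMem_iff_infDist_pos ⟨a, ha⟩]
        exact hz
      obtain ⟨m, hm⟩ := exists_nat_gt (2 * ε / infDist z Γ)
      have hm' : ε / ((m : ℝ) + 1) < infDist z Γ / 2 := by
        rw [div_lt_iff₀ hpos] at hm
        rw [div_lt_iff₀ (by positivity)]
        nlinarith
      have hball : ball z (infDist z Γ / 2) ⊆ N m := by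
        intro y hy
        rw [mem_ball] at hy
        show ε / ((m : ℝ) + 1) < infDist y Γ
        have h1 : infDist z Γ ≤ infDist y Γ + dist z y := infDist_le_infDist_add_dist
        rw [dist_comm] at h1
        linarith
      have hzero : ∀ y ∈ ball z (infDist z Γ / 2), Ψ y = 0 := by
        intro y hy
        have hno : ¬ ∃ n, y ∈ U n := by
          rintro ⟨n, hn⟩
          apply hex
          have h1 : y ∈ U (max n m) := hUmono n _ (le_max_left _ _) hn
          have h2 : ball z (infDist z Γ / 2) ⊆ connectedComponentIn (N (max n m)) y :=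
            (convex_ball z _).isPreconnected.subset_connectedComponentIn hy
              (hball.trans (hNmono m _ (le_max_right _ _)))
          have h3 : connectedComponentIn (N (max n m)) w0 = connectedComponentIn (N (max n m)) y :=
            connectedComponentIn_eq h1
          refine ⟨max n m, ?_⟩
          show z ∈ connectedComponentIn (N (max n m)) w0
          rw [h3]
          exact h2 (mem_ball_self (by positivity))
        rw [hΨ]
        simp only [dif_neg hno]
      refine (differentiableAt_const (0 : ℂ)).congr_of_eventuallyEq ?_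
      filter_upwards [ball_mem_nhds z (show 0 < infDist z Γ / 2 by positivity)] with y hy
        using hzero y hy
  · intro z hz
    by_cases hex : ∃ n, z ∈ U n
    swap
    · have : Ψ z = 0 := by rw [hΨ]; simp only [dif_neg hex]
      rw [this, norm_zero]; positivity
    obtain ⟨n, hn⟩ := hex
    rcases le_or_gt ‖z - q‖ (10 * ε) with h10 | h10
    · rw [hΨU n z hn]
      have h1 : ‖z - c‖ ≤ 11 * ε := by
        have := norm_sub_le_norm_sub_add_norm_sub z q c
        rw [norm_sub_rev q c] at this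
        linarith
      have h2 : ‖z - a‖ ≤ 11 * ε := by
        have := norm_sub_le_norm_sub_add_norm_sub z q a
        rw [norm_sub_rev q a] at this
        linarith
      have h3 : ‖z - b‖ ≤ 11 * ε := by
        have := norm_sub_le_norm_sub_add_norm_sub z q b
        rw [norm_sub_rev q b] at this
        linarith
      have h4 : ‖(z - b) * s n z‖ ≤ 11 * ε := by
        have e : ((z - b) * s n z) ^ 2 = (z - a) * (z - b) := by
          rw [mul_pow, hsq n z (hUN n hn)]
          have := hNΓ n z (hUN n hn) b hb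
          field_simp
        have e2 : ‖(z - b) * s n z‖ ^ 2 ≤ (11 * ε) ^ 2 := by
          rw [← norm_pow, e, norm_mul]
          nlinarith [norm_nonneg (z - a), norm_nonneg (z - b)]
        exact le_of_sq_le_sq e2 (by positivity)
      calc ‖z - c - (z - b) * s n z‖ ≤ ‖z - c‖ + ‖(z - b) * s n z‖ := norm_sub_le _ _
        _ ≤ 22 * ε := by linarith
    · have h3 : 3 * ε < ‖z - q‖ := by linarith
      rw [hΨfar z h3]
      have e : (z - c) * (1 - g z) = d ^ 2 / (z - c) / (1 + g z) := by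
        have h4 := hzc0 z h3
        have h5 : (1 + g z) ≠ 0 := by
          intro h0
          have := h1g z
          rw [h0, norm_zero] at this
          linarith
        have h6 := hgsq z h3
        rw [eq_div_iff h5, eq_div_iff h4]
        have : (z - c) * (1 - g z) * (1 + g z) * (z - c) = (z - c) ^ 2 * (1 - g z ^ 2) := by ring
        rw [this, h6]
        field_simp
        ring
      rw [e, norm_div, norm_div, norm_pow]
      have h4 := hcfar z h3
      have h5 := h1g z
      have h7 : 0 < ‖z - c‖ := by linarith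
      have h8 : 0 < ‖1 + g z‖ := by linarith
      rw [div_div, div_le_iff₀ (by positivity)]
      have h6 : 2 * ε * 1 ≤ ‖z - c‖ * ‖1 + g z‖ :=
        mul_le_mul h4.le h5 (by norm_num) (norm_nonneg _)
      nlinarith [norm_nonneg d]
  · intro z hz
    have h3 : 3 * ε < ‖z - q‖ := by linarith
    rw [hΨfar z h3]
    have h4 := hzc0 z h3
    have h5 : (1 + g z) ≠ 0 := by
      intro h0
      have := h1g z
      rw [h0, norm_zero] at this
      linarith
    have h6 := hgsq z h3
    have e : (z - c) * (1 - g z) - d ^ 2 / (2 * (z - c)) =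
        d ^ 4 / (z - c) ^ 3 / (2 * (1 + g z) ^ 2) := by
      have h7 : (1 - g z) = d ^ 2 / (z - c) ^ 2 / (1 + g z) := by
        rw [eq_div_iff h5]
        have : (1 - g z) * (1 + g z) = 1 - g z ^ 2 := by ring
        rw [this, h6]; ring
      have h8 : (1 - g z) - d ^ 2 / (z - c) ^ 2 / 2 =
          (d ^ 2 / (z - c) ^ 2) ^ 2 / (2 * (1 + g z) ^ 2) := by
        have : (1 - g z) - d ^ 2 / (z - c) ^ 2 / 2 =
            d ^ 2 / (z - c) ^ 2 / (1 + g z) - d ^ 2 / (z - c) ^ 2 / 2 := by rw [← h7]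
        have h9 : d ^ 2 / (z - c) ^ 2 / (1 + g z) - d ^ 2 / (z - c) ^ 2 / 2 =
            d ^ 2 / (z - c) ^ 2 * (1 - g z) / (2 * (1 + g z)) := by
          field_simp
          ring
        rw [this, h9, h7]
        field_simp
      have h10 : (z - c) * (1 - g z) - d ^ 2 / (2 * (z - c)) =
          (z - c) * ((1 - g z) - d ^ 2 / (z - c) ^ 2 / 2) := by
        field_simp
      rw [h10, h8]
      field_simp
    rw [e, norm_div, norm_div, norm_pow, norm_pow, norm_mul, norm_pow]
    have h7 : ‖(2 : ℂ)‖ = 2 := by simp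
    rw [h7]
    have h8 := h1g z
    have h9 : 1 ≤ 2 * ‖1 + g z‖ ^ 2 := by nlinarith
    have h10 : 0 < ‖z - c‖ := norm_pos_iff.2 h4
    calc ‖d‖ ^ 4 / ‖z - c‖ ^ 3 / (2 * ‖1 + g z‖ ^ 2) ≤ ‖d‖ ^ 4 / ‖z - c‖ ^ 3 :=
          div_le_self (by positivity) h9
      _ ≤ 22 * ε ^ 4 / ‖z - c‖ ^ 3 := by
          apply div_le_div_of_nonneg_right _ (by positivity)
          have : ‖d‖ ^ 4 ≤ ε ^ 4 := pow_le_pow_left₀ (norm_nonneg _) hdn 4
          have : 0 ≤ ε ^ 4 := by positivity
          linarith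

end Pool.Agent.Helper430.NP
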