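import Pool.Agent.Helper430.NP.Defs

set_option autoImplicit false
open MeasureTheory Set Filter Topology Complex Metric

namespace Pool.Agent.Helper430.NP
theorem job_rec_dbar_zero {Φ : ℂ → ℂ} {c : ℂ} {V : Set ℂ} (hV : IsOpen V) (h : ∀ z ∈ V, Φ z = c)
    {z : ℂ} (hz : z ∈ V) : dbar Φ z = 0 := by
  have h1 : Φ =ᶠ[𝓝 z] fun _ => c := by
    filter_upwards [hV.mem_nhds hz] with w hw using h w hw
  rw [dbar, h1.fderiv_eq]
  simp

theorem job_rec_dbar_cont {Φ : ℂ → ℂ} (h : ContDiff ℝ 1 Φ) : Continuous (dbar Φ) := by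
  have h1 : Continuous (fderiv ℝ Φ) := h.continuous_fderiv (by norm_num)
  unfold dbar
  fun_prop

theorem job_rec_dbar_smul {Φ : ℂ → ℂ} (h : ContDiff ℝ 1 Φ) (a : ℂ) (z : ℂ) :
    dbar (fun w => a * Φ w) z = a * dbar Φ z := by
  have hd : DifferentiableAt ℝ Φ z := (h.differentiable (by norm_num)) z
  rw [dbar, dbar, fderiv_const_mul hd]
  simp only [ContinuousLinearMap.smul_apply, smul_eq_mul]
  ring

theorem job_rec_Tloc_smul {Φ : ℂ → ℂ} (h : ContDiff ℝ 1 Φ) (a : ℂ) (f : ℂ → ℂ) (z : ℂ) :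
    Tloc (fun w => a * Φ w) f z = a * Tloc Φ f z := by
  have h1 : cz (fun ζ => f ζ * dbar (fun w => a * Φ w) ζ) z
      = a * cz (fun ζ => f ζ * dbar Φ ζ) z := by
    rw [cz, cz]
    have h2 : (fun ζ => f ζ * dbar (fun w => a * Φ w) ζ / (ζ - z))
        = fun ζ => a * (f ζ * dbar Φ ζ / (ζ - z)) := by
      funext ζ
      rw [job_rec_dbar_smul h]
      ring
    rw [h2, integral_const_mul]
    ring
  rw [Tloc, Tloc, h1]
  ring

theorem job_rec (hCP : Stmt_CP) (hCz : Stmt_Cz) (hT : Stmt_T) : Stmt_Rec := by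
  intro C M f hC hf hf0 Φ W hΦ hΦs hW hCW hΦ1
  -- the radius
  obtain ⟨ρ, hρ, hρC, hρΦ⟩ : ∃ ρ : ℝ, 0 < ρ ∧ C ⊆ closedBall 0 ρ ∧ tsupport Φ ⊆ closedBall 0 ρ := by
    obtain ⟨r1, h1⟩ := hC.isBounded.subset_closedBall (0 : ℂ)
    obtain ⟨r2, h2⟩ := hΦs.isCompact.isBounded.subset_closedBall (0 : ℂ)
    refine ⟨max 1 (max r1 r2), lt_of_lt_of_le one_pos (le_max_left _ _), h1.trans ?_, h2.trans ?_⟩
    · exact closedBall_subset_closedBall ((le_max_left _ _).trans (le_max_right _ _))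
    · exact closedBall_subset_closedBall ((le_max_right _ _).trans (le_max_right _ _))
  have hout : ∀ t : ℝ, ρ < t → ((t : ℂ)) ∉ C := by
    intro t ht hmem
    have := hρC hmem
    rw [mem_closedBall_zero_iff, Complex.norm_real, Real.norm_of_nonneg (by linarith)] at this
    linarith
  have hM : 0 ≤ M := (norm_nonneg _).trans (hf.bd _ (hout (ρ + 1) (by linarith)))
  have hfM : ∀ z, ‖f z‖ ≤ M := by
    intro z
    by_cases hz : z ∈ C
    · rw [hf0 z hz, norm_zero]; exact hM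
    · exact hf.bd z hz
  -- bounds of the cut-off
  obtain ⟨s0, hs0⟩ := hΦ.continuous.bounded_above_of_compact_support hΦs
  set s : ℝ := max 1 s0 with hs
  have hs1 : 1 ≤ s := le_max_left _ _
  have hsΦ : ∀ z, ‖Φ z‖ ≤ s := fun z => (hs0 z).trans (le_max_right _ _)
  have hd0 : ∀ z ∉ closedBall (0 : ℂ) ρ, dbar Φ z = 0 := by
    intro z hz
    refine job_rec_dbar_zero (c := 0) (V := (tsupport Φ)ᶜ) (isClosed_tsupport _).isOpen_compl ?_ ?_
    · exact fun w hw => image_eq_zero_of_notMem_tsupport hw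
    · exact fun h => hz (hρΦ h)
  have hdsupp : HasCompactSupport (dbar Φ) :=
    HasCompactSupport.intro (isCompact_closedBall (0 : ℂ) ρ) (fun z hz => hd0 z hz)
  obtain ⟨L0, hL0⟩ := (job_rec_dbar_cont hΦ).bounded_above_of_compact_support hdsupp
  have hL00 : 0 ≤ L0 := (norm_nonneg _).trans (hL0 0)
  -- the rescaled cut-off
  set φ : ℂ → ℂ := fun w => ((s⁻¹ : ℝ) : ℂ) * Φ w with hφ
  have hsinv : ‖((s⁻¹ : ℝ) : ℂ)‖ = s⁻¹ := by
    rw [Complex.norm_real, Real.norm_of_nonneg (by positivity)]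
  have hsne : ((s⁻¹ : ℝ) : ℂ) ≠ 0 := by
    rw [← norm_pos_iff, hsinv]; positivity
  have hφc : ContDiff ℝ 1 φ := contDiff_const.mul hΦ
  have hφs : tsupport φ ⊆ closedBall 0 ρ := (tsupport_mul_subset_right).trans hρΦ
  have hφ1 : ∀ z, ‖φ z‖ ≤ 1 := by
    intro z
    simp only [hφ]
    rw [norm_mul, hsinv, inv_mul_le_iff₀ (by positivity), mul_one]
    exact hsΦ z
  have hφL : ∀ z, ‖dbar φ z‖ ≤ L0 := by
    intro z
    rw [hφ, job_rec_dbar_smul hΦ, norm_mul, hsinv]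
    have h1 := hL0 z
    have h2 : s⁻¹ ≤ 1 := inv_le_one_of_one_le₀ hs1
    calc s⁻¹ * ‖dbar Φ z‖ ≤ 1 * L0 := by gcongr
      _ = L0 := one_mul _
  have hTφ : ∀ z, Tloc φ f z = ((s⁻¹ : ℝ) : ℂ) * Tloc Φ f z := fun z =>
    job_rec_Tloc_smul hΦ _ f z
  obtain ⟨T1, T2, T3⟩ := hT C M f hC hf hf0 hM φ 0 ρ L0 hρ hφc hφs hφ1 hφL
  have hTΦ : ∀ z, Tloc Φ f z = (s : ℂ) * Tloc φ f z := by
    intro z
    rw [hTφ, ← mul_assoc, ← Complex.ofReal_mul, mul_inv_cancel₀ (by positivity)]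
    simp
  -- the density
  set w : ℂ → ℂ := fun ζ => f ζ * dbar Φ ζ with hw
  have hfmeas : Measurable f := by
    classical
    have h1 : f = C.piecewise (fun _ => 0) f := by
      funext z
      by_cases hz : z ∈ C
      · rw [Set.piecewise_eq_of_mem _ _ _ hz, hf0 z hz]
      · rw [Set.piecewise_eq_of_notMem _ _ _ hz]
    rw [h1]
    exact ContinuousOn.measurable_piecewise continuousOn_const hf.diff.continuousOn
      hC.isClosed.measurableSet
  have hwmeas : Measurable w := hfmeas.mul (job_rec_dbar_cont hΦ).measurable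
  have hwB : ∀ ζ, ‖w ζ‖ ≤ M * L0 := by
    intro ζ
    simp only [hw]
    rw [norm_mul]
    exact mul_le_mul (hfM ζ) (hL0 ζ) (norm_nonneg _) hM
  have hw0 : ∀ ζ ∉ closedBall (0 : ℂ) ρ, w ζ = 0 := by
    intro ζ hζ
    simp only [hw]
    rw [hd0 ζ hζ, mul_zero]
  obtain ⟨_, W2, W3⟩ := hCz w (M * L0) 0 ρ hρ hwmeas hwB hw0
  -- the entire function
  set G : ℂ → ℂ := fun z => f z - Tloc Φ f z with hG
  have hGd : Differentiable ℂ G := by
    intro z
    by_cases hz : z ∈ C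
    · have hzW : z ∈ W := hCW hz
      have hts : tsupport w ⊆ Wᶜ := by
        apply closure_minimal _ hW.isClosed_compl
        intro ζ hζ hζW
        apply hζ
        simp only [hw]
        rw [job_rec_dbar_zero hW hΦ1 hζW, mul_zero]
      have h1 : DifferentiableAt ℂ (cz w) z := by
        refine (W3 z (fun h => hts h hzW)).differentiableAt ?_
        exact (isClosed_tsupport _).isOpen_compl.mem_nhds (fun h => hts h hzW)
      have h2 : G =ᶠ[𝓝 z] fun y => -cz w y := by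
        filter_upwards [hW.mem_nhds hzW] with y hy
        simp only [hG, Tloc, hw]
        rw [hΦ1 y hy]
        ring
      exact h1.neg.congr_of_eventuallyEq h2
    · have h1 : DifferentiableAt ℂ f z :=
        (hf.diff z hz).differentiableAt (hC.isClosed.isOpen_compl.mem_nhds hz)
      have h2 : DifferentiableAt ℂ (Tloc φ f) z := by
        have h3 : z ∈ (C ∩ tsupport φ)ᶜ := fun h => hz h.1
        exact (T1 z h3).differentiableAt
          ((hC.isClosed.inter (isClosed_tsupport _)).isOpen_compl.mem_nhds h3)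
      have h4 : G = fun y => f y - (s : ℂ) * Tloc φ f y := by
        funext y
        simp only [hG]
        rw [hTΦ]
      rw [h4]
      exact h1.sub (h2.const_mul _)
  have hTb : ∀ z, ‖Tloc Φ f z‖ ≤ s * (M * (1 + 6 * ρ * L0)) := by
    intro z
    rw [hTΦ, norm_mul, Complex.norm_real, Real.norm_of_nonneg (by positivity)]
    gcongr
    exact T2 z
  have hGb : Bornology.IsBounded (range G) := by
    rw [isBounded_iff_forall_norm_le]
    refine ⟨M + s * (M * (1 + 6 * ρ * L0)), ?_⟩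
    rintro _ ⟨z, rfl⟩
    exact (norm_sub_le _ _).trans (add_le_add (hfM z) (hTb z))
  have hconst : ∀ z, G z = G 0 := fun z => hGd.apply_eq_apply_of_bounded hGb z 0
  refine ⟨G 0, ?_, fun z => ?_⟩
  · -- the value at infinity
    obtain ⟨α₁, α₂, _, _, hα⟩ := T3 0
    set K : ℝ := 2 * (ρ ^ 2 * L0 * M) * (‖(0 : ℂ) - 0‖ + ρ) ^ 2 with hK
    have hlim : Tendsto (fun t : ℝ => M + s * (‖α₁‖ * t⁻¹ + ‖α₂‖ * (t⁻¹) ^ 2 + K * (t⁻¹) ^ 3))
        atTop (𝓝 (M + s * (‖α₁‖ * 0 + ‖α₂‖ * 0 ^ 2 + K * 0 ^ 3))) := by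
      have h1 : Tendsto (fun t : ℝ => t⁻¹) atTop (𝓝 0) := tendsto_inv_atTop_zero
      exact tendsto_const_nhds.add (((tendsto_const_nhds.mul h1).add
        (tendsto_const_nhds.mul (h1.pow 2))).add (tendsto_const_nhds.mul (h1.pow 3)) |>.const_mul s)
    have hlim' : M + s * (‖α₁‖ * 0 + ‖α₂‖ * 0 ^ 2 + K * 0 ^ 3) = M := by ring
    rw [hlim'] at hlim
    refine ge_of_tendsto hlim ?_
    filter_upwards [eventually_gt_atTop (2 * ρ)] with t ht
    have ht0 : 0 < t := by linarith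
    have hn : ‖(t : ℂ) - 0‖ = t := by
      rw [sub_zero, Complex.norm_real, Real.norm_of_nonneg ht0.le]
    have h1 := hα (t : ℂ) (by rw [hn, sub_zero, norm_zero]; linarith)
    rw [hn] at h1
    have h2 : ‖Tloc φ f t‖ ≤ ‖α₁‖ * t⁻¹ + ‖α₂‖ * (t⁻¹) ^ 2 + K * (t⁻¹) ^ 3 := by
      have e1 : Tloc φ f t = (Tloc φ f t - α₁ / ((t : ℂ) - 0) - α₂ / ((t : ℂ) - 0) ^ 2)
          + α₁ / ((t : ℂ) - 0) + α₂ / ((t : ℂ) - 0) ^ 2 := by ring
      rw [e1]
      refine (norm_add_le _ _).trans ?_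
      have h3 := norm_add_le (Tloc φ f t - α₁ / ((t : ℂ) - 0) - α₂ / ((t : ℂ) - 0) ^ 2)
        (α₁ / ((t : ℂ) - 0))
      have h4 : ‖α₁ / ((t : ℂ) - 0)‖ = ‖α₁‖ * t⁻¹ := by rw [norm_div, hn]; rfl
      have h5 : ‖α₂ / ((t : ℂ) - 0) ^ 2‖ = ‖α₂‖ * (t⁻¹) ^ 2 := by
        rw [norm_div, norm_pow, hn, inv_pow]; rfl
      have h6 : 2 * (ρ ^ 2 * L0 * M) * (‖(0 : ℂ) - 0‖ + ρ) ^ 2 / t ^ 3 = K * (t⁻¹) ^ 3 := by
        rw [inv_pow]; rfl
      rw [h6] at h1
      linarith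
    rw [← hconst t]
    simp only [hG]
    refine (norm_sub_le _ _).trans (add_le_add (hfM _) ?_)
    rw [hTΦ, norm_mul, Complex.norm_real, Real.norm_of_nonneg (by positivity)]
    gcongr
  · have := hconst z
    simp only [hG] at this ⊢
    rw [← this]
    ring

end Pool.Agent.Helper430.NP
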