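import Pool.Agent.Helper430.NP.Defs

set_option autoImplicit false
open MeasureTheory Set Filter Topology Complex Metric

namespace Pool.Agent.Helper430.NP
/-- upper rational values -/
def rephbA (K : Set ℂ) (x₀ : ℂ) (u : C(K, ℝ)) : Set ℝ :=
  {t | ∃ p q : Polynomial ℂ, (∀ z ∈ K, q.eval z ≠ 0) ∧
    (∀ z : K, u z ≤ (p.eval (z : ℂ) / q.eval (z : ℂ)).re) ∧ t = (p.eval x₀ / q.eval x₀).re}

theorem rephb_bdd (K : Set ℂ) (x₀ : ℂ) (hx : x₀ ∈ K) (u : C(K, ℝ)) : BddBelow (rephbA K x₀ u) := by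
  refine ⟨u ⟨x₀, hx⟩, ?_⟩
  rintro t ⟨p, q, -, h2, rfl⟩
  exact h2 ⟨x₀, hx⟩

theorem rephb_ne (K : Set ℂ) [CompactSpace K] (x₀ : ℂ) (u : C(K, ℝ)) : (rephbA K x₀ u).Nonempty := by
  refine ⟨_, Polynomial.C ((‖u‖ : ℝ) : ℂ), 1, by simp, ?_, rfl⟩
  intro z
  simp only [Polynomial.eval_C, Polynomial.eval_one, div_one, Complex.ofReal_re]
  exact (le_abs_self _).trans (u.norm_coe_le_norm z)

/-- the sublinear functional -/
noncomputable def rephbN (K : Set ℂ) (x₀ : ℂ) (u : C(K, ℝ)) : ℝ := sInf (rephbA K x₀ u)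

theorem rephb_le (K : Set ℂ) (x₀ : ℂ) (hx : x₀ ∈ K) (u : C(K, ℝ)) (p q : Polynomial ℂ)
    (hq : ∀ z ∈ K, q.eval z ≠ 0) (h : ∀ z : K, u z ≤ (p.eval (z : ℂ) / q.eval (z : ℂ)).re) :
    rephbN K x₀ u ≤ (p.eval x₀ / q.eval x₀).re :=
  csInf_le (rephb_bdd K x₀ hx u) ⟨p, q, hq, h, rfl⟩

theorem rephb_add (K : Set ℂ) [CompactSpace K] (x₀ : ℂ) (hx : x₀ ∈ K) (u w : C(K, ℝ)) :
    rephbN K x₀ (u + w) ≤ rephbN K x₀ u + rephbN K x₀ w := by
  have key : ∀ t ∈ rephbA K x₀ u, ∀ s ∈ rephbA K x₀ w, rephbN K x₀ (u + w) ≤ t + s := by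
    rintro t ⟨p, q, hq, h, rfl⟩ s ⟨p', q', hq', h', rfl⟩
    have e : ∀ z ∈ K, (p * q' + p' * q).eval z / (q * q').eval z = p.eval z / q.eval z + p'.eval z / q'.eval z := by
      intro z hz
      have h1 := hq z hz
      have h2 := hq' z hz
      rw [Polynomial.eval_add, Polynomial.eval_mul, Polynomial.eval_mul, Polynomial.eval_mul]
      field_simp
    have := rephb_le K x₀ hx (u + w) (p * q' + p' * q) (q * q') (by
      intro z hz
      rw [Polynomial.eval_mul]
      exact mul_ne_zero (hq z hz) (hq' z hz)) (by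
      intro z
      rw [e z z.2, Complex.add_re, ContinuousMap.add_apply]
      exact add_le_add (h z) (h' z))
    rw [e x₀ hx, Complex.add_re] at this
    exact this
  have h1 : ∀ s ∈ rephbA K x₀ w, rephbN K x₀ (u + w) - s ≤ rephbN K x₀ u := by
    intro s hs
    apply le_csInf (rephb_ne K x₀ u)
    intro t ht
    linarith [key t ht s hs]
  have h2 : rephbN K x₀ (u + w) - rephbN K x₀ u ≤ rephbN K x₀ w := by
    apply le_csInf (rephb_ne K x₀ w)
    intro s hs
    linarith [h1 s hs]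
  linarith

theorem rephb_hom_le (K : Set ℂ) [CompactSpace K] (x₀ : ℂ) (hx : x₀ ∈ K) (c : ℝ) (hc : 0 < c) (u : C(K, ℝ)) :
    rephbN K x₀ (c • u) ≤ c * rephbN K x₀ u := by
  have h1 : c⁻¹ * rephbN K x₀ (c • u) ≤ rephbN K x₀ u := by
    apply le_csInf (rephb_ne K x₀ u)
    rintro t ⟨p, q, hq, h, rfl⟩
    have e : ∀ z : ℂ, ((Polynomial.C (c : ℂ) * p).eval z / q.eval z).re = c * (p.eval z / q.eval z).re := by
      intro z
      rw [Polynomial.eval_mul, Polynomial.eval_C, mul_div_assoc, Complex.re_ofReal_mul]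
    have := rephb_le K x₀ hx (c • u) (Polynomial.C (c : ℂ) * p) q hq (by
      intro z
      rw [e, ContinuousMap.smul_apply, smul_eq_mul]
      exact mul_le_mul_of_nonneg_left (h z) hc.le)
    rw [e] at this
    rw [inv_mul_le_iff₀ hc]
    exact this
  rwa [inv_mul_le_iff₀ hc] at h1

theorem rephb_hom (K : Set ℂ) [CompactSpace K] (x₀ : ℂ) (hx : x₀ ∈ K) (c : ℝ) (hc : 0 < c) (u : C(K, ℝ)) :
    rephbN K x₀ (c • u) = c * rephbN K x₀ u := by
  apply le_antisymm (rephb_hom_le K x₀ hx c hc u)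
  have h := rephb_hom_le K x₀ hx c⁻¹ (inv_pos.2 hc) (c • u)
  rw [smul_smul, inv_mul_cancel₀ hc.ne', one_smul] at h
  rw [le_inv_mul_iff₀ hc] at h
  exact h

theorem rephb_ext (K : Set ℂ) [CompactSpace K] (x₀ : ℂ) (hx : x₀ ∈ K) (v : C(K, ℝ)) :
    ∃ g : C(K, ℝ) →ₗ[ℝ] ℝ, g v = rephbN K x₀ v ∧ ∀ u, g u ≤ rephbN K x₀ u := by
  have N0 : rephbN K x₀ 0 = 0 := by
    have := rephb_hom K x₀ hx 2 (by norm_num) 0
    rw [smul_zero] at this
    linarith
  by_cases hv : v = 0
  · obtain ⟨g, hg1, hg2⟩ := exists_extension_of_le_sublinear (E := C(K, ℝ)) ⊥ (rephbN K x₀)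
      (rephb_hom K x₀ hx) (rephb_add K x₀ hx) (by
        rintro ⟨x, hx'⟩
        have hx0 : x = 0 := (Submodule.mem_bot ℝ).1 hx'
        subst hx0
        show (⊥ : C(K, ℝ) →ₗ.[ℝ] ℝ) ⟨0, hx'⟩ ≤ rephbN K x₀ 0
        rw [N0]
        exact le_of_eq (LinearPMap.map_zero _))
    exact ⟨g, by rw [hv, map_zero, N0], hg2⟩
  · obtain ⟨g, hg1, hg2⟩ := exists_extension_of_le_sublinear (E := C(K, ℝ))
      (LinearPMap.mkSpanSingleton (K := ℝ) v (rephbN K x₀ v) hv) (rephbN K x₀)
      (rephb_hom K x₀ hx) (rephb_add K x₀ hx) (by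
        rintro ⟨x, hx'⟩
        have hx2 : x ∈ Submodule.span ℝ {v} := hx'
        obtain ⟨t, ht⟩ := Submodule.mem_span_singleton.1 hx2
        subst ht
        have e := LinearPMap.mkSpanSingleton'_apply v (rephbN K x₀ v)
          (fun c hc => smul_eq_zero.2 (Or.inl ((smul_eq_zero.1 hc).resolve_right hv))) t hx'
        have e2 : (LinearPMap.mkSpanSingleton (K := ℝ) v (rephbN K x₀ v) hv) ⟨t • v, hx'⟩ =
          t • rephbN K x₀ v := e
        rw [e2, smul_eq_mul]
        show t * rephbN K x₀ v ≤ rephbN K x₀ (t • v)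
        rcases lt_trichotomy t 0 with h | h | h
        · have h1 := rephb_add K x₀ hx (t • v) ((-t) • v)
          have h2 := rephb_hom K x₀ hx (-t) (by linarith) v
          rw [← add_smul, add_neg_cancel, zero_smul, N0, h2] at h1
          linarith
        · rw [h, zero_mul, zero_smul, N0]
        · rw [rephb_hom K x₀ hx t h v])
    refine ⟨g, ?_, hg2⟩
    have hmem : v ∈ (LinearPMap.mkSpanSingleton (K := ℝ) v (rephbN K x₀ v) hv :
        C(K, ℝ) →ₗ.[ℝ] ℝ).domain := Submodule.mem_span_singleton_self v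
    have h1 := hg1 ⟨v, hmem⟩
    rw [LinearPMap.mkSpanSingleton_apply ℝ ℝ hv] at h1
    exact h1

theorem job_rephb  : Stmt_RepHB := by
  intro K x₀ hK hx v c hv hc
  haveI : CompactSpace K := isCompact_iff_compactSpace.1 hK
  set v' : C(K, ℝ) := ⟨fun z => v z, by fun_prop⟩ with hv'
  obtain ⟨g, hgv, hgN⟩ := rephb_ext K x₀ hx v'
  have hcN : c ≤ rephbN K x₀ v' := by
    apply le_csInf (rephb_ne K x₀ v')
    rintro t ⟨p, q, hq, h, rfl⟩
    exact hc p q hq (fun z hz => h ⟨z, hz⟩)
  have hgpos : ∀ u : C(K, ℝ), 0 ≤ u → 0 ≤ g u := by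
    intro u hu
    have h1 : rephbN K x₀ (-u) ≤ 0 := by
      have := rephb_le K x₀ hx (-u) 0 1 (by simp) (by
        intro z
        have : 0 ≤ u z := hu z
        simp only [Polynomial.eval_zero, Polynomial.eval_one, zero_div, Complex.zero_re, ContinuousMap.neg_apply]
        linarith)
      simpa using this
    have h2 := hgN (-u)
    rw [map_neg] at h2
    linarith
  -- values on real parts of rational functions
  have hgr : ∀ (p q : Polynomial ℂ) (hq : ∀ z ∈ K, q.eval z ≠ 0) (u : C(K, ℝ)),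
      (∀ z : K, u z = (p.eval (z : ℂ) / q.eval (z : ℂ)).re) → g u = (p.eval x₀ / q.eval x₀).re := by
    intro p q hq u hu
    apply le_antisymm
    · exact (hgN u).trans (rephb_le K x₀ hx u p q hq (fun z => (hu z).le))
    · have h1 := rephb_le K x₀ hx (-u) (-p) q hq (by
        intro z
        rw [ContinuousMap.neg_apply, hu z, Polynomial.eval_neg, neg_div, Complex.neg_re])
      rw [Polynomial.eval_neg, neg_div, Complex.neg_re] at h1
      have h2 := hgN (-u)
      rw [map_neg] at h2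
      linarith
  -- Riesz
  let Λ : CompactlySupportedContinuousMap K ℝ →ₚ[ℝ] ℝ :=
    { toFun := fun u => g (u : C(K, ℝ))
      map_add' := fun u w => by
        rw [← map_add]
        rfl
      map_smul' := fun r u => by
        simp only [RingHom.id_apply]
        rw [← map_smul]
        rfl
      monotone' := fun u w huw => by
        have h1 : (0 : C(K, ℝ)) ≤ (w : C(K, ℝ)) - (u : C(K, ℝ)) := by
          rw [sub_nonneg]
          exact fun z => huw z
        have h2 := hgpos _ h1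
        rw [map_sub] at h2
        show g (u : C(K, ℝ)) ≤ g (w : C(K, ℝ))
        linarith }
  set μ₀ : Measure K := RealRMK.rieszMeasure Λ with hμ₀
  have hint : ∀ u : C(K, ℝ), ∫ z, u z ∂μ₀ = g u := by
    intro u
    have h1 := RealRMK.integral_rieszMeasure Λ ⟨u, HasCompactSupport.of_compactSpace _⟩
    exact h1
  have hg1 : g 1 = 1 := by
    have := hgr 1 1 (by simp) 1 (by intro z; simp)
    simpa using this
  haveI hprob : IsProbabilityMeasure μ₀ := by
    constructor
    have h1 := hint 1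
    rw [hg1] at h1
    simp only [ContinuousMap.one_apply, integral_const, smul_eq_mul, mul_one] at h1
    have h2 : μ₀ univ ≠ ⊤ := measure_ne_top _ _
    rw [← ENNReal.toReal_eq_one_iff]
    exact h1
  have hemb : MeasurableEmbedding (Subtype.val : K → ℂ) := MeasurableEmbedding.subtype_coe hK.measurableSet
  refine ⟨μ₀.map Subtype.val, ?_, ?_, ?_, ?_⟩
  · exact Measure.isProbabilityMeasure_map measurable_subtype_coe.aemeasurable
  · rw [Measure.map_apply measurable_subtype_coe hK.measurableSet.compl]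
    have : (Subtype.val : K → ℂ) ⁻¹' Kᶜ = ∅ := by
      ext z; simp
    rw [this, measure_empty]
  · intro p q hq
    rw [hemb.integral_map]
    have hcont : Continuous (fun z : K => p.eval (z : ℂ) / q.eval (z : ℂ)) := by
      apply Continuous.div
      · exact p.continuous.comp continuous_subtype_val
      · exact q.continuous.comp continuous_subtype_val
      · intro z; exact hq z z.2
    have hI : Integrable (fun z : K => p.eval (z : ℂ) / q.eval (z : ℂ)) μ₀ :=
      hcont.integrable_of_hasCompactSupport (HasCompactSupport.of_compactSpace _)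
    apply Complex.ext
    · have h1 := hint ⟨fun z : K => (p.eval (z : ℂ) / q.eval (z : ℂ)).re, Complex.continuous_re.comp hcont⟩
      rw [hgr p q hq _ (fun z => rfl)] at h1
      have h2 := Complex.reCLM.integral_comp_comm hI
      rw [Complex.reCLM_apply] at h2
      rw [← h2]
      exact h1
    · have h1 := hint ⟨fun z : K => (p.eval (z : ℂ) / q.eval (z : ℂ)).im, Complex.continuous_im.comp hcont⟩
      have e : ∀ z : ℂ, ((Polynomial.C (-I) * p).eval z / q.eval z).re = (p.eval z / q.eval z).im := by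
        intro z
        rw [Polynomial.eval_mul, Polynomial.eval_C, mul_div_assoc]
        simp [Complex.mul_re]
      rw [hgr (Polynomial.C (-I) * p) q hq _ (fun z => (e z).symm), e] at h1
      have h2 := Complex.imCLM.integral_comp_comm hI
      rw [Complex.imCLM_apply] at h2
      rw [← h2]
      exact h1
  · rw [hemb.integral_map]
    have h1 := hint v'
    have h2 : ∫ z : K, v z ∂μ₀ = g v' := h1
    rw [h2, hgv]
    exact hcN

end Pool.Agent.Helper430.NP
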