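import Pool.Agent.Helper430.NP.Defs

set_option autoImplicit false
open MeasureTheory Set Filter Topology Complex Metric

namespace Pool.Agent.Helper430.NP
namespace SplitAux

/-- a smooth cut-off around a compact set inside an open set -/
theorem exists_cut (C U : Set ℂ) (hC : IsCompact C) (hU : IsOpen U) (hCU : C ⊆ U) :
    ∃ (φ : ℂ → ℂ) (W : Set ℂ) (q : ℂ) (ρ L : ℝ), ContDiff ℝ 1 φ ∧ HasCompactSupport φ ∧
      IsOpen W ∧ C ⊆ W ∧ (∀ z ∈ W, φ z = 1) ∧ tsupport φ ⊆ U ∧ 0 < ρ ∧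
      tsupport φ ⊆ closedBall q ρ ∧ (∀ z, ‖φ z‖ ≤ 1) ∧ (∀ z, ‖dbar φ z‖ ≤ L) := by
  obtain ⟨T, hT, hCT, hTU⟩ := exists_compact_between hC hU hCU
  obtain ⟨f, hf1, hf0, hf01⟩ := exists_contMDiffMap_one_nhds_of_subset_interior
    (modelWithCornersSelf ℝ ℂ) (n := 1) hC.isClosed hCT
  obtain ⟨W, hWo, hCW, hW1⟩ := eventually_nhdsSet_iff_exists.mp hf1
  have hfs : ContDiff ℝ 1 (fun z => f z) := f.contMDiff.contDiff
  set φ : ℂ → ℂ := fun z => ((f z : ℝ) : ℂ) with hφ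
  have hφs : ContDiff ℝ 1 φ := Complex.ofRealCLM.contDiff.comp hfs
  have hts : tsupport φ ⊆ T := by
    apply closure_minimal _ hT.isClosed
    intro z hz
    by_contra hzT
    apply hz
    simp only [hφ, hf0 z hzT, Complex.ofReal_zero]
  have hcs : HasCompactSupport φ := hT.of_isClosed_subset (isClosed_tsupport _) hts
  obtain ⟨ρ, hρ⟩ := hT.isBounded.subset_closedBall (0 : ℂ)
  obtain ⟨B, hB⟩ := (hcs.fderiv (𝕜 := ℝ)).exists_bound_of_continuous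
    (hφs.continuous_fderiv one_ne_zero)
  refine ⟨φ, W, 0, max ρ 1, B, hφs, hcs, hWo, hCW, ?_, hts.trans hTU, by positivity, ?_, ?_, ?_⟩
  · intro z hz
    simp only [hφ, hW1 z hz, Complex.ofReal_one]
  · exact hts.trans (hρ.trans (closedBall_subset_closedBall (le_max_left _ _)))
  · intro z
    simp only [hφ, Complex.norm_real, Real.norm_eq_abs]
    rw [abs_of_nonneg (hf01 z).1]
    exact (hf01 z).2
  · intro z
    have h1 : ‖fderiv ℝ φ z 1‖ ≤ B := by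
      calc ‖fderiv ℝ φ z 1‖ ≤ ‖fderiv ℝ φ z‖ * ‖(1:ℂ)‖ := ContinuousLinearMap.le_opNorm _ _
        _ = ‖fderiv ℝ φ z‖ := by simp
        _ ≤ B := hB z
    have h2 : ‖I * fderiv ℝ φ z I‖ ≤ B := by
      calc ‖I * fderiv ℝ φ z I‖ = ‖fderiv ℝ φ z I‖ := by simp
        _ ≤ ‖fderiv ℝ φ z‖ * ‖I‖ := ContinuousLinearMap.le_opNorm _ _
        _ = ‖fderiv ℝ φ z‖ := by simp
        _ ≤ B := hB z
    unfold dbar
    rw [norm_div]
    have h3 := norm_add_le (fderiv ℝ φ z 1) (I * fderiv ℝ φ z I)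
    have h4 : ‖(2 : ℂ)‖ = 2 := by simp
    rw [h4, div_le_iff₀ (by norm_num)]
    linarith

end SplitAux

open SplitAux

theorem job_split (hCP : Stmt_CP) (hCz : Stmt_Cz) (hT : Stmt_T) (hTsum : Stmt_Tsum) (hRec : Stmt_Rec) : Stmt_Split := by
  intro C₁ C₂ M f hC₁ hC₂ hdisj hf
  classical
  obtain ⟨U₁, U₂, hU₁, hU₂, hCU₁, hCU₂, hUd⟩ :=
    SeparatedNhds.of_isCompact_isCompact hC₁ hC₂ hdisj
  obtain ⟨φ₁, W₁, q₁, ρ₁, L₁, hs₁, hcs₁, hWo₁, hCW₁, hone₁, hts₁, hρ₁, htb₁, hn₁, hd₁⟩ :=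
    exists_cut C₁ U₁ hC₁ hU₁ hCU₁
  obtain ⟨φ₂, W₂, q₂, ρ₂, L₂, hs₂, hcs₂, hWo₂, hCW₂, hone₂, hts₂, hρ₂, htb₂, hn₂, hd₂⟩ :=
    exists_cut C₂ U₂ hC₂ hU₂ hCU₂
  set C := C₁ ∪ C₂ with hC
  have hCc : IsCompact C := hC₁.union hC₂
  set g : ℂ → ℂ := fun z => if z ∈ C then 0 else f z with hg
  have hgf : ∀ z ∉ C, g z = f z := fun z hz => by simp only [hg, hz, if_false]
  have hg0 : ∀ z ∈ C, g z = 0 := fun z hz => by simp only [hg, hz, if_true]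
  have hgHB : HB C (max M 0) g := by
    constructor
    · exact hf.diff.congr (fun z hz => hgf z hz)
    · intro z hz
      rw [hgf z hz]
      exact (hf.bd z hz).trans (le_max_left _ _)
  have hM0 : 0 ≤ max M 0 := le_max_right _ _
  set φ : Bool → ℂ → ℂ := fun b => if b then φ₁ else φ₂ with hφ
  have hφt : φ true = φ₁ := by simp [hφ]
  have hφf : φ false = φ₂ := by simp [hφ]
  have hsum := hTsum C (max M 0) g hCc hgHB hg0 Bool Finset.univ φ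
    (by intro a _; cases a <;> simp [hφ, hs₁, hs₂])
    (by intro a _; cases a <;> simp [hφ, hcs₁, hcs₂])
  simp only [Fintype.sum_bool, hφt, hφf] at hsum
  have hzero₂ : ∀ z ∈ U₁, φ₂ z = 0 := by
    intro z hz
    by_contra hne
    exact Set.disjoint_left.mp hUd hz (hts₂ (subset_tsupport _ hne))
  have hzero₁ : ∀ z ∈ U₂, φ₁ z = 0 := by
    intro z hz
    by_contra hne
    exact Set.disjoint_left.mp hUd (hts₁ (subset_tsupport _ hne)) hz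
  obtain ⟨c, hc, hrec⟩ := hRec C (max M 0) g hCc hgHB hg0 (fun w => φ₁ w + φ₂ w)
    ((W₁ ∩ U₁) ∪ (W₂ ∩ U₂)) (hs₁.add hs₂) (hcs₁.add hcs₂)
    ((hWo₁.inter hU₁).union (hWo₂.inter hU₂))
    (Set.union_subset_union (Set.subset_inter hCW₁ hCU₁) (Set.subset_inter hCW₂ hCU₂))
    (by
      rintro z (⟨h1, h2⟩ | ⟨h1, h2⟩)
      · simp only [hone₁ z h1, hzero₂ z h2, add_zero]
      · simp only [hone₂ z h1, hzero₁ z h2, zero_add])
  obtain ⟨hD₁, hB₁, -⟩ := hT C (max M 0) g hCc hgHB hg0 hM0 φ₁ q₁ ρ₁ L₁ hρ₁ hs₁ htb₁ hn₁ hd₁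
  obtain ⟨hD₂, hB₂, -⟩ := hT C (max M 0) g hCc hgHB hg0 hM0 φ₂ q₂ ρ₂ L₂ hρ₂ hs₂ htb₂ hn₂ hd₂
  refine ⟨fun z => c + Tloc φ₁ g z, Tloc φ₂ g, ‖c‖ + max M 0 * (1 + 6 * ρ₁ * L₁),
    max M 0 * (1 + 6 * ρ₂ * L₂), ⟨?_, ?_⟩, ⟨?_, ?_⟩, ?_⟩
  · refine (hD₁.mono ?_).const_add c
    intro z hz hz'
    apply hz
    rcases hz'.1 with h | h
    · exact h
    · exact absurd (hts₁ hz'.2) (fun h' => Set.disjoint_left.mp hUd h' (hCU₂ h))
  · intro z _
    exact (norm_add_le _ _).trans (by linarith [hB₁ z])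
  · refine hD₂.mono ?_
    intro z hz hz'
    apply hz
    rcases hz'.1 with h | h
    · exact absurd (hts₂ hz'.2) (fun h' => Set.disjoint_left.mp hUd (hCU₁ h) h')
    · exact h
  · intro z _
    exact hB₂ z
  · intro z hz
    rw [← hgf z hz, hrec z, hsum z]
    ring

end Pool.Agent.Helper430.NP
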