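import Pool.Agent.Helper430.NP.Defs

set_option autoImplicit false
open MeasureTheory Set Filter Topology Complex Metric

namespace Pool.Agent.Helper430.NP
theorem start_ext_conn (R : ℝ) : IsPreconnected ((ball (0 : ℂ) R)ᶜ) := by
  by_cases hR : 0 ≤ R
  · have h1 : (ball (0 : ℂ) R)ᶜ =
        (fun x : ℝ × ℝ => (x.1 : ℂ) * Complex.exp (x.2 * I)) '' (Ici R ×ˢ univ) := by
      ext z
      simp only [mem_compl_iff, mem_ball_zero_iff, not_lt, mem_image, mem_prod, mem_Ici, mem_univ,
        and_true, Prod.exists]
      constructor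
      · intro h
        exact ⟨‖z‖, arg z, h, Complex.norm_mul_exp_arg_mul_I z⟩
      · rintro ⟨a, b, h, rfl⟩
        rw [norm_mul, Complex.norm_exp_ofReal_mul_I, mul_one, Complex.norm_real,
          Real.norm_eq_abs]
        exact h.trans (le_abs_self a)
    rw [h1]
    apply (isPreconnected_Ici.prod isPreconnected_univ).image
    apply Continuous.continuousOn
    fun_prop
  · have h1 : ball (0 : ℂ) R = ∅ := ball_eq_empty.2 (not_le.1 hR).le
    rw [h1, compl_empty]
    exact isPreconnected_univ

theorem start_frontier {V S : Set ℂ} {x : ℂ} (hV : IsPreconnected V) (hx : x ∈ V) (hxS : x ∉ S)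
    (hS : IsClosed S) (hd : Disjoint V (frontier S)) : V ⊆ Sᶜ := by
  have h1 : V ⊆ interior S ∪ Sᶜ := by
    intro z hz
    by_cases hzS : z ∈ S
    · left
      by_contra hzi
      exact Set.disjoint_left.1 hd hz ⟨subset_closure hzS, hzi⟩
    · exact Or.inr hzS
  have h2 := hV.subset_right_of_subset_union isOpen_interior hS.isOpen_compl (by
    rw [Set.disjoint_left]
    intro z hz hz'
    exact hz' (interior_subset hz)) h1 ⟨x, hx, hxS⟩
  exact h2

theorem job_start (hP3 : Stmt_P3) (hO : Stmt_O) : Stmt_Start := by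
  intro K x₀ E R hK hx₀ hF hKR hR
  obtain ⟨δ₀, hδ₀, hencl⟩ := hF.encl
  refine ⟨min R (δ₀ / 400), lt_min hR (by positivity), min_le_left _ _, ?_⟩
  intro δ hδ hδ1
  have hδR : δ ≤ R := hδ1.trans (min_le_left _ _)
  have hδ0 : δ ≤ δ₀ / 400 := hδ1.trans (min_le_right _ _)
  by_contra hcon
  push Not at hcon
  obtain ⟨h1, h2, h3, h4, h5, h6, h7, -⟩ := hO K x₀ E R δ hK hx₀ hF hKR hR hδ hδR
  set O := Od E R x₀ δ with hOd
  have hRn : ((R : ℂ)) ∉ O := by
    intro h
    have := h4 h
    rw [mem_ball_zero_iff, Complex.norm_real, Real.norm_eq_abs, abs_of_pos hR] at this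
    exact lt_irrefl _ this
  obtain ⟨p1, p2, p3, -⟩ := hP3 O (R : ℂ) h2 h3 hRn
  set S := connectedComponentIn Oᶜ (R : ℂ) with hS
  have hTF : frontier S ⊆ Fd E R δ := p2.trans h7
  have hTc : IsCompact (frontier S) := h6.of_isClosed_subset isClosed_frontier hTF
  have hTE : frontier S ⊆ E δ := fun z hz => (hTF hz).1
  have hcl : closure O ⊆ closedBall x₀ (100 * δ) := by
    apply closure_minimal _ isClosed_closedBall
    intro y hy
    rw [mem_closedBall, dist_eq_norm]
    exact (hcon y hy).le
  have hTb : frontier S ⊆ closedBall x₀ (100 * δ) :=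
    (p2.trans frontier_subset_closure).trans hcl
  have hdiam : Metric.diam (frontier S) < δ₀ := by
    have e1 : Metric.diam (frontier S) ≤ 2 * (100 * δ) :=
      (Metric.diam_mono hTb isBounded_closedBall).trans (Metric.diam_closedBall (by positivity))
    linarith
  apply hencl (frontier S) δ hδ hTc p3 hTE hdiam
  by_cases hxT : x₀ ∈ (frontier S)ᶜ
  · have hext : (ball (0 : ℂ) R)ᶜ ⊆ S := by
      apply (start_ext_conn R).subset_connectedComponentIn
      · rw [mem_compl_iff, mem_ball_zero_iff, Complex.norm_real, Real.norm_eq_abs, abs_of_pos hR]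
        exact lt_irrefl _
      · exact compl_subset_compl.2 h4
    have hSO : S ⊆ Oᶜ := connectedComponentIn_subset _ _
    have hxS : x₀ ∉ S := fun h => hSO h h1
    have hV := start_frontier (V := connectedComponentIn (frontier S)ᶜ x₀)
      isPreconnected_connectedComponentIn (mem_connectedComponentIn hxT) hxS p1 (by
        rw [Set.disjoint_left]
        intro z hz hz'
        exact connectedComponentIn_subset _ _ hz hz')
    apply (isBounded_ball (x := (0 : ℂ)) (r := R)).subset
    refine hV.trans ?_
    rw [compl_subset_comm]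
    exact hext
  · rw [connectedComponentIn_eq_empty hxT]
    exact Bornology.isBounded_empty

end Pool.Agent.Helper430.NP
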