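import Pool.Agent.Helper430.NP.Defs

set_option autoImplicit false
open MeasureTheory Set Filter Topology Complex Metric

namespace Pool.Agent.Helper430.NP
theorem tloc_int_bound (g : ℂ → ℂ) (K : ℝ) (q : ℂ) (ρ : ℝ) (hρ : 0 < ρ)
    (hg : ∀ ζ ∈ closedBall q ρ, ‖g ζ‖ ≤ K) (h0 : ∀ ζ ∉ closedBall q ρ, g ζ = 0) :
    ‖∫ ζ, g ζ‖ ≤ K * (Real.pi * ρ ^ 2) := by
  rw [← setIntegral_eq_integral_of_forall_compl_eq_zero h0]
  have hv : volume (closedBall q ρ) < ⊤ := measure_closedBall_lt_top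
  have h1 := norm_setIntegral_le_of_norm_le_const hv hg
  have h2 : volume.real (closedBall q ρ) = Real.pi * ρ ^ 2 := by
    rw [Measure.real, Complex.volume_closedBall, ENNReal.toReal_mul, ENNReal.toReal_pow,
      ENNReal.toReal_ofReal hρ.le, mul_comm]
    rfl
  rwa [h2] at h1

theorem tloc_fderiv_zero {φ : ℂ → ℂ} {z : ℂ} (h : z ∉ tsupport φ) : fderiv ℝ φ z = 0 :=
  image_eq_zero_of_notMem_tsupport fun hz => h (tsupport_fderiv_subset ℝ hz)

theorem tloc_dbar_zero {φ : ℂ → ℂ} {z : ℂ} (h : z ∉ tsupport φ) : dbar φ z = 0 := by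
  unfold dbar
  rw [tloc_fderiv_zero h]
  simp

theorem tloc_dbar_cont {φ : ℂ → ℂ} (h : ContDiff ℝ 1 φ) : Continuous (dbar φ) := by
  unfold dbar
  have h1 := h.continuous_fderiv (by simp)
  fun_prop

theorem tloc_dbar_mul {φ ψ : ℂ → ℂ} {z : ℂ} (hφ : DifferentiableAt ℝ φ z)
    (hψ : DifferentiableAt ℝ ψ z) :
    dbar (fun y => φ y * ψ y) z = φ z * dbar ψ z + ψ z * dbar φ z := by
  unfold dbar
  rw [fderiv_fun_mul hφ hψ]
  simp only [add_apply, smul_apply, smul_eq_mul]
  ring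

theorem tloc_dbar_holo {f : ℂ → ℂ} {z : ℂ} (hf : DifferentiableAt ℂ f z) : dbar f z = 0 := by
  unfold dbar
  rw [hf.fderiv_restrictScalars ℝ]
  have h1 : (fderiv ℂ f z) I = I * (fderiv ℂ f z) 1 := by
    have := (fderiv ℂ f z).map_smul I 1
    rwa [smul_eq_mul, smul_eq_mul, mul_one] at this
  simp only [ContinuousLinearMap.coe_restrictScalars']
  rw [h1, ← mul_assoc, I_mul_I]
  ring

theorem tloc_cz_add {w₁ w₂ : ℂ → ℂ} {z : ℂ} (h1 : Integrable (fun ζ => w₁ ζ / (ζ - z)))
    (h2 : Integrable (fun ζ => w₂ ζ / (ζ - z))) :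
    cz (fun ζ => w₁ ζ + w₂ ζ) z = cz w₁ z + cz w₂ z := by
  unfold cz
  rw [← mul_add, ← integral_add h1 h2]
  congr 2
  ext ζ
  rw [add_div]

theorem tloc_meas {C : Set ℂ} {M : ℝ} {f : ℂ → ℂ} (hC : IsCompact C) (hf : HB C M f)
    (h0 : ∀ z ∈ C, f z = 0) : Measurable f := by
  classical
  have h1 : f = C.piecewise (fun _ => 0) f := by
    ext z
    by_cases hz : z ∈ C
    · rw [Set.piecewise_eq_of_mem _ _ _ hz, h0 z hz]
    · rw [Set.piecewise_eq_of_notMem _ _ _ hz]
  rw [h1]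
  exact ContinuousOn.measurable_piecewise continuousOn_const hf.diff.continuousOn
    hC.isClosed.measurableSet

theorem tloc_notMem_tsupport {w : ℂ → ℂ} {z₀ : ℂ} {s : Set ℂ} (hs : s ∈ 𝓝 z₀)
    (h : ∀ z ∈ s, w z = 0) : z₀ ∉ tsupport w := by
  rw [notMem_tsupport_iff_eventuallyEq]
  filter_upwards [hs] with z hz
  exact h z hz

theorem tloc_holo_off (hCP : Stmt_CP) (hCz : Stmt_Cz) (C : Set ℂ) (M : ℝ) (f : ℂ → ℂ)
    (hC : IsCompact C) (hf : HB C M f) (h0 : ∀ z ∈ C, f z = 0) (hM : 0 ≤ M)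
    (φ : ℂ → ℂ) (q : ℂ) (ρ L : ℝ) (hρ : 0 < ρ) (hφ : ContDiff ℝ 1 φ)
    (hs : tsupport φ ⊆ closedBall q ρ) (hφ1 : ∀ z, ‖φ z‖ ≤ 1) (hL : ∀ z, ‖dbar φ z‖ ≤ L)
    (z₀ : ℂ) (hz₀ : z₀ ∉ C) : DifferentiableAt ℂ (Tloc φ f) z₀ := by
  have hfb : ∀ z, ‖f z‖ ≤ M := by
    intro z
    by_cases hz : z ∈ C
    · rw [h0 z hz, norm_zero]; exact hM
    · exact hf.bd z hz
  have hL0 : 0 ≤ L := (norm_nonneg _).trans (hL 0)
  have hfm := tloc_meas hC hf h0
  have hfd : ∀ z ∉ C, DifferentiableAt ℂ f z := fun z hz =>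
    hf.diff.differentiableAt (hC.isClosed.isOpen_compl.mem_nhds hz)
  -- the cut-off
  obtain ⟨r, hr, hrC⟩ : ∃ r > 0, closedBall z₀ r ⊆ Cᶜ :=
    Metric.nhds_basis_closedBall.mem_iff.1 (hC.isClosed.isOpen_compl.mem_nhds hz₀)
  let bp : ContDiffBump z₀ := ⟨r / 2, r, by positivity, by linarith⟩
  set χ : ℂ → ℂ := fun z => ((bp z : ℝ) : ℂ) with hχ
  have hχs : ContDiff ℝ 1 χ := by
    have h1 : ContDiff ℝ 1 bp := bp.contDiff
    exact Complex.ofRealCLM.contDiff.comp h1
  have hχ1 : ∀ z ∈ ball z₀ (r / 2), χ z = 1 := by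
    intro z hz
    have : bp z = 1 := bp.one_of_mem_closedBall (ball_subset_closedBall hz)
    simp only [hχ, this, ofReal_one]
  have hχt : tsupport χ ⊆ closedBall z₀ r := by
    have h1 : tsupport bp = closedBall z₀ r := bp.tsupport_eq
    rw [← h1]
    apply closure_mono
    intro z hz
    rw [Function.mem_support] at hz ⊢
    intro h
    apply hz
    simp only [hχ, h, ofReal_zero]
  have hχb : ∀ z, ‖χ z‖ ≤ 1 := by
    intro z
    simp only [hχ, norm_real, Real.norm_eq_abs]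
    rw [abs_of_nonneg bp.nonneg]
    exact bp.le_one
  have hχc : HasCompactSupport χ :=
    (isCompact_closedBall z₀ r).of_isClosed_subset (isClosed_tsupport _) hχt
  have hφc : HasCompactSupport φ :=
    (isCompact_closedBall q ρ).of_isClosed_subset (isClosed_tsupport _) hs
  obtain ⟨B, hB⟩ : ∃ B, ∀ z, ‖dbar χ z‖ ≤ B := by
    have hcs : HasCompactSupport (dbar χ) := by
      apply HasCompactSupport.of_support_subset_isCompact hχc
      intro z hz
      by_contra hcon
      exact hz (tloc_dbar_zero hcon)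
    exact hcs.exists_bound_of_continuous (tloc_dbar_cont hχs)
  have hB0 : 0 ≤ B := (norm_nonneg _).trans (hB 0)
  -- densities
  set w₁ : ℂ → ℂ := fun ζ => χ ζ * (f ζ * dbar φ ζ) with hw₁
  set w₂ : ℂ → ℂ := fun ζ => f ζ * φ ζ * dbar χ ζ with hw₂
  set w₃ : ℂ → ℂ := fun ζ => (1 - χ ζ) * (f ζ * dbar φ ζ) with hw₃
  have hmφ : Measurable φ := hφ.continuous.measurable
  have hmdφ : Measurable (dbar φ) := (tloc_dbar_cont hφ).measurable
  have hmχ : Measurable χ := hχs.continuous.measurable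
  have hmdχ : Measurable (dbar χ) := (tloc_dbar_cont hχs).measurable
  have hm₁ : Measurable w₁ := hmχ.mul (hfm.mul hmdφ)
  have hm₂ : Measurable w₂ := (hfm.mul hmφ).mul hmdχ
  have hm₃ : Measurable w₃ := (measurable_const.sub hmχ).mul (hfm.mul hmdφ)
  have hoff : ∀ ζ ∉ closedBall q ρ, φ ζ = 0 ∧ dbar φ ζ = 0 := by
    intro ζ hζ
    have : ζ ∉ tsupport φ := fun h => hζ (hs h)
    exact ⟨image_eq_zero_of_notMem_tsupport this, tloc_dbar_zero this⟩
  have hb₁ : ∀ ζ, ‖w₁ ζ‖ ≤ M * L := by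
    intro ζ
    rw [hw₁]
    simp only [norm_mul]
    calc ‖χ ζ‖ * (‖f ζ‖ * ‖dbar φ ζ‖) ≤ 1 * (M * L) :=
          mul_le_mul (hχb ζ) (mul_le_mul (hfb ζ) (hL ζ) (norm_nonneg _) hM) (by positivity)
            zero_le_one
      _ = M * L := one_mul _
  have hb₂ : ∀ ζ, ‖w₂ ζ‖ ≤ M * B := by
    intro ζ
    rw [hw₂]
    simp only [norm_mul]
    calc ‖f ζ‖ * ‖φ ζ‖ * ‖dbar χ ζ‖ ≤ (M * 1) * B :=
          mul_le_mul (mul_le_mul (hfb ζ) (hφ1 ζ) (norm_nonneg _) hM) (hB ζ) (norm_nonneg _)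
            (by positivity)
      _ = M * B := by ring
  have hb₃ : ∀ ζ, ‖w₃ ζ‖ ≤ 2 * (M * L) := by
    intro ζ
    rw [hw₃]
    simp only [norm_mul]
    have h1 : ‖1 - χ ζ‖ ≤ 2 := by
      calc ‖1 - χ ζ‖ ≤ ‖(1:ℂ)‖ + ‖χ ζ‖ := norm_sub_le _ _
        _ ≤ 2 := by rw [norm_one]; linarith [hχb ζ]
    exact mul_le_mul h1 (mul_le_mul (hfb ζ) (hL ζ) (norm_nonneg _) hM) (by positivity)
      (by norm_num)
  obtain ⟨hi₁, -, -⟩ := hCz w₁ _ q ρ hρ hm₁ hb₁ (by
    intro ζ hζ; simp only [hw₁, (hoff ζ hζ).2, mul_zero])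
  obtain ⟨hi₂, -, hd₂⟩ := hCz w₂ _ q ρ hρ hm₂ hb₂ (by
    intro ζ hζ; simp only [hw₂, (hoff ζ hζ).1, mul_zero, zero_mul])
  obtain ⟨hi₃, -, hd₃⟩ := hCz w₃ _ q ρ hρ hm₃ hb₃ (by
    intro ζ hζ; simp only [hw₃, (hoff ζ hζ).2, mul_zero])
  -- the function u
  set u : ℂ → ℂ := fun z => χ z * (f z * φ z) with hu
  have huC : ContDiff ℝ 1 u := by
    rw [contDiff_iff_contDiffAt]
    intro z
    by_cases hz : z ∈ tsupport u
    swap
    · rw [notMem_tsupport_iff_eventuallyEq] at hz
      exact (contDiffAt_const (c := (0:ℂ))).congr_of_eventuallyEq hz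
    have hz1 : z ∈ tsupport χ := by
      have : tsupport u ⊆ tsupport χ := by
        apply closure_mono
        intro y hy
        rw [Function.mem_support] at hy ⊢
        intro h
        apply hy
        simp only [hu, h, zero_mul]
      exact this hz
    have hzC : z ∉ C := hrC (hχt hz1)
    have hfa : ContDiffAt ℝ 1 f z := by
      have h1 : ContDiffOn ℂ 1 f Cᶜ := hf.diff.contDiffOn hC.isClosed.isOpen_compl
      have h2 : ContDiffAt ℂ 1 f z := h1.contDiffAt (hC.isClosed.isOpen_compl.mem_nhds hzC)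
      exact h2.restrict_scalars ℝ
    exact hχs.contDiffAt.mul (hfa.mul hφ.contDiffAt)
  have huc : HasCompactSupport u := hχc.mul_right
  have hdu : ∀ z, dbar u z = w₁ z + w₂ z := by
    intro z
    by_cases hz : z ∈ C
    · have h1 : z ∉ tsupport u := by
        intro h
        have : tsupport u ⊆ tsupport χ := by
          apply closure_mono
          intro y hy
          rw [Function.mem_support] at hy ⊢
          intro h
          apply hy
          simp only [hu, h, zero_mul]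
        exact hrC (hχt (this h)) hz
      rw [tloc_dbar_zero h1]
      simp only [hw₁, hw₂, h0 z hz, zero_mul, mul_zero, add_zero]
    · have hfz := hfd z hz
      have hfr : DifferentiableAt ℝ f z := hfz.restrictScalars ℝ
      have hφr : DifferentiableAt ℝ φ z := hφ.differentiable (by simp) z
      have hχr : DifferentiableAt ℝ χ z := hχs.differentiable (by simp) z
      have e1 := tloc_dbar_mul (φ := χ) (ψ := fun y => f y * φ y) hχr (hfr.mul hφr)
      rw [hu, e1, tloc_dbar_mul hfr hφr, tloc_dbar_holo hfz]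
      simp only [hw₁, hw₂]
      ring
  have hcp : ∀ z, cz w₁ z + cz w₂ z = - u z := by
    intro z
    rw [← (hCP u huC huc z).2, ← tloc_cz_add (hi₁ z) (hi₂ z)]
    congr 1
    ext ζ
    rw [hdu]
  have hcw : ∀ z, cz (fun ζ => f ζ * dbar φ ζ) z = cz w₁ z + cz w₃ z := by
    intro z
    rw [← tloc_cz_add (hi₁ z) (hi₃ z)]
    congr 1
    ext ζ
    simp only [hw₁, hw₃]
    ring
  have hloc : Tloc φ f =ᶠ[𝓝 z₀] fun z => cz w₃ z - cz w₂ z := by
    filter_upwards [ball_mem_nhds z₀ (show 0 < r / 2 by positivity)] with z hz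
    unfold Tloc
    rw [hcw z]
    have h1 := hcp z
    have h2 : u z = φ z * f z := by
      simp only [hu, hχ1 z hz]
      ring
    rw [h2] at h1
    linear_combination h1
  have hball := ball_mem_nhds z₀ (show 0 < r / 2 by positivity)
  have hn₃ : z₀ ∉ tsupport w₃ := tloc_notMem_tsupport hball (by
    intro z hz
    simp only [hw₃, hχ1 z hz, sub_self, zero_mul])
  have hn₂ : z₀ ∉ tsupport w₂ := tloc_notMem_tsupport hball (by
    intro z hz
    have h1 : χ =ᶠ[𝓝 z] fun _ => 1 := by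
      filter_upwards [isOpen_ball.mem_nhds hz] with y hy
      exact hχ1 y hy
    have h2 : dbar χ z = 0 := by
      unfold dbar
      rw [h1.fderiv_eq]
      simp
    simp only [hw₂, h2, mul_zero])
  refine DifferentiableAt.congr_of_eventuallyEq ?_ hloc
  apply DifferentiableAt.sub
  · exact hd₃.differentiableAt ((isClosed_tsupport _).isOpen_compl.mem_nhds hn₃)
  · exact hd₂.differentiableAt ((isClosed_tsupport _).isOpen_compl.mem_nhds hn₂)

theorem job_tloc (hCP : Stmt_CP) (hCz : Stmt_Cz) : Stmt_T := by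
  intro C M f hC hf h0 hM φ q ρ L hρ hφ hs hφ1 hL
  have hfb : ∀ z, ‖f z‖ ≤ M := by
    intro z
    by_cases hz : z ∈ C
    · rw [h0 z hz, norm_zero]; exact hM
    · exact hf.bd z hz
  have hL0 : 0 ≤ L := (norm_nonneg _).trans (hL 0)
  have hfm := tloc_meas hC hf h0
  set w : ℂ → ℂ := fun ζ => f ζ * dbar φ ζ with hw
  have hwm : Measurable w := hfm.mul (tloc_dbar_cont hφ).measurable
  have hwb : ∀ ζ, ‖w ζ‖ ≤ M * L := by
    intro ζ
    rw [hw]
    simp only [norm_mul]
    exact mul_le_mul (hfb ζ) (hL ζ) (norm_nonneg _) hM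
  have hws : ∀ ζ, ζ ∉ tsupport φ → w ζ = 0 := by
    intro ζ hζ
    simp only [hw, tloc_dbar_zero hζ, mul_zero]
  have hw0 : ∀ ζ ∉ closedBall q ρ, w ζ = 0 := fun ζ hζ => hws ζ fun h => hζ (hs h)
  obtain ⟨hi, hbd, hd⟩ := hCz w _ q ρ hρ hwm hwb hw0
  have hTl : ∀ z, Tloc φ f z = φ z * f z + cz w z := fun z => rfl
  clear_value w
  refine ⟨?_, ?_, ?_⟩
  · intro z₀ hz₀
    apply DifferentiableAt.differentiableWithinAt
    by_cases hzC : z₀ ∈ C
    · have hzs : z₀ ∉ tsupport φ := fun h => hz₀ ⟨hzC, h⟩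
      have hnb : (tsupport φ)ᶜ ∈ 𝓝 z₀ := (isClosed_tsupport _).isOpen_compl.mem_nhds hzs
      have h1 : Tloc φ f =ᶠ[𝓝 z₀] cz w := by
        filter_upwards [hnb] with z hz
        rw [hTl, image_eq_zero_of_notMem_tsupport hz, zero_mul, zero_add]
      have h2 : z₀ ∉ tsupport w := tloc_notMem_tsupport hnb (fun z hz => hws z hz)
      exact (hd.differentiableAt ((isClosed_tsupport _).isOpen_compl.mem_nhds h2)).congr_of_eventuallyEq h1
    · exact tloc_holo_off hCP hCz C M f hC hf h0 hM φ q ρ L hρ hφ hs hφ1 hL z₀ hzC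
  · intro z
    rw [hTl]
    calc ‖φ z * f z + cz w z‖ ≤ ‖φ z * f z‖ + ‖cz w z‖ := norm_add_le _ _
      _ ≤ 1 * M + 6 * ρ * (M * L) := by
          apply add_le_add _ (hbd z)
          rw [norm_mul]
          exact mul_le_mul (hφ1 z) (hfb z) (norm_nonneg _) zero_le_one
      _ = M * (1 + 6 * ρ * L) := by ring
  · intro c
    set R : ℝ := ‖q - c‖ + ρ with hR
    have hR0 : 0 < R := by positivity
    have hζc : ∀ ζ ∈ closedBall q ρ, ‖ζ - c‖ ≤ R := by
      intro ζ hζ
      rw [mem_closedBall, dist_eq_norm] at hζ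
      calc ‖ζ - c‖ = ‖(ζ - q) + (q - c)‖ := by congr 1; ring
        _ ≤ ‖ζ - q‖ + ‖q - c‖ := norm_add_le _ _
        _ ≤ R := by rw [hR]; linarith
    have hpi : (0:ℝ) < Real.pi := Real.pi_pos
    have hpin : ‖(1 / (Real.pi : ℂ))‖ = 1 / Real.pi := by
      rw [norm_div, norm_one, norm_real, Real.norm_eq_abs, abs_of_pos hpi]
    have hML : 0 ≤ M * L := mul_nonneg hM hL0
    refine ⟨-((1 / (Real.pi : ℂ)) * ∫ ζ, w ζ), -((1 / (Real.pi : ℂ)) * ∫ ζ, w ζ * (ζ - c)),
      ?_, ?_, ?_⟩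
    · rw [norm_neg, norm_mul, hpin]
      have := tloc_int_bound w (M * L) q ρ hρ (fun ζ _ => hwb ζ) hw0
      calc 1 / Real.pi * ‖∫ ζ, w ζ‖ ≤ 1 / Real.pi * (M * L * (Real.pi * ρ ^ 2)) :=
            mul_le_mul_of_nonneg_left this (by positivity)
        _ = ρ ^ 2 * L * M := by field_simp
    · rw [norm_neg, norm_mul, hpin]
      have := tloc_int_bound (fun ζ => w ζ * (ζ - c)) (M * L * R) q ρ hρ (by
        intro ζ hζ
        rw [norm_mul]
        exact mul_le_mul (hwb ζ) (hζc ζ hζ) (norm_nonneg _) hML) (by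
        intro ζ hζ
        rw [hw0 ζ hζ, zero_mul])
      calc 1 / Real.pi * ‖∫ ζ, w ζ * (ζ - c)‖ ≤ 1 / Real.pi * (M * L * R * (Real.pi * ρ ^ 2)) :=
            mul_le_mul_of_nonneg_left this (by positivity)
        _ = ρ ^ 2 * L * M * R := by field_simp
    · intro z hz
      have hzc0 : 0 < ‖z - c‖ := by linarith
      have hzc : z - c ≠ 0 := norm_pos_iff.1 hzc0
      have hzq : z ∉ closedBall q ρ := by
        intro h
        have := hζc z h
        linarith
      have hzs : z ∉ tsupport φ := fun h => hzq (hs h)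
      have hT : Tloc φ f z = (1 / (Real.pi : ℂ)) * ∫ ζ, w ζ / (ζ - z) := by
        rw [hTl, image_eq_zero_of_notMem_tsupport hzs, zero_mul, zero_add]
        rfl
      have hwi : Integrable w := by
        have hcs : HasCompactSupport w := by
          apply HasCompactSupport.of_support_subset_isCompact (isCompact_closedBall q ρ)
          intro ζ hζ
          by_contra hcon
          exact hζ (hw0 ζ hcon)
        have h1 : IntegrableOn w (closedBall q ρ) := by
          refine Measure.integrableOn_of_bounded (M := M * L) measure_closedBall_lt_top.ne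
            hwm.aestronglyMeasurable ?_
          exact Eventually.of_forall fun ζ => hwb ζ
        rw [← integrableOn_iff_integrable_of_support_subset (s := closedBall q ρ)]
        · exact h1
        · intro ζ hζ
          by_contra hcon
          exact hζ (hw0 ζ hcon)
      have hwi2 : Integrable (fun ζ => w ζ * (ζ - c)) := by
        have h1 : IntegrableOn (fun ζ => w ζ * (ζ - c)) (closedBall q ρ) := by
          refine Measure.integrableOn_of_bounded (M := M * L * R) measure_closedBall_lt_top.ne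
            (hwm.mul (measurable_id.sub measurable_const)).aestronglyMeasurable ?_
          rw [ae_restrict_iff' measurableSet_closedBall]
          refine Eventually.of_forall fun ζ hζ => ?_
          rw [norm_mul]
          exact mul_le_mul (hwb ζ) (hζc ζ hζ) (norm_nonneg _) hML
        rw [← integrableOn_iff_integrable_of_support_subset (s := closedBall q ρ)]
        · exact h1
        · intro ζ hζ
          by_contra hcon
          apply hζ
          change w ζ * (ζ - c) = 0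
          rw [hw0 ζ hcon, zero_mul]
      have hkey : Tloc φ f z - -((1 / (Real.pi : ℂ)) * ∫ ζ, w ζ) / (z - c) -
          -((1 / (Real.pi : ℂ)) * ∫ ζ, w ζ * (ζ - c)) / (z - c) ^ 2 =
          (1 / (Real.pi : ℂ)) * ∫ ζ, -(w ζ * ((ζ - c) ^ 2 / ((z - c) ^ 2 * (z - ζ)))) := by
        rw [hT]
        have e1 : (∫ ζ, w ζ / (ζ - z)) + (∫ ζ, w ζ) / (z - c) +
            (∫ ζ, w ζ * (ζ - c)) / (z - c) ^ 2 =
            ∫ ζ, -(w ζ * ((ζ - c) ^ 2 / ((z - c) ^ 2 * (z - ζ)))) := by
          have hs1 : Integrable (fun ζ => w ζ / (ζ - z) + w ζ / (z - c)) :=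
            (hi z).add (hwi.div_const _)
          rw [← integral_div, ← integral_div, ← integral_add (hi z) (hwi.div_const _),
            ← integral_add hs1 (hwi2.div_const _)]
          apply integral_congr_ae
          refine Eventually.of_forall fun ζ => ?_
          by_cases hζ : ζ ∈ closedBall q ρ
          · have h1 : z - ζ ≠ 0 := by
              intro h
              apply hzq
              rw [sub_eq_zero.1 h]
              exact hζ
            have h2 : ζ - z ≠ 0 := by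
              intro h
              exact h1 (by rw [← neg_sub, h, neg_zero])
            simp only []
            field_simp
            ring
          · simp only [hw0 ζ hζ]
            simp
        rw [← e1]
        ring
      rw [hkey, norm_mul, hpin]
      have := tloc_int_bound (fun ζ => -(w ζ * ((ζ - c) ^ 2 / ((z - c) ^ 2 * (z - ζ)))))
        (M * L * (R ^ 2 / (‖z - c‖ ^ 2 * (‖z - c‖ / 2)))) q ρ hρ (by
          intro ζ hζ
          rw [norm_neg, norm_mul, norm_div, norm_mul, norm_pow, norm_pow]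
          apply mul_le_mul (hwb ζ) _ (by positivity) hML
          have h3 : ‖z - c‖ / 2 ≤ ‖z - ζ‖ := by
            have h4 : ‖z - c‖ ≤ ‖z - ζ‖ + ‖ζ - c‖ := by
              calc ‖z - c‖ = ‖(z - ζ) + (ζ - c)‖ := by congr 1; ring
                _ ≤ _ := norm_add_le _ _
            have h5 := hζc ζ hζ
            linarith
          apply div_le_div₀ (by positivity)
            (pow_le_pow_left₀ (norm_nonneg _) (hζc ζ hζ) 2) (by positivity)
          exact mul_le_mul_of_nonneg_left h3 (by positivity)) (by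
          intro ζ hζ
          rw [hw0 ζ hζ, zero_mul, neg_zero])
      calc 1 / Real.pi * ‖∫ ζ, -(w ζ * ((ζ - c) ^ 2 / ((z - c) ^ 2 * (z - ζ))))‖
          ≤ 1 / Real.pi * (M * L * (R ^ 2 / (‖z - c‖ ^ 2 * (‖z - c‖ / 2))) *
            (Real.pi * ρ ^ 2)) := mul_le_mul_of_nonneg_left this (by positivity)
        _ = 2 * (ρ ^ 2 * L * M) * R ^ 2 / ‖z - c‖ ^ 3 := by field_simp

end Pool.Agent.Helper430.NP
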