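import Pool.Agent.Helper430.NP.Defs

set_option autoImplicit false
open MeasureTheory Set Filter Topology Complex Metric

namespace Pool.Agent.Helper430.NP
theorem job_tsum_dbar_cont (ψ : ℂ → ℂ) (h : ContDiff ℝ 1 ψ) : Continuous (dbar ψ) := by
  have h1 : Continuous (fderiv ℝ ψ) := h.continuous_fderiv (by norm_num)
  unfold dbar
  have h2 : Continuous fun z => fderiv ℝ ψ z 1 := h1.clm_apply continuous_const
  have h3 : Continuous fun z => fderiv ℝ ψ z I := h1.clm_apply continuous_const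
  exact (h2.add (continuous_const.mul h3)).div_const 2

theorem job_tsum_dbar_supp (ψ : ℂ → ℂ) (h : HasCompactSupport ψ) : HasCompactSupport (dbar ψ) := by
  have h1 : HasCompactSupport (fderiv ℝ ψ) := h.fderiv ℝ
  refine HasCompactSupport.mono h1 ?_
  intro z hz
  rw [Function.mem_support] at hz ⊢
  intro h0
  apply hz
  unfold dbar
  rw [h0]
  simp

theorem job_tsum_meas (C : Set ℂ) (hC : IsCompact C) (f : ℂ → ℂ) (hf : DifferentiableOn ℂ f Cᶜ)
    (h0 : ∀ z ∈ C, f z = 0) : Measurable f := by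
  classical
  have h1 : f = (Cᶜ).piecewise f (fun _ => 0) := by
    funext z
    by_cases hz : z ∈ C
    · rw [Set.piecewise_eq_of_notMem _ _ _ (by simpa using hz), h0 z hz]
    · rw [Set.piecewise_eq_of_mem _ _ _ (by simpa using hz)]
  rw [h1]
  exact hf.continuousOn.measurable_piecewise continuousOn_const hC.isClosed.measurableSet.compl

theorem job_tsum_int (hCz : Stmt_Cz) (C : Set ℂ) (M : ℝ) (hC : IsCompact C) (f : ℂ → ℂ)
    (hf : HB C M f) (h0 : ∀ z ∈ C, f z = 0) (φ : ℂ → ℂ) (hφ : ContDiff ℝ 1 φ)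
    (hφc : HasCompactSupport φ) (z : ℂ) : Integrable (fun ζ => f ζ * dbar φ ζ / (ζ - z)) := by
  have hdc := job_tsum_dbar_cont φ hφ
  have hds := job_tsum_dbar_supp φ hφc
  obtain ⟨B, hB⟩ := hdc.bounded_above_of_compact_support hds
  obtain ⟨ρ, hρ, hsub⟩ : ∃ ρ : ℝ, 0 < ρ ∧ tsupport (dbar φ) ⊆ closedBall 0 ρ := by
    obtain ⟨ρ, hρ⟩ := hds.isCompact.isBounded.subset_closedBall 0
    exact ⟨max ρ 1, lt_max_of_lt_right one_pos, hρ.trans (closedBall_subset_closedBall (le_max_left _ _))⟩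
  have hz0 : ∀ z ∉ closedBall (0 : ℂ) ρ, dbar φ z = 0 := by
    intro z hz
    by_contra hne
    exact hz (hsub (subset_tsupport _ hne))
  have hfb : ∀ ζ, ‖f ζ‖ ≤ max M 0 := by
    intro ζ
    by_cases hζ : ζ ∈ C
    · rw [h0 ζ hζ, norm_zero]; exact le_max_right _ _
    · exact (hf.bd ζ hζ).trans (le_max_left _ _)
  refine (hCz (fun ζ => f ζ * dbar φ ζ) (max M 0 * B) 0 ρ hρ
    ((job_tsum_meas C hC f hf.diff h0).mul hdc.measurable) ?_ ?_).1 z
  · intro ζ
    rw [norm_mul]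
    exact mul_le_mul (hfb ζ) (hB ζ) (norm_nonneg _) (le_max_right _ _)
  · intro ζ hζ
    rw [hz0 ζ hζ, mul_zero]

theorem job_tsum_dbar_sum {ι : Type} (S : Finset ι) (φ : ι → ℂ → ℂ)
    (h : ∀ a ∈ S, ContDiff ℝ 1 (φ a)) (z : ℂ) :
    dbar (fun w => ∑ a ∈ S, φ a w) z = ∑ a ∈ S, dbar (φ a) z := by
  have h1 : fderiv ℝ (fun w => ∑ a ∈ S, φ a w) z = ∑ a ∈ S, fderiv ℝ (φ a) z := by
    apply fderiv_fun_sum
    intro a ha
    exact (h a ha).differentiable (by norm_num) z
  unfold dbar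
  rw [h1, sum_apply, sum_apply, Finset.mul_sum, ← Finset.sum_add_distrib, Finset.sum_div]

theorem job_tsum (hCz : Stmt_Cz) : Stmt_Tsum := by
  intro C M f hC hf h0 ι S φ hφ hφc z
  unfold Tloc
  rw [Finset.sum_add_distrib, Finset.sum_mul]
  congr 1
  unfold cz
  rw [← Finset.mul_sum, ← integral_finsetSum]
  · congr 1
    apply integral_congr_ae
    refine Filter.Eventually.of_forall fun ζ => ?_
    simp only
    rw [job_tsum_dbar_sum S φ hφ ζ, Finset.mul_sum, Finset.sum_div]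
  · intro a ha
    exact job_tsum_int hCz C M hC f hf h0 (φ a) (hφ a ha) (hφc a ha) z

end Pool.Agent.Helper430.NP
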