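import Pool.Agent.Helper430.NP.Defs

set_option autoImplicit false
open MeasureTheory Set Filter Topology Complex Metric

namespace Pool.Agent.Helper430.NP
theorem job_union_bdd_mul {μ : Measure ℂ} {θ g : ℂ → ℂ} (hθ : Integrable θ μ)
    (hg : Measurable g) {B : ℝ} (hB : ∀ ζ, ‖g ζ‖ ≤ B) : Integrable (fun ζ => g ζ * θ ζ) μ :=
  hθ.bdd_mul hg.aestronglyMeasurable (Filter.Eventually.of_forall hB)

theorem job_union_rat_mul {K : Set ℂ} {μ : Measure ℂ} (hK : IsCompact K) (hμ : μ Kᶜ = 0)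
    {θ : ℂ → ℂ} (hθ : Integrable θ μ) (p q : Polynomial ℂ) (hq : ∀ z ∈ K, q.eval z ≠ 0) :
    Integrable (fun ζ => (p.eval ζ / q.eval ζ) * θ ζ) μ := by
  have hc : ContinuousOn (fun ζ : ℂ => p.eval ζ / q.eval ζ) K :=
    p.continuous.continuousOn.div q.continuous.continuousOn hq
  obtain ⟨B, hB⟩ := hK.exists_bound_of_continuousOn hc
  have hm : Measurable (fun ζ : ℂ => p.eval ζ / q.eval ζ) :=
    p.continuous.measurable.div q.continuous.measurable
  refine hθ.bdd_mul (c := B) hm.aestronglyMeasurable ?_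
  have : ∀ᵐ ζ ∂μ, ζ ∈ K := by
    rw [ae_iff]
    exact hμ
  filter_upwards [this] with ζ hζ
  exact hB ζ hζ

theorem job_union_th_add {K : Set ℂ} {μ : Measure ℂ} (hK : IsCompact K) (hμ : μ Kᶜ = 0)
    {θ₁ θ₂ : ℂ → ℂ} (h1 : θ₁ ∈ Th K μ) (h2 : θ₂ ∈ Th K μ) :
    (fun ζ => θ₁ ζ + θ₂ ζ) ∈ Th K μ := by
  refine ⟨h1.1.add h2.1, ?_⟩
  intro p q hq
  have e : (fun ζ => (p.eval ζ / q.eval ζ) * (θ₁ ζ + θ₂ ζ)) =
      fun ζ => (p.eval ζ / q.eval ζ) * θ₁ ζ + (p.eval ζ / q.eval ζ) * θ₂ ζ := by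
    funext ζ
    ring
  rw [e, integral_add (job_union_rat_mul hK hμ h1.1 p q hq) (job_union_rat_mul hK hμ h2.1 p q hq),
    h1.2 p q hq, h2.2 p q hq, add_zero]

theorem job_union_empty (K : Set ℂ) (μ : Measure ℂ) : Adm K μ ∅ := by
  refine ⟨isCompact_empty, fun θ _ z hz => absurd hz (notMem_empty z), ?_⟩
  intro f M hf
  have hd : Differentiable ℂ f := by
    have := hf.diff
    rwa [compl_empty, differentiableOn_univ] at this
  have hb : Bornology.IsBounded (range f) := by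
    rw [isBounded_iff_forall_norm_le]
    refine ⟨M, ?_⟩
    rintro _ ⟨z, rfl⟩
    exact hf.bd z (notMem_empty z)
  have hconst : ∀ z, f z = f 0 := fun z => hd.apply_eq_apply_of_bounded hb z 0
  refine ⟨fun _ => f 0, measurable_const, ⟨‖f 0‖, fun _ => le_rfl⟩, ?_, ?_⟩
  · intro θ hθ
    refine ⟨hθ.1.const_mul (f 0), ?_⟩
    intro p q hq
    have e : (fun ζ => (p.eval ζ / q.eval ζ) * (f 0 * θ ζ)) =
        fun ζ => f 0 * ((p.eval ζ / q.eval ζ) * θ ζ) := by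
      funext ζ
      ring
    rw [e, integral_const_mul, hθ.2 p q hq, mul_zero]
  · intro θ hθ z _ _
    have e : (fun ζ => (f 0 * θ ζ) / (ζ - z)) = fun ζ => f 0 * (θ ζ / (ζ - z)) := by
      funext ζ
      ring
    simp only [CT]
    rw [e, integral_const_mul, hconst z]

theorem job_union_two (hSplit : Stmt_Split) {K : Set ℂ} {μ : Measure ℂ} (hK : IsCompact K)
    (hμ : μ Kᶜ = 0) {C₁ C₂ : Set ℂ} (h1 : Adm K μ C₁) (h2 : Adm K μ C₂) (hd : Disjoint C₁ C₂) :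
    Adm K μ (C₁ ∪ C₂) := by
  refine ⟨h1.cpt.union h2.cpt, ?_, ?_⟩
  · intro θ hθ z hz hg
    rcases hz with hz | hz
    · exact h1.null θ hθ z hz hg
    · exact h2.null θ hθ z hz hg
  · intro f M hf
    obtain ⟨f₁, f₂, M₁, M₂, hf1, hf2, hff⟩ := hSplit C₁ C₂ M f h1.cpt h2.cpt hd hf
    obtain ⟨g₁, hg1⟩ := h1.ext f₁ M₁ hf1
    obtain ⟨g₂, hg2⟩ := h2.ext f₂ M₂ hf2
    obtain ⟨B₁, hB1⟩ := hg1.bdd
    obtain ⟨B₂, hB2⟩ := hg2.bdd
    refine ⟨fun ζ => g₁ ζ + g₂ ζ, hg1.meas.add hg2.meas, ⟨B₁ + B₂, fun ζ =>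
      (norm_add_le _ _).trans (add_le_add (hB1 ζ) (hB2 ζ))⟩, ?_, ?_⟩
    · intro θ hθ
      have := job_union_th_add hK hμ (hg1.mem θ hθ) (hg2.mem θ hθ)
      have e : (fun ζ => (g₁ ζ + g₂ ζ) * θ ζ) = fun ζ => g₁ ζ * θ ζ + g₂ ζ * θ ζ := by
        funext ζ
        ring
      rw [e]
      exact this
    · intro θ hθ z hz hg
      have hz1 : z ∉ C₁ := fun h => hz (Or.inl h)
      have hz2 : z ∉ C₂ := fun h => hz (Or.inr h)
      have r1 := hg1.rel θ hθ z hz1 hg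
      have r2 := hg2.rel θ hθ z hz2 hg
      have i1 := job_union_bdd_mul hg.2 hg1.meas hB1
      have i2 := job_union_bdd_mul hg.2 hg2.meas hB2
      have e1 : CT μ (fun ζ => g₁ ζ * θ ζ) z = ∫ ζ, g₁ ζ * (θ ζ / (ζ - z)) ∂μ := by
        simp only [CT]
        congr 1
        funext ζ
        ring
      have e2 : CT μ (fun ζ => g₂ ζ * θ ζ) z = ∫ ζ, g₂ ζ * (θ ζ / (ζ - z)) ∂μ := by
        simp only [CT]
        congr 1
        funext ζ
        ring
      have e3 : CT μ (fun ζ => (g₁ ζ + g₂ ζ) * θ ζ) z =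
          ∫ ζ, (g₁ ζ * (θ ζ / (ζ - z)) + g₂ ζ * (θ ζ / (ζ - z))) ∂μ := by
        simp only [CT]
        congr 1
        funext ζ
        ring
      rw [e3, integral_add i1 i2, ← e1, ← e2, r1, r2, hff z hz]
      ring

theorem job_union (hSplit : Stmt_Split) (hMono : Stmt_Mono) : Stmt_Union := by
  classical
  intro K μ J Γ hfin hK hμ hA hD
  induction J using Finset.induction_on with
  | empty =>
    have : (⋃ q ∈ (∅ : Finset ℂ), Γ q) = ∅ := by simp
    rw [this]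
    exact job_union_empty K μ
  | insert a J ha ih =>
    have e : (⋃ q ∈ insert a J, Γ q) = Γ a ∪ ⋃ q ∈ J, Γ q := by
      rw [Finset.set_biUnion_insert]
    rw [e]
    apply job_union_two hSplit hK hμ
    · exact hA a (Finset.mem_insert_self a J)
    · exact ih (fun q hq => hA q (Finset.mem_insert_of_mem hq)) (fun q hq q' hq' h =>
        hD q (Finset.mem_insert_of_mem hq) q' (Finset.mem_insert_of_mem hq') h)
    · rw [Set.disjoint_iUnion₂_right]
      intro q hq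
      exact hD a (Finset.mem_insert_self a J) q (Finset.mem_insert_of_mem hq)
        (by rintro rfl; exact ha hq)

end Pool.Agent.Helper430.NP
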