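import Pool.Agent.Helper430.NP.Defs

set_option autoImplicit false
open MeasureTheory Set Filter Topology Complex Metric

namespace Pool.Agent.Helper430.NP
theorem uniqloc_int_mul {μ : Measure ℂ} {θ ψ : ℂ → ℂ} (hθ : Integrable θ μ) (hψ : Continuous ψ)
    (hs : HasCompactSupport ψ) : Integrable (fun ζ => ψ ζ * θ ζ) μ := by
  obtain ⟨C, hC⟩ := hs.exists_bound_of_continuous hψ
  exact hθ.bdd_mul hψ.aestronglyMeasurable (Filter.Eventually.of_forall hC)

theorem uniqloc_dbar_zero {u : ℂ → ℂ} {z : ℂ} (hz : z ∉ tsupport u) : dbar u z = 0 := by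
  have h1 : u =ᶠ[𝓝 z] 0 := notMem_tsupport_iff_eventuallyEq.mp hz
  have h2 : fderiv ℝ u z = 0 := by
    rw [h1.fderiv_eq]
    simp
  simp [dbar, h2]

theorem uniqloc_loc (hDual : Stmt_Dual) : Stmt_Loc := by
  intro μ θ₁ θ₂ f Ω hμ h1 h2 hΩ hf hCT
  have hfc : ContinuousOn f Ω := hf.continuousOn
  have hloc : LocallyIntegrableOn (fun ζ => θ₁ ζ - f ζ * θ₂ ζ) Ω μ := by
    have a1 : LocallyIntegrableOn θ₁ Ω μ := h1.locallyIntegrable.locallyIntegrableOn Ω
    have a2 : LocallyIntegrableOn θ₂ Ω μ := h2.locallyIntegrable.locallyIntegrableOn Ω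
    exact a1.sub (a2.continuousOn_mul hfc hΩ.isLocallyClosed)
  have key := hΩ.ae_eq_zero_of_integral_contDiff_smul_eq_zero hloc (by
    intro g hg hgs hgΩ
    set ψ : ℂ → ℂ := fun z => (g z : ℂ) with hψ
    set ψ₂ : ℂ → ℂ := fun z => (g z : ℂ) * f z with hψ₂
    have hψc : ContDiff ℝ 1 ψ := by
      have : ContDiff ℝ 1 g := hg.of_le (by exact_mod_cast le_top)
      exact Complex.ofRealCLM.contDiff.comp this
    have hts : tsupport ψ = tsupport g := by
      unfold tsupport
      congr 1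
      ext z
      simp [hψ]
    have hψs : HasCompactSupport ψ := by
      unfold HasCompactSupport
      rw [hts]; exact hgs
    have hψ₂s : HasCompactSupport ψ₂ := hψs.mul_right
    have hts2 : tsupport ψ₂ ⊆ tsupport g := by
      rw [← hts]
      exact tsupport_mul_subset_left
    have hfd : ∀ z ∈ Ω, ContDiffAt ℝ 1 f z := by
      intro z hz
      have : AnalyticAt ℂ f z := hf.analyticAt (hΩ.mem_nhds hz)
      exact (this.contDiffAt (n := 1)).restrict_scalars ℝ
    have hψ₂c : ContDiff ℝ 1 ψ₂ := by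
      rw [contDiff_iff_contDiffAt]
      intro z
      by_cases hz : z ∈ tsupport g
      · exact hψc.contDiffAt.mul (hfd z (hgΩ hz))
      · have h3 : ψ₂ =ᶠ[𝓝 z] 0 := notMem_tsupport_iff_eventuallyEq.mp (fun h => hz (hts2 h))
        exact (contDiffAt_const (c := (0:ℂ))).congr_of_eventuallyEq h3
    have hdbar : ∀ z, dbar ψ₂ z = f z * dbar ψ z := by
      intro z
      by_cases hz : z ∈ tsupport g
      · have hzΩ := hgΩ hz
        have hfz : HasDerivAt f (deriv f z) z :=
          ((hf z hzΩ).differentiableAt (hΩ.mem_nhds hzΩ)).hasDerivAt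
        have hfR : HasFDerivAt f ((ContinuousLinearMap.toSpanSingleton ℂ (deriv f z) : ℂ →L[ℂ] ℂ).restrictScalars ℝ) z :=
          hfz.hasFDerivAt.restrictScalars ℝ
        have hψz : HasFDerivAt ψ (fderiv ℝ ψ z) z :=
          (hψc.differentiable (by norm_num) z).hasFDerivAt
        have hm := (hψz.mul hfR).fderiv
        have e0 : ψ₂ = ψ * f := rfl
        rw [← e0] at hm
        unfold dbar
        rw [hm]
        simp only [add_apply, smul_apply,
          ContinuousLinearMap.coe_restrictScalars', ContinuousLinearMap.toSpanSingleton_apply,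
          smul_eq_mul]
        have hI : I * I = -1 := Complex.I_mul_I
        linear_combination (ψ z * deriv f z / 2) * hI
      · rw [uniqloc_dbar_zero (fun h => hz (hts2 h)), uniqloc_dbar_zero (by rw [hts]; exact hz),
          mul_zero]
    obtain ⟨-, d1⟩ := hDual μ θ₁ ψ hμ h1 hψc hψs
    obtain ⟨-, d2⟩ := hDual μ θ₂ ψ₂ hμ h2 hψ₂c hψ₂s
    have heq : ∫ z, dbar ψ z * CT μ θ₁ z = ∫ z, dbar ψ₂ z * CT μ θ₂ z := by
      apply integral_congr_ae
      filter_upwards [hCT] with z hz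
      rw [hdbar]
      by_cases hzg : z ∈ tsupport g
      · rw [hz (hgΩ hzg)]; ring
      · rw [uniqloc_dbar_zero (by rw [hts]; exact hzg)]; ring
    have hI1 : Integrable (fun ζ => ψ ζ * θ₁ ζ) μ := uniqloc_int_mul h1 hψc.continuous hψs
    have hI2 : Integrable (fun ζ => ψ₂ ζ * θ₂ ζ) μ := uniqloc_int_mul h2 hψ₂c.continuous hψ₂s
    have e1 : ∀ ζ, g ζ • (θ₁ ζ - f ζ * θ₂ ζ) = ψ ζ * θ₁ ζ - ψ₂ ζ * θ₂ ζ := by
      intro ζ
      simp only [hψ, hψ₂, Complex.real_smul]
      ring
    simp_rw [e1]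
    rw [integral_sub hI1 hI2, d1, d2, heq, sub_self])
  filter_upwards [key] with ζ hζ hζΩ
  exact sub_eq_zero.mp (hζ hζΩ)

theorem job_uniqloc (hDual : Stmt_Dual) : Stmt_Uniq ∧ Stmt_Loc := by
  refine ⟨?_, uniqloc_loc hDual⟩
  intro μ θ hμ hθ hCT
  have h := uniqloc_loc hDual μ θ (fun _ => 0) (fun _ => 0) univ hμ hθ (integrable_zero _ _ _)
    isOpen_univ (differentiableOn_const 0) (by
      filter_upwards [hCT] with z hz _
      rw [hz, zero_mul])
  filter_upwards [h] with ζ hζ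
  rw [hζ (mem_univ _), zero_mul]

end Pool.Agent.Helper430.NP
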