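import Pool.Agent.Helper430.NP.Defs

set_option autoImplicit false
open MeasureTheory Set Filter Topology Complex Metric

namespace Pool.Agent.Helper430.NP
theorem vit_lp_inj : Function.Injective lp := by
  intro a b h
  have h1 := congrArg Complex.re h
  have h2 := congrArg Complex.im h
  simp [lp] at h1 h2
  exact Prod.ext (by exact_mod_cast h1) (by exact_mod_cast h2)

theorem vit_lp_re (a : ℤ × ℤ) : (lp a).re = a.1 := by simp [lp]
theorem vit_lp_im (a : ℤ × ℤ) : (lp a).im = a.2 := by simp [lp]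

theorem vit_fin (C : Set ℂ) (hC : IsCompact C) (ε : ℝ) (hε : 0 < ε) :
    {a : ℤ × ℤ | ∃ p ∈ C, ‖p - ε * lp a‖ ≤ 3 * ε}.Finite := by
  obtain ⟨R, hR⟩ := hC.isBounded.exists_norm_le
  obtain ⟨N, hN⟩ := exists_nat_ge ((R + 3 * ε) / ε)
  apply Set.Finite.subset (Set.finite_Icc ((-(N : ℤ), -(N : ℤ)) : ℤ × ℤ) ((N : ℤ), (N : ℤ)))
  rintro a ⟨p, hp, hpa⟩
  have h1 : ‖(ε : ℂ) * lp a‖ ≤ R + 3 * ε := by
    have : (ε : ℂ) * lp a = p - (p - ε * lp a) := by ring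
    rw [this]
    exact (norm_sub_le _ _).trans (add_le_add (hR p hp) hpa)
  rw [norm_mul, Complex.norm_real, Real.norm_eq_abs, abs_of_pos hε] at h1
  have h2 : ‖lp a‖ ≤ N := by
    refine le_trans ?_ hN
    rw [le_div_iff₀ hε]; linarith
  have h3 : |((a.1 : ℤ) : ℝ)| ≤ N := by
    have := Complex.abs_re_le_norm (lp a)
    rw [vit_lp_re] at this; linarith
  have h4 : |((a.2 : ℤ) : ℝ)| ≤ N := by
    have := Complex.abs_im_le_norm (lp a)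
    rw [vit_lp_im] at this; linarith
  rw [abs_le] at h3 h4
  simp only [Set.mem_Icc, Prod.le_def]
  refine ⟨⟨?_, ?_⟩, ⟨?_, ?_⟩⟩
  · exact_mod_cast h3.1
  · exact_mod_cast h4.1
  · exact_mod_cast h3.2
  · exact_mod_cast h4.2

theorem vit_local (L A₀ M ε : ℝ) (hL : 0 < L) (hA : 0 < A₀) (hM : 0 ≤ M) (hε : 0 < ε)
    (Γ : Set ℂ) (F Ψ : ℂ → ℂ) (c q d α₁ α₂ : ℂ) (hcq : ‖c - q‖ ≤ ε) (hd : ε / 4 ≤ ‖d‖)
    (hΨd : DifferentiableOn ℂ Ψ Γᶜ) (hΨb : ∀ z ∉ Γ, ‖Ψ z‖ ≤ A₀ * ε)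
    (hΨe : ∀ z, 10 * ε ≤ ‖z - q‖ → ‖Ψ z - d ^ 2 / (2 * (z - c))‖ ≤ A₀ * ε ^ 4 / ‖z - c‖ ^ 3)
    (hα₁ : ‖α₁‖ ≤ 4 * ε * L * M) (hα₂ : ‖α₂‖ ≤ 36 * ε ^ 2 * L * M)
    (hF : ∀ z, 18 * ε ≤ ‖z - c‖ →
      ‖F z - α₁ / (z - c) - α₂ / (z - c) ^ 2‖ ≤ 648 * L * M * ε ^ 3 / ‖z - c‖ ^ 3) :
    ∃ G : ℂ → ℂ, DifferentiableOn ℂ G Γᶜ ∧
      (∀ z ∉ Γ, ‖G z‖ ≤ L * (128 * A₀ + 36864 * A₀ ^ 2) * M) ∧
      ∀ z, 18 * ε ≤ ‖z - c‖ → ‖F z - G z‖ ≤
        L * (648 + 128 * A₀ + 1152 * A₀ * (32 * A₀ + 2)) * M * (ε / ‖z - c‖) ^ 3 := by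
  have hd0 : 0 < ‖d‖ := lt_of_lt_of_le (by positivity) hd
  have hdne : d ≠ 0 := norm_pos_iff.mp hd0
  have hdinv : ‖(2 : ℂ) / d ^ 2‖ ≤ 32 / ε ^ 2 := by
    rw [norm_div, norm_pow]
    simp only [Complex.norm_ofNat]
    rw [div_le_div_iff₀ (by positivity) (by positivity)]
    nlinarith [mul_self_nonneg (‖d‖ - ε / 4)]
  refine ⟨fun z => α₁ * (2 / d ^ 2 * Ψ z) + α₂ * (2 / d ^ 2 * Ψ z) ^ 2, ?_, ?_, ?_⟩
  · have h1 : DifferentiableOn ℂ (fun z => 2 / d ^ 2 * Ψ z) Γᶜ := hΨd.const_mul _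
    exact (h1.const_mul _).add ((h1.pow 2).const_mul _)
  · intro z hz
    have hb : ‖(2 : ℂ) / d ^ 2 * Ψ z‖ ≤ 32 * A₀ / ε := by
      rw [norm_mul]
      calc ‖(2 : ℂ) / d ^ 2‖ * ‖Ψ z‖ ≤ (32 / ε ^ 2) * (A₀ * ε) :=
            mul_le_mul hdinv (hΨb z hz) (norm_nonneg _) (by positivity)
        _ = 32 * A₀ / ε := by field_simp
    calc ‖α₁ * (2 / d ^ 2 * Ψ z) + α₂ * (2 / d ^ 2 * Ψ z) ^ 2‖
        ≤ ‖α₁‖ * ‖(2 : ℂ) / d ^ 2 * Ψ z‖ + ‖α₂‖ * ‖(2 : ℂ) / d ^ 2 * Ψ z‖ ^ 2 := by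
          refine (norm_add_le _ _).trans ?_
          rw [norm_mul, norm_mul α₂, norm_pow]
      _ ≤ (4 * ε * L * M) * (32 * A₀ / ε) + (36 * ε ^ 2 * L * M) * (32 * A₀ / ε) ^ 2 := by
          gcongr
      _ = L * (128 * A₀ + 36864 * A₀ ^ 2) * M := by field_simp; ring
  · intro z hz
    have hw0 : 0 < ‖z - c‖ := lt_of_lt_of_le (by positivity) hz
    have hwne : z - c ≠ 0 := norm_pos_iff.mp hw0
    set w := z - c with hw
    set t := ε / ‖w‖ with ht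
    have ht0 : 0 < t := by positivity
    have ht1 : t ≤ 1 := by rw [ht, div_le_one hw0]; linarith
    have hzq : 10 * ε ≤ ‖z - q‖ := by
      have : w = (z - q) - (c - q) := by rw [hw]; ring
      have h2 : ‖w‖ ≤ ‖z - q‖ + ‖c - q‖ := by rw [this]; exact norm_sub_le _ _
      linarith
    set β := 2 / d ^ 2 * Ψ z with hβ
    have hβe : ‖β - 1 / w‖ ≤ 32 * A₀ * t ^ 3 / ε := by
      have e1 : β - 1 / w = 2 / d ^ 2 * (Ψ z - d ^ 2 / (2 * w)) := by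
        rw [hβ]; field_simp
      rw [e1, norm_mul]
      calc ‖(2 : ℂ) / d ^ 2‖ * ‖Ψ z - d ^ 2 / (2 * w)‖ ≤ (32 / ε ^ 2) * (A₀ * ε ^ 4 / ‖w‖ ^ 3) :=
            mul_le_mul hdinv (hΨe z hzq) (norm_nonneg _) (by positivity)
        _ = 32 * A₀ * t ^ 3 / ε := by rw [ht]; field_simp
    have hβ2 : ‖β ^ 2 - 1 / w ^ 2‖ ≤ 32 * A₀ * t ^ 3 * (32 * A₀ + 2) / ε ^ 2 := by
      have e1 : β ^ 2 - 1 / w ^ 2 = (β - 1 / w) * ((β - 1 / w) + 2 * (1 / w)) := by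
        field_simp; ring
      have e2 : ‖2 * (1 / w)‖ = 2 * t / ε := by
        rw [norm_mul, norm_div, norm_one]; simp only [Complex.norm_ofNat]
        rw [ht]; field_simp
      have ht3 : t ^ 3 ≤ 1 := pow_le_one₀ ht0.le ht1
      rw [e1, norm_mul]
      calc ‖β - 1 / w‖ * ‖(β - 1 / w) + 2 * (1 / w)‖
          ≤ (32 * A₀ * t ^ 3 / ε) * (32 * A₀ * t ^ 3 / ε + 2 * t / ε) := by
            refine mul_le_mul hβe ?_ (norm_nonneg _) (by positivity)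
            refine (norm_add_le _ _).trans ?_
            rw [e2]; gcongr
        _ ≤ (32 * A₀ * t ^ 3 / ε) * (32 * A₀ * 1 / ε + 2 * 1 / ε) := by gcongr
        _ = 32 * A₀ * t ^ 3 * (32 * A₀ + 2) / ε ^ 2 := by field_simp
    have hFz := hF z hz
    have e3 : F z - (α₁ * β + α₂ * β ^ 2) =
        (F z - α₁ / w - α₂ / w ^ 2) - α₁ * (β - 1 / w) - α₂ * (β ^ 2 - 1 / w ^ 2) := by
      field_simp; ring
    show ‖F z - (α₁ * β + α₂ * β ^ 2)‖ ≤ _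
    rw [e3]
    calc ‖(F z - α₁ / w - α₂ / w ^ 2) - α₁ * (β - 1 / w) - α₂ * (β ^ 2 - 1 / w ^ 2)‖
        ≤ ‖F z - α₁ / w - α₂ / w ^ 2‖ + ‖α₁‖ * ‖β - 1 / w‖ + ‖α₂‖ * ‖β ^ 2 - 1 / w ^ 2‖ := by
          refine (norm_sub_le _ _).trans ?_
          rw [norm_mul α₂]
          gcongr
          refine (norm_sub_le _ _).trans ?_
          rw [norm_mul]
      _ ≤ 648 * L * M * ε ^ 3 / ‖w‖ ^ 3 + (4 * ε * L * M) * (32 * A₀ * t ^ 3 / ε) +
          (36 * ε ^ 2 * L * M) * (32 * A₀ * t ^ 3 * (32 * A₀ + 2) / ε ^ 2) := by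
          gcongr
      _ = L * (648 + 128 * A₀ + 1152 * A₀ * (32 * A₀ + 2)) * M * t ^ 3 := by
          rw [ht]; field_simp; ring



theorem vit_term (hT : Stmt_T) (A₀ : ℝ) (hA : 0 < A₀)
    (hPsi : ∀ (Γ : Set ℂ) (q a b : ℂ) (ε : ℝ), 0 < ε → IsCompact Γ →
      IsPreconnected Γ → a ∈ Γ → b ∈ Γ → Γ ⊆ closedBall q ε → ε / 2 ≤ ‖a - b‖ →
      ∃ Ψ : ℂ → ℂ, DifferentiableOn ℂ Ψ Γᶜ ∧ (∀ z ∉ Γ, ‖Ψ z‖ ≤ A₀ * ε) ∧
        ∀ z, 10 * ε ≤ ‖z - q‖ →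
          ‖Ψ z - ((b - a) / 2) ^ 2 / (2 * (z - (a + b) / 2))‖ ≤ A₀ * ε ^ 4 / ‖z - (a + b) / 2‖ ^ 3)
    (L : ℝ) (hL : 0 < L) (C : Set ℂ) (M : ℝ) (f : ℂ → ℂ) (hC : IsCompact C) (hf : HB C M f)
    (hf0 : ∀ z ∈ C, f z = 0) (hM : 0 ≤ M) (ε : ℝ) (hε : 0 < ε) (k : ℤ × ℤ) (φ : ℂ → ℂ)
    (hφ : ContDiff ℝ 1 φ) (hφs : tsupport φ ⊆ closedBall (ε * lp k) (2 * ε))
    (hφ1 : ∀ z, ‖φ z‖ ≤ 1) (hφd : ∀ z, ‖dbar φ z‖ ≤ L / ε)
    (Γ : Set ℂ) (q a b : ℂ) (hΓ : IsCompact Γ) (hΓp : IsPreconnected Γ) (hΓs : Γ ⊆ closedBall q ε)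
    (ha : a ∈ Γ) (hb : b ∈ Γ) (hab : ε / 2 ≤ ‖a - b‖) (hq : ‖q - ε * lp k‖ ≤ 6 * ε) :
    ∃ G : ℂ → ℂ, DifferentiableOn ℂ G Γᶜ ∧
      (∀ z ∉ Γ, ‖G z‖ ≤ L * (128 * A₀ + 36864 * A₀ ^ 2) * M) ∧
      ∀ z ∉ Γ, ‖Tloc φ f z - G z‖ ≤
        (15625 * (1 + 12 * L + L * (128 * A₀ + 36864 * A₀ ^ 2)) +
          3 * (L * (648 + 128 * A₀ + 1152 * A₀ * (32 * A₀ + 2)))) * M *
        (min 1 (1 / ‖z / ε - lp k‖ ^ 3) + (if lp k = z / ε then 1 else 0)) := by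
  obtain ⟨Ψ, hΨd, hΨb, hΨe⟩ := hPsi Γ q a b ε hε hΓ hΓp ha hb hΓs hab
  obtain ⟨-, hTb, hTe⟩ := hT C M f hC hf hf0 hM φ (ε * lp k) (2 * ε) (L / ε) (by positivity) hφ hφs
    hφ1 hφd
  set c := (a + b) / 2 with hc
  set d := (b - a) / 2 with hd
  have hcq : ‖c - q‖ ≤ ε := by
    have h1 := hΓs ha
    have h2 := hΓs hb
    rw [mem_closedBall, dist_eq_norm] at h1 h2
    have e : c - q = (a - q) / 2 + (b - q) / 2 := by rw [hc]; ring
    rw [e]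
    refine (norm_add_le _ _).trans ?_
    rw [norm_div, norm_div]
    simp only [Complex.norm_ofNat]
    linarith
  have hdn : ε / 4 ≤ ‖d‖ := by
    rw [hd, norm_div, norm_sub_rev]
    simp only [Complex.norm_ofNat]
    linarith
  have hck : ‖(ε : ℂ) * lp k - c‖ ≤ 7 * ε := by
    have e : (ε : ℂ) * lp k - c = -((q - ε * lp k) + (c - q)) := by ring
    rw [e, norm_neg]
    refine (norm_add_le _ _).trans ?_
    linarith
  obtain ⟨α₁, α₂, hα₁, hα₂, hα⟩ := hTe c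
  have hα₁' : ‖α₁‖ ≤ 4 * ε * L * M := by
    refine hα₁.trans (le_of_eq ?_)
    field_simp; ring
  have hα₂' : ‖α₂‖ ≤ 36 * ε ^ 2 * L * M := by
    refine hα₂.trans ?_
    calc (2 * ε) ^ 2 * (L / ε) * M * (‖(ε : ℂ) * lp k - c‖ + 2 * ε)
        ≤ (2 * ε) ^ 2 * (L / ε) * M * (7 * ε + 2 * ε) := by gcongr
      _ = 36 * ε ^ 2 * L * M := by field_simp; ring
  have hF : ∀ z, 18 * ε ≤ ‖z - c‖ →
      ‖Tloc φ f z - α₁ / (z - c) - α₂ / (z - c) ^ 2‖ ≤ 648 * L * M * ε ^ 3 / ‖z - c‖ ^ 3 := by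
    intro z hz
    refine (hα z (by linarith)).trans ?_
    have hw0 : 0 < ‖z - c‖ := lt_of_lt_of_le (by positivity) hz
    calc 2 * ((2 * ε) ^ 2 * (L / ε) * M) * (‖(ε : ℂ) * lp k - c‖ + 2 * ε) ^ 2 / ‖z - c‖ ^ 3
        ≤ 2 * ((2 * ε) ^ 2 * (L / ε) * M) * (7 * ε + 2 * ε) ^ 2 / ‖z - c‖ ^ 3 := by gcongr
      _ = 648 * L * M * ε ^ 3 / ‖z - c‖ ^ 3 := by field_simp; ring
  obtain ⟨G, hGd, hGb, hGe⟩ := vit_local L A₀ M ε hL hA hM hε Γ (Tloc φ f) Ψ c q d α₁ α₂ hcq hdn hΨd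
    hΨb hΨe hα₁' hα₂' hF
  refine ⟨G, hGd, hGb, ?_⟩
  set K₁ := L * (128 * A₀ + 36864 * A₀ ^ 2) with hK₁
  set K₂ := L * (648 + 128 * A₀ + 1152 * A₀ * (32 * A₀ + 2)) with hK₂
  have hK₁0 : 0 < K₁ := by positivity
  have hK₂0 : 0 < K₂ := by positivity
  intro z hz
  have hu : ‖z / ε - lp k‖ = ‖z - ε * lp k‖ / ε := by
    have : z / ε - lp k = (z - ε * lp k) / ε := by
      have : (ε : ℂ) ≠ 0 := by exact_mod_cast hε.ne'
      field_simp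
    rw [this, norm_div, Complex.norm_real, Real.norm_eq_abs, abs_of_pos hε]
  have hcrude : ‖Tloc φ f z - G z‖ ≤ (1 + 12 * L + K₁) * M := by
    refine (norm_sub_le _ _).trans ?_
    have h1 := hTb z
    have h2 := hGb z hz
    have e : M * (1 + 6 * (2 * ε) * (L / ε)) = M * (1 + 12 * L) := by field_simp; ring
    rw [e] at h1
    linarith
  by_cases heq : lp k = z / ε
  · rw [if_pos heq]
    have hmin : 0 ≤ min 1 (1 / ‖z / (ε : ℂ) - lp k‖ ^ 3) := le_min (by norm_num) (by positivity)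
    calc ‖Tloc φ f z - G z‖ ≤ (1 + 12 * L + K₁) * M := hcrude
      _ ≤ (15625 * (1 + 12 * L + K₁) + 3 * K₂) * M * (0 + 1) := by
          have : 0 ≤ (15624 * (1 + 12 * L + K₁) + 3 * K₂) * M := by positivity
          nlinarith
      _ ≤ _ := by gcongr
  · rw [if_neg heq, add_zero]
    have hune : 0 < ‖z / ε - lp k‖ := by
      rw [norm_pos_iff]; intro h; exact heq (sub_eq_zero.mp h).symm
    by_cases hz18 : 18 * ε ≤ ‖z - c‖
    · have h1 := hGe z hz18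
      have hw0 : 0 < ‖z - c‖ := lt_of_lt_of_le (by positivity) hz18
      have h2 : ‖z - c‖ ≤ ‖z - ε * lp k‖ + 7 * ε := by
        have e : z - c = (z - ε * lp k) + (ε * lp k - c) := by ring
        rw [e]; exact (norm_add_le _ _).trans (by linarith)
      have h2' : ‖z - ε * lp k‖ ≤ ‖z - c‖ + 7 * ε := by
        have e : z - ε * lp k = (z - c) - (ε * lp k - c) := by ring
        rw [e]; exact (norm_sub_le _ _).trans (by linarith)
      have h11 : 11 * ε ≤ ‖z - ε * lp k‖ := by linarith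
      have hk0 : 0 < ‖z - ε * lp k‖ := lt_of_lt_of_le (by positivity) h11
      have h3 : ε / ‖z - c‖ ≤ (25 / 18) * (1 / ‖z / ε - lp k‖) := by
        rw [hu, one_div_div, ← mul_div_assoc, div_le_div_iff₀ hw0 hk0]
        have : ‖z - ε * lp k‖ ≤ 25 / 18 * ‖z - c‖ := by linarith
        nlinarith
      have h4 : (ε / ‖z - c‖) ^ 3 ≤ 3 * (1 / ‖z / ε - lp k‖ ^ 3) := by
        calc (ε / ‖z - c‖) ^ 3 ≤ ((25 / 18) * (1 / ‖z / ε - lp k‖)) ^ 3 := by gcongr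
          _ = (25 / 18) ^ 3 * (1 / ‖z / ε - lp k‖ ^ 3) := by ring
          _ ≤ 3 * (1 / ‖z / ε - lp k‖ ^ 3) := by gcongr; norm_num
      have h5 : min 1 (1 / ‖z / (ε : ℂ) - lp k‖ ^ 3) = 1 / ‖z / ε - lp k‖ ^ 3 := by
        apply min_eq_right
        rw [div_le_one (by positivity)]
        apply one_le_pow₀
        rw [hu, le_div_iff₀ hε]; linarith
      rw [h5]
      calc ‖Tloc φ f z - G z‖ ≤ K₂ * M * (ε / ‖z - c‖) ^ 3 := h1
        _ ≤ K₂ * M * (3 * (1 / ‖z / ε - lp k‖ ^ 3)) := by gcongr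
        _ = (3 * K₂) * M * (1 / ‖z / ε - lp k‖ ^ 3) := by ring
        _ ≤ _ := by
          gcongr
          have : 0 ≤ 15625 * (1 + 12 * L + K₁) := by positivity
          linarith
    · push Not at hz18
      have h2 : ‖z - ε * lp k‖ ≤ 25 * ε := by
        have e : z - ε * lp k = (z - c) - (ε * lp k - c) := by ring
        rw [e]; exact (norm_sub_le _ _).trans (by linarith)
      have h3 : ‖z / ε - lp k‖ ≤ 25 := by
        rw [hu, div_le_iff₀ hε]; exact h2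
      have h4 : (1 / 15625 : ℝ) ≤ min 1 (1 / ‖z / (ε : ℂ) - lp k‖ ^ 3) := by
        apply le_min (by norm_num)
        rw [div_le_div_iff₀ (by norm_num) (by positivity)]
        have : ‖z / (ε : ℂ) - lp k‖ ^ 3 ≤ 25 ^ 3 := by gcongr
        norm_num at this ⊢
        exact this
      calc ‖Tloc φ f z - G z‖ ≤ (1 + 12 * L + K₁) * M := hcrude
        _ = (15625 * (1 + 12 * L + K₁)) * M * (1 / 15625) := by ring
        _ ≤ (15625 * (1 + 12 * L + K₁) + 3 * K₂) * M * min 1 (1 / ‖z / (ε : ℂ) - lp k‖ ^ 3) := by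
          gcongr
          linarith

theorem vit_count (u : ℂ) (I : Finset (ℤ × ℤ)) :
    ∑ a ∈ I, (if lp a = u then (1 : ℝ) else 0) ≤ 1 := by
  rw [Finset.sum_ite, Finset.sum_const_zero, add_zero, Finset.sum_const, nsmul_eq_mul, mul_one]
  have : (I.filter (fun a => lp a = u)).card ≤ 1 := by
    rw [Finset.card_le_one]
    intro a ha b hb
    rw [Finset.mem_filter] at ha hb
    exact vit_lp_inj (ha.2.trans hb.2.symm)
  exact_mod_cast this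

theorem job_vit (hT : Stmt_T) (hTsum : Stmt_Tsum) (hRec : Stmt_Rec) (hPsi : Stmt_Psi) (hPart : Stmt_Part) (hLat : Stmt_Lat) : Stmt_V := by
  classical
  obtain ⟨L, hL, hPart⟩ := hPart
  obtain ⟨A₀, hA₀, hPsi⟩ := hPsi
  obtain ⟨B, hB, hLat⟩ := hLat
  set K₁ := L * (128 * A₀ + 36864 * A₀ ^ 2) with hK₁
  set K₃ := (15625 * (1 + 12 * L + K₁) +
          3 * (L * (648 + 128 * A₀ + 1152 * A₀ * (32 * A₀ + 2)))) with hK₃
  have hK₁0 : 0 < K₁ := by positivity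
  have hK₃0 : 0 < K₃ := by positivity
  refine ⟨1 + 2 * K₃ * (B + 1), by positivity, ?_⟩
  intro C M f hC hf hf0 hM ε J hε hJC hJn Γ a b hΓ
  obtain ⟨φ, hφc, hφs, hφ1, hφd, hφsum⟩ := hPart ε hε
  have hfin := vit_fin C hC ε hε
  set I : Finset (ℤ × ℤ) := hfin.toFinset with hI
  have hImem : ∀ k, k ∈ I ↔ ∃ p ∈ C, ‖p - ε * lp k‖ ≤ 3 * ε := by
    intro k; rw [hI, Set.Finite.mem_toFinset]; rfl
  have hφcs : ∀ k, HasCompactSupport (φ k) := fun k =>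
    HasCompactSupport.of_support_subset_isCompact (isCompact_closedBall _ _)
      ((subset_tsupport _).trans (hφs k))
  -- reproduction
  obtain ⟨c₀, -, hc₀⟩ := hRec C M f hC hf hf0 (fun w => ∑ k ∈ I, φ k w)
    {z | ∃ p ∈ C, ‖z - p‖ < ε}
    (ContDiff.sum fun k _ => hφc k)
    (by
      have h1 : HasCompactSupport (fun w => ∑ k ∈ I, φ k w) := by
        apply HasCompactSupport.of_support_subset_isCompact
          (I.isCompact_biUnion (fun k _ => isCompact_closedBall ((ε : ℂ) * lp k) (2 * ε)))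
        intro w hw
        obtain ⟨k, hk, hk2⟩ := Finset.exists_ne_zero_of_sum_ne_zero (Function.mem_support.mp hw)
        rw [Set.mem_iUnion₂]
        exact ⟨k, hk, hφs k (subset_tsupport _ hk2)⟩
      exact h1)
    (by
      have : {z : ℂ | ∃ p ∈ C, ‖z - p‖ < ε} = ⋃ p ∈ C, ball p ε := by
        ext z; simp [dist_eq_norm]
      rw [this]
      exact isOpen_biUnion fun p _ => isOpen_ball)
    (fun p hp => ⟨p, hp, by simpa using hε⟩)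
    (by
      rintro z ⟨p, hp, hzp⟩
      apply hφsum z I
      intro k hk
      rw [hImem]
      refine ⟨p, hp, ?_⟩
      have e : p - ε * lp k = (z - ε * lp k) - (z - p) := by ring
      rw [e]; exact (norm_sub_le _ _).trans (by linarith))
  have hfz : ∀ z, f z = c₀ + ∑ k ∈ I, Tloc (φ k) f z := by
    intro z
    rw [hc₀ z, hTsum C M f hC hf hf0 (ℤ × ℤ) I φ (fun k _ => hφc k) (fun k _ => hφcs k) z]
  -- choose the index
  have hj : ∀ k : ℤ × ℤ, ∃ q : ℂ, k ∈ I → q ∈ J ∧ ‖q - ε * lp k‖ ≤ 6 * ε := by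
    intro k
    by_cases hk : k ∈ I
    · obtain ⟨p, hp, hpk⟩ := (hImem k).mp hk
      obtain ⟨q, hq, hpq⟩ := hJn p hp
      refine ⟨q, fun _ => ⟨hq, ?_⟩⟩
      have e : q - ε * lp k = (p - ε * lp k) - (p - q) := by ring
      rw [e]; exact (norm_sub_le _ _).trans (by linarith)
    · exact ⟨0, fun h => absurd h hk⟩
  choose j hj using hj
  have hG : ∀ k : ℤ × ℤ, ∃ G : ℂ → ℂ, k ∈ I → DifferentiableOn ℂ G (Γ (j k))ᶜ ∧
      (∀ z ∉ Γ (j k), ‖G z‖ ≤ K₁ * M) ∧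
      ∀ z ∉ Γ (j k), ‖Tloc (φ k) f z - G z‖ ≤ K₃ * M *
        (min 1 (1 / ‖z / ε - lp k‖ ^ 3) + (if lp k = z / ε then 1 else 0)) := by
    intro k
    by_cases hk : k ∈ I
    · obtain ⟨hjJ, hjk⟩ := hj k hk
      obtain ⟨g1, g2, g3, g4, g5, g6⟩ := hΓ (j k) hjJ
      obtain ⟨G, hG⟩ := vit_term hT A₀ hA₀ hPsi L hL C M f hC hf hf0 hM ε hε k (φ k) (hφc k)
        (hφs k) (hφ1 k) (hφd k) (Γ (j k)) (j k) (a (j k)) (b (j k)) g1 g2 g3 g4 g5 g6 hjk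
      exact ⟨G, fun _ => hG⟩
    · exact ⟨0, fun h => absurd h hk⟩
  choose G hG using hG
  have hmaps : ∀ k ∈ I, j k ∈ J := fun k hk => (hj k hk).1
  have hsum : ∀ z, ∑ q ∈ J, (∑ k ∈ I.filter (fun k => j k = q), G k z) = ∑ k ∈ I, G k z := fun z =>
    Finset.sum_fiberwise_of_maps_to hmaps _
  have hdiff : ∀ z, (c₀ + ∑ q ∈ J, (∑ k ∈ I.filter (fun k => j k = q), G k z)) - f z =
      - ∑ k ∈ I, (Tloc (φ k) f z - G k z) := by
    intro z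
    rw [hsum z, hfz z, Finset.sum_sub_distrib]; ring
  have hbd : ∀ z, (∀ q ∈ J, z ∉ Γ q) →
      ‖(c₀ + ∑ q ∈ J, (∑ k ∈ I.filter (fun k => j k = q), G k z)) - f z‖ ≤
        K₃ * M * (∑ k ∈ I, min 1 (1 / ‖z / ε - lp k‖ ^ 3) +
          ∑ k ∈ I, (if lp k = z / ε then (1 : ℝ) else 0)) := by
    intro z hz
    rw [hdiff z, norm_neg, ← Finset.sum_add_distrib, Finset.mul_sum]
    refine (norm_sum_le _ _).trans (Finset.sum_le_sum fun k hk => ?_)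
    exact (hG k hk).2.2 z (hz _ (hmaps k hk))
  refine ⟨c₀, fun q z => ∑ k ∈ I.filter (fun k => j k = q), G k z, ?_, ?_, ?_⟩
  · intro q hq
    refine ⟨∑ k ∈ I.filter (fun k => j k = q), K₁ * M, ?_, ?_⟩
    · apply DifferentiableOn.fun_sum
      intro k hk
      rw [Finset.mem_filter] at hk
      rw [← hk.2]
      exact (hG k hk.1).1
    · intro z hz
      refine (norm_sum_le _ _).trans (Finset.sum_le_sum fun k hk => ?_)
      rw [Finset.mem_filter] at hk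
      apply (hG k hk.1).2.1 z
      rw [hk.2]; exact hz
  · intro z hz
    have h1 := hbd z hz
    have h2 := (hLat (z / ε) I).1
    have h3 := vit_count (z / ε) I
    have h4 : ‖f z‖ ≤ M := by
      by_cases hzC : z ∈ C
      · rw [hf0 z hzC, norm_zero]; exact hM
      · exact hf.bd z hzC
    have h5 : K₃ * M * (∑ k ∈ I, min 1 (1 / ‖z / ε - lp k‖ ^ 3) +
          ∑ k ∈ I, (if lp k = z / ε then (1 : ℝ) else 0)) ≤ K₃ * M * (B + 1) := by gcongr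
    have e : c₀ + ∑ q ∈ J, (∑ k ∈ I.filter (fun k => j k = q), G k z) =
      ((c₀ + ∑ q ∈ J, (∑ k ∈ I.filter (fun k => j k = q), G k z)) - f z) + f z := by ring
    show ‖c₀ + ∑ q ∈ J, (∑ k ∈ I.filter (fun k => j k = q), G k z)‖ ≤ _
    rw [e]
    refine (norm_add_le _ _).trans ?_
    have h6 : 0 ≤ K₃ * M * (B + 1) := by positivity
    nlinarith
  · intro z D hD hz
    have hDpos : 0 < D := lt_of_lt_of_le (by positivity) hD
    have hzΓ : ∀ q ∈ J, z ∉ Γ q := by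
      intro q hq hzq
      have h1 := (hΓ q hq).2.2.1 hzq
      rw [mem_closedBall, dist_eq_norm] at h1
      have h2 := hz q (hJC q hq)
      linarith
    have h1 := hbd z hzΓ
    have hu : ∀ k, ‖z / ε - lp k‖ = ‖z - ε * lp k‖ / ε := by
      intro k
      have : z / ε - lp k = (z - ε * lp k) / ε := by
        have : (ε : ℂ) ≠ 0 := by exact_mod_cast hε.ne'
        field_simp
      rw [this, norm_div, Complex.norm_real, Real.norm_eq_abs, abs_of_pos hε]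
    have hfar : ∀ k ∈ I, D / (2 * ε) ≤ ‖z / ε - lp k‖ := by
      intro k hk
      obtain ⟨p, hp, hpk⟩ := (hImem k).mp hk
      have h2 := hz p hp
      have e : z - p = (z - ε * lp k) - (p - ε * lp k) := by ring
      have h3 : ‖z - p‖ ≤ ‖z - ε * lp k‖ + 3 * ε := by
        rw [e]; exact (norm_sub_le _ _).trans (by linarith)
      rw [hu k, div_le_div_iff₀ (by positivity) hε]
      nlinarith
    have hD1 : 1 ≤ D / (2 * ε) := by
      rw [le_div_iff₀ (by positivity)]; linarith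
    have h2 := (hLat (z / ε) I).2 (D / (2 * ε)) hD1 hfar
    have h3 : ∑ k ∈ I, min 1 (1 / ‖z / ε - lp k‖ ^ 3) ≤ ∑ k ∈ I, 1 / ‖z / ε - lp k‖ ^ 3 :=
      Finset.sum_le_sum fun k _ => min_le_right _ _
    have h4 : ∑ k ∈ I, (if lp k = z / ε then (1 : ℝ) else 0) = 0 := by
      apply Finset.sum_eq_zero
      intro k hk
      rw [if_neg]
      intro h
      have h5 := hfar k hk
      rw [h, sub_self, norm_zero] at h5
      linarith
    have h5 : B / Real.sqrt (D / (2 * ε)) ≤ B * (2 * Real.sqrt (ε / D)) := by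
      have e1 : Real.sqrt (D / (2 * ε)) = (Real.sqrt (2 * (ε / D)))⁻¹ := by
        rw [← Real.sqrt_inv]; congr 1; field_simp
      rw [e1, div_inv_eq_mul]
      gcongr
      rw [Real.sqrt_mul (by norm_num)]
      gcongr
      rw [Real.sqrt_le_left (by norm_num)]; norm_num
    have hs0 : 0 ≤ Real.sqrt (ε / D) := Real.sqrt_nonneg _
    calc ‖(c₀ + ∑ q ∈ J, (∑ k ∈ I.filter (fun k => j k = q), G k z)) - f z‖
        ≤ K₃ * M * (∑ k ∈ I, min 1 (1 / ‖z / ε - lp k‖ ^ 3) +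
          ∑ k ∈ I, (if lp k = z / ε then (1 : ℝ) else 0)) := h1
      _ ≤ K₃ * M * (B * (2 * Real.sqrt (ε / D)) + 0) := by
          rw [h4]; gcongr; linarith
      _ = (2 * K₃ * B) * (M * Real.sqrt (ε / D)) := by ring
      _ ≤ (1 + 2 * K₃ * (B + 1)) * (M * Real.sqrt (ε / D)) := by
          gcongr; nlinarith
      _ = (1 + 2 * K₃ * (B + 1)) * M * Real.sqrt (ε / D) := by ring


end Pool.Agent.Helper430.NP
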