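import Pool.Agent.Helper430.NP.Defs

set_option autoImplicit false
open MeasureTheory Set Filter Topology Complex Metric

namespace Pool.Agent.Helper430.NP
theorem weak_inner {μ : Measure ℂ} (f : Lp ℂ 2 μ) (f' w : ℂ → ℂ) (hf : f =ᵐ[μ] f')
    (hw : MemLp w 2 μ) :
    inner ℂ f (hw.star.toLp (star w)) = (starRingEnd ℂ) (∫ ζ, f' ζ * w ζ ∂μ) := by
  rw [L2.inner_def, ← integral_conj]
  apply integral_congr_ae
  filter_upwards [hf, hw.star.coeFn_toLp] with z h1 h2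
  rw [h1, h2]
  simp only [RCLike.inner_apply, map_mul, Pi.star_apply]
  rw [mul_comm]
  rfl

theorem weak_L2 {μ : Measure ℂ} [IsFiniteMeasure μ] (g : ℕ → ℂ → ℂ) (B : ℝ) (hB : 0 ≤ B)
    (hg : ∀ n, Measurable (g n)) (hb : ∀ n, ∀ᵐ ζ ∂μ, ‖g n ζ‖ ≤ B) (U : Ultrafilter ℕ) :
    ∃ h : ℂ → ℂ, MemLp h 2 μ ∧ ∀ w : ℂ → ℂ, MemLp w 2 μ →
      Tendsto (fun n => ∫ ζ, g n ζ * w ζ ∂μ) U (𝓝 (∫ ζ, h ζ * w ζ ∂μ)) := by
  have hmem : ∀ n, MemLp (g n) 2 μ := fun n =>
    MemLp.of_bound (hg n).aestronglyMeasurable B (hb n)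
  set G : ℕ → Lp ℂ 2 μ := fun n => (hmem n).toLp (g n) with hG
  obtain ⟨C, hC0, hC⟩ : ∃ C : ℝ, 0 ≤ C ∧ ∀ n, ‖G n‖ ≤ C := by
    refine ⟨measureUnivNNReal μ ^ (2 : ENNReal).toReal⁻¹ * B, by positivity, fun n => ?_⟩
    apply Lp.norm_le_of_ae_bound hB
    filter_upwards [hb n, (hmem n).coeFn_toLp] with z h1 h2
    rw [h2]; exact h1
  have hconv : ∀ v : Lp ℂ 2 μ, ∃ c : ℂ, Tendsto (fun n => inner ℂ (G n) v) U (𝓝 c) := by
    intro v
    have hbd : ∀ n, inner ℂ (G n) v ∈ closedBall (0 : ℂ) (C * ‖v‖) := by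
      intro n
      rw [mem_closedBall, dist_zero_right]
      exact (norm_inner_le_norm _ _).trans (by gcongr; exact hC n)
    obtain ⟨c, _, hc⟩ := (isCompact_closedBall (0 : ℂ) (C * ‖v‖)).ultrafilter_le_nhds
      (U.map (fun n => inner ℂ (G n) v)) (by
        rw [Ultrafilter.coe_map, le_principal_iff, mem_map]
        exact Filter.univ_mem' hbd)
    exact ⟨c, hc⟩
  choose L hL using hconv
  have hLb : ∀ v, ‖L v‖ ≤ C * ‖v‖ := by
    intro v
    apply le_of_tendsto (hL v).norm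
    filter_upwards with n
    exact (norm_inner_le_norm _ _).trans (by gcongr; exact hC n)
  let ℓ : Lp ℂ 2 μ →ₗ[ℂ] ℂ :=
    { toFun := L
      map_add' := fun x y => by
        apply tendsto_nhds_unique (hL (x + y))
        have := (hL x).add (hL y)
        refine this.congr fun n => ?_
        rw [inner_add_right]
      map_smul' := fun a x => by
        apply tendsto_nhds_unique (hL (a • x))
        have := (hL x).const_mul a
        refine this.congr fun n => ?_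
        rw [inner_smul_right] }
  let ℓ' : StrongDual ℂ (Lp ℂ 2 μ) := ℓ.mkContinuous C hLb
  let h0 : Lp ℂ 2 μ := (InnerProductSpace.toDual ℂ (Lp ℂ 2 μ)).symm ℓ'
  have hh0 : ∀ v, Tendsto (fun n => inner ℂ (G n) v) U (𝓝 (inner ℂ h0 v)) := by
    intro v
    rw [InnerProductSpace.toDual_symm_apply]
    exact hL v
  refine ⟨h0, Lp.memLp h0, fun w hw => ?_⟩
  have h1 := hh0 (hw.star.toLp (star w))
  rw [weak_inner h0 h0 w (ae_eq_refl _) hw] at h1
  have h2 : ∀ n, inner ℂ (G n) (hw.star.toLp (star w)) =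
      (starRingEnd ℂ) (∫ ζ, g n ζ * w ζ ∂μ) := fun n =>
    weak_inner (G n) (g n) w ((hmem n).coeFn_toLp) hw
  simp only [h2] at h1
  have h3 := (Complex.continuous_conj.tendsto _).comp h1
  simpa [Function.comp_def] using h3

theorem job_weak  : Stmt_Weak := by
  intro μ g B₀ hfin hg hb₀
  set B : ℝ := max B₀ 0 with hBdef
  have hB : 0 ≤ B := le_max_right _ _
  have hb : ∀ n, ∀ᵐ ζ ∂μ, ‖g n ζ‖ ≤ B := fun n => by
    filter_upwards [hb₀ n] with z hz
    exact hz.trans (le_max_left _ _)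
  set U : Ultrafilter ℕ := Ultrafilter.of atTop with hU
  obtain ⟨h₀, hh₀, hlim₀⟩ := weak_L2 g B hB hg hb U
  -- measurable representative
  set h₁ : ℂ → ℂ := hh₀.1.mk h₀ with hh₁
  have hm₁ : Measurable h₁ := hh₀.1.stronglyMeasurable_mk.measurable
  have hae₁ : h₀ =ᵐ[μ] h₁ := hh₀.1.ae_eq_mk
  have hh₁2 : MemLp h₁ 2 μ := hh₀.ae_eq hae₁
  have hlim₁ : ∀ w : ℂ → ℂ, MemLp w 2 μ →
      Tendsto (fun n => ∫ ζ, g n ζ * w ζ ∂μ) U (𝓝 (∫ ζ, h₁ ζ * w ζ ∂μ)) := by
    intro w hw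
    have : ∫ ζ, h₁ ζ * w ζ ∂μ = ∫ ζ, h₀ ζ * w ζ ∂μ := by
      apply integral_congr_ae
      filter_upwards [hae₁] with z hz
      rw [hz]
    rw [this]
    exact hlim₀ w hw
  have hint₁ : Integrable h₁ μ := hh₁2.integrable (by norm_num)
  -- the bound
  have hbd : ∀ᵐ ζ ∂μ, ‖h₁ ζ‖ ≤ B := by
    set E : Set ℂ := {ζ | B < ‖h₁ ζ‖} with hE
    have hEm : MeasurableSet E := measurableSet_lt measurable_const hm₁.norm
    set w : ℂ → ℂ := E.indicator (fun ζ => (starRingEnd ℂ) (h₁ ζ) / (‖h₁ ζ‖ : ℂ)) with hw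
    have hwm : Measurable w := by
      apply Measurable.indicator _ hEm
      exact (Complex.continuous_conj.measurable.comp hm₁).div
        (Complex.measurable_ofReal.comp hm₁.norm)
    have hw1 : ∀ ζ, ‖w ζ‖ ≤ E.indicator (fun _ => (1 : ℝ)) ζ := by
      intro ζ
      by_cases hζ : ζ ∈ E
      · rw [hw, indicator_of_mem hζ, indicator_of_mem hζ]
        rw [norm_div, Complex.norm_conj, Complex.norm_real, norm_norm]
        exact div_self_le_one _
      · rw [hw, indicator_of_notMem hζ, indicator_of_notMem hζ]; simp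
    have hw2 : MemLp w 2 μ := by
      apply MemLp.of_bound hwm.aestronglyMeasurable 1
      filter_upwards with ζ
      refine (hw1 ζ).trans ?_
      by_cases hζ : ζ ∈ E
      · rw [indicator_of_mem hζ]
      · rw [indicator_of_notMem hζ]; norm_num
    have h1 : ∫ ζ, h₁ ζ * w ζ ∂μ = ((∫ ζ in E, ‖h₁ ζ‖ ∂μ : ℝ) : ℂ) := by
      rw [← integral_indicator hEm, ← integral_complex_ofReal]
      apply integral_congr_ae
      filter_upwards with ζ
      by_cases hζ : ζ ∈ E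
      · rw [hw]
        simp only [indicator_of_mem hζ]
        have hne : (‖h₁ ζ‖ : ℂ) ≠ 0 := by
          have : 0 < ‖h₁ ζ‖ := lt_of_le_of_lt hB hζ
          exact_mod_cast this.ne'
        rw [mul_div_assoc', Complex.mul_conj, div_eq_iff hne, Complex.normSq_eq_norm_sq]
        push_cast
        ring
      · rw [hw]
        simp only [indicator_of_notMem hζ]
        simp
    have h2 : ∀ n, ‖∫ ζ, g n ζ * w ζ ∂μ‖ ≤ ∫ ζ in E, B ∂μ := by
      intro n
      rw [← integral_indicator hEm]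
      apply norm_integral_le_of_norm_le
      · exact (integrable_const B).indicator hEm
      · filter_upwards [hb n] with ζ hζ
        rw [norm_mul]
        have h3 := hw1 ζ
        by_cases hζE : ζ ∈ E
        · rw [indicator_of_mem hζE] at h3 ⊢
          nlinarith [norm_nonneg (g n ζ), norm_nonneg (w ζ)]
        · rw [indicator_of_notMem hζE] at h3 ⊢
          have : ‖w ζ‖ = 0 := le_antisymm h3 (norm_nonneg _)
          rw [this]; simp
    have h3 : ‖∫ ζ, h₁ ζ * w ζ ∂μ‖ ≤ ∫ ζ in E, B ∂μ :=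
      le_of_tendsto (hlim₁ w hw2).norm (Filter.Eventually.of_forall h2)
    have h4 : ∫ ζ in E, ‖h₁ ζ‖ ∂μ ≤ ∫ ζ in E, B ∂μ := by
      rw [h1, Complex.norm_real, Real.norm_eq_abs] at h3
      exact (le_abs_self _).trans h3
    have h5 : ∫ ζ in E, (‖h₁ ζ‖ - B) ∂μ ≤ 0 := by
      rw [integral_sub hint₁.norm.integrableOn (integrable_const B).integrableOn]
      linarith
    have h6 : 0 ≤ᵐ[μ.restrict E] fun ζ => ‖h₁ ζ‖ - B := by
      filter_upwards [ae_restrict_mem hEm] with ζ hζ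
      exact sub_nonneg.2 (le_of_lt hζ)
    have h7 : ∫ ζ in E, (‖h₁ ζ‖ - B) ∂μ = 0 := le_antisymm h5 (integral_nonneg_of_ae h6)
    have h8 := (integral_eq_zero_iff_of_nonneg_ae h6
      ((hint₁.norm.sub (integrable_const B)).integrableOn)).1 h7
    have h9 : ∀ᵐ ζ ∂μ, ζ ∈ E → ‖h₁ ζ‖ - B = 0 := (ae_restrict_iff' hEm).1 h8
    filter_upwards [h9] with ζ hζ
    by_contra hcon
    push Not at hcon
    have := hζ hcon
    linarith
  -- the bounded function
  set h : ℂ → ℂ := fun ζ => if ‖h₁ ζ‖ ≤ B then h₁ ζ else 0 with hh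
  have hhm : Measurable h := Measurable.ite (measurableSet_le hm₁.norm measurable_const) hm₁
    measurable_const
  have hhB : ∀ ζ, ‖h ζ‖ ≤ B := by
    intro ζ
    simp only [hh]
    split_ifs with h1
    · exact h1
    · simpa using hB
  have hhae : h₁ =ᵐ[μ] h := by
    filter_upwards [hbd] with ζ hζ
    simp only [hh, if_pos hζ]
  refine ⟨U, h, Ultrafilter.of_le atTop, hhm, ⟨B, hhB⟩, ?_⟩
  intro w hw
  -- truncations
  set wm : ℂ → ℂ := hw.1.mk w with hwm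
  have hwmm : Measurable wm := hw.1.stronglyMeasurable_mk.measurable
  have hwae : w =ᵐ[μ] wm := hw.1.ae_eq_mk
  set wk : ℕ → ℂ → ℂ := fun k => {ζ | ‖wm ζ‖ ≤ k}.indicator wm with hwk
  have hset : ∀ k : ℕ, MeasurableSet {ζ | ‖wm ζ‖ ≤ (k : ℝ)} := fun k =>
    measurableSet_le hwmm.norm measurable_const
  have hwkm : ∀ k, Measurable (wk k) := fun k => hwmm.indicator (hset k)
  have hwk2 : ∀ k, MemLp (wk k) 2 μ := by
    intro k
    apply MemLp.of_bound (hwkm k).aestronglyMeasurable (k : ℝ)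
    filter_upwards with ζ
    simp only [hwk]
    by_cases hζ : ζ ∈ {ζ | ‖wm ζ‖ ≤ (k : ℝ)}
    · rw [indicator_of_mem hζ]; exact hζ
    · rw [indicator_of_notMem hζ]; simp
  have hwmi : Integrable wm μ := hw.congr hwae
  have hwki : ∀ k, Integrable (wk k) μ := fun k => hwmi.indicator (hset k)
  have hdiff : Tendsto (fun k => ∫ ζ, ‖wk k ζ - wm ζ‖ ∂μ) atTop (𝓝 0) := by
    have : (0 : ℝ) = ∫ ζ : ℂ, (0 : ℝ) ∂μ := by simp
    rw [this]
    apply tendsto_integral_of_dominated_convergence (fun ζ => ‖wm ζ‖)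
    · intro k
      exact ((hwkm k).sub hwmm).norm.aestronglyMeasurable
    · exact hwmi.norm
    · intro k
      filter_upwards with ζ
      simp only [hwk]
      by_cases hζ : ζ ∈ {ζ | ‖wm ζ‖ ≤ (k : ℝ)}
      · rw [indicator_of_mem hζ]; simp
      · rw [indicator_of_notMem hζ]; simp
    · filter_upwards with ζ
      apply tendsto_const_nhds.congr'
      filter_upwards [eventually_ge_atTop ⌈‖wm ζ‖⌉₊] with k hk
      have hζ : ζ ∈ {ζ | ‖wm ζ‖ ≤ (k : ℝ)} := by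
        show ‖wm ζ‖ ≤ (k : ℝ)
        exact (Nat.le_ceil _).trans (by exact_mod_cast hk)
      simp only [hwk]
      rw [indicator_of_mem hζ]; simp
  have hest : ∀ (q : ℂ → ℂ) (k : ℕ), Measurable q → (∀ᵐ ζ ∂μ, ‖q ζ‖ ≤ B) →
      ‖(∫ ζ, q ζ * w ζ ∂μ) - ∫ ζ, q ζ * wk k ζ ∂μ‖ ≤ B * ∫ ζ, ‖wk k ζ - wm ζ‖ ∂μ := by
    intro q k hq hqB
    have i1 : Integrable (fun ζ => q ζ * w ζ) μ := hw.bdd_mul hq.aestronglyMeasurable hqB
    have i2 : Integrable (fun ζ => q ζ * wk k ζ) μ :=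
      (hwki k).bdd_mul hq.aestronglyMeasurable hqB
    rw [← integral_sub i1 i2, ← integral_const_mul]
    apply norm_integral_le_of_norm_le
    · exact ((hwki k).sub hwmi).norm.const_mul B
    · filter_upwards [hqB, hwae] with ζ h1 h2
      rw [h2, ← mul_sub, norm_mul, norm_sub_rev]
      gcongr
  rw [Metric.tendsto_nhds]
  intro ε hε
  obtain ⟨k, hk⟩ : ∃ k, B * ∫ ζ, ‖wk k ζ - wm ζ‖ ∂μ < ε / 3 := by
    have h1 : Tendsto (fun k => B * ∫ ζ, ‖wk k ζ - wm ζ‖ ∂μ) atTop (𝓝 (B * 0)) :=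
      hdiff.const_mul B
    rw [mul_zero] at h1
    have h2 := h1.eventually (gt_mem_nhds (show (0 : ℝ) < ε / 3 by positivity))
    exact h2.exists
  have hk1 : Tendsto (fun n => ∫ ζ, g n ζ * wk k ζ ∂μ) U (𝓝 (∫ ζ, h ζ * wk k ζ ∂μ)) := by
    have : ∫ ζ, h ζ * wk k ζ ∂μ = ∫ ζ, h₁ ζ * wk k ζ ∂μ := by
      apply integral_congr_ae
      filter_upwards [hhae] with z hz
      rw [hz]
    rw [this]
    exact hlim₁ _ (hwk2 k)
  rw [Metric.tendsto_nhds] at hk1
  filter_upwards [hk1 (ε / 3) (by positivity)] with n hn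
  have e1 := hest (g n) k (hg n) (hb n)
  have e2 := hest h k hhm (Filter.Eventually.of_forall hhB)
  rw [dist_eq_norm] at hn ⊢
  have e3 : (∫ ζ, g n ζ * w ζ ∂μ) - ∫ ζ, h ζ * w ζ ∂μ =
      ((∫ ζ, g n ζ * w ζ ∂μ) - ∫ ζ, g n ζ * wk k ζ ∂μ) +
      ((∫ ζ, g n ζ * wk k ζ ∂μ) - ∫ ζ, h ζ * wk k ζ ∂μ) -
      ((∫ ζ, h ζ * w ζ ∂μ) - ∫ ζ, h ζ * wk k ζ ∂μ) := by ring
  rw [e3]
  refine (norm_sub_le _ _).trans_lt ?_
  refine lt_of_le_of_lt (add_le_add (norm_add_le _ _) le_rfl) ?_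
  linarith


end Pool.Agent.Helper430.NP
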