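import Pool.Agent.Helper430.NP.JBase
import Pool.Agent.Helper430.NP.JBishop
import Pool.Agent.Helper430.NP.JBump
import Pool.Agent.Helper430.NP.JClos
import Pool.Agent.Helper430.NP.JContr
import Pool.Agent.Helper430.NP.JCp
import Pool.Agent.Helper430.NP.JCz
import Pool.Agent.Helper430.NP.JDual
import Pool.Agent.Helper430.NP.JEncl
import Pool.Agent.Helper430.NP.JGood
import Pool.Agent.Helper430.NP.JIter
import Pool.Agent.Helper430.NP.JKer
import Pool.Agent.Helper430.NP.JKl1
import Pool.Agent.Helper430.NP.JKl2
import Pool.Agent.Helper430.NP.JLat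
import Pool.Agent.Helper430.NP.JMono
import Pool.Agent.Helper430.NP.JNet
import Pool.Agent.Helper430.NP.JNull
import Pool.Agent.Helper430.NP.JOo
import Pool.Agent.Helper430.NP.JP1
import Pool.Agent.Helper430.NP.JP2
import Pool.Agent.Helper430.NP.JP3
import Pool.Agent.Helper430.NP.JPart
import Pool.Agent.Helper430.NP.JPsi
import Pool.Agent.Helper430.NP.JRec
import Pool.Agent.Helper430.NP.JRephb
import Pool.Agent.Helper430.NP.JSplit
import Pool.Agent.Helper430.NP.JStart
import Pool.Agent.Helper430.NP.JTloc
import Pool.Agent.Helper430.NP.JTop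
import Pool.Agent.Helper430.NP.JTsum
import Pool.Agent.Helper430.NP.JUnion
import Pool.Agent.Helper430.NP.JUniqloc
import Pool.Agent.Helper430.NP.JVit
import Pool.Agent.Helper430.NP.JWeak
import Pool.Agent.Helper430.NP.Asm

set_option autoImplicit false
open Set

namespace Pool.Agent.Helper430.NP

theorem s_cz : Stmt_Cz := job_cz job_ker
theorem s_t : Stmt_T := job_tloc job_cp s_cz
theorem s_tsum : Stmt_Tsum := job_tsum s_cz
theorem s_rec : Stmt_Rec := job_rec job_cp s_cz s_t
theorem s_split : Stmt_Split := job_split job_cp s_cz s_t s_tsum s_rec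
theorem s_v : Stmt_V := job_vit s_t s_tsum s_rec job_psi job_part job_lat
theorem s_good : Stmt_Good := job_good job_ker
theorem s_dual : Stmt_Dual := job_dual job_cp job_ker s_good
theorem s_uniq : Stmt_Uniq := (job_uniqloc s_dual).1
theorem s_loc : Stmt_Loc := (job_uniqloc s_dual).2
theorem s_contr : Stmt_Contr := (job_contr s_good s_uniq s_loc).1
theorem s_cloc : Stmt_CompatLoc := (job_contr s_good s_uniq s_loc).2
theorem s_union : Stmt_Union := job_union s_split job_mono
theorem s_null : Stmt_Null := job_null job_psi s_contr s_cloc job_mono job_bump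
theorem s_clos : Stmt_Clos := job_clos s_null s_v s_union job_weak s_contr job_mono job_bump job_net
theorem s_base : Stmt_Base := job_base job_cp s_cz s_t s_rec
theorem s_encl : Stmt_Encl := job_encl s_contr s_cloc
theorem s_rep : Stmt_Rep := rep job_rephb job_bishop
theorem s_ana : Stmt_ANA := ana s_rep s_null s_clos s_base s_encl
theorem s_p3 : Stmt_P3 := job_p3 job_p2
theorem s_kl1 : Stmt_KL1 := job_kl1 job_p1 job_oo
theorem s_kl2 : Stmt_KL2 := job_kl2 s_p3 job_oo
theorem s_start : Stmt_Start := job_start s_p3 job_oo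
theorem s_iter : Stmt_Iter := job_iter job_oo s_kl1 s_kl2
theorem s_top : Stmt_TOP := job_top job_oo s_start s_iter

end Pool.Agent.Helper430.NP
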