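import Mathlib

set_option autoImplicit false
open MeasureTheory Set Filter Topology Complex Metric

namespace Pool.Agent.Helper430.NP

/-! Analysis definitions -/

/-- derivative with respect to conj z -/
noncomputable def dbar (u : ℂ → ℂ) (z : ℂ) : ℂ := (fderiv ℝ u z 1 + I * fderiv ℝ u z I) / 2

/-- solid Cauchy transform -/
noncomputable def cz (w : ℂ → ℂ) (z : ℂ) : ℂ := (1 / (Real.pi : ℂ)) * ∫ ζ, w ζ / (ζ - z)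

/-- localisation -/
noncomputable def Tloc (φ f : ℂ → ℂ) (z : ℂ) : ℂ := φ z * f z + cz (fun ζ => f ζ * dbar φ ζ) z

/-- holomorphic off C and bounded by M there -/
structure HB (C : Set ℂ) (M : ℝ) (f : ℂ → ℂ) : Prop where
  diff : DifferentiableOn ℂ f Cᶜ
  bd : ∀ z ∉ C, ‖f z‖ ≤ M

/-- representing measure without mass at the point -/
structure Rep (K : Set ℂ) (x₀ : ℂ) (μ : Measure ℂ) : Prop where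
  prob : IsProbabilityMeasure μ
  supp : μ Kᶜ = 0
  atom : μ {x₀} = 0
  rep : ∀ p q : Polynomial ℂ, (∀ z ∈ K, q.eval z ≠ 0) →
    ∫ ζ, p.eval ζ / q.eval ζ ∂μ = p.eval x₀ / q.eval x₀

/-- densities annihilating the rational functions -/
def Th (K : Set ℂ) (μ : Measure ℂ) : Set (ℂ → ℂ) :=
  {θ | Integrable θ μ ∧ ∀ p q : Polynomial ℂ, (∀ z ∈ K, q.eval z ≠ 0) →
    ∫ ζ, (p.eval ζ / q.eval ζ) * θ ζ ∂μ = 0}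

/-- finite potential at z -/
def good (μ : Measure ℂ) (θ : ℂ → ℂ) (z : ℂ) : Prop :=
  μ {z} = 0 ∧ Integrable (fun ζ => θ ζ / (ζ - z)) μ

/-- Cauchy transform of a density -/
noncomputable def CT (μ : Measure ℂ) (θ : ℂ → ℂ) (z : ℂ) : ℂ := ∫ ζ, θ ζ / (ζ - z) ∂μ

/-- g represents f on the band of annihilating densities -/
structure Compat (K : Set ℂ) (μ : Measure ℂ) (C : Set ℂ) (f g : ℂ → ℂ) : Prop where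
  meas : Measurable g
  bdd : ∃ B : ℝ, ∀ ζ, ‖g ζ‖ ≤ B
  mem : ∀ θ ∈ Th K μ, (fun ζ => g ζ * θ ζ) ∈ Th K μ
  rel : ∀ θ ∈ Th K μ, ∀ z ∉ C, good μ θ z → CT μ (fun ζ => g ζ * θ ζ) z = f z * CT μ θ z

/-- admissible compact sets -/
structure Adm (K : Set ℂ) (μ : Measure ℂ) (C : Set ℂ) : Prop where
  cpt : IsCompact C
  null : ∀ θ ∈ Th K μ, ∀ z ∈ C, good μ θ z → CT μ θ z = 0
  ext : ∀ (f : ℂ → ℂ) (M : ℝ), HB C M f → ∃ g : ℂ → ℂ, Compat K μ C f g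

/-! Analysis statements -/

/-- Cauchy-Pompeiu -/
def Stmt_CP : Prop := ∀ (u : ℂ → ℂ), ContDiff ℝ 1 u → HasCompactSupport u →
  ∀ z, Integrable (fun ζ => dbar u ζ / (ζ - z)) ∧ cz (dbar u) z = - u z

/-- integral of 1/|ζ-z| over a disc -/
def Stmt_Ker : Prop := ∀ (q : ℂ) (ρ : ℝ), 0 < ρ → ∀ z : ℂ,
  IntegrableOn (fun ζ : ℂ => ‖ζ - z‖⁻¹) (closedBall q ρ) ∧
  ∫ ζ in closedBall q ρ, ‖ζ - z‖⁻¹ ≤ 6 * Real.pi * ρ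

/-- basic properties of cz -/
def Stmt_Cz : Prop := ∀ (w : ℂ → ℂ) (B : ℝ) (q : ℂ) (ρ : ℝ), 0 < ρ → Measurable w →
  (∀ ζ, ‖w ζ‖ ≤ B) → (∀ ζ ∉ closedBall q ρ, w ζ = 0) →
  (∀ z, Integrable (fun ζ => w ζ / (ζ - z))) ∧ (∀ z, ‖cz w z‖ ≤ 6 * ρ * B) ∧
  DifferentiableOn ℂ (cz w) (tsupport w)ᶜ

/-- the localisation operator -/
def Stmt_T : Prop := ∀ (C : Set ℂ) (M : ℝ) (f : ℂ → ℂ), IsCompact C → HB C M f → (∀ z ∈ C, f z = 0) →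
  0 ≤ M → ∀ (φ : ℂ → ℂ) (q : ℂ) (ρ L : ℝ), 0 < ρ → ContDiff ℝ 1 φ → tsupport φ ⊆ closedBall q ρ →
  (∀ z, ‖φ z‖ ≤ 1) → (∀ z, ‖dbar φ z‖ ≤ L) →
  DifferentiableOn ℂ (Tloc φ f) (C ∩ tsupport φ)ᶜ ∧
  (∀ z, ‖Tloc φ f z‖ ≤ M * (1 + 6 * ρ * L)) ∧
  ∀ c : ℂ, ∃ α₁ α₂ : ℂ, ‖α₁‖ ≤ ρ ^ 2 * L * M ∧ ‖α₂‖ ≤ ρ ^ 2 * L * M * (‖q - c‖ + ρ) ∧
    ∀ z, 2 * (‖q - c‖ + ρ) ≤ ‖z - c‖ →
      ‖Tloc φ f z - α₁ / (z - c) - α₂ / (z - c) ^ 2‖ ≤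
        2 * (ρ ^ 2 * L * M) * (‖q - c‖ + ρ) ^ 2 / ‖z - c‖ ^ 3

/-- linearity of the localisation operator in the cut-off -/
def Stmt_Tsum : Prop := ∀ (C : Set ℂ) (M : ℝ) (f : ℂ → ℂ), IsCompact C → HB C M f →
  (∀ z ∈ C, f z = 0) → ∀ (ι : Type) (S : Finset ι) (φ : ι → ℂ → ℂ),
  (∀ a ∈ S, ContDiff ℝ 1 (φ a)) → (∀ a ∈ S, HasCompactSupport (φ a)) →
  ∀ z, Tloc (fun w => ∑ a ∈ S, φ a w) f z = ∑ a ∈ S, Tloc (φ a) f z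

/-- reproduction formula -/
def Stmt_Rec : Prop := ∀ (C : Set ℂ) (M : ℝ) (f : ℂ → ℂ), IsCompact C → HB C M f →
  (∀ z ∈ C, f z = 0) → ∀ (Φ : ℂ → ℂ) (W : Set ℂ), ContDiff ℝ 1 Φ → HasCompactSupport Φ →
  IsOpen W → C ⊆ W → (∀ z ∈ W, Φ z = 1) →
  ∃ c : ℂ, ‖c‖ ≤ M ∧ ∀ z, f z = c + Tloc Φ f z

/-- square root function of a continuum -/
def Stmt_Psi : Prop := ∃ A : ℝ, 0 < A ∧ ∀ (Γ : Set ℂ) (q a b : ℂ) (ε : ℝ), 0 < ε → IsCompact Γ →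
  IsPreconnected Γ → a ∈ Γ → b ∈ Γ → Γ ⊆ closedBall q ε → ε / 2 ≤ ‖a - b‖ →
  ∃ Ψ : ℂ → ℂ, DifferentiableOn ℂ Ψ Γᶜ ∧ (∀ z ∉ Γ, ‖Ψ z‖ ≤ A * ε) ∧
    ∀ z, 10 * ε ≤ ‖z - q‖ →
      ‖Ψ z - ((b - a) / 2) ^ 2 / (2 * (z - (a + b) / 2))‖ ≤ A * ε ^ 4 / ‖z - (a + b) / 2‖ ^ 3

/-- lattice point -/
noncomputable def lp (a : ℤ × ℤ) : ℂ := (a.1 : ℂ) + (a.2 : ℂ) * I

/-- lattice partition of unity -/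
def Stmt_Part : Prop := ∃ L : ℝ, 0 < L ∧ ∀ ε : ℝ, 0 < ε → ∃ φ : ℤ × ℤ → ℂ → ℂ,
  (∀ a, ContDiff ℝ 1 (φ a)) ∧ (∀ a, tsupport (φ a) ⊆ closedBall (ε * lp a) (2 * ε)) ∧
  (∀ a z, ‖φ a z‖ ≤ 1) ∧ (∀ a z, ‖dbar (φ a) z‖ ≤ L / ε) ∧
  ∀ (z : ℂ) (S : Finset (ℤ × ℤ)), (∀ a, ‖z - ε * lp a‖ ≤ 2 * ε → a ∈ S) → ∑ a ∈ S, φ a z = 1

/-- lattice sums -/
def Stmt_Lat : Prop := ∃ B : ℝ, 0 < B ∧ ∀ (u : ℂ) (S : Finset (ℤ × ℤ)),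
  ∑ a ∈ S, min 1 (1 / ‖u - lp a‖ ^ 3) ≤ B ∧
  ∀ D : ℝ, 1 ≤ D → (∀ a ∈ S, D ≤ ‖u - lp a‖) → ∑ a ∈ S, 1 / ‖u - lp a‖ ^ 3 ≤ B / Real.sqrt D

/-- Vitushkin approximation at one scale -/
def Stmt_V : Prop := ∃ A : ℝ, 0 < A ∧ ∀ (C : Set ℂ) (M : ℝ) (f : ℂ → ℂ), IsCompact C → HB C M f →
  (∀ z ∈ C, f z = 0) → 0 ≤ M → ∀ (ε : ℝ) (J : Finset ℂ), 0 < ε → (∀ q ∈ J, q ∈ C) →
  (∀ p ∈ C, ∃ q ∈ J, ‖p - q‖ ≤ 3 * ε) → ∀ (Γ : ℂ → Set ℂ) (a b : ℂ → ℂ),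
  (∀ q ∈ J, IsCompact (Γ q) ∧ IsPreconnected (Γ q) ∧ Γ q ⊆ closedBall q ε ∧ a q ∈ Γ q ∧ b q ∈ Γ q ∧
    ε / 2 ≤ ‖a q - b q‖) →
  ∃ (c : ℂ) (F : ℂ → ℂ → ℂ), (∀ q ∈ J, ∃ B, HB (Γ q) B (F q)) ∧
    (∀ z, (∀ q ∈ J, z ∉ Γ q) → ‖c + ∑ q ∈ J, F q z‖ ≤ A * M) ∧
    ∀ (z : ℂ) (D : ℝ), 20 * ε ≤ D → (∀ p ∈ C, D ≤ ‖z - p‖) →
      ‖c + ∑ q ∈ J, F q z - f z‖ ≤ A * M * Real.sqrt (ε / D)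

/-- decomposition on disjoint compact sets -/
def Stmt_Split : Prop := ∀ (C₁ C₂ : Set ℂ) (M : ℝ) (f : ℂ → ℂ), IsCompact C₁ → IsCompact C₂ →
  Disjoint C₁ C₂ → HB (C₁ ∪ C₂) M f → ∃ (f₁ f₂ : ℂ → ℂ) (M₁ M₂ : ℝ), HB C₁ M₁ f₁ ∧ HB C₂ M₂ f₂ ∧
  ∀ z ∉ C₁ ∪ C₂, f z = f₁ z + f₂ z

/-- potentials are finite almost everywhere -/
def Stmt_Good : Prop := ∀ (μ : Measure ℂ) (θ : ℂ → ℂ), IsFiniteMeasure μ → Integrable θ μ →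
  ∀ᵐ z : ℂ, good μ θ z

/-- duality between a measure and its Cauchy transform -/
def Stmt_Dual : Prop := ∀ (μ : Measure ℂ) (θ ψ : ℂ → ℂ), IsFiniteMeasure μ → Integrable θ μ →
  ContDiff ℝ 1 ψ → HasCompactSupport ψ →
  Integrable (fun z => dbar ψ z * CT μ θ z) ∧
  ∫ ζ, ψ ζ * θ ζ ∂μ = (1 / (Real.pi : ℂ)) * ∫ z, dbar ψ z * CT μ θ z

/-- uniqueness -/
def Stmt_Uniq : Prop := ∀ (μ : Measure ℂ) (θ : ℂ → ℂ), IsFiniteMeasure μ → Integrable θ μ →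
  (∀ᵐ z : ℂ, CT μ θ z = 0) → ∀ᵐ ζ ∂μ, θ ζ = 0

/-- locality -/
def Stmt_Loc : Prop := ∀ (μ : Measure ℂ) (θ₁ θ₂ f : ℂ → ℂ) (Ω : Set ℂ), IsFiniteMeasure μ →
  Integrable θ₁ μ → Integrable θ₂ μ → IsOpen Ω → DifferentiableOn ℂ f Ω →
  (∀ᵐ z : ℂ, z ∈ Ω → CT μ θ₁ z = f z * CT μ θ₂ z) → ∀ᵐ ζ ∂μ, ζ ∈ Ω → θ₁ ζ = f ζ * θ₂ ζ

/-- contractivity -/
def Stmt_Contr : Prop := ∀ (K : Set ℂ) (x₀ : ℂ) (μ : Measure ℂ), IsCompact K → x₀ ∈ K →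
  Rep K x₀ μ → ∀ (C : Set ℂ) (f g : ℂ → ℂ) (M : ℝ), Adm K μ C → HB C M f → 0 ≤ M →
  Compat K μ C f g → ∀ᵐ ζ ∂μ, ‖g ζ‖ ≤ M

/-- locality of compatible functions -/
def Stmt_CompatLoc : Prop := ∀ (K : Set ℂ) (x₀ : ℂ) (μ : Measure ℂ), IsCompact K → x₀ ∈ K →
  Rep K x₀ μ → ∀ (C : Set ℂ) (f g : ℂ → ℂ), IsCompact C → DifferentiableOn ℂ f Cᶜ →
  Compat K μ C f g → ∀ᵐ ζ ∂μ, ζ ∉ C → g ζ = f ζ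

/-- subsets -/
def Stmt_Mono : Prop := ∀ (K : Set ℂ) (μ : Measure ℂ) (C C' : Set ℂ), Adm K μ C → IsCompact C' →
  C' ⊆ C → Adm K μ C'

/-- finite disjoint unions -/
def Stmt_Union : Prop := ∀ (K : Set ℂ) (μ : Measure ℂ) (J : Finset ℂ) (Γ : ℂ → Set ℂ),
  IsFiniteMeasure μ → IsCompact K → μ Kᶜ = 0 → (∀ q ∈ J, Adm K μ (Γ q)) →
  (∀ q ∈ J, ∀ q' ∈ J, q ≠ q' → Disjoint (Γ q) (Γ q')) → Adm K μ (⋃ q ∈ J, Γ q)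

/-- weak star compactness -/
def Stmt_Weak : Prop := ∀ (μ : Measure ℂ) (g : ℕ → ℂ → ℂ) (B : ℝ), IsFiniteMeasure μ →
  (∀ n, Measurable (g n)) → (∀ n, ∀ᵐ ζ ∂μ, ‖g n ζ‖ ≤ B) →
  ∃ (U : Ultrafilter ℕ) (h : ℂ → ℂ), (U : Filter ℕ) ≤ atTop ∧ Measurable h ∧
    (∃ B' : ℝ, ∀ ζ, ‖h ζ‖ ≤ B') ∧
    ∀ w : ℂ → ℂ, Integrable w μ →
      Tendsto (fun n => ∫ ζ, g n ζ * w ζ ∂μ) U (𝓝 (∫ ζ, h ζ * w ζ ∂μ))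

/-- boundary bumping -/
def Stmt_Bump : Prop := ∀ (Γ : Set ℂ) (q w v : ℂ) (r : ℝ), IsCompact Γ → IsPreconnected Γ →
  w ∈ Γ → v ∈ Γ → ‖w - q‖ < r → r < ‖v - q‖ →
  ∃ (Γ' : Set ℂ) (b : ℂ), Γ' ⊆ Γ ∧ Γ' ⊆ closedBall q r ∧ IsCompact Γ' ∧ IsPreconnected Γ' ∧
    w ∈ Γ' ∧ b ∈ Γ' ∧ ‖b - q‖ = r

/-- separated nets -/
def Stmt_Net : Prop := ∀ (C : Set ℂ) (s : ℝ), IsCompact C → 0 < s → ∃ J : Finset ℂ,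
  (∀ q ∈ J, q ∈ C) ∧ (∀ q ∈ J, ∀ q' ∈ J, q ≠ q' → s ≤ ‖q - q'‖) ∧ ∀ p ∈ C, ∃ q ∈ J, ‖p - q‖ ≤ s

/-- p is a limit of admissible continua of diameter at least δ -/
def LimAdm (K : Set ℂ) (μ : Measure ℂ) (δ : ℝ) (p : ℂ) : Prop :=
  ∀ ε : ℝ, 0 < ε → ∃ (Γ : Set ℂ) (w : ℂ), Adm K μ Γ ∧ IsPreconnected Γ ∧ δ ≤ Metric.diam Γ ∧ w ∈ Γ ∧
    ‖w - p‖ < ε

/-- Cauchy transforms vanish at limits of admissible continua -/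
def Stmt_Null : Prop := ∀ (K : Set ℂ) (x₀ : ℂ) (μ : Measure ℂ), IsCompact K → x₀ ∈ K →
  Rep K x₀ μ → ∀ (δ : ℝ) (p : ℂ), 0 < δ → LimAdm K μ δ p →
  ∀ θ ∈ Th K μ, good μ θ p → CT μ θ p = 0

/-- closure property of admissible sets -/
def Stmt_Clos : Prop := ∀ (K : Set ℂ) (x₀ : ℂ) (μ : Measure ℂ), IsCompact K → x₀ ∈ K →
  Rep K x₀ μ → ∀ (δ : ℝ) (C : Set ℂ), 0 < δ → IsCompact C → (∀ p ∈ C, LimAdm K μ δ p) → Adm K μ C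

/-- compact sets off K are admissible -/
def Stmt_Base : Prop := ∀ (K : Set ℂ) (x₀ : ℂ) (μ : Measure ℂ), IsCompact K → x₀ ∈ K →
  Rep K x₀ μ → ∀ C : Set ℂ, IsCompact C → C ⊆ Kᶜ → Adm K μ C

/-- small admissible continua do not enclose x₀ -/
def Stmt_Encl : Prop := ∀ (K : Set ℂ) (x₀ : ℂ) (μ : Measure ℂ), IsCompact K → x₀ ∈ K →
  Rep K x₀ μ → ∃ δ₀ : ℝ, 0 < δ₀ ∧ ∀ T : Set ℂ, Adm K μ T → IsPreconnected T → x₀ ∉ T →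
  Metric.diam T < δ₀ → ¬ Bornology.IsBounded (connectedComponentIn Tᶜ x₀)

/-- x₀ is not a peak point of R(K), exactly as in the frozen statement -/
def NonPeak (K : Set ℂ) (x₀ : ℂ) : Prop :=
  ¬ ∃ f : ℂ → ℂ,
    (∀ ε : ℝ, 0 < ε → ∃ p q : Polynomial ℂ,
      (∀ z ∈ K, q.eval z ≠ 0) ∧ ∀ z ∈ K, ‖f z - p.eval z / q.eval z‖ < ε) ∧
    f x₀ = 1 ∧ ∀ x ∈ K, x ≠ x₀ → ‖f x‖ < 1


/-- Hahn-Banach and Riesz: representing measures -/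
def Stmt_RepHB : Prop := ∀ (K : Set ℂ) (x₀ : ℂ), IsCompact K → x₀ ∈ K → ∀ (v : ℂ → ℝ) (c : ℝ),
  Continuous v →
  (∀ p q : Polynomial ℂ, (∀ z ∈ K, q.eval z ≠ 0) → (∀ z ∈ K, v z ≤ (p.eval z / q.eval z).re) →
    c ≤ (p.eval x₀ / q.eval x₀).re) →
  ∃ μ : Measure ℂ, IsProbabilityMeasure μ ∧ μ Kᶜ = 0 ∧
    (∀ p q : Polynomial ℂ, (∀ z ∈ K, q.eval z ≠ 0) →
      ∫ ζ, p.eval ζ / q.eval ζ ∂μ = p.eval x₀ / q.eval x₀) ∧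
    c ≤ ∫ ζ, v ζ ∂μ

/-- Bishop's construction of a peak function -/
def Stmt_Bishop : Prop := ∀ (K : Set ℂ) (x₀ : ℂ), IsCompact K → x₀ ∈ K →
  (∀ (v : ℂ → ℝ) (ε : ℝ), Continuous v → 0 < ε → ∃ p q : Polynomial ℂ, (∀ z ∈ K, q.eval z ≠ 0) ∧
    (∀ z ∈ K, v z ≤ (p.eval z / q.eval z).re) ∧ (p.eval x₀ / q.eval x₀).re < v x₀ + ε) →
  ¬ NonPeak K x₀

/-- existence of a good representing measure -/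
def Stmt_Rep : Prop := ∀ (K : Set ℂ) (x₀ : ℂ), IsCompact K → x₀ ∈ K → NonPeak K x₀ →
  ∃ μ : Measure ℂ, Rep K x₀ μ

/-! Topology definitions -/

structure Fam (K : Set ℂ) (x₀ : ℂ) (E : ℝ → Set ℂ) : Prop where
  closed : ∀ δ > 0, IsClosed (E δ)
  mono : ∀ δ δ' : ℝ, 0 < δ' → δ' ≤ δ → E δ ⊆ E δ'
  wall : ∀ (T : Set ℂ) (δ : ℝ), 0 < δ → IsCompact T → IsPreconnected T → T ⊆ Kᶜ →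
    δ ≤ Metric.diam T → T ⊆ E δ
  absorb : ∀ (T : Set ℂ) (δ δ' : ℝ), 0 < δ → 0 < δ' → IsCompact T → IsPreconnected T →
    T ⊆ E δ' → δ ≤ Metric.diam T → T ⊆ E δ
  x0 : ∀ δ > 0, x₀ ∉ E δ
  encl : ∃ δ₀ > 0, ∀ (T : Set ℂ) (δ' : ℝ), 0 < δ' → IsCompact T → IsPreconnected T → T ⊆ E δ' →
    Metric.diam T < δ₀ → ¬ Bornology.IsBounded (connectedComponentIn Tᶜ x₀)

def Fd (E : ℝ → Set ℂ) (R δ : ℝ) : Set ℂ := E δ ∩ closedBall 0 R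

def Od (E : ℝ → Set ℂ) (R : ℝ) (x₀ : ℂ) (δ : ℝ) : Set ℂ := connectedComponentIn (Fd E R δ)ᶜ x₀

/-- Janiszewski-Zoretti -/
def Stmt_P1 : Prop := ∀ (X : Set ℂ) (a b : ℂ), IsCompact X → a ∉ X → b ∉ X →
  b ∉ connectedComponentIn Xᶜ a → ∃ x ∈ X, b ∉ connectedComponentIn (connectedComponentIn X x)ᶜ a

/-- unicoherence of the plane -/
def Stmt_P2 : Prop := ∀ P Q : Set ℂ, IsClosed P → IsClosed Q → IsConnected P → IsConnected Q →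
  P ∪ Q = univ → IsPreconnected (P ∩ Q)

/-- components of the complement of a connected open set -/
def Stmt_P3 : Prop := ∀ (O : Set ℂ) (y : ℂ), IsOpen O → IsConnected O → y ∉ O →
  IsClosed (connectedComponentIn Oᶜ y) ∧
  frontier (connectedComponentIn Oᶜ y) ⊆ frontier O ∧
  IsPreconnected (frontier (connectedComponentIn Oᶜ y)) ∧
  closure O ∩ connectedComponentIn Oᶜ y ⊆ frontier (connectedComponentIn Oᶜ y)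

/-- basic facts on O_δ -/
def Stmt_O : Prop := ∀ (K : Set ℂ) (x₀ : ℂ) (E : ℝ → Set ℂ) (R δ : ℝ), IsCompact K → x₀ ∈ K →
  Fam K x₀ E → K ⊆ ball 0 R → 0 < R → 0 < δ → δ ≤ R →
  x₀ ∈ Od E R x₀ δ ∧ IsOpen (Od E R x₀ δ) ∧ IsConnected (Od E R x₀ δ) ∧
  Od E R x₀ δ ⊆ ball 0 R ∧ Disjoint (Od E R x₀ δ) (Fd E R δ) ∧ IsCompact (Fd E R δ) ∧
  frontier (Od E R x₀ δ) ⊆ Fd E R δ ∧
  (∀ δ' : ℝ, 0 < δ' → δ' ≤ δ → Od E R x₀ δ' ⊆ Od E R x₀ δ)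

def Stmt_KL1 : Prop := ∀ (K : Set ℂ) (x₀ : ℂ) (E : ℝ → Set ℂ) (R δ δ' : ℝ), IsCompact K → x₀ ∈ K →
  Fam K x₀ E → K ⊆ ball 0 R → 0 < R → 0 < δ' → δ' ≤ δ → δ ≤ R →
  ∀ (z y : ℂ) (S : Set ℂ), z ∈ Od E R x₀ δ' → y ∈ Od E R x₀ δ' → IsPreconnected S → z ∈ S → y ∈ S →
  Disjoint S (Fd E R δ) → S ⊆ closedBall z (5 * δ) → JoinedIn (Od E R x₀ δ' ∩ ball z (7 * δ)) z y

def Stmt_KL2 : Prop := ∀ (K : Set ℂ) (x₀ : ℂ) (E : ℝ → Set ℂ) (R : ℝ), IsCompact K → x₀ ∈ K →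
  Fam K x₀ E → K ⊆ ball 0 R → 0 < R → ∃ δ₁ > 0, δ₁ ≤ R ∧ ∀ (δ δ' : ℝ), 0 < δ' → δ' ≤ δ → δ ≤ δ₁ →
  ∀ (γ : ℝ → ℂ), ContinuousOn γ (Icc 0 1) → γ 0 = x₀ → (∀ t ∈ Icc (0:ℝ) 1, γ t ∈ Od E R x₀ δ) →
  ∀ t ∈ Icc (0:ℝ) 1, ∃ s ∈ Icc 0 t, γ s ∈ Od E R x₀ δ' ∧ ∀ u ∈ Icc s t, ‖γ u - γ t‖ ≤ 2 * δ

def Stmt_Start : Prop := ∀ (K : Set ℂ) (x₀ : ℂ) (E : ℝ → Set ℂ) (R : ℝ), IsCompact K → x₀ ∈ K →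
  Fam K x₀ E → K ⊆ ball 0 R → 0 < R → ∃ δ₁ > 0, δ₁ ≤ R ∧ ∀ δ : ℝ, 0 < δ → δ ≤ δ₁ →
  ∃ y ∈ Od E R x₀ δ, 100 * δ ≤ ‖y - x₀‖

/-- one refinement step for paths -/
def Stmt_Iter : Prop := ∀ (K : Set ℂ) (x₀ : ℂ) (E : ℝ → Set ℂ) (R : ℝ), IsCompact K → x₀ ∈ K →
  Fam K x₀ E → K ⊆ ball 0 R → 0 < R → ∃ δ₁ > 0, δ₁ ≤ R ∧ ∀ (δ δ' : ℝ), 0 < δ' → δ' ≤ δ → δ ≤ δ₁ →
  ∀ (γ : ℝ → ℂ), ContinuousOn γ (Icc 0 1) → γ 0 = x₀ → (∀ t ∈ Icc (0:ℝ) 1, γ t ∈ Od E R x₀ δ) →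
  ∃ γ' : ℝ → ℂ, ContinuousOn γ' (Icc 0 1) ∧ γ' 0 = x₀ ∧
    (∀ t ∈ Icc (0:ℝ) 1, γ' t ∈ Od E R x₀ δ') ∧ ∀ t ∈ Icc (0:ℝ) 1, ‖γ' t - γ t‖ ≤ 10 * δ

def Stmt_TOP : Prop := ∀ (K : Set ℂ) (x₀ : ℂ) (E : ℝ → Set ℂ), IsCompact K → x₀ ∈ K → Fam K x₀ E →
  ∃ γ : ℝ → ℂ, ContinuousOn γ (Icc (0:ℝ) 1) ∧ (∀ t ∈ Icc (0:ℝ) 1, γ t ∈ K) ∧ γ 1 = x₀ ∧
    ∀ t ∈ Ico (0:ℝ) 1, γ t ≠ x₀

def Stmt_ANA : Prop := ∀ (K : Set ℂ) (x₀ : ℂ), IsCompact K → x₀ ∈ K → NonPeak K x₀ →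
  ∃ E : ℝ → Set ℂ, Fam K x₀ E

end Pool.Agent.Helper430.NP
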