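import Pool.Agent.Helper430.NP.Defs

set_option autoImplicit false
open MeasureTheory Set Filter Topology Complex Metric

namespace Pool.Agent.Helper430.NP
/-- auxiliary: a cut-off function -/
theorem base_cutoff {K C : Set ℂ} (hK : IsCompact K) (hC : IsCompact C) (hCK : C ⊆ Kᶜ) :
    ∃ (Φ : ℂ → ℂ) (W : Set ℂ), ContDiff ℝ 1 Φ ∧ HasCompactSupport Φ ∧ IsOpen W ∧ C ⊆ W ∧
      (∀ z ∈ W, Φ z = 1) ∧ tsupport Φ ⊆ Kᶜ := by
  obtain ⟨L, hL, hCL, hLK⟩ := exists_compact_between hC hK.isClosed.isOpen_compl hCK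
  obtain ⟨f, hf1, hf0, -⟩ := exists_contMDiffMap_one_nhds_of_subset_interior
    (modelWithCornersSelf ℝ ℂ) (n := 1) hC.isClosed hCL
  obtain ⟨W, hW, hCW, hW1⟩ := eventually_nhdsSet_iff_exists.1 hf1
  have hcd : ContDiff ℝ 1 f := f.contMDiff.contDiff
  have hz : ∀ x ∉ L, ((f x : ℝ) : ℂ) = 0 := fun x hx => by rw [hf0 x hx]; simp
  refine ⟨fun z => ((f z : ℝ) : ℂ), W, ?_, HasCompactSupport.intro hL hz, hW, hCW,
    fun z hz => by simp [hW1 z hz], ?_⟩
  · exact Complex.ofRealCLM.contDiff.comp hcd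
  · refine (closure_minimal ?_ hL.isClosed).trans hLK
    intro x hx
    by_contra hxL
    exact hx (hz x hxL)

theorem base_dbar_zero {Φ : ℂ → ℂ} {w : ℂ} (hw : w ∉ tsupport Φ) : dbar Φ w = 0 := by
  have h : fderiv ℝ Φ w = 0 := by
    by_contra hne
    exact hw (support_fderiv_subset ℝ hne)
  unfold dbar
  rw [h]
  simp

theorem base_dbar_cont {Φ : ℂ → ℂ} (h : ContDiff ℝ 1 Φ) : Continuous (dbar Φ) := by
  have h1 : Continuous (fderiv ℝ Φ) := h.continuous_fderiv (by simp)
  unfold dbar
  have h2 : Continuous fun z => fderiv ℝ Φ z 1 := h1.clm_apply continuous_const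
  have h3 : Continuous fun z => fderiv ℝ Φ z I := h1.clm_apply continuous_const
  fun_prop

theorem base_meas {s : Set ℂ} {f : ℂ → ℂ} (hf : ContinuousOn f s) (hs : MeasurableSet s) :
    Measurable (s.indicator f) := by
  classical
  rw [← Set.piecewise_eq_indicator]
  exact hf.measurable_piecewise continuousOn_const hs

/-- the key vanishing integral -/
theorem base_key (hRec : Stmt_Rec) {K C : Set ℂ} {μ : Measure ℂ} [IsFiniteMeasure μ]
    (hK : IsCompact K) (hμ : μ Kᶜ = 0) (hC : IsCompact C) (hCK : C ⊆ Kᶜ)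
    {f : ℂ → ℂ} {M : ℝ} (hM : 0 ≤ M) (hf : HB C M f) (hf0 : ∀ z ∈ C, f z = 0)
    {θ : ℂ → ℂ} (hθ : θ ∈ Th K μ) (p q : Polynomial ℂ) (hq : ∀ z ∈ K, q.eval z ≠ 0) :
    ∫ ζ, (p.eval ζ / q.eval ζ) * (f ζ * θ ζ) ∂μ = 0 := by
  obtain ⟨Φ, W, hΦ, hΦc, hW, hCW, hW1, hΦK⟩ := base_cutoff hK hC hCK
  obtain ⟨c, -, hc⟩ := hRec C M f hC hf hf0 Φ W hΦ hΦc hW hCW hW1
  have hae : ∀ᵐ ζ ∂μ, ζ ∈ K := by
    rw [ae_iff]; exact hμ
  -- boundedness of the rational function on K
  have hr_meas : Measurable fun ζ => p.eval ζ / q.eval ζ :=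
    p.continuous.measurable.div q.continuous.measurable
  obtain ⟨B, hB⟩ : ∃ B, ∀ ζ ∈ K, ‖p.eval ζ / q.eval ζ‖ ≤ B :=
    hK.exists_bound_of_continuousOn
      (p.continuous.continuousOn.div q.continuous.continuousOn hq)
  have hr_int : Integrable (fun ζ => (p.eval ζ / q.eval ζ) * θ ζ) μ :=
    hθ.1.bdd_mul hr_meas.aestronglyMeasurable (hae.mono fun ζ hζ => hB ζ hζ)
  -- f is measurable and bounded
  have hfm : Measurable f := by
    have : f = Cᶜ.indicator f := by
      funext z
      by_cases hz : z ∈ C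
      · rw [indicator_of_notMem (by simpa using hz), hf0 z hz]
      · rw [indicator_of_mem (by simpa using hz)]
    rw [this]
    exact base_meas hf.diff.continuousOn hC.isClosed.measurableSet.compl
  have hfb : ∀ z, ‖f z‖ ≤ M := by
    intro z
    by_cases hz : z ∈ C
    · rw [hf0 z hz, norm_zero]; exact hM
    · exact hf.bd z hz
  have hdc := base_dbar_cont hΦ
  have hdint : Integrable (dbar Φ) := by
    apply hdc.integrable_of_hasCompactSupport
    apply hΦc.mono'
    intro w hw
    by_contra hwn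
    exact hw (base_dbar_zero hwn)
  have hhint : Integrable (fun w => f w * dbar Φ w) :=
    hdint.bdd_mul hfm.aestronglyMeasurable (Eventually.of_forall hfb)
  -- positive distance
  obtain ⟨d, hd, hdist⟩ : ∃ d : ℝ, 0 < d ∧ ∀ ζ ∈ K, ∀ w ∈ tsupport Φ, d ≤ ‖w - ζ‖ := by
    obtain ⟨r, hr, hr2⟩ := exists_pos_forall_lt_edist hK (isClosed_tsupport Φ)
      (Set.disjoint_left.2 fun z hz hz' => hΦK hz' hz)
    refine ⟨r, by exact_mod_cast hr, fun ζ hζ w hw => ?_⟩
    have h := hr2 ζ hζ w hw
    rw [edist_dist, ENNReal.lt_ofReal_iff_toReal_lt (by simp)] at h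
    rw [← dist_eq_norm, dist_comm]
    simpa using h.le
  -- the kernel
  have hF : Integrable (Function.uncurry fun (ζ w : ℂ) =>
      ((p.eval ζ / q.eval ζ) * θ ζ) * ((f w * dbar Φ w) / (w - ζ))) (μ.prod volume) := by
    have h1 : Integrable (fun z : ℂ × ℂ => ((p.eval z.1 / q.eval z.1) * θ z.1) *
        (f z.2 * dbar Φ z.2)) (μ.prod volume) := hr_int.mul_prod hhint
    set S : Set (ℂ × ℂ) := K ×ˢ tsupport Φ with hS
    have hSm : MeasurableSet S := hK.isClosed.measurableSet.prod (isClosed_tsupport Φ).measurableSet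
    have h2 : Measurable (S.indicator fun z : ℂ × ℂ => 1 / (z.2 - z.1)) := by
      apply Measurable.indicator _ hSm
      exact measurable_const.div (measurable_snd.sub measurable_fst)
    have h3 : Integrable (fun z : ℂ × ℂ => (S.indicator (fun z : ℂ × ℂ => 1 / (z.2 - z.1)) z) *
        (((p.eval z.1 / q.eval z.1) * θ z.1) * (f z.2 * dbar Φ z.2))) (μ.prod volume) := by
      refine h1.bdd_mul (c := 1 / d) h2.aestronglyMeasurable (Eventually.of_forall fun z => ?_)
      by_cases hz : z ∈ S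
      · rw [indicator_of_mem hz, norm_div, norm_one]
        exact one_div_le_one_div_of_le hd (hdist _ hz.1 _ hz.2)
      · rw [indicator_of_notMem hz, norm_zero]; positivity
    refine h3.congr ?_
    have h4 : ∀ᵐ z : ℂ × ℂ ∂(μ.prod volume), z.1 ∈ K :=
      Measure.quasiMeasurePreserving_fst.ae hae
    filter_upwards [h4] with z hz
    simp only [Function.uncurry]
    by_cases hz2 : z.2 ∈ tsupport Φ
    · have hzS : z ∈ S := ⟨hz, hz2⟩
      rw [indicator_of_mem hzS]
      ring
    · rw [base_dbar_zero hz2]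
      simp
  have hswap := integral_integral_swap hF
  have hzero : ∫ w : ℂ, ∫ ζ, ((p.eval ζ / q.eval ζ) * θ ζ) * ((f w * dbar Φ w) / (w - ζ)) ∂μ = 0 := by
    have : ∀ w : ℂ, ∫ ζ, ((p.eval ζ / q.eval ζ) * θ ζ) * ((f w * dbar Φ w) / (w - ζ)) ∂μ = 0 := by
      intro w
      by_cases hw : w ∈ tsupport Φ
      · have hann := hθ.2 p (q * (Polynomial.C w - Polynomial.X)) (by
          intro z hz
          rw [Polynomial.eval_mul, Polynomial.eval_sub, Polynomial.eval_C, Polynomial.eval_X]
          refine mul_ne_zero (hq z hz) (sub_ne_zero.2 ?_)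
          rintro rfl
          exact hΦK hw hz)
        have : ∀ ζ, ((p.eval ζ / q.eval ζ) * θ ζ) * ((f w * dbar Φ w) / (w - ζ)) =
            (f w * dbar Φ w) * ((p.eval ζ / (q * (Polynomial.C w - Polynomial.X)).eval ζ) * θ ζ) := by
          intro ζ
          rw [Polynomial.eval_mul, Polynomial.eval_sub, Polynomial.eval_C, Polynomial.eval_X,
            div_mul_eq_div_div]
          ring
        simp_rw [this]
        rw [integral_const_mul, hann, mul_zero]
      · rw [base_dbar_zero hw]
        simp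
    simp_rw [this]
    simp
  rw [hzero] at hswap
  have hint2 : Integrable (fun ζ => ∫ w : ℂ, ((p.eval ζ / q.eval ζ) * θ ζ) *
      ((f w * dbar Φ w) / (w - ζ))) μ := hF.integral_prod_left
  have hmain : ∀ᵐ ζ ∂μ, (p.eval ζ / q.eval ζ) * (f ζ * θ ζ) =
      c * ((p.eval ζ / q.eval ζ) * θ ζ) + (1 / (Real.pi : ℂ)) *
        ∫ w : ℂ, ((p.eval ζ / q.eval ζ) * θ ζ) * ((f w * dbar Φ w) / (w - ζ)) := by
    filter_upwards [hae] with ζ hζ
    have h1 : Φ ζ = 0 := by
      by_contra hne
      exact hΦK (subset_tsupport _ hne) hζ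
    have h2 : f ζ = c + (1 / (Real.pi : ℂ)) * ∫ w : ℂ, (f w * dbar Φ w) / (w - ζ) := by
      have := hc ζ
      unfold Tloc cz at this
      rw [h1, zero_mul, zero_add] at this
      exact this
    rw [integral_const_mul]
    conv_lhs => rw [h2]
    ring
  rw [integral_congr_ae hmain, integral_add (hr_int.const_mul c) (hint2.const_mul _),
    integral_const_mul, integral_const_mul, hswap, hθ.2 p q hq]
  ring

theorem job_base (hCP : Stmt_CP) (hCz : Stmt_Cz) (hT : Stmt_T) (hRec : Stmt_Rec) : Stmt_Base := by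
  intro K x₀ μ hK hx₀ hRep C hC hCK
  have hprob : IsProbabilityMeasure μ := hRep.prob
  have hμ := hRep.supp
  have hae : ∀ᵐ ζ ∂μ, ζ ∈ K := by
    rw [ae_iff]; exact hμ
  refine ⟨hC, ?_, ?_⟩
  · intro θ hθ z hz _
    have h := hθ.2 1 (Polynomial.X - Polynomial.C z) (by
      intro w hw
      rw [Polynomial.eval_sub, Polynomial.eval_X, Polynomial.eval_C]
      refine sub_ne_zero.2 ?_
      rintro rfl
      exact hCK hz hw)
    unfold CT
    rw [← h]
    congr 1
    funext ζ
    rw [Polynomial.eval_sub, Polynomial.eval_X, Polynomial.eval_C, Polynomial.eval_one]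
    ring
  · intro f M hf
    have hCo : IsOpen Cᶜ := hC.isClosed.isOpen_compl
    have hM : 0 ≤ M := (norm_nonneg _).trans (hf.bd x₀ (fun h => hCK h hx₀))
    set f0 : ℂ → ℂ := Cᶜ.indicator f with hf0def
    have hf0C : ∀ z ∈ C, f0 z = 0 := fun z hz => indicator_of_notMem (by simpa using hz) f
    have hf0n : ∀ z ∉ C, f0 z = f z := fun z hz => indicator_of_mem (by simpa using hz) f
    have hf0 : HB C M f0 := by
      refine ⟨hf.diff.congr (fun z hz => hf0n z hz), fun z hz => ?_⟩
      rw [hf0n z hz]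
      exact hf.bd z hz
    have hf0b : ∀ z, ‖f0 z‖ ≤ M := by
      intro z
      by_cases hz : z ∈ C
      · rw [hf0C z hz, norm_zero]; exact hM
      · exact hf0.bd z hz
    have hKC : K ⊆ Cᶜ := fun z hz hzC => hCK hzC hz
    have hgm : Measurable (K.indicator f0) :=
      base_meas (hf0.diff.continuousOn.mono hKC) hK.isClosed.measurableSet
    have hgb : ∀ ζ, ‖K.indicator f0 ζ‖ ≤ M := by
      intro ζ
      by_cases hζ : ζ ∈ K
      · rw [indicator_of_mem hζ]; exact hf0b ζ
      · rw [indicator_of_notMem hζ, norm_zero]; exact hM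
    refine ⟨K.indicator f0, hgm, ⟨M, hgb⟩, ?_, ?_⟩
    · intro θ hθ
      refine ⟨hθ.1.bdd_mul hgm.aestronglyMeasurable (Eventually.of_forall hgb), fun p q hq => ?_⟩
      rw [← base_key hRec hK hμ hC hCK hM hf0 hf0C hθ p q hq]
      apply integral_congr_ae
      filter_upwards [hae] with ζ hζ
      rw [indicator_of_mem hζ]
    · intro θ hθ z hz hgood
      -- the difference quotient
      obtain ⟨r, hr, hrC⟩ := Metric.isOpen_iff.1 hCo z hz
      have hkd : DifferentiableOn ℂ (dslope f0 z) Cᶜ :=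
        (differentiableOn_dslope (hCo.mem_nhds hz)).2 hf0.diff
      obtain ⟨B1, hB1⟩ := (isCompact_closedBall z (r / 2)).exists_bound_of_continuousOn
        (hkd.continuousOn.mono ((closedBall_subset_ball (by linarith)).trans hrC))
      have hB10 : 0 ≤ B1 := (norm_nonneg _).trans (hB1 z (mem_closedBall_self (by positivity)))
      set k0 : ℂ → ℂ := Cᶜ.indicator (dslope f0 z) with hk0def
      have hk0C : ∀ w ∈ C, k0 w = 0 := fun w hw => indicator_of_notMem (by simpa using hw) _
      have hk0n : ∀ w ∉ C, k0 w = dslope f0 z w := fun w hw => indicator_of_mem (by simpa using hw) _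
      have hM' : 0 ≤ B1 + 2 * M / (r / 2) := by positivity
      have hk0 : HB C (B1 + 2 * M / (r / 2)) k0 := by
        refine ⟨hkd.congr (fun w hw => hk0n w hw), fun w hw => ?_⟩
        rw [hk0n w hw]
        by_cases hwr : w ∈ closedBall z (r / 2)
        · refine (hB1 w hwr).trans ?_
          have : 0 ≤ 2 * M / (r / 2) := by positivity
          linarith
        · rw [mem_closedBall, not_le, dist_eq_norm] at hwr
          have hne : w ≠ z := by
            rintro rfl
            simp at hwr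
            linarith
          rw [dslope_of_ne _ hne, slope_def_field, norm_div]
          have h1 : ‖f0 w - f0 z‖ ≤ 2 * M := by
            refine (norm_sub_le _ _).trans ?_
            linarith [hf0b w, hf0b z]
          have h2 : ‖f0 w - f0 z‖ / ‖w - z‖ ≤ 2 * M / (r / 2) :=
            div_le_div₀ (by positivity) h1 (by positivity) hwr.le
          linarith
      have hkey := base_key hRec hK hμ hC hCK hM' hk0 hk0C hθ 1 1 (by simp)
      have hk0m : Measurable k0 := base_meas hkd.continuousOn hCo.measurableSet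
      have hk0b : ∀ w, ‖k0 w‖ ≤ B1 + 2 * M / (r / 2) := by
        intro w
        by_cases hw : w ∈ C
        · rw [hk0C w hw, norm_zero]; exact hM'
        · exact hk0.bd w hw
      have hk0i : Integrable (fun ζ => k0 ζ * θ ζ) μ :=
        hθ.1.bdd_mul hk0m.aestronglyMeasurable (Eventually.of_forall hk0b)
      have hkey2 : ∫ ζ, k0 ζ * θ ζ ∂μ = 0 := by
        rw [← hkey]
        congr 1
        funext ζ
        simp
      have hnez : ∀ᵐ ζ ∂μ, ζ ≠ z := by
        have := hgood.1
        rw [ae_iff]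
        simpa using this
      have hptw : ∀ᵐ ζ ∂μ, (K.indicator f0 ζ * θ ζ) / (ζ - z) =
          k0 ζ * θ ζ + f z * (θ ζ / (ζ - z)) := by
        filter_upwards [hae, hnez] with ζ hζ hne
        have h1 : ζ - z ≠ 0 := sub_ne_zero.2 hne
        rw [indicator_of_mem hζ, hk0n ζ (hKC hζ), dslope_of_ne _ hne, slope_def_field,
          hf0n z hz]
        field_simp
        ring
      unfold CT
      rw [integral_congr_ae hptw, integral_add hk0i (hgood.2.const_mul _), hkey2, zero_add,
        integral_const_mul]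

end Pool.Agent.Helper430.NP
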