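import Pool.Agent.Helper430.NP.Defs

set_option autoImplicit false
open MeasureTheory Set Filter Topology Complex Metric

namespace Pool.Agent.Helper430.NP
theorem job_lat_sum1 : ∃ C : ℝ, 0 < C ∧ ∀ (t : ℝ) (F : Finset ℤ),
    ∑ n ∈ F, (1 + |t - n|) ^ (-(5 / 4) : ℝ) ≤ C := by
  have hs : Summable (fun k : ℤ => (1 + |(k : ℝ)|) ^ (-(5 / 4) : ℝ)) := by
    have h1 : Summable (fun n : ℕ => (1 + (n : ℝ)) ^ (-(5 / 4) : ℝ)) := by
      have h2 : Summable (fun n : ℕ => ((n : ℝ)) ^ (-(5 / 4) : ℝ)) :=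
        Real.summable_nat_rpow.2 (by norm_num)
      have h3 := (summable_nat_add_iff 1).2 h2
      refine h3.congr fun n => ?_
      push_cast
      rw [add_comm]
    refine Summable.of_nat_of_neg ?_ ?_
    · refine h1.congr fun n => ?_
      simp
    · refine h1.congr fun n => ?_
      simp
  set f : ℤ → ℝ := fun k : ℤ => (1 + |(k : ℝ)|) ^ (-(5 / 4) : ℝ) with hf
  have hf0 : ∀ k, 0 ≤ f k := fun k => by positivity
  refine ⟨4 * (∑' k, f k + 1), ?_, fun t F => ?_⟩
  · have : 0 ≤ ∑' k, f k := tsum_nonneg hf0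
    positivity
  · have h1 : ∀ n ∈ F, (1 + |t - n|) ^ (-(5 / 4) : ℝ) ≤ 4 * f (n - round t) := by
      intro n _
      have h2 := abs_sub_round t
      have h3 : |((n - round t : ℤ) : ℝ)| ≤ |t - n| + 1 / 2 := by
        push_cast
        have : (n : ℝ) - round t = -(t - n) + (t - round t) := by ring
        rw [this]
        refine (abs_add_le _ _).trans ?_
        rw [abs_neg]
        linarith
      have h4 : (1 + |((n - round t : ℤ) : ℝ)|) / 2 ≤ 1 + |t - n| := by
        have := abs_nonneg (t - n)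
        linarith
      have h5 : 0 < (1 + |((n - round t : ℤ) : ℝ)|) / 2 := by positivity
      calc (1 + |t - n|) ^ (-(5 / 4) : ℝ) ≤ ((1 + |((n - round t : ℤ) : ℝ)|) / 2) ^ (-(5 / 4) : ℝ) :=
            Real.rpow_le_rpow_of_nonpos h5 h4 (by norm_num)
        _ = f (n - round t) * 2 ^ (5 / 4 : ℝ) := by
            rw [Real.div_rpow (by positivity) (by norm_num), Real.rpow_neg (by norm_num : (0:ℝ) ≤ 2),
              div_inv_eq_mul]
        _ ≤ f (n - round t) * 4 := by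
            refine mul_le_mul_of_nonneg_left ?_ (hf0 _)
            calc (2 : ℝ) ^ (5 / 4 : ℝ) ≤ 2 ^ (2 : ℝ) :=
                  Real.rpow_le_rpow_of_exponent_le (by norm_num) (by norm_num)
              _ = 4 := by norm_num
        _ = 4 * f (n - round t) := mul_comm _ _
    calc ∑ n ∈ F, (1 + |t - n|) ^ (-(5 / 4) : ℝ) ≤ ∑ n ∈ F, 4 * f (n - round t) :=
          Finset.sum_le_sum h1
      _ = 4 * ∑ n ∈ F, f (n - round t) := by rw [Finset.mul_sum]
      _ = 4 * ∑ k ∈ F.image (fun n => n - round t), f k := by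
          rw [Finset.sum_image (fun a _ b _ h => by simpa using h)]
      _ ≤ 4 * (∑' k, f k + 1) := by
          have := hs.sum_le_tsum (F.image (fun n => n - round t)) (fun k _ => hf0 k)
          linarith

theorem job_lat_sum2 : ∃ C : ℝ, 0 < C ∧ ∀ (u : ℂ) (S : Finset (ℤ × ℤ)),
    ∑ a ∈ S, (1 + ‖u - lp a‖) ^ (-(5 / 2) : ℝ) ≤ C := by
  obtain ⟨C, hC, h⟩ := job_lat_sum1
  refine ⟨C * C, by positivity, fun u S => ?_⟩
  have h1 : ∀ a ∈ S, (1 + ‖u - lp a‖) ^ (-(5 / 2) : ℝ) ≤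
      (1 + |u.re - a.1|) ^ (-(5 / 4) : ℝ) * (1 + |u.im - a.2|) ^ (-(5 / 4) : ℝ) := by
    intro a _
    have hx : |u.re - a.1| ≤ ‖u - lp a‖ := by
      have := Complex.abs_re_le_norm (u - lp a)
      simpa [lp] using this
    have hy : |u.im - a.2| ≤ ‖u - lp a‖ := by
      have := Complex.abs_im_le_norm (u - lp a)
      simpa [lp] using this
    have h2 : (1 + ‖u - lp a‖) ^ (-(5 / 2) : ℝ) =
        (1 + ‖u - lp a‖) ^ (-(5 / 4) : ℝ) * (1 + ‖u - lp a‖) ^ (-(5 / 4) : ℝ) := by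
      rw [← Real.rpow_add (by positivity)]
      norm_num
    rw [h2]
    refine mul_le_mul ?_ ?_ (by positivity) (by positivity)
    · exact Real.rpow_le_rpow_of_nonpos (by positivity) (by linarith) (by norm_num)
    · exact Real.rpow_le_rpow_of_nonpos (by positivity) (by linarith) (by norm_num)
  calc ∑ a ∈ S, (1 + ‖u - lp a‖) ^ (-(5 / 2) : ℝ) ≤
      ∑ a ∈ S, (1 + |u.re - a.1|) ^ (-(5 / 4) : ℝ) * (1 + |u.im - a.2|) ^ (-(5 / 4) : ℝ) :=
        Finset.sum_le_sum h1
    _ ≤ ∑ a ∈ (S.image Prod.fst) ×ˢ (S.image Prod.snd),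
        (1 + |u.re - a.1|) ^ (-(5 / 4) : ℝ) * (1 + |u.im - a.2|) ^ (-(5 / 4) : ℝ) := by
        refine Finset.sum_le_sum_of_subset_of_nonneg ?_ fun a _ _ => by positivity
        intro a ha
        rw [Finset.mem_product]
        exact ⟨Finset.mem_image_of_mem _ ha, Finset.mem_image_of_mem _ ha⟩
    _ = (∑ i ∈ S.image Prod.fst, (1 + |u.re - i|) ^ (-(5 / 4) : ℝ)) *
        ∑ j ∈ S.image Prod.snd, (1 + |u.im - j|) ^ (-(5 / 4) : ℝ) := by
        rw [Finset.sum_product, Finset.sum_mul_sum]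
    _ ≤ C * C := mul_le_mul (h _ _) (h _ _) (Finset.sum_nonneg fun _ _ => by positivity) hC.le

theorem job_lat_two : (2 : ℝ) ^ (5 / 2 : ℝ) ≤ 8 := by
  calc (2 : ℝ) ^ (5 / 2 : ℝ) ≤ 2 ^ (3 : ℝ) :=
        Real.rpow_le_rpow_of_exponent_le (by norm_num) (by norm_num)
    _ = 8 := by norm_num

theorem job_lat_big {r : ℝ} (hr : 1 ≤ r) : r ^ (-(5 / 2) : ℝ) ≤ 8 * (1 + r) ^ (-(5 / 2) : ℝ) := by
  have h0 : 0 < r := by linarith
  have h1 : (1 + r) / 2 ≤ r := by linarith
  calc r ^ (-(5 / 2) : ℝ) ≤ ((1 + r) / 2) ^ (-(5 / 2) : ℝ) :=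
        Real.rpow_le_rpow_of_nonpos (by positivity) h1 (by norm_num)
    _ = (1 + r) ^ (-(5 / 2) : ℝ) * 2 ^ (5 / 2 : ℝ) := by
        rw [Real.div_rpow (by positivity) (by norm_num), Real.rpow_neg (by norm_num : (0:ℝ) ≤ 2),
          div_inv_eq_mul]
    _ ≤ (1 + r) ^ (-(5 / 2) : ℝ) * 8 := mul_le_mul_of_nonneg_left job_lat_two (by positivity)
    _ = _ := mul_comm _ _

theorem job_lat  : Stmt_Lat := by
  obtain ⟨C, hC, h⟩ := job_lat_sum2
  refine ⟨8 * C, by positivity, fun u S => ⟨?_, fun D hD hS => ?_⟩⟩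
  · calc ∑ a ∈ S, min 1 (1 / ‖u - lp a‖ ^ 3) ≤ ∑ a ∈ S, 8 * (1 + ‖u - lp a‖) ^ (-(5 / 2) : ℝ) := by
          refine Finset.sum_le_sum fun a _ => ?_
          have hr0 : 0 ≤ ‖u - lp a‖ := norm_nonneg _
          generalize ‖u - lp a‖ = r at hr0
          rcases le_or_gt 1 r with hr | hr
          · refine (min_le_right _ _).trans ?_
            have h0 : 0 < r := by linarith
            have h1 : 1 / r ^ 3 = r ^ (-3 : ℝ) := by
              rw [Real.rpow_neg h0.le, one_div]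
              norm_cast
            rw [h1]
            refine le_trans ?_ (job_lat_big hr)
            exact Real.rpow_le_rpow_of_exponent_le hr (by norm_num)
          · refine (min_le_left _ _).trans ?_
            have h2 : (2 : ℝ) ^ (-(5 / 2) : ℝ) ≤ (1 + r) ^ (-(5 / 2) : ℝ) :=
              Real.rpow_le_rpow_of_nonpos (by positivity) (by linarith) (by norm_num)
            have h3 : 1 ≤ 8 * (2 : ℝ) ^ (-(5 / 2) : ℝ) := by
              rw [Real.rpow_neg (by norm_num), ← div_eq_mul_inv, le_div_iff₀ (by positivity), one_mul]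
              exact job_lat_two
            linarith
      _ = 8 * ∑ a ∈ S, (1 + ‖u - lp a‖) ^ (-(5 / 2) : ℝ) := by rw [Finset.mul_sum]
      _ ≤ 8 * C := by linarith [h u S]
  · have hD0 : 0 < D := by linarith
    have hsD : 0 < Real.sqrt D := Real.sqrt_pos.2 hD0
    calc ∑ a ∈ S, 1 / ‖u - lp a‖ ^ 3 ≤
        ∑ a ∈ S, (8 * (1 + ‖u - lp a‖) ^ (-(5 / 2) : ℝ)) / Real.sqrt D := by
          refine Finset.sum_le_sum fun a ha => ?_
          have hr := hS a ha
          generalize ‖u - lp a‖ = r at hr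
          have hr1 : 1 ≤ r := hD.trans hr
          have h0 : 0 < r := by linarith
          have h1 : 1 / r ^ 3 = r ^ (-(5 / 2) : ℝ) * r ^ (-(1 / 2) : ℝ) := by
            rw [← Real.rpow_add h0, one_div]
            norm_num
          have h2 : r ^ (-(1 / 2) : ℝ) ≤ (Real.sqrt D)⁻¹ := by
            rw [Real.sqrt_eq_rpow, ← Real.rpow_neg hD0.le]
            exact Real.rpow_le_rpow_of_nonpos hD0 hr (by norm_num)
          rw [h1, div_eq_mul_inv]
          exact mul_le_mul (job_lat_big hr1) h2 (by positivity) (by positivity)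
      _ = 8 * (∑ a ∈ S, (1 + ‖u - lp a‖) ^ (-(5 / 2) : ℝ)) / Real.sqrt D := by
          rw [← Finset.sum_div, Finset.mul_sum]
      _ ≤ 8 * C / Real.sqrt D := by
          refine div_le_div_of_nonneg_right ?_ hsD.le
          linarith [h u S]

end Pool.Agent.Helper430.NP
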