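import Pool.Agent.Helper430.NP.Defs

set_option autoImplicit false
open MeasureTheory Set Filter Topology Complex Metric

namespace Pool.Agent.Helper430.NP
theorem job_top_lim (K : Set ℂ) (x₀ : ℂ) (O : ℕ → Set ℂ) (δ : ℝ) (hδ : 0 < δ) (γ₀ : ℝ → ℂ)
    (h0 : ContinuousOn γ₀ (Icc 0 1) ∧ γ₀ 0 = x₀ ∧ ∀ t ∈ Icc (0:ℝ) 1, γ₀ t ∈ O 0)
    (hy : 100 * δ ≤ ‖γ₀ 1 - x₀‖)
    (step : ∀ (k : ℕ) (γ : ℝ → ℂ), (ContinuousOn γ (Icc 0 1) ∧ γ 0 = x₀ ∧
      ∀ t ∈ Icc (0:ℝ) 1, γ t ∈ O k) → ∃ γ' : ℝ → ℂ, (ContinuousOn γ' (Icc 0 1) ∧ γ' 0 = x₀ ∧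
      ∀ t ∈ Icc (0:ℝ) 1, γ' t ∈ O (k + 1)) ∧ ∀ t ∈ Icc (0:ℝ) 1, ‖γ' t - γ t‖ ≤ 10 * (δ / 2 ^ k))
    (hK : ∀ u : ℂ, u ∉ K → ∃ s > 0, ∃ k₀ : ℕ, ∀ k ≥ k₀, Disjoint (ball u s) (O k)) :
    ∃ γ : ℝ → ℂ, ContinuousOn γ (Icc (0:ℝ) 1) ∧ (∀ t ∈ Icc (0:ℝ) 1, γ t ∈ K) ∧ γ 1 = x₀ ∧
    ∀ t ∈ Ico (0:ℝ) 1, γ t ≠ x₀ := by
  choose! next hnext1 hnext2 using step
  let sq : ℕ → (ℝ → ℂ) := fun k => Nat.rec γ₀ (fun k γ => next k γ) k
  have hsq0 : sq 0 = γ₀ := rfl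
  have hsqs : ∀ k, sq (k + 1) = next k (sq k) := fun k => rfl
  have hgood : ∀ k, (ContinuousOn (sq k) (Icc 0 1) ∧ (sq k) 0 = x₀ ∧
      ∀ t ∈ Icc (0:ℝ) 1, (sq k) t ∈ O k) := by
    intro k
    induction k with
    | zero => exact h0
    | succ k ih =>
      rw [hsqs]
      exact hnext1 k _ ih
  have hdist : ∀ t ∈ Icc (0:ℝ) 1, ∀ k, dist (sq k t) (sq (k + 1) t) ≤ (20 * δ) / 2 / 2 ^ k := by
    intro t ht k
    rw [dist_comm, dist_eq_norm, hsqs]
    refine (hnext2 k _ (hgood k) t ht).trans (le_of_eq ?_)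
    ring
  have hex : ∀ t ∈ Icc (0:ℝ) 1, ∃ a, Tendsto (fun k => sq k t) atTop (𝓝 a) := by
    intro t ht
    exact cauchySeq_tendsto_of_complete (cauchySeq_of_le_geometric_two (hdist t ht))
  choose! g hg using hex
  have hgd : ∀ t ∈ Icc (0:ℝ) 1, ∀ k, dist (sq k t) (g t) ≤ (20 * δ) / 2 ^ k := by
    intro t ht k
    exact dist_le_of_le_geometric_two_of_tendsto (hdist t ht) (hg t ht) k
  have hgc : ContinuousOn g (Icc 0 1) := by
    have hu : TendstoUniformlyOn sq g atTop (Icc 0 1) := by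
      rw [Metric.tendstoUniformlyOn_iff]
      intro ε hε
      have h1 : Tendsto (fun k : ℕ => (20 * δ) / 2 ^ k) atTop (𝓝 0) := by
        have := (tendsto_pow_atTop_nhds_zero_of_lt_one (r := (1 / 2 : ℝ)) (by norm_num)
          (by norm_num)).const_mul (20 * δ)
        rw [mul_zero] at this
        refine this.congr (fun k => ?_)
        rw [one_div, inv_pow]
        rfl
      filter_upwards [h1.eventually (gt_mem_nhds hε)] with k hk t ht
      rw [dist_comm]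
      exact (hgd t ht k).trans_lt hk
    exact hu.continuousOn (Frequently.of_forall (fun k => (hgood k).1))
  have h0m : (0 : ℝ) ∈ Icc (0:ℝ) 1 := ⟨le_rfl, zero_le_one⟩
  have h1m : (1 : ℝ) ∈ Icc (0:ℝ) 1 := ⟨zero_le_one, le_rfl⟩
  have hg0 : g 0 = x₀ := by
    have h1 := hg 0 h0m
    have h2 : (fun k => sq k 0) = fun _ => x₀ := by
      funext k
      exact (hgood k).2.1
    rw [h2] at h1
    exact (tendsto_nhds_unique h1 tendsto_const_nhds)
  have hg1 : g 1 ≠ x₀ := by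
    intro h
    have h2 := hgd 1 h1m 0
    rw [h, hsq0, dist_eq_norm, pow_zero, div_one] at h2
    linarith
  have hgK : ∀ t ∈ Icc (0:ℝ) 1, g t ∈ K := by
    intro t ht
    by_contra hcon
    obtain ⟨s, hs, k₀, hk₀⟩ := hK _ hcon
    have h1 := (hg t ht).eventually (ball_mem_nhds (g t) hs)
    obtain ⟨k, hk1, hk2⟩ := (h1.and (eventually_ge_atTop k₀)).exists
    exact Set.disjoint_left.1 (hk₀ k hk2) hk1 ((hgood k).2.2 t ht)
  set S : Set ℝ := Icc 0 1 ∩ g ⁻¹' {x₀} with hS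
  have hSc : IsClosed S := hgc.preimage_isClosed_of_isClosed isClosed_Icc isClosed_singleton
  have hScomp : IsCompact S := isCompact_Icc.of_isClosed_subset hSc inter_subset_left
  have hSne : S.Nonempty := ⟨0, h0m, hg0⟩
  set σ := sSup S with hσ
  have hσm : σ ∈ S := hScomp.sSup_mem hSne
  have hσ1 : σ < 1 := by
    refine lt_of_le_of_ne hσm.1.2 ?_
    intro h
    apply hg1
    rw [← h]
    exact hσm.2
  have hmem : ∀ t ∈ Icc (0:ℝ) 1, 1 - t * (1 - σ) ∈ Icc (0:ℝ) 1 := by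
    intro t ht
    have h1 : 0 ≤ t * (1 - σ) := mul_nonneg ht.1 (by linarith)
    have h2 : t * (1 - σ) ≤ 1 * (1 - σ) := mul_le_mul_of_nonneg_right ht.2 (by linarith)
    have h3 := hσm.1.1
    constructor <;> linarith
  refine ⟨fun t => g (1 - t * (1 - σ)), ?_, ?_, ?_, ?_⟩
  · apply hgc.comp
    · fun_prop
    · exact hmem
  · intro t ht
    exact hgK _ (hmem t ht)
  · simp only [one_mul, sub_sub_cancel]
    exact hσm.2
  · intro t ht h
    have h1 : 1 - t * (1 - σ) ∈ S := ⟨hmem t ⟨ht.1, ht.2.le⟩, h⟩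
    have h2 : 1 - t * (1 - σ) ≤ σ := le_csSup hScomp.bddAbove h1
    have h3 : t * (1 - σ) < 1 * (1 - σ) := mul_lt_mul_of_pos_right ht.2 (by linarith)
    linarith

theorem job_top (hO : Stmt_O) (hStart : Stmt_Start) (hIter : Stmt_Iter) : Stmt_TOP := by
  intro K x₀ E hK hx₀ hE
  obtain ⟨R, hR, hKR⟩ := hK.isBounded.subset_ball_lt 0 0
  obtain ⟨δ₁, hδ₁, hδ₁R, hst⟩ := hStart K x₀ E R hK hx₀ hE hKR hR
  obtain ⟨δ₂, hδ₂, hδ₂R, hit⟩ := hIter K x₀ E R hK hx₀ hE hKR hR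
  set δ := min δ₁ δ₂ with hδdef
  have hδ : 0 < δ := lt_min hδ₁ hδ₂
  have hδR : δ ≤ R := (min_le_left _ _).trans hδ₁R
  obtain ⟨y, hy, hyx⟩ := hst δ hδ (min_le_left _ _)
  have hk : ∀ k : ℕ, 0 < δ / 2 ^ k ∧ δ / 2 ^ k ≤ δ := by
    intro k
    refine ⟨by positivity, ?_⟩
    apply div_le_self hδ.le
    exact one_le_pow₀ (by norm_num)
  have hOk : ∀ k : ℕ, _ := fun k => hO K x₀ E R (δ / 2 ^ k) hK hx₀ hE hKR hR (hk k).1
    ((hk k).2.trans hδR)
  obtain ⟨hx0O, hopen, hconn, _⟩ := hO K x₀ E R δ hK hx₀ hE hKR hR hδ hδR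
  have hpc := hopen.isConnected_iff_isPathConnected.1 hconn
  obtain ⟨p, hp⟩ := hpc.joinedIn x₀ hx0O y hy
  refine job_top_lim K x₀ (fun k => Od E R x₀ (δ / 2 ^ k)) δ hδ p.extend ⟨?_, ?_, ?_⟩ ?_ ?_ ?_
  · exact p.continuous_extend.continuousOn
  · exact p.extend_zero
  · intro t ht
    simp only [pow_zero, div_one]
    rw [p.extend_apply ht]
    exact hp _
  · rw [p.extend_one]
    exact hyx
  · intro k γ hγ
    obtain ⟨γ', h1, h2, h3, h4⟩ := hit (δ / 2 ^ k) (δ / 2 ^ (k + 1)) (hk (k + 1)).1 (by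
      rw [pow_succ, ← div_div]
      exact div_le_self (hk k).1.le (by norm_num)) ((hk k).2.trans (min_le_right _ _)) γ hγ.1
      hγ.2.1 hγ.2.2
    exact ⟨γ', ⟨h1, h2, h3⟩, h4⟩
  · intro u hu
    obtain ⟨s, hs, hsK⟩ : ∃ s > 0, closedBall u s ⊆ Kᶜ := by
      have h1 : Kᶜ ∈ 𝓝 u := hK.isClosed.isOpen_compl.mem_nhds hu
      exact nhds_basis_closedBall.mem_iff.1 h1
    have h1 : Tendsto (fun k : ℕ => δ / 2 ^ k) atTop (𝓝 0) := by
      have := (tendsto_pow_atTop_nhds_zero_of_lt_one (r := (1 / 2 : ℝ)) (by norm_num)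
        (by norm_num)).const_mul δ
      rw [mul_zero] at this
      refine this.congr (fun k => ?_)
      rw [one_div, inv_pow]
      rfl
    obtain ⟨k₀, hk₀⟩ := eventually_atTop.1 (h1.eventually (gt_mem_nhds hs))
    refine ⟨s, hs, k₀, ?_⟩
    intro k hk'
    have hkk := hk₀ k hk'
    have hdiam : δ / 2 ^ k ≤ Metric.diam (closedBall u s) := by
      have h2 : u + s ∈ closedBall u s := by
        rw [mem_closedBall, dist_eq_norm, add_sub_cancel_left, Complex.norm_real,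
          Real.norm_eq_abs, abs_of_pos hs]
      have h3 := dist_le_diam_of_mem isBounded_closedBall h2 (mem_closedBall_self hs.le)
      rw [dist_eq_norm, add_sub_cancel_left, Complex.norm_real, Real.norm_eq_abs,
        abs_of_pos hs] at h3
      linarith
    have hwall := hE.wall (closedBall u s) (δ / 2 ^ k) (hk k).1 (isCompact_closedBall _ _)
      (convex_closedBall u s).isPreconnected hsK hdiam
    obtain ⟨_, _, _, hball, hdisj, _⟩ := hOk k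
    rw [Set.disjoint_left]
    intro z hz hzO
    apply Set.disjoint_left.1 hdisj hzO
    exact ⟨hwall (ball_subset_closedBall hz), ball_subset_closedBall (hball hzO)⟩

end Pool.Agent.Helper430.NP
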